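import Pool.Agent.Work.MP_db9399_dp_helper82.Conv

/-! # PRE: application of EQC (helper82) -/

set_option autoImplicit false

namespace Pool.Agent.Work.MP_db9399_dp.helper82

open Finset Classical
open Pool.Agent.Work.MP_db9399_all (nb)
open Pool.Agent.Work.MP_db9399_da

universe u

attribute [-instance] instDecidableEqTt instDecidableEqGr Subtype.instDecidableEq

/-- group of a colour -/
noncomputable def gpf (A : Pal) (d : ℕ) (b : Fin (d + 2)) : Gr := gpn A b.val

section pl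
variable {A : Pal} {d : ℕ} {g : Gr}

theorem sum_pl {α : Type*} [AddCommMonoid α] (f : ℕ → α) :
    ∑ b : Pl (gpf A d) g, f b.1.val = ∑ b ∈ pal A d g, f b := by
  apply sum_bij (fun (b : Pl (gpf A d) g) _ => b.1.val)
  · intro b _
    exact mem_pal.2 ⟨b.1.2, b.2⟩
  · intro b _ b' _ h
    exact Subtype.ext (Fin.ext h)
  · intro b hb
    have h := mem_pal.1 hb
    exact ⟨⟨⟨b, h.1⟩, h.2⟩, mem_univ _, rfl⟩
  · intro b _; rfl

theorem card_pl : Fintype.card (Pl (gpf A d) g) = (pal A d g).card := by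
  rw [← card_univ]
  apply card_bij (fun (b : Pl (gpf A d) g) _ => b.1.val)
  · intro b _
    exact mem_pal.2 ⟨b.1.2, b.2⟩
  · intro b _ b' _ h
    exact Subtype.ext (Fin.ext h)
  · intro b hb
    have h := mem_pal.1 hb
    exact ⟨⟨⟨b, h.1⟩, h.2⟩, mem_univ _, rfl⟩

theorem card_pl_filter (p : ℕ → Prop) (q : Pl (gpf A d) g → Prop) [DecidablePred p]
    [DecidablePred q] (hpq : ∀ b, q b ↔ p b.1.val) :
    ((univ : Finset (Pl (gpf A d) g)).filter (fun b => q b)).card =
      ((pal A d g).filter (fun b => p b)).card := by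
  apply card_bij (fun (b : Pl (gpf A d) g) _ => b.1.val)
  · intro b hb
    rw [mem_filter] at hb ⊢
    exact ⟨mem_pal.2 ⟨b.1.2, b.2⟩, (hpq b).1 hb.2⟩
  · intro b _ b' _ h
    exact Subtype.ext (Fin.ext h)
  · intro b hb
    rw [mem_filter] at hb
    have h := mem_pal.1 hb.1
    refine ⟨⟨⟨b, h.1⟩, h.2⟩, ?_, rfl⟩
    rw [mem_filter]
    exact ⟨mem_univ _, (hpq _).2 hb.2⟩

theorem sum_gpf {α : Type*} [AddCommMonoid α] (f : ℕ → α) :
    ∑ b ∈ univ.filter (fun b : Fin (d + 2) => gpf A d b = g), f b.val = ∑ b ∈ pal A d g, f b := by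
  apply sum_bij (fun b _ => b.val)
  · intro b hb
    rw [mem_filter] at hb
    exact mem_pal.2 ⟨b.2, hb.2⟩
  · intro b _ b' _ h
    exact Fin.ext h
  · intro b hb
    have h := mem_pal.1 hb
    exact ⟨⟨b, h.1⟩, by rw [mem_filter]; exact ⟨mem_univ _, h.2⟩, rfl⟩
  · intro b _; rfl

theorem card_gpf : (univ.filter (fun b : Fin (d + 2) => gpf A d b = g)).card =
    (pal A d g).card := by
  rw [card_eq_sum_ones, card_eq_sum_ones]
  exact sum_gpf (fun _ => 1)

end pl

section mid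
variable {V : Type u} [Fintype V] {M : ℕ}

theorem cnt_card {W J : Type*} [Fintype W] (fc : W → Option J) (f : W → W) (j : J) :
    ∃ S : Finset W, cnt fc f j = S.card ∧ ∀ w, w ∈ S ↔ (fc w = some j ∧ f w ≠ w) :=
  ⟨_, rfl, fun w => by simp⟩

theorem cnt_eq (P : Pcs V M) {d : ℕ} (Φ : Fin (d + 2) → Option V → Option V) (b : Fin (d + 2))
    (j : Jl M) : cnt (fun w : Option V => w.bind (fcv P)) (Φ b) j =
      ∑ v ∈ univ.filter (fun v => fcv P v = some j), (if v ∈ cov P.V0 Φ b then 1 else 0) := by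
  rw [← sum_filter, ← card_eq_sum_ones]
  obtain ⟨S, h1, h2⟩ := cnt_card (fun w : Option V => w.bind (fcv P)) (Φ b) j
  rw [h1]
  symm
  apply card_bij (fun v _ => some v)
  · intro v hv
    rw [mem_filter, mem_filter, mem_cov] at hv
    rw [h2]
    exact ⟨hv.1.2, hv.2.2⟩
  · intro v _ v' _ h
    exact Option.some_inj.1 h
  · intro w hw
    rw [h2] at hw
    cases w with
    | none => exact absurd hw.1 (by simp)
    | some v =>
      refine ⟨v, ?_, rfl⟩
      rw [mem_filter, mem_filter, mem_cov]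
      refine ⟨⟨mem_univ _, hw.1⟩, ?_, hw.2⟩
      intro hv
      have h1 : fcv P v = some j := hw.1
      rw [fcv_pos P v hv] at h1
      exact absurd h1 (by simp)

theorem sum_inter (S T : Finset V) :
    ∑ v ∈ S, (if v ∈ T then (1 : ℝ) else 0) = ((T ∩ S).card : ℝ) := by
  rw [← sum_filter, sum_const, nsmul_eq_mul, mul_one]
  congr 2
  ext v
  rw [mem_filter, mem_inter]
  tauto

theorem sq_tm (P : Pcs V M) {d : ℕ} (Φ : Fin (d + 2) → Option V → Option V) (b : Fin (d + 2))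
    (g : Gr) (x : Cl M) :
    ((sq (fun w : Option V => w.bind (fcv P)) (ndv g) (sgv P g) (Φ b) x : ℤ) : ℝ) =
      ∑ v, tm P g x v * (if v ∈ cov P.V0 Φ b then 1 else 0) := by
  rw [← sum_tm]
  unfold sq
  rw [Int.cast_sum]
  apply sum_congr rfl
  intro j _
  rw [Int.cast_mul, cnt_eq]
  congr 1
  push_cast
  rfl

theorem sq_qb (P : Pcs V M) {d : ℕ} (Φ : Fin (d + 2) → Option V → Option V) (b : Fin (d + 2))
    (g : Gr) (x : Cl M) (hty : P.ty x.1 = Ty.B ∨ (P.ty x.1 = Ty.N ∧ isP1 g = false)) :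
    sq (fun w : Option V => w.bind (fcv P)) (ndv g) (sgv P g) (Φ b) x = qb P Φ b.val g x := by
  have h := sq_tm P Φ b g x
  rw [sum_nds P g x hty, sum_inter, sum_inter] at h
  have hc : cv P Φ b.val = cov P.V0 Φ b := by unfold cv; rw [dif_pos b.2]
  unfold qb
  rw [hc]
  have h2 : ((sq (fun w : Option V => w.bind (fcv P)) (ndv g) (sgv P g) (Φ b) x : ℤ) : ℝ) =
      ((((cov P.V0 Φ b ∩ nds P g x false).card : ℤ) -
        ((cov P.V0 Φ b ∩ nds P g x true).card : ℤ) : ℤ) : ℝ) := by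
    rw [h]; push_cast; rfl
  exact_mod_cast h2

theorem sum_cnt (P : Pcs V M) {d : ℕ} (Φ : Fin (d + 2) → Option V → Option V) (b : Fin (d + 2)) :
    ∑ j : Jl M, cnt (fun w : Option V => w.bind (fcv P)) (Φ b) j = (cov P.V0 Φ b).card := by
  rw [sum_congr rfl (fun j _ => cnt_eq P Φ b j)]
  simp only [sum_filter]
  rw [sum_comm]
  rw [card_eq_sum_ones, ← sum_filter_add_sum_filter_not univ (fun v => v ∈ cov P.V0 Φ b)]
  have h1 : ∑ v ∈ univ.filter (fun v => ¬ v ∈ cov P.V0 Φ b),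
      ∑ j : Jl M, (if fcv P v = some j then (if v ∈ cov P.V0 Φ b then 1 else 0) else 0) = 0 := by
    apply sum_eq_zero
    intro v hv
    rw [mem_filter] at hv
    apply sum_eq_zero
    intro j _
    rw [if_neg hv.2, ite_self]
  rw [h1, add_zero]
  have h2 : univ.filter (fun v => v ∈ cov P.V0 Φ b) = cov P.V0 Φ b := by
    ext v; simp
  rw [h2]
  apply sum_congr rfl
  intro v hv
  have hv0 := ((mem_cov _ _ _ v).1 hv).1
  rw [fcv_neg P v hv0, if_pos hv]
  rw [sum_eq_single (jv P v)]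
  · rw [if_pos rfl]
  · intro j _ hj
    rw [if_neg (fun e => hj (Option.some_inj.1 e).symm)]
  · intro h; exact absurd (mem_univ _) h

theorem gd_sum (F : SimpleGraph V) (τ : V → V → Tt) (v : V) (g : Gr) :
    gd F τ v g = ∑ T : Tt, if T.gr = g then dg F τ v T else 0 := by
  unfold gd
  rw [card_eq_sum_card_fiberwise (f := τ v) (t := univ) (fun _ _ => mem_coe.2 (mem_univ _))]
  apply sum_congr rfl
  intro T _
  unfold dg
  by_cases h : T.gr = g
  · rw [if_pos h, filter_filter]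
    congr 1
    apply filter_congr
    intro w _
    constructor
    · exact fun h => h.2
    · intro h1; exact ⟨by rw [h1]; exact h, h1⟩
  · rw [if_neg h, card_eq_zero, filter_eq_empty_iff]
    intro w hw h1
    rw [mem_filter] at hw
    exact h (by rw [← h1]; exact hw.2)

theorem pal_full {π κ e : ℝ} {A : Pal} {d : ℕ} (hA : PalP A d π κ) (hn : Num e π κ d) (g : Gr)
    (f : Tt → ℕ) (hf : ∀ T, f T = mt A d T) :
    (∑ T : Tt, if T.gr = g then f T else 0) + (if g = .A3 then 1 else 0) ≤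
      (pal A d g).card := by
  rw [sum_Tt_nat]
  simp only [hf]
  have c4 := card_C0_2 hA hn
  have s0 := card_sdiff_add_card_eq_card hA.Q0
  have s1 := card_sdiff_add_card_eq_card hA.Q1
  have s2 := card_sdiff_add_card_eq_card hA.P2C
  cases g
  · rw [pal_QF hA]; simp only [Tt.gr, mt, reduceCtorEq, if_false, if_true]; omega
  · rw [pal_QT hA]; simp only [Tt.gr, mt, reduceCtorEq, if_false, if_true]; omega
  · rw [pal_P2 hA]; simp only [Tt.gr, mt, reduceCtorEq, if_false, if_true]; omega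
  · rw [pal_A0 hA]; simp only [Tt.gr, mt, reduceCtorEq, if_false, if_true]; omega
  · rw [pal_A1 hA]; simp only [Tt.gr, mt, reduceCtorEq, if_false, if_true]; omega
  · rw [pal_A2 hA]; simp only [Tt.gr, mt, reduceCtorEq, if_false, if_true]; omega
  · rw [pal_A3 hA]; simp only [Tt.gr, mt, reduceCtorEq, if_false, if_true]; omega

theorem pal_ge {π κ e : ℝ} {A : Pal} {d : ℕ} (hA : PalP A d π κ) (hn : Num e π κ d) (g : Gr) :
    e * d ≤ ((pal A d g).card : ℝ) := by
  have h1 := pal_full hA hn g (mt A d) (fun _ => rfl)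
  have key : ∀ T : Tt, T.gr = g → e * d ≤ ((pal A d g).card : ℝ) := by
    intro T hT
    refine (mt_ge hA hn T).trans ?_
    have h2 : (if T.gr = g then mt A d T else 0) ≤ ∑ T : Tt, if T.gr = g then mt A d T else 0 :=
      single_le_sum (f := fun T : Tt => if T.gr = g then mt A d T else 0)
        (fun _ _ => Nat.zero_le _) (mem_univ T)
    rw [if_pos hT] at h2
    exact_mod_cast le_trans h2 (by omega)
  cases g
  · exact key .QF rfl
  · exact key .QT rfl
  · exact key .PF rfl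
  · exact key .A0 rfl
  · exact key .A1 rfl
  · exact key .A2 rfl
  · exact key .A3 rfl

/-- the colouring after EQC -/
structure Mid (l Er : ℝ) (G : SimpleGraph V) (d : ℕ) (P : Pcs V M) (A : Pal)
    (τ : V → V → Tt) (Φ : Fin (d + 2) → Option V → Option V) : Prop where
  alw : ∀ v w, (thin G P).Adj v w → v ∉ P.V0 → alv P v (τ v w)
  col : ICol (star (thin G P) P.V0) Φ
  typ : ∀ b v w, v ≠ w → Φ b (some v) = some w → gpn A b = (τ v w).gr
  own : ∀ b v, Φ b none = some v → gpn A b = .A3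
  load : ∀ b, ((cov P.V0 Φ b).card : ℝ) ≤ l
  q2 : ∀ b ∈ range (d + 2), ∀ x : Cl M,
    (P.ty x.1 = Ty.B ∨ (P.ty x.1 = Ty.N ∧ isP1 (gpn A b) = false)) → |qb P Φ b (gpn A b) x| ≤ 2
  sum : ∀ g (x : Cl M), (P.ty x.1 = Ty.B ∨ (P.ty x.1 = Ty.N ∧ isP1 g = false)) →
    |((∑ b ∈ pal A d g, qb P Φ b g x : ℤ) : ℝ)| ≤ Er
  ned : ∀ g (x : Cl M), (P.ty x.1 = Ty.B ∨ (P.ty x.1 = Ty.N ∧ isP1 g = false)) →
    ∀ σ : ℤ, σ = 1 ∨ σ = -1 →
    ((∑ b ∈ pal A d g, max (σ * qb P Φ b g x) 0 : ℤ) : ℝ) ≤ 6 / 10 * (pal A d g).card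
  nn : ∀ g (x : Cl M), (P.ty x.1 = Ty.B ∨ (P.ty x.1 = Ty.N ∧ isP1 g = false)) →
    4 / 10 * ((pal A d g).card : ℝ) ≤ ((pal A d g).filter (fun b => 0 ≤ qb P Φ b g x)).card
  np : ∀ g (x : Cl M), (P.ty x.1 = Ty.B ∨ (P.ty x.1 = Ty.N ∧ isP1 g = false)) →
    4 / 10 * ((pal A d g).card : ℝ) ≤ ((pal A d g).filter (fun b => qb P Φ b g x ≤ 0)).card

theorem mid {C g0 ρ K ζ θ ε1 e π κ : ℝ} (hT : Stmt_TSUM.{u}) (hC : Stmt_CSUM.{u}) (s0 : ℕ)
    (hE : ∀ {V : Type u} {β N : Type} [Fintype V] [Fintype β] [Fintype N] (gp : β → Gr)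
      (F : SimpleGraph V) (Z V0 : Finset V) (τ : V → V → Gr) (g0 : Gr) (s : ℕ)
      (fc : V → Option (Jl M))
      (nd : Gr → Jl M → N) (sg : Gr → Jl M → ℤ), V0 ⊆ Z → V0.card ≤ s → 1 ≤ s →
      (∀ v w, τ v w = τ w v) → (∀ g, 2 * s ≤ (univ.filter (fun b => gp b = g)).card) →
      (∀ z ∈ Z, ∀ g, ((nb F z).filter (fun w => τ z w = g)).card +
        (if z ∈ V0 ∧ g = g0 then 1 else 0) ≤ (univ.filter (fun b => gp b = g)).card) →
      (∀ z ∈ Z, ((nb F z).filter (fun w => w ∈ Z)).card ≤ s) →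
      (∀ v, v ∉ Z → (nb F v).card ≤ s) → (∀ z ∈ Z, fc z = none) →
      (∀ g, s0 ≤ (univ.filter (fun b => gp b = g)).card) →
      (∀ g j, sg g j = 0 ∨ sg g j = 1 ∨ sg g j = -1) →
      (∀ g x, |∑ j ∈ univ.filter (fun j => nd g j = x), (sg g j : ℝ) *
        ∑ v ∈ univ.filter (fun v => fc v = some j), ((nb F v).filter (fun w => τ v w = g)).card| ≤
        ((univ.filter (fun b => gp b = g)).card : ℝ) / 10) →
      ∃ P : β → Option V → Option V, ICol (star F V0) P ∧
        (∀ b v w, v ≠ w → P b (some v) = some w → gp b = τ v w) ∧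
        (∀ b v, P b none = some v → gp b = g0) ∧
        ∀ g, EqRes s0 (fun b : Pl gp g => P b.1) (fun w : Option V => w.bind fc) (nd g) (sg g)
          (∑ v ∈ univ.filter (fun v => (fc v).isSome), ((nb F v).filter (fun w => τ v w = g)).card))
    (G : SimpleGraph V) (d : ℕ) (P : Pcs V M) (A : Pal)
    (hD : DecP C g0 ρ ζ θ G d P) (hPD : PartD K ζ ε1 G d P) (hA : PalP A d π κ)
    (hn : Num e π κ d) (hK : 0 < K) (hε : 0 < ε1) (hζ : 0 < ζ) (hθ : 0 < θ) (τ : V → V → Tt)
    (hτ : TyOut (thin G P) P.V0 (clv P) (alv P) (rhoT A d) (fun _ => mt A d) (Bdz ε1 G P)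
      (K * ζ * d) τ)
    (n1 : ζ ≤ e / 8) (n2 : θ ≤ ζ) (n3 : 1 ≤ ζ * d) (n4 : (s0 : ℝ) ≤ e * d)
    (n5 : Err M K ζ θ ε1 d ≤ e * d / 10) :
    ∃ Φ : Fin (d + 2) → Option V → Option V,
      Mid (s0 * (θ / e * d + 1)) (Err M K ζ θ ε1 d) G d P A τ Φ := by
  have hd0 : (0 : ℝ) ≤ d := Nat.cast_nonneg d
  have he := hn.e0
  set s : ℕ := ⌊ζ * d⌋₊ with hs
  have hsl : (s : ℝ) ≤ ζ * d := Nat.floor_le (by positivity)
  have hV0s : P.V0.card ≤ s := by
    apply Nat.le_floor
    exact hD.V0c.trans (mul_le_mul_of_nonneg_right n2 hd0)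
  have hgd : ∀ v g, ((nb (thin G P) v).filter (fun w => (τ v w).gr = g)).card =
      gd (thin G P) τ v g := fun v g => rfl
  have hNS : ∀ g x, ∑ j ∈ univ.filter (fun j => ndv g j = x), (sgv P g j : ℝ) *
      ∑ v ∈ univ.filter (fun v => fcv P v = some j),
        (((nb (thin G P) v).filter (fun w => (τ v w).gr = g)).card : ℝ) =
      NS P (thin G P) τ g x := fun g x => rfl
  have c1 : ∀ g, 2 * s ≤ (univ.filter (fun b => gpf A d b = g)).card := by
    intro g
    rw [card_gpf]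
    have e1 := pal_ge hA hn g
    have : ((2 * s : ℕ) : ℝ) ≤ ((pal A d g).card : ℝ) := by
      push_cast
      have : 2 * (ζ * d) ≤ e * d := by nlinarith
      linarith
    exact_mod_cast this
  have c2 : ∀ z ∈ P.V0, ∀ g, ((nb (thin G P) z).filter (fun w => (τ z w).gr = g)).card +
        (if z ∈ P.V0 ∧ g = .A3 then 1 else 0) ≤
      (univ.filter (fun b => gpf A d b = g)).card := by
    intro z hz g
    rw [card_gpf, hgd, gd_sum]
    have h5 : (if z ∈ P.V0 ∧ g = .A3 then 1 else 0 : ℕ) = if g = .A3 then 1 else 0 := by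
      simp [hz]
    rw [h5]
    refine pal_full hA hn g (fun T => dg (thin G P) τ z T) ?_
    intro T
    exact hτ.ext z hz T
  have c3 : ∀ z ∈ P.V0, ((nb (thin G P) z).filter (fun w => w ∈ P.V0)).card ≤ s := by
    intro z hz
    refine le_trans (card_le_card ?_) hV0s
    intro v hv
    rw [mem_filter] at hv
    exact hv.2
  have c4 : ∀ v, v ∉ P.V0 → (nb (thin G P) v).card ≤ s := by
    intro v hv
    apply Nat.le_floor
    exact hD.thd v hv
  have c5 : ∀ g, s0 ≤ (univ.filter (fun b => gpf A d b = g)).card := by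
    intro g
    rw [card_gpf]
    have e1 := pal_ge hA hn g
    exact_mod_cast n4.trans e1
  have c6 : ∀ g (j : Jl M), sgv P g j = 0 ∨ sgv P g j = 1 ∨ sgv P g j = -1 := by
    intro g j
    unfold sgv
    split_ifs
    · exact Or.inr (Or.inr rfl)
    · exact Or.inr (Or.inl rfl)
    · exact Or.inl rfl
  have c7 : ∀ g x, |∑ j ∈ univ.filter (fun j => ndv g j = x), (sgv P g j : ℝ) *
        ((∑ v ∈ univ.filter (fun v => fcv P v = some j),
          ((nb (thin G P) v).filter (fun w => (τ v w).gr = g)).card : ℕ) : ℝ)| ≤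
        ((univ.filter (fun b => gpf A d b = g)).card : ℝ) / 10 := by
    intro g x
    push_cast
    rw [card_gpf, hNS]
    refine (NS_le hT G d P A hD hPD hA hn hK hε hζ hθ τ hτ g x).trans (n5.trans ?_)
    have e1 := pal_ge hA hn g
    linarith
  obtain ⟨Φ, h1, h2, h3, h4⟩ := hE (gpf A d) (thin G P) P.V0 P.V0 (fun v w => (τ v w).gr) .A3 s
    (fcv P) ndv (sgv P) subset_rfl hV0s (Nat.le_floor (by exact_mod_cast n3))
    (fun v w => by rw [hτ.sym]) c1 c2 c3 c4 (fun z hz => fcv_pos P z hz) c5 c6 c7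
  -- the result
  refine ⟨Φ, ⟨hτ.alw, h1, ?_, ?_, ?_, ?_, ?_, ?_, ?_, ?_⟩⟩
  · intro b v w hvw hb
    exact h2 b v w hvw hb
  · intro b v hb
    exact h3 b v hb
  · intro b
    have e1 := (h4 (gpf A d b)).load ⟨b, rfl⟩
    simp only at e1
    rw [sum_cnt, card_pl] at e1
    have e2 := pal_ge hA hn (gpf A d b)
    have e3 : (∑ v ∈ univ.filter (fun v => (fcv P v).isSome = true),
        ((nb (thin G P) v).filter (fun w => (τ v w).gr = gpf A d b)).card : ℕ) ≤
        ∑ v ∈ univ \ P.V0, (nb (thin G P) v).card := by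
      have e4 : univ.filter (fun v => (fcv P v).isSome = true) = univ \ P.V0 := by
        ext v
        rw [mem_filter, mem_sdiff]
        by_cases hv : v ∈ P.V0
        · rw [fcv_pos P v hv]; simp [hv]
        · rw [fcv_neg P v hv]; simp [hv]
      rw [e4]
      exact sum_le_sum (fun v _ => card_le_card (filter_subset _ _))
    have e5 : ((∑ v ∈ univ \ P.V0, (nb (thin G P) v).card : ℕ) : ℝ) ≤ θ * (d : ℝ) ^ 2 := by
      push_cast
      exact hD.ths
    set E := (∑ v ∈ univ.filter (fun v => (fcv P v).isSome = true),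
        ((nb (thin G P) v).filter (fun w => (τ v w).gr = gpf A d b)).card : ℕ) with hEd
    set q := (pal A d (gpf A d b)).card with hq
    have e6 : (E : ℝ) ≤ θ * (d : ℝ) ^ 2 := le_trans (by exact_mod_cast e3) e5
    have e7 : ((cov P.V0 Φ b).card : ℝ) * q ≤ s0 * (E + q) := by exact_mod_cast e1
    have hd1 : (0 : ℝ) < d := lt_of_lt_of_le (by norm_num) hn.d1
    have hqp : (0 : ℝ) < q := lt_of_lt_of_le (by positivity) e2
    have e8 : (E : ℝ) ≤ θ / e * d * q := by
      calc (E : ℝ) ≤ θ * (d : ℝ) ^ 2 := e6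
        _ = θ / e * d * (e * d) := by field_simp
        _ ≤ θ / e * d * q := mul_le_mul_of_nonneg_left e2 (by positivity)
    have e9 : ((cov P.V0 Φ b).card : ℝ) * q ≤ (s0 * (θ / e * d + 1)) * q := by
      refine e7.trans ?_
      have : (s0 : ℝ) * (E + q) ≤ s0 * (θ / e * d * q + q) :=
        mul_le_mul_of_nonneg_left (by linarith) (Nat.cast_nonneg _)
      refine this.trans (le_of_eq ?_)
      ring
    exact le_of_mul_le_mul_right e9 hqp
  · intro b hb x hty
    have hb' := mem_range.1 hb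
    have e1 := (h4 (gpf A d ⟨b, hb'⟩)).two ⟨⟨b, hb'⟩, rfl⟩ x
    have e2 := sq_qb P Φ ⟨b, hb'⟩ (gpn A b) x hty
    show |qb P Φ (⟨b, hb'⟩ : Fin (d + 2)).val (gpn A b) x| ≤ 2
    rw [← e2]
    exact e1
  · intro g x hty
    have e1 : ((∑ b ∈ pal A d g, qb P Φ b g x : ℤ) : ℝ) = NS P (thin G P) τ g x := by
      rw [← sum_gpf (fun b => qb P Φ b g x)]
      rw [sum_congr rfl (fun b _ => (sq_qb P Φ b g x hty).symm)]
      unfold sq
      rw [sum_comm]
      unfold NS
      rw [Int.cast_sum]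
      apply sum_congr rfl
      intro j _
      rw [← mul_sum, Int.cast_mul]
      congr 1
      have e2 := hC (gpf A d) (thin G P) P.V0 (fun v w => (τ v w).gr) (fcv P) Φ h1
        (fun b v w hvw hb => h2 b v w hvw hb) (fun z hz => fcv_pos P z hz) g j
      rw [← Nat.cast_sum, e2]
      push_cast
      rfl
    rw [e1]
    exact NS_le hT G d P A hD hPD hA hn hK hε hζ hθ τ hτ g x
  · intro g x hty σ hσ
    rcases hσ with rfl | rfl
    · have e1 := (h4 g).pos x
      rw [card_pl] at e1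
      rw [sum_congr rfl (fun (b : Pl (gpf A d) g) _ => by
        rw [sq_qb P Φ b.1 g x hty])] at e1
      rw [sum_pl (fun b => max (qb P Φ b g x) 0)] at e1
      simp only [one_mul]
      exact e1
    · have e1 := (h4 g).neg x
      rw [card_pl] at e1
      rw [sum_congr rfl (fun (b : Pl (gpf A d) g) _ => by
        rw [sq_qb P Φ b.1 g x hty])] at e1
      rw [sum_pl (fun b => max (-qb P Φ b g x) 0)] at e1
      simp only [neg_mul, one_mul]
      exact e1
  · intro g x hty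
    have e1 := (h4 g).nn x
    rw [card_pl] at e1
    rw [card_pl_filter (fun b => 0 ≤ qb P Φ b g x) _
      (fun b => by rw [sq_qb P Φ b.1 g x hty])] at e1
    exact e1
  · intro g x hty
    have e1 := (h4 g).np x
    rw [card_pl] at e1
    rw [card_pl_filter (fun b => qb P Φ b g x ≤ 0) _
      (fun b => by rw [sq_qb P Φ b.1 g x hty])] at e1
    exact e1

end mid

end Pool.Agent.Work.MP_db9399_dp.helper82
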