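import Pool.Agent.Work.MP_db9399_dp_helper82.ADJ3

/-! # Own colours off the edges of `E0` (helper82) -/

set_option autoImplicit false

namespace Pool.Agent.Work.MP_db9399_dp.helper82

open Finset Classical
open Pool.Agent.Work.MP_db9399_all (nb)

universe u

section own
variable {V : Type u} {β : Type} [Fintype V]

/-- colours of the edges of `E0` -/
noncomputable def Ecl [Fintype β] (E0 : SimpleGraph V) (P : β → Option V → Option V) : Finset β :=
  univ.filter (fun a => ∃ u v, E0.Adj u v ∧ P a (some u) = some v)

theorem mem_Ecl [Fintype β] (E0 : SimpleGraph V) (P : β → Option V → Option V) (a : β) :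
    a ∈ Ecl E0 P ↔ ∃ u v, E0.Adj u v ∧ P a (some u) = some v := by
  unfold Ecl; simp

theorem Ecl_card [Fintype β] (F E0 : SimpleGraph V) (V0 : Finset V) (P : β → Option V → Option V)
    (h : ICol (star F V0) P) (k : ℕ) (hk : ∑ v, (nb E0 v).card ≤ k) : (Ecl E0 P).card ≤ k := by
  refine le_trans ?_ hk
  have h1 : ∑ v, (nb E0 v).card = (univ.sigma (fun v => nb E0 v)).card := by
    rw [card_sigma]
  rw [h1]
  refine card_le_card_of_forall_subsingleton
    (fun (a : β) (p : Σ _ : V, V) => E0.Adj p.1 p.2 ∧ P a (some p.1) = some p.2) ?_ ?_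
  · intro a ha
    rw [mem_Ecl] at ha
    obtain ⟨u, v, h2, h3⟩ := ha
    refine ⟨⟨u, v⟩, ?_, h2, h3⟩
    rw [mem_sigma]
    refine ⟨mem_univ _, ?_⟩
    unfold nb
    simp [h2]
  · rintro p _ a ⟨_, ha1, ha2⟩ a' ⟨_, _, ha3⟩
    by_contra hne
    have h4 := h.dis a a' (some p.1) hne (ha2.trans ha3.symm)
    rw [ha2] at h4
    exact ha1.ne (Option.some_inj.1 h4).symm

/-- the own colour of `z` becomes `c`, the colour of `z w`; `z w` gets the old own colour `b` -/
theorem swap_own (F E0 : SimpleGraph V) (V0 : Finset V) (P : β → Option V → Option V)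
    (B : Finset β) (b c : β) (h : ICol (star F V0) P) (hb : b ∈ B) (hc : c ∈ B) (hbc : b ≠ c)
    (z w : V) (hz : z ∈ V0) (hw : w ∉ V0) (h1 : P b (some z) = none) (h2 : P c (some z) = some w)
    (h3 : P c none = none) (h4 : P b (some w) = some w) (hE : ¬ E0.Adj z w) :
    ∃ P1 : β → Option V → Option V, ICol (star F V0) P1 ∧ (∀ a, a ≠ b → a ≠ c → P1 a = P a) ∧
      (∀ u v, u ≠ v → ((∃ a ∈ B, P1 a u = v) ↔ ∃ a ∈ B, P a u = v)) ∧
      P1 c none = some z ∧ cov V0 P1 b = insert w (cov V0 P b) ∧
      cov V0 P1 c = (cov V0 P c).erase w ∧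
      ∀ a u v, E0.Adj u v → (P1 a (some u) = some v ↔ P a (some u) = some v) := by
  have hzw0 : z ≠ w := fun e => hw (e ▸ hz)
  have hzw : (some z : Option V) ≠ some w := fun e => hzw0 (Option.some_inj.1 e)
  have h1' : P b none = some z := by rw [← h1, h.inv]
  have h2' : P c (some w) = some z := by rw [← h2, h.inv]
  set P1 : β → Option V → Option V := fun a v => if a = b then
        (if v = some z then some w else if v = some w then some z else
          if v = none then none else P b v)
      else if a = c then
        (if v = some z then none else if v = none then some z else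
          if v = some w then some w else P c v)
      else P a v with hP1
  refine ⟨P1, ?_, ?_, ?_, ?_, ?_, ?_, ?_⟩
  · exact icol_exc h b c hbc (some z) none (some w) (by simp) hzw (by simp) h1 h2 h3 h4
  · intro a ha1 ha2
    funext v
    simp only [hP1]
    rw [if_neg ha1, if_neg ha2]
  · intro u v huv
    refine eq_of_mod (P := P) B b c hb hc hbc
      (fun v => if v = some z then some w else if v = some w then some z else
          if v = none then none else P b v)
      (fun v => if v = some z then none else if v = none then some z else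
          if v = some w then some w else P c v)
      ?_ u v huv
    intro v u hvu
    by_cases hvz : v = some z
    · subst hvz
      rw [if_pos rfl, if_pos rfl, h1, h2]
      tauto
    · by_cases hvw : v = some w
      · subst hvw
        rw [if_neg hvz, if_pos rfl, if_neg hvz, if_neg (by simp), if_pos rfl, h4, h2']
        tauto
      · by_cases hvx : v = none
        · subst hvx
          rw [if_neg hvz, if_neg hvw, if_pos rfl, if_neg hvz, if_pos rfl, h1', h3]
          tauto
        · rw [if_neg hvz, if_neg hvw, if_neg hvx, if_neg hvz, if_neg hvx, if_neg hvw]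
  · simp only [hP1, if_neg (Ne.symm hbc), if_true]
    rw [if_neg (by simp)]
  · ext v
    rw [mem_cov, mem_insert, mem_cov]
    simp only [hP1, if_true, Option.some_inj, reduceCtorEq, if_false]
    by_cases hvz : v = z
    · subst hvz
      tauto
    · by_cases hvw : v = w
      · subst hvw
        rw [if_neg hvz, if_pos rfl]
        simp only [ne_eq, Option.some_inj]
        tauto
      · rw [if_neg hvz, if_neg hvw]
        tauto
  · ext v
    rw [mem_cov, mem_erase, mem_cov]
    simp only [hP1, if_neg (Ne.symm hbc), if_true, Option.some_inj, reduceCtorEq, if_false]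
    by_cases hvz : v = z
    · subst hvz
      tauto
    · by_cases hvw : v = w
      · subst hvw
        rw [if_neg hvz, if_pos rfl]
        tauto
      · rw [if_neg hvz, if_neg hvw]
        tauto
  · intro a u v huv
    by_cases hab : a = b
    · subst hab
      simp only [hP1, if_true, Option.some_inj, reduceCtorEq, if_false]
      by_cases huz : u = z
      · subst huz
        rw [if_pos rfl, h1]
        simp only [Option.some_inj, reduceCtorEq, iff_false]
        intro e; exact hE (e ▸ huv)
      · by_cases huw : u = w
        · subst huw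
          rw [if_neg huz, if_pos rfl, h4, Option.some_inj, Option.some_inj]
          constructor
          · intro e; exact absurd (e ▸ huv.symm) hE
          · intro e; exact absurd e huv.ne
        · rw [if_neg huz, if_neg huw]
    · by_cases hac : a = c
      · subst hac
        simp only [hP1, if_neg hab, if_true, Option.some_inj, reduceCtorEq, if_false]
        by_cases huz : u = z
        · subst huz
          rw [if_pos rfl, h2]
          simp only [Option.some_inj, reduceCtorEq, false_iff]
          intro e; exact hE (e ▸ huv)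
        · by_cases huw : u = w
          · subst huw
            rw [if_neg huz, if_pos rfl, h2', Option.some_inj, Option.some_inj]
            constructor
            · intro e; exact absurd e huv.ne
            · intro e; exact absurd (e ▸ huv.symm) hE
          · rw [if_neg huz, if_neg huw]
      · simp only [hP1]
        rw [if_neg hab, if_neg hac]

/-- state after the vertices of `S` have new own colours -/
structure Sto [Fintype β] (F E0 : SimpleGraph V) (V0 : Finset V) (P P1 : β → Option V → Option V)
    (B : Finset β) (o o1 : V → β) (gd : V → β → Prop) (S : Finset V) (T : Finset β) : Prop where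
  col : ICol (star F V0) P1
  out : ∀ b, b ∉ B → P1 b = P b
  own : ∀ z ∈ V0, o1 z ∈ B ∧ P1 (o1 z) none = some z
  unt : ∀ b, b ∉ T → P1 b = P b
  oS : ∀ z ∈ S, gd z (o1 z) ∧ (cov V0 P1 (o1 z) \ cov V0 P (o1 z)).card = 0 ∧ o1 z ∉ Ecl E0 P
  oU : ∀ z ∈ V0, z ∉ S → o1 z = o z ∧ o z ∉ T
  pr : ∀ a u v, E0.Adj u v → (P1 a (some u) = some v ↔ P a (some u) = some v)
  ch : ∀ b, (cov V0 P1 b \ cov V0 P b).card + (cov V0 P b \ cov V0 P1 b).card ≤ 1
  eq : ∀ u v, u ≠ v → ((∃ a ∈ B, P1 a u = v) ↔ ∃ a ∈ B, P a u = v)

/-- OWNFIX: new own colours outside the colours of the edges of `E0`. `gd z b`: the colour `b` may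
become the own colour of `z`. -/
theorem own_fix [Fintype β] (F E0 : SimpleGraph V) (V0 : Finset V) (P : β → Option V → Option V)
    (B : Finset β) (o : V → β) (gd : V → β → Prop) (k l : ℕ) (hP : ICol (star F V0) P)
    (ho : ∀ z ∈ V0, o z ∈ B ∧ P (o z) none = some z) (hk : ∑ v, (nb E0 v).card ≤ k)
    (hl : ∀ b, (cov V0 P b).card ≤ l)
    (hsup : ∀ z ∈ V0, V0.card + 3 * k + l < (B.filter (fun b => gd z b ∧
      ∃ w, w ∉ V0 ∧ P b (some z) = some w)).card) :
    ∃ (P1 : β → Option V → Option V) (o1 : V → β), ICol (star F V0) P1 ∧
      (∀ b, b ∉ B → P1 b = P b) ∧ (∀ z ∈ V0, o1 z ∈ B ∧ P1 (o1 z) none = some z) ∧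
      (∀ z ∈ V0, (o1 z = o z ∧ P1 (o z) = P (o z)) ∨ (gd z (o1 z) ∧
        (cov V0 P1 (o1 z) \ cov V0 P (o1 z)).card = 0)) ∧
      (∀ z ∈ V0, ∀ u v, E0.Adj u v → P1 (o1 z) (some u) ≠ some v) ∧
      (∀ b, (cov V0 P1 b \ cov V0 P b).card + (cov V0 P b \ cov V0 P1 b).card ≤ 1) ∧
      (univ.filter (fun b => P1 b ≠ P b)).card ≤ 2 * k ∧
      (∀ u v, u ≠ v → ((∃ a ∈ B, P1 a u = v) ↔ ∃ a ∈ B, P a u = v)) := by
  have hEc := Ecl_card F E0 V0 P hP k hk
  set S0 := V0.filter (fun z => o z ∈ Ecl E0 P) with hS0
  have oinj : ∀ z ∈ V0, ∀ z' ∈ V0, o z = o z' → z = z' := by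
    intro z hz z' hz' e
    have h1 := (ho z hz).2
    rw [e, (ho z' hz').2] at h1
    exact (Option.some_inj.1 h1).symm
  have hS0c : S0.card ≤ k := by
    refine le_trans ?_ hEc
    apply card_le_card_of_injOn o
    · intro z hz
      rw [mem_coe, hS0, mem_filter] at hz
      exact mem_coe.2 hz.2
    · intro z hz z' hz' e
      rw [mem_coe, hS0, mem_filter] at hz hz'
      exact oinj z hz.1 z' hz'.1 e
  have main : ∀ S : Finset V, S ⊆ S0 → ∃ (P1 : β → Option V → Option V) (o1 : V → β)
      (T : Finset β), Sto F E0 V0 P P1 B o o1 gd S T ∧ T.card ≤ 2 * S.card := by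
    intro S
    induction S using Finset.induction_on with
    | empty =>
      intro _
      refine ⟨P, o, ∅, ⟨hP, fun _ _ => rfl, ho, fun _ _ => rfl, ?_, ?_, fun _ _ _ _ => Iff.rfl, ?_,
        fun _ _ _ => Iff.rfl⟩, by simp⟩
      · intro z hz; exact absurd hz (notMem_empty z)
      · intro z _ _; exact ⟨rfl, notMem_empty _⟩
      · intro b; simp
    | insert z S hzS ih =>
      intro hSZ
      have hzS0 : z ∈ S0 := hSZ (mem_insert_self _ _)
      have hSS : S ⊆ S0 := fun v hv => hSZ (mem_insert_of_mem hv)
      have hzV : z ∈ V0 := (mem_filter.1 hzS0).1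
      have hoE : o z ∈ Ecl E0 P := (mem_filter.1 hzS0).2
      have hScard : S.card + 1 ≤ k := by
        rw [← card_insert_of_notMem hzS]
        exact (card_le_card hSZ).trans hS0c
      obtain ⟨P1, o1, T, h1, hT⟩ := ih hSS
      obtain ⟨hoz, hozT⟩ := h1.oU z hzV hzS
      have hPoz : P1 (o z) = P (o z) := h1.unt _ hozT
      -- the new own colour
      set Sup := B.filter (fun b => gd z b ∧ ∃ w, w ∉ V0 ∧ P b (some z) = some w) with hSup
      set Bc : Finset β := Sup.filter (fun b => ∃ w ∈ cov V0 P (o z), P b (some z) = some w)
        with hBc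
      have hBcc : Bc.card ≤ l := by
        refine le_trans ?_ (hl (o z))
        refine card_le_card_of_forall_subsingleton
          (fun (b : β) (w : V) => P b (some z) = some w) ?_ ?_
        · intro b hb
          rw [hBc, mem_filter] at hb
          exact hb.2
        · rintro w hw b ⟨_, hb⟩ b' ⟨_, hb'⟩
          by_contra hne
          have h4 := hP.dis b b' (some z) hne (hb.trans hb'.symm)
          rw [hb] at h4
          have h5 := ((mem_cov V0 P (o z) w).1 hw).1
          exact h5 (Option.some_inj.1 h4 ▸ hzV)
      have hex : ∃ c ∈ Sup, c ∉ (V0.image o1 ∪ T ∪ Ecl E0 P) ∪ Bc := by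
        by_contra hcon
        push Not at hcon
        have e0 := card_le_card (fun c hc => hcon c hc)
        have e1 := card_union_le (V0.image o1 ∪ T ∪ Ecl E0 P) Bc
        have e2 := card_union_le (V0.image o1 ∪ T) (Ecl E0 P)
        have e3 := card_union_le (V0.image o1) T
        have e4 : (V0.image o1).card ≤ V0.card := card_image_le
        have e5 : V0.card + 3 * k + l < Sup.card := by
          refine lt_of_lt_of_le (hsup z hzV) (card_le_card ?_)
          intro b hb
          rw [mem_filter] at hb
          rw [hSup, mem_filter]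
          exact hb
        omega
      obtain ⟨c, hcS, hcn⟩ := hex
      rw [mem_union, mem_union, mem_union] at hcn
      push Not at hcn
      obtain ⟨⟨⟨hc1, hc2⟩, hc3⟩, hc4⟩ := hcn
      have hcS' := hcS
      rw [hSup, mem_filter] at hcS'
      obtain ⟨hcB, hcg, w, hw0, hcw⟩ := hcS'
      have hwb : w ∉ cov V0 P (o z) := by
        intro e
        exact hc4 (by rw [hBc, mem_filter]; exact ⟨hcS, w, e, hcw⟩)
      have hPc : P1 c = P c := h1.unt c hc2
      have hbc : o z ≠ c := fun e => hc3 (e ▸ hoE)
      have hc1' : ∀ z' ∈ V0, c ≠ o1 z' := by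
        intro z' hz' e
        exact hc1 (mem_image.2 ⟨z', hz', e.symm⟩)
      have hcn : P1 c none = none := by
        by_contra hcon
        have h2 := h1.col.adj c none hcon
        cases hq : P1 c none with
        | none => exact hcon hq
        | some y =>
          rw [hq] at h2
          have hy : y ∈ V0 := (star_sn F V0 y).1 h2.symm
          have h3 := h1.col.dis c (o1 y) none (hc1' y hy) (by rw [hq, (h1.own y hy).2])
          exact hcon h3
      have hb1 : P1 (o z) (some z) = none := by
        have := (h1.own z hzV).2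
        rw [hoz] at this
        rw [← this, h1.col.inv]
      have hb4 : P1 (o z) (some w) = some w := by
        rw [hPoz]
        by_contra hcon
        exact hwb ((mem_cov V0 P (o z) w).2 ⟨hw0, hcon⟩)
      have hEzw : ¬ E0.Adj z w := by
        intro e
        exact hc3 ((mem_Ecl E0 P c).2 ⟨z, w, e, hcw⟩)
      obtain ⟨P2, q1, q2, q3, q4, q5, q6, q7⟩ := swap_own F E0 V0 P1 B (o z) c h1.col
        (ho z hzV).1 hcB hbc z w hzV hw0 hb1 (by rw [hPc]; exact hcw) hcn hb4 hEzw
      have hcvb : cov V0 P1 (o z) = cov V0 P (o z) := by unfold cov; rw [hPoz]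
      have hcvc : cov V0 P1 c = cov V0 P c := by unfold cov; rw [hPc]
      -- own colours of the other vertices
      have hoth : ∀ z' ∈ V0, z' ≠ z → P2 (o1 z') = P1 (o1 z') := by
        intro z' hz' hne
        apply q2
        · intro e
          have h2 := (h1.own z' hz').2
          have h3 := (h1.own z hzV).2
          rw [hoz] at h3
          rw [e, h3] at h2
          exact hne (Option.some_inj.1 h2).symm
        · exact (hc1' z' hz').symm
      refine ⟨P2, Function.update o1 z c, insert (o z) (insert c T), ⟨q1, ?_, ?_, ?_, ?_, ?_, ?_, ?_,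
        ?_⟩, ?_⟩
      · intro b hb
        rw [q2 b (fun e => hb (e ▸ (ho z hzV).1)) (fun e => hb (e ▸ hcB))]
        exact h1.out b hb
      · intro z' hz'
        by_cases hne : z' = z
        · subst hne
          rw [Function.update_self]
          exact ⟨hcB, q4⟩
        · rw [Function.update_of_ne hne, hoth z' hz' hne]
          exact h1.own z' hz'
      · intro b hb
        rw [mem_insert, mem_insert] at hb
        push Not at hb
        rw [q2 b hb.1 hb.2.1]
        exact h1.unt b hb.2.2
      · intro z' hz'
        by_cases hne : z' = z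
        · subst hne
          rw [Function.update_self]
          refine ⟨hcg, ?_, hc3⟩
          rw [q6, hcvc, card_eq_zero, sdiff_eq_empty_iff_subset]
          exact erase_subset _ _
        · have hz'S : z' ∈ S := by
            rcases mem_insert.1 hz' with e | e
            · exact absurd e hne
            · exact e
          have hz'V : z' ∈ V0 := (mem_filter.1 (hSS hz'S)).1
          rw [Function.update_of_ne hne]
          have e1 : cov V0 P2 (o1 z') = cov V0 P1 (o1 z') := by
            unfold cov; rw [hoth z' hz'V hne]
          rw [e1]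
          exact h1.oS z' hz'S
      · intro z' hz' hz'S
        rw [mem_insert] at hz'S
        push Not at hz'S
        rw [Function.update_of_ne hz'S.1]
        obtain ⟨e1, e2⟩ := h1.oU z' hz' hz'S.2
        refine ⟨e1, ?_⟩
        rw [mem_insert, mem_insert]
        push Not
        refine ⟨fun e => hz'S.1 (oinj z' hz' z hzV e), ?_, e2⟩
        intro e
        exact hc1' z' hz' (by rw [e1, e])
      · intro a u v huv
        rw [q7 a u v huv]
        exact h1.pr a u v huv
      · intro b
        by_cases hb : b = o z
        · subst hb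
          rw [q5, hcvb]
          have e1 : (insert w (cov V0 P (o z)) \ cov V0 P (o z)).card ≤ 1 := by
            refine (card_le_card (t := {w}) ?_).trans (by simp)
            intro v hv
            rw [mem_sdiff, mem_insert] at hv
            rw [mem_singleton]; tauto
          have e2 : cov V0 P (o z) \ insert w (cov V0 P (o z)) = ∅ := by
            rw [sdiff_eq_empty_iff_subset]
            exact subset_insert _ _
          rw [e2, card_empty]; omega
        · by_cases hb2 : b = c
          · subst hb2
            rw [q6, hcvc]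
            have e1 : (cov V0 P b).erase w \ cov V0 P b = ∅ := by
              rw [sdiff_eq_empty_iff_subset]
              exact erase_subset _ _
            have e2 : (cov V0 P b \ (cov V0 P b).erase w).card ≤ 1 := by
              refine (card_le_card (t := {w}) ?_).trans (by simp)
              intro v hv
              rw [mem_sdiff, mem_erase] at hv
              rw [mem_singleton]; tauto
            rw [e1, card_empty]; omega
          · have e1 : cov V0 P2 b = cov V0 P1 b := by unfold cov; rw [q2 b hb hb2]
            rw [e1]; exact h1.ch b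
      · intro u v huv
        rw [q3 u v huv]
        exact h1.eq u v huv
      · have e1 := card_insert_le (o z) (insert c T)
        have e2 := card_insert_le c T
        rw [card_insert_of_notMem hzS]
        omega
  obtain ⟨P1, o1, T, h1, hT⟩ := main S0 subset_rfl
  refine ⟨P1, o1, h1.col, h1.out, h1.own, ?_, ?_, h1.ch, ?_, h1.eq⟩
  · intro z hz
    by_cases hzS : z ∈ S0
    · exact Or.inr ⟨(h1.oS z hzS).1, (h1.oS z hzS).2.1⟩
    · obtain ⟨e1, e2⟩ := h1.oU z hz hzS
      exact Or.inl ⟨e1, h1.unt _ e2⟩
  · intro z hz u v huv hcon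
    rw [h1.pr _ u v huv] at hcon
    have hE : o1 z ∈ Ecl E0 P := (mem_Ecl E0 P _).2 ⟨u, v, huv, hcon⟩
    by_cases hzS : z ∈ S0
    · exact (h1.oS z hzS).2.2 hE
    · obtain ⟨e1, _⟩ := h1.oU z hz hzS
      rw [e1] at hE
      exact hzS (by rw [hS0, mem_filter]; exact ⟨hz, hE⟩)
  · have hsub : (univ.filter (fun b => P1 b ≠ P b)) ⊆ T := by
      intro b hb
      rw [mem_filter] at hb
      by_contra hcon
      exact hb.2 (h1.unt b hcon)
    have e1 := card_le_card hsub
    omega

end own

end Pool.Agent.Work.MP_db9399_dp.helper82
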