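import Pool.Agent.Work.MP_db9399_dp_helper82.FinRes
import Pool.Agent.Work.MP_db9399_dp_helper82.Own

/-! # PRE with protected edges `E0`: application of OWNFIX and ADJ3 (helper82) -/

set_option autoImplicit false

namespace Pool.Agent.Work.MP_db9399_dp.helper82

open Finset Classical
open Pool.Agent.Work.MP_db9399_all (nb)
open Pool.Agent.Work.MP_db9399_da

universe u

attribute [-instance] instDecidableEqTt instDecidableEqGr Subtype.instDecidableEq

section fr
variable {V : Type u} [Fintype V] {M : ℕ}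

theorem cardf_le {α : Type*} (s t : Finset α) (p q : α → Prop) (i1 : DecidablePred p)
    (i2 : DecidablePred q) (h : ∀ a ∈ s, p a → a ∈ t ∧ q a) :
    (@Finset.filter α p i1 s).card ≤ (@Finset.filter α q i2 t).card := by
  apply card_le_card
  intro a ha
  rw [Finset.mem_filter] at ha ⊢
  exact h a ha.1 ha.2

/-- almost all colours are present at `z ∈ V0` -/
theorem missing_le {C g0 ρ ζ θ : ℝ} (G : SimpleGraph V) (d : ℕ) (P : Pcs V M)
    (hD : DecP C g0 ρ ζ θ G d P) (Φ : Fin (d + 2) → Option V → Option V)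
    (h : ICol (star (thin G P) P.V0) Φ) (z : V) (hz : z ∈ P.V0) :
    ((univ : Finset (Fin (d + 2))).filter
      (fun b => ¬ ∃ w, w ∉ P.V0 ∧ Φ b (some z) = some w)).card ≤ P.V0.card + 2 := by
  -- colours of the edges to vertices outside `V0`
  set S := (univ : Finset (Fin (d + 2))).filter
    (fun b => ∃ w, w ∉ P.V0 ∧ Φ b (some z) = some w) with hS
  have h1 : ((nb (thin G P) z).filter (fun w => w ∉ P.V0)).card ≤ S.card := by
    refine card_le_card_of_forall_subsingleton
      (fun (w : V) (b : Fin (d + 2)) => Φ b (some z) = some w) ?_ ?_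
    · intro w hw
      rw [mem_filter, mem_nb'] at hw
      obtain ⟨b, hb⟩ := h.cov (some z) (some w) ((star_ss _ _ z w).2 hw.1)
      exact ⟨b, by rw [hS, mem_filter]; exact ⟨mem_univ _, w, hw.2, hb⟩, hb⟩
    · rintro b _ w ⟨_, hw⟩ w' ⟨_, hw'⟩
      exact Option.some_inj.1 (hw.symm.trans hw')
  have h2 : (nb (thin G P) z).card ≤
      ((nb (thin G P) z).filter (fun w => w ∉ P.V0)).card + P.V0.card := by
    refine le_trans (card_le_card ?_) (card_union_le _ _)
    intro w hw
    rw [mem_union, mem_filter]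
    tauto
  have h3 : (nb (thin G P) z).card = d := by
    rw [nb_thin_V0 G P z hz, hD.reg]
  have h4 : Disjoint S ((univ : Finset (Fin (d + 2))).filter
      (fun b => ¬ ∃ w, w ∉ P.V0 ∧ Φ b (some z) = some w)) := by
    rw [disjoint_left]
    intro b h1 h2
    rw [hS, mem_filter] at h1
    rw [mem_filter] at h2
    exact h2.2 h1.2
  have h5 := card_le_card (subset_univ (S ∪ ((univ : Finset (Fin (d + 2))).filter
      (fun b => ¬ ∃ w, w ∉ P.V0 ∧ Φ b (some z) = some w))))
  rw [card_union_of_disjoint h4, card_univ, Fintype.card_fin] at h5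
  omega

theorem fin_res3 {C g0 ρ K ζ θ ε1 e π κ l Er ε : ℝ}
    (G E0 : SimpleGraph V) (d k : ℕ) (P : Pcs V M) (A : Pal)
    (hD : DecP C g0 ρ ζ θ G d P) (hPD : PartD K ζ ε1 G d P) (hA : PalP A d π κ)
    (hn : Num e π κ d) (hζ : 0 < ζ) (hθ : 0 < θ) (hεd : 1 / ε1 ≤ ζ ^ 2 * d)
    (τ : V → V → Tt)
    (hτ : TyOut (thin G P) P.V0 (clv P) (alv P) (rhoT A d) (fun _ => mt A d) (Bdz ε1 G P)
      (K * ζ * d) τ) (Φ : Fin (d + 2) → Option V → Option V)
    (hM : Mid l Er G d P A τ Φ) (hl : 0 ≤ l) (hE0 : ∑ v, (nb E0 v).card ≤ k)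
    (n6 : 6 * (θ * d) + l + (k + 1) <
      e * (ζ / 4 * d - θ * d) - 2 * M * (42 + 2 * M * (ζ ^ 2 * d)))
    (n7 : 5 * (θ * d) + 2 * (ζ * d) + 1 < e * d)
    (n8 : 6 / 5 + 30 * (θ * d) ≤ 6 / 5 * (e * d)) (n9 : Er + 30 * (θ * d) ≤ ε / 4 * d)
    (n10 : l + 6 ≤ ε * ζ * d)
    (n11 : ζ ^ 2 * d ≤ e * (ζ / 4 * d - θ * d) - 2 * M * (42 + 2 * M * (ζ ^ 2 * d)))
    (n12 : 2 * (θ * d) + 3 * k + l + 3 < 4 / 10 * (e * d)) (n13 : 2 * (k : ℝ) ≤ θ * d) :
    ∃ Φ' : Fin (d + 2) → Option V → Option V, Res ε ζ G d P A τ Φ' ∧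
      ∀ z ∈ P.V0, ∀ b, Φ' b none = some z → ∀ u v, E0.Adj u v → Φ' b (some u) ≠ some v := by
  have hd0 : (0 : ℝ) ≤ d := Nat.cast_nonneg d
  have hV0 := hD.V0c
  -- own colours
  have hoe : ∀ z : V, ∃ b : Fin (d + 2), z ∈ P.V0 → Φ b none = some z := by
    intro z
    by_cases hz : z ∈ P.V0
    · obtain ⟨b, hb, _⟩ := oc_ex hM.col z hz
      exact ⟨b, fun _ => hb⟩
    · exact ⟨⟨0, by omega⟩, fun h => absurd h hz⟩
  choose o ho using hoe
  set B : Finset (Fin (d + 2)) := univ.filter (fun b => gpf A d b = .A3) with hB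
  have hoB : ∀ z ∈ P.V0, gpn A (o z) = .A3 := fun z hz => hM.own _ z (ho z hz)
  have hBc : e * d ≤ (B.card : ℝ) := by
    rw [hB, card_gpf]; exact pal_ge hA hn .A3
  set gd : V → Fin (d + 2) → Prop := fun z b => ∀ n β, P.rg z = some (n, β) →
    (cov P.V0 Φ b ∩ sV P n (!β)).card ≤ (cov P.V0 Φ b ∩ sV P n β).card with hgd
  -- new own colours
  obtain ⟨Φ1, o1, b1, b2, b3, b4, b5, b6, b7, b8⟩ := own_fix (thin G P) E0 P.V0 Φ B o gd k ⌊l⌋₊
    hM.col (fun z hz => ⟨by rw [hB, mem_filter]; exact ⟨mem_univ _, hoB z hz⟩, ho z hz⟩) hE0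
    (fun b => Nat.le_floor (hM.load b)) (by
      intro z hz
      have hl' : (⌊l⌋₊ : ℝ) ≤ l := Nat.floor_le hl
      -- good colours
      have hg4 : 4 / 10 * (B.card : ℝ) ≤ ((B.filter (fun b => gd z b)).card : ℝ) := by
        by_cases hrg : P.rg z = none
        · have h1 : B.filter (fun b => gd z b) = B := by
            apply filter_true_of_mem
            intro b _ n β h2
            rw [hrg] at h2
            exact absurd h2 (by simp)
          rw [h1]
          have : (0 : ℝ) ≤ B.card := Nat.cast_nonneg _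
          linarith
        · obtain ⟨p, hp⟩ := Option.ne_none_iff_exists'.1 hrg
          obtain ⟨n, β⟩ := p
          have hty := (hD.rgd z hz n β hp).1
          obtain ⟨x, hx1, hx2⟩ := mkx n false
          have hcv : ∀ b : Fin (d + 2), cv P Φ b.val = cov P.V0 Φ b := by
            intro b; unfold cv; rw [dif_pos b.2]
          have hqb : ∀ b : Fin (d + 2), qb P Φ b.val .A3 x =
              ((cov P.V0 Φ b ∩ sV P n false).card : ℤ) - (cov P.V0 Φ b ∩ sV P n true).card := by
            intro b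
            unfold qb nds
            rw [hx1, hx2, hcv]
            simp only [isP1, if_true, Bool.false_eq_true, if_false]
          have hBp : B.card = (pal A d .A3).card := by rw [hB, card_gpf]
          have hinj : ∀ (p : ℕ → Prop) (q : Fin (d + 2) → Prop), (∀ b, p b.val → q b) →
              ((pal A d .A3).filter (fun b => p b)).card ≤ (B.filter (fun b => q b)).card := by
            intro p q hpq
            refine card_le_card_of_forall_subsingleton (fun (b : ℕ) (b' : Fin (d + 2)) =>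
              b'.val = b) ?_ ?_
            · intro b hb
              rw [mem_filter, mem_pal] at hb
              refine ⟨⟨b, hb.1.1⟩, ?_, rfl⟩
              rw [mem_filter, hB, mem_filter]
              exact ⟨⟨mem_univ _, hb.1.2⟩, hpq _ hb.2⟩
            · rintro b' _ b ⟨_, e1⟩ b2 ⟨_, e2⟩
              exact e1.symm.trans e2
          have hgd' : ∀ b, gd z b ↔
              (cov P.V0 Φ b ∩ sV P n (!β)).card ≤ (cov P.V0 Φ b ∩ sV P n β).card := by
            intro b
            simp only [hgd]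
            constructor
            · intro h; exact h n β hp
            · intro h n' β' h2
              rw [hp, Option.some_inj, Prod.mk.injEq] at h2
              rw [← h2.1, ← h2.2]; exact h
          cases β
          · have h1 := hM.nn .A3 x (Or.inl (by rw [hx1]; exact hty))
            have h2 := hinj (fun b => 0 ≤ qb P Φ b .A3 x) (fun b => gd z b) (by
              intro b hb
              rw [hqb] at hb
              rw [hgd']
              simp only [Bool.not_false]
              omega)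
            rw [hBp]
            refine h1.trans (Nat.cast_le.2 (le_trans (le_trans ?_ h2) ?_))
            · exact cardf_le _ _ _ _ _ _ (fun a ha hp => ⟨ha, hp⟩)
            · exact cardf_le _ _ _ _ _ _ (fun a ha hp => ⟨ha, hp⟩)
          · have h1 := hM.np .A3 x (Or.inl (by rw [hx1]; exact hty))
            have h2 := hinj (fun b => qb P Φ b .A3 x ≤ 0) (fun b => gd z b) (by
              intro b hb
              rw [hqb] at hb
              rw [hgd']
              simp only [Bool.not_true]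
              omega)
            rw [hBp]
            refine h1.trans (Nat.cast_le.2 (le_trans (le_trans ?_ h2) ?_))
            · exact cardf_le _ _ _ _ _ _ (fun a ha hp => ⟨ha, hp⟩)
            · exact cardf_le _ _ _ _ _ _ (fun a ha hp => ⟨ha, hp⟩)
      have hms := missing_le G d P hD Φ hM.col z hz
      have h3 : (B.filter (fun b => gd z b)).card ≤ (B.filter (fun b => gd z b ∧
          ∃ w, w ∉ P.V0 ∧ Φ b (some z) = some w)).card +
          ((univ : Finset (Fin (d + 2))).filter
            (fun b => ¬ ∃ w, w ∉ P.V0 ∧ Φ b (some z) = some w)).card := by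
        refine le_trans (card_le_card ?_) (card_union_le _ _)
        intro b hb
        have hb' := (mem_filter_any _ _ _ _).1 hb
        rw [mem_union]
        by_cases h4 : ∃ w, w ∉ P.V0 ∧ Φ b (some z) = some w
        · exact Or.inl ((mem_filter_any _ _ _ _).2 ⟨hb'.1, hb'.2, h4⟩)
        · exact Or.inr ((mem_filter_any _ _ _ _).2 ⟨mem_univ _, h4⟩)
      have h5 : ((B.filter (fun b => gd z b)).card : ℝ) ≤ ((B.filter (fun b => gd z b ∧
          ∃ w, w ∉ P.V0 ∧ Φ b (some z) = some w)).card : ℝ) + (P.V0.card + 2) := by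
        exact_mod_cast h3.trans (Nat.add_le_add_left hms _)
      have h6 : ((P.V0.card + 3 * k + ⌊l⌋₊ : ℕ) : ℝ) < ((B.filter (fun b => gd z b ∧
          ∃ w, w ∉ P.V0 ∧ Φ b (some z) = some w)).card : ℝ) := by
        push_cast
        linarith
      have h7 : P.V0.card + 3 * k + ⌊l⌋₊ < (B.filter (fun b => gd z b ∧
          ∃ w, w ∉ P.V0 ∧ Φ b (some z) = some w)).card := by exact_mod_cast h6
      refine lt_of_lt_of_le h7 (cardf_le _ _ _ _ _ _ (fun a ha hp => ⟨ha, hp⟩)))
  have typ1 : ∀ b v w, v ≠ w → Φ1 b (some v) = some w → gpn A b = (τ v w).gr := by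
    intro b v w hvw hb
    by_cases hbB : b ∈ B
    · obtain ⟨a, haB, ha⟩ := (b8 (some v) (some w) (fun e => hvw (Option.some_inj.1 e))).1
        ⟨b, hbB, hb⟩
      have h1 := hM.typ a v w hvw ha
      rw [hB, mem_filter] at hbB haB
      have h3 : gpn A b = .A3 := hbB.2
      have h4 : gpn A a = .A3 := haB.2
      rw [h3, ← h1, h4]
    · rw [b2 b hbB] at hb
      exact hM.typ b v w hvw hb
  set Az : V → Finset V := fun z => (P.rg z).elim ∅ (fun p => sV P p.1 (!p.2)) with hAz
  set Az' : V → Finset V := fun z => (P.rg z).elim ∅ (fun p => sV P p.1 p.2) with hAz'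
  set Zt := P.V0.filter (fun z => P.rg z ≠ none) with hZt
  have hrgs : ∀ z ∈ Zt, ∃ n β, P.rg z = some (n, β) ∧ P.ty n = Ty.B ∧ Az z = sV P n (!β) ∧
      Az' z = sV P n β := by
    intro z hz
    rw [hZt, mem_filter] at hz
    obtain ⟨p, hp⟩ := Option.ne_none_iff_exists'.1 hz.2
    obtain ⟨n, β⟩ := p
    refine ⟨n, β, hp, (hD.rgd z hz.1 n β hp).1, ?_, ?_⟩
    · simp only [hAz]
      rw [hp]; rfl
    · simp only [hAz']
      rw [hp]; rfl
  obtain ⟨Φ', a1, a2, a3, a4, a5, a6, a7⟩ := adj3 (thin G P) E0 P.V0 Zt Φ1 B o1 Az Az'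
    ⌊ζ * d⌋₊ (⌊l⌋₊ + 1) b1 (filter_subset _ _) b3 b5
    (by
      intro z hz
      obtain ⟨n, β, _, _, h3, h4⟩ := hrgs z hz
      rw [h3, h4, disjoint_left]
      intro v h5 h6
      rw [mem_sV] at h5 h6
      rw [h6.2.2] at h5
      cases β <;> simp at h5)
    (by
      intro z hz v hv w hw hadj
      obtain ⟨n, β, _, h2, h3, h4⟩ := hrgs z hz
      rw [h3, mem_sV] at hv
      rw [h4, mem_sV] at hw
      apply hadj.2
      refine ⟨hadj.1, hv.1, hw.1, hv.2.1.trans hw.2.1.symm, fun _ => ?_⟩
      rw [hv.2.2, hw.2.2]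
      cases β <;> simp)
    (by
      intro z hz
      obtain ⟨n, β, h1, h2, h3, h4⟩ := hrgs z hz
      have hzV : z ∈ P.V0 := (mem_filter.1 hz).1
      rw [h3, h4]
      rcases b4 z hzV with ⟨e1, e2⟩ | ⟨e1, e2⟩
      · obtain ⟨x, hx1, hx2⟩ := mkx n false
        have h5 := hM.q2 (o z).val (mem_range.2 (o z).2) x (Or.inl (by rw [hx1]; exact h2))
        rw [hoB z hzV] at h5
        have hc : cv P Φ (o z).val = cov P.V0 Φ (o z) := by unfold cv; rw [dif_pos (o z).2]
        have hc1 : cov P.V0 Φ1 (o z) = cov P.V0 Φ (o z) := by unfold cov; rw [e2]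
        unfold qb nds at h5
        rw [hx1, hx2, hc] at h5
        simp only [isP1, if_true, Bool.false_eq_true, if_false] at h5
        rw [abs_le] at h5
        rw [e1, hc1]
        cases β
        · simp only [Bool.not_false]
          omega
        · simp only [Bool.not_true]
          omega
      · have h5 := e1 n β h1
        have h6 := b6 (o1 z)
        have h7 : (cov P.V0 Φ1 (o1 z) ∩ sV P n (!β)).card ≤
            (cov P.V0 Φ (o1 z) ∩ sV P n (!β)).card := by
          apply card_le_card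
          apply inter_subset_inter_right
          rw [card_eq_zero, sdiff_eq_empty_iff_subset] at e2
          exact e2
        have h8 : (cov P.V0 Φ (o1 z) ∩ sV P n β).card ≤
            (cov P.V0 Φ1 (o1 z) ∩ sV P n β).card + (cov P.V0 Φ (o1 z) \ cov P.V0 Φ1 (o1 z)).card := by
          refine le_trans (card_le_card ?_) (card_union_le _ _)
          intro v hv
          rw [mem_inter] at hv
          rw [mem_union, mem_inter, mem_sdiff]
          tauto
        omega)
    (fun v hv => Nat.le_floor (hD.thd v hv))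
    (by
      intro z _
      have h1 := b6 (o1 z)
      have h2 : (cov P.V0 Φ1 (o1 z)).card ≤ (cov P.V0 Φ (o1 z)).card +
          (cov P.V0 Φ1 (o1 z) \ cov P.V0 Φ (o1 z)).card := by
        refine le_trans (card_le_card ?_) (card_union_le _ _)
        intro v hv
        rw [mem_union, mem_sdiff]
        tauto
      have h3 : (cov P.V0 Φ (o1 z)).card ≤ ⌊l⌋₊ := Nat.le_floor (hM.load _)
      omega)
    (by
      have h1 : (⌊ζ * d⌋₊ : ℝ) ≤ ζ * d := Nat.floor_le (by positivity)
      have : ((5 * P.V0.card + 2 * ⌊ζ * d⌋₊ + 1 : ℕ) : ℝ) < (B.card : ℝ) := by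
        push_cast
        linarith
      exact_mod_cast this)
    (by
      intro z hz z' hz'
      obtain ⟨n, β, h1, h2, h3, h4⟩ := hrgs z hz
      have hzV : z ∈ P.V0 := (mem_filter.1 hz).1
      have hrg' : P.rg z' ≠ some (n, !β) := by
        intro h5
        have := hD.rgs z hzV z' hz' n β (!β) h1 h5
        cases β <;> simp at this
      have h5 := supply G d P A hD hPD hA hn hθ hεd τ hτ n (!β) h2 z' hz' hrg'
      have hEk : (nb E0 z').card ≤ k := by
        refine le_trans ?_ hE0
        exact single_le_sum (f := fun v => (nb E0 v).card) (fun _ _ => Nat.zero_le _)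
          (mem_univ z')
      have h6 : ((nb (thin G P) z').filter (fun w => w ∉ P.V0 ∧
          w ∉ sV P n (!β) ∧ τ z' w = .A3)).card ≤
          ((nb (thin G P) z').filter (fun w => w ∉ P.V0 ∧ w ∉ Az z ∧ ¬ E0.Adj z' w ∧
            ∃ b ∈ B, Φ1 b (some z') = some w)).card + (nb E0 z').card := by
        refine le_trans (card_le_card ?_) (card_union_le _ _)
        intro w hw
        rw [mem_filter] at hw
        rw [mem_union]
        by_cases hE : E0.Adj z' w
        · right; rw [mem_nb']; exact hE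
        · left
          refine (mem_filter_any _ _ _ _).2 ?_
          rw [h3]
          refine ⟨hw.1, hw.2.1, hw.2.2.1, hE, ?_⟩
          obtain ⟨b, hb, _⟩ := tc_ex hM.col z' w ((mem_nb' _ _ _).1 hw.1)
          refine (b8 (some z') (some w) ?_).2 ⟨b, ?_, hb⟩
          · intro e
            exact ((mem_nb' _ _ _).1 hw.1).ne (Option.some_inj.1 e)
          · rw [hB, mem_filter]
            refine ⟨mem_univ _, ?_⟩
            have h7 := hM.typ b z' w (((mem_nb' _ _ _).1 hw.1).ne) hb
            rw [hw.2.2.2] at h7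
            exact h7
      have h8 : (⌊l⌋₊ : ℝ) ≤ l := Nat.floor_le hl
      have h9 : ((6 * P.V0.card + (⌊l⌋₊ + 1) + (nb E0 z').card : ℕ) : ℝ) <
          (((nb (thin G P) z').filter (fun w => w ∉ P.V0 ∧
            w ∉ sV P n (!β) ∧ τ z' w = .A3)).card : ℝ) := by
        have h10 : ((nb E0 z').card : ℝ) ≤ k := by exact_mod_cast hEk
        push_cast
        linarith
      have h11 : 6 * P.V0.card + (⌊l⌋₊ + 1) + (nb E0 z').card <
          ((nb (thin G P) z').filter (fun w => w ∉ P.V0 ∧
            w ∉ sV P n (!β) ∧ τ z' w = .A3)).card := by exact_mod_cast h9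
      refine lt_of_lt_of_le (b := ((nb (thin G P) z').filter (fun w => w ∉ P.V0 ∧ w ∉ Az z ∧
        ¬ E0.Adj z' w ∧ ∃ b ∈ B, Φ1 b (some z') = some w)).card) ?_
        (cardf_le _ _ _ _ _ _ (fun a ha hp => ⟨ha, hp⟩))
      omega)
  -- changes
  have a5' : ∀ b, (cov P.V0 Φ' b \ cov P.V0 Φ b).card + (cov P.V0 Φ b \ cov P.V0 Φ' b).card ≤
      5 := by
    intro b
    have e1 := a5 b
    have e2 := b6 b
    have e3 : (cov P.V0 Φ' b \ cov P.V0 Φ b).card ≤
        (cov P.V0 Φ' b \ cov P.V0 Φ1 b).card + (cov P.V0 Φ1 b \ cov P.V0 Φ b).card := by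
      refine le_trans (card_le_card ?_) (card_union_le _ _)
      intro v hv
      rw [mem_sdiff] at hv
      rw [mem_union, mem_sdiff, mem_sdiff]
      tauto
    have e4 : (cov P.V0 Φ b \ cov P.V0 Φ' b).card ≤
        (cov P.V0 Φ b \ cov P.V0 Φ1 b).card + (cov P.V0 Φ1 b \ cov P.V0 Φ' b).card := by
      refine le_trans (card_le_card ?_) (card_union_le _ _)
      intro v hv
      rw [mem_sdiff] at hv
      rw [mem_union, mem_sdiff, mem_sdiff]
      tauto
    omega
  -- unchanged colours
  have hun : ∀ b : ℕ, ∀ hb : b < d + 2, gpn A b ≠ .A3 → Φ' ⟨b, hb⟩ = Φ ⟨b, hb⟩ := by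
    intro b hb hne
    have hnB : (⟨b, hb⟩ : Fin (d + 2)) ∉ B := by
      rw [hB, mem_filter]
      exact fun h => hne h.2
    rw [a2 _ hnB, b2 _ hnB]
  have howb : ∀ (b : Fin (d + 2)) (z : V), Φ' b none = some z → z ∈ P.V0 ∧ b = o1 z := by
    intro b z hb
    have hzV : z ∈ P.V0 := by
      have h1 := a1.adj b none (by rw [hb]; simp)
      rw [hb] at h1
      exact (star_sn _ _ z).1 h1.symm
    refine ⟨hzV, ?_⟩
    by_contra hne
    have h1 := a1.dis b (o1 z) none hne (by rw [hb, a3 z hzV])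
    rw [hb] at h1
    exact absurd h1 (by simp)
  have hsame : ∀ g, g ≠ .A3 → ∀ b ∈ pal A d g, ∀ g' x, qb P Φ' b g' x = qb P Φ b g' x := by
    intro g hg b hb g' x
    have h1 := mem_pal.1 hb
    exact qb_same P Φ Φ' b h1.1 g' x (hun b h1.1 (by rw [h1.2]; exact hg))
  have hch : ∀ b, b < d + 2 → ∀ g' x, |qb P Φ' b g' x - qb P Φ b g' x| ≤ 5 := by
    intro b hb g' x
    unfold qb cv
    rw [dif_pos hb, dif_pos hb]
    refine (card_change _ _ _ _ (nds_disj P g' x)).trans ?_
    exact_mod_cast a5' ⟨b, hb⟩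
  -- number of changed colours
  set Ch := (pal A d .A3).filter (fun b => ∃ hb : b < d + 2, Φ' ⟨b, hb⟩ ≠ Φ ⟨b, hb⟩) with hCh
  have hChc : (Ch.card : ℝ) ≤ 6 * (θ * d) := by
    have h1 : Ch.card ≤ (univ.filter (fun b => Φ' b ≠ Φ b)).card := by
      rw [← card_image_of_injective (univ.filter (fun b => Φ' b ≠ Φ b)) Fin.val_injective]
      apply card_le_card
      intro b hb
      rw [hCh, mem_filter] at hb
      obtain ⟨_, hb1, hb2⟩ := hb
      rw [mem_image]
      exact ⟨⟨b, hb1⟩, by rw [mem_filter]; exact ⟨mem_univ _, hb2⟩, rfl⟩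
    have h2 : Zt.card ≤ P.V0.card := card_le_card (filter_subset _ _)
    have h2' : (univ.filter (fun b => Φ' b ≠ Φ b)).card ≤
        (univ.filter (fun b => Φ' b ≠ Φ1 b)).card + (univ.filter (fun b => Φ1 b ≠ Φ b)).card := by
      refine le_trans (card_le_card ?_) (card_union_le _ _)
      intro b hb
      rw [mem_filter] at hb
      rw [mem_union, mem_filter, mem_filter]
      by_cases e1 : Φ' b = Φ1 b
      · exact Or.inr ⟨mem_univ _, fun e2 => hb.2 (e1.trans e2)⟩
      · exact Or.inl ⟨mem_univ _, e1⟩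
    have h3 : Ch.card ≤ 5 * P.V0.card + 2 * k := by omega
    have h4 : (Ch.card : ℝ) ≤ 5 * (P.V0.card : ℝ) + 2 * k := by exact_mod_cast h3
    linarith
  have hsum3 : ∀ (f f' : ℕ → ℤ), (∀ b ∈ pal A d .A3, |f' b - f b| ≤ 5) →
      (∀ b ∈ pal A d .A3, b ∉ Ch → f' b = f b) →
      |((∑ b ∈ pal A d .A3, f' b : ℤ) : ℝ) - ((∑ b ∈ pal A d .A3, f b : ℤ) : ℝ)| ≤
        30 * (θ * d) := by
    intro f f' h1 h2
    have h3 : |∑ b ∈ pal A d .A3, f' b - ∑ b ∈ pal A d .A3, f b| ≤ 5 * Ch.card := by
      rw [← sum_sub_distrib]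
      refine (abs_sum_le_sum_abs _ _).trans ?_
      rw [← sum_subset (filter_subset _ _ : Ch ⊆ pal A d .A3)]
      · calc ∑ b ∈ Ch, |f' b - f b| ≤ ∑ _b ∈ Ch, (5 : ℤ) :=
              sum_le_sum (fun b hb => h1 b ((filter_subset _ _ : Ch ⊆ pal A d .A3) hb))
          _ = 5 * Ch.card := by rw [sum_const, nsmul_eq_mul]; ring
      · intro b hb hb'
        rw [h2 b hb hb', sub_self, abs_zero]
    have h4 : |((∑ b ∈ pal A d .A3, f' b : ℤ) : ℝ) - ((∑ b ∈ pal A d .A3, f b : ℤ) : ℝ)| ≤
        5 * (Ch.card : ℝ) := by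
      rw [← Int.cast_sub, ← Int.cast_abs]
      exact_mod_cast h3
    linarith
  have hnoch : ∀ b ∈ pal A d .A3, b ∉ Ch → ∀ g x, qb P Φ' b g x = qb P Φ b g x := by
    intro b hb hb' g x
    have h1 := mem_pal.1 hb
    apply qb_same P Φ Φ' b h1.1 g x
    by_contra hne
    exact hb' (by rw [hCh, mem_filter]; exact ⟨hb, h1.1, hne⟩)
  refine ⟨Φ', ⟨hM.alw, a1, ?_, ?_, ?_, ?_, ?_, ?_, ?_, ?_, ?_, ?_⟩, ?_⟩
  · intro b v w hvw hb
    by_cases hbB : b ∈ B
    · have h1 := a1.adj b (some v) (by rw [hb]; exact fun e => hvw (Option.some_inj.1 e).symm)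
      rw [hb] at h1
      obtain ⟨a, ha⟩ := b1.cov _ _ h1
      have h2 := typ1 a v w hvw ha
      by_cases haB : a ∈ B
      · rw [hB, mem_filter] at hbB haB
        have h3 : gpn A b = .A3 := hbB.2
        have h4 : gpn A a = .A3 := haB.2
        rw [h3, ← h2, h4]
      · have h3 := a2 a haB
        have hne : a ≠ b := fun e => haB (e ▸ hbB)
        have h4 := a1.dis a b (some v) hne (by rw [h3, ha, hb])
        rw [h3, ha] at h4
        exact absurd (Option.some_inj.1 h4).symm hvw
    · rw [a2 b hbB] at hb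
      exact typ1 b v w hvw hb
  · intro b v hb
    obtain ⟨h1, h2⟩ := howb b v hb
    have h3 := (b3 v h1).1
    rw [hB, mem_filter] at h3
    rw [h2]; exact h3.2
  · intro b
    have h1 := a5' b
    have h2 : (cov P.V0 Φ' b).card ≤ (cov P.V0 Φ b).card + 6 := by
      have h3 : cov P.V0 Φ' b ⊆ cov P.V0 Φ b ∪ (cov P.V0 Φ' b \ cov P.V0 Φ b) := by
        intro v hv
        rw [mem_union, mem_sdiff]
        tauto
      have := (card_le_card h3).trans (card_union_le _ _)
      omega
    have h3 : ((cov P.V0 Φ' b).card : ℝ) ≤ ((cov P.V0 Φ b).card : ℝ) + 6 := by exact_mod_cast h2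
    have h4 := hM.load b
    linarith
  · intro b hb x hty
    have h1 := hM.q2 b hb x hty
    have h2 := hch b (mem_range.1 hb) (gpn A b) x
    rw [abs_le] at h1 h2 ⊢
    omega
  · intro g x hty
    have h1 := hM.sum g x hty
    by_cases hg : g = .A3
    · subst hg
      have h2 := hsum3 (fun b => qb P Φ b .A3 x) (fun b => qb P Φ' b .A3 x)
        (fun b hb => hch b (mem_pal.1 hb).1 .A3 x) (fun b hb hb' => hnoch b hb hb' .A3 x)
      rw [abs_le] at h1 h2 ⊢
      constructor <;> linarith [h1.1, h1.2, h2.1, h2.2]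
    · rw [sum_congr rfl (fun b hb => hsame g hg b hb g x)]
      refine h1.trans ?_
      have : 0 ≤ θ * d := by positivity
      linarith
  · intro x hty hx2 σ hσ
    have hm : ∀ g, isP1 g = true → ((∑ b ∈ pal A d g, max (σ * qb P Φ b .A0 x) 0 : ℤ) : ℝ) ≤
        6 / 10 * (pal A d g).card := by
      intro g hg
      have h1 := hM.ned g x (Or.inl hty) σ hσ
      have h2 : ∀ b, qb P Φ b .A0 x = qb P Φ b g x := fun b => qb_congr .A0 g (by rw [hg]; rfl) b x
      simp only [h2]
      exact h1
    have h0 : ∀ g, g ≠ .A3 → isP1 g = true →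
        ((∑ b ∈ pal A d g, max (σ * qb P Φ' b .A0 x) 0 : ℤ) : ℝ) ≤ 6 / 10 * (pal A d g).card := by
      intro g hg hg1
      rw [sum_congr rfl (fun b hb => by rw [hsame g hg b hb .A0 x])]
      exact hm g hg1
    have h3 : ((∑ b ∈ pal A d .A3, max (σ * qb P Φ' b .A0 x) 0 : ℤ) : ℝ) ≤
        6 / 10 * (pal A d .A3).card + 30 * (θ * d) := by
      have h2 := hsum3 (fun b => max (σ * qb P Φ b .A0 x) 0) (fun b => max (σ * qb P Φ' b .A0 x) 0)
        (fun b hb => by
          have h4 := hch b (mem_pal.1 hb).1 .A0 x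
          rw [abs_le] at h4 ⊢
          rcases hσ with rfl | rfl
          · omega
          · omega)
        (fun b hb hb' => by rw [hnoch b hb hb' .A0 x])
      have h5 := hm .A3 rfl
      rw [abs_le] at h2
      linarith [h2.2]
    have hcard : ((pal A d .A0).card : ℝ) + (pal A d .A1).card + (pal A d .A2).card +
        (pal A d .A3).card ≤ d + 2 - 2 * (e * d) := by
      have s0 := card_sdiff_add_card_eq_card hA.Q0
      have s1 := card_sdiff_add_card_eq_card hA.Q1
      have s2 := card_sdiff_add_card_eq_card hA.P2C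
      have s3 := card_C0 hA
      rw [pal_A0 hA, pal_A1 hA, pal_A2 hA, pal_A3 hA]
      have q0 := (hA.Qc false).1
      have q1 := (hA.Qc true).1
      have ek : e * d ≤ κ * d := mul_le_mul_of_nonneg_right hn.eκ hd0
      have s4 : (A.C 0 \ A.Q false).card + (A.C 1 \ A.Q true).card + (A.C 2 \ A.P2).card +
          (A.C0 d).card + (A.Q false).card + (A.Q true).card ≤ d + 2 := by omega
      have s5 : ((A.C 0 \ A.Q false).card : ℝ) + (A.C 1 \ A.Q true).card + (A.C 2 \ A.P2).card +
          (A.C0 d).card + (A.Q false).card + (A.Q true).card ≤ d + 2 := by exact_mod_cast s4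
      linarith
    rw [sum_union, sum_union, sum_union]
    · rw [Int.cast_add, Int.cast_add, Int.cast_add]
      have e0 := h0 .A0 (by simp) rfl
      have e1 := h0 .A1 (by simp) rfl
      have e2 := h0 .A2 (by simp) rfl
      linarith
    · exact pal_disj _ _ (by simp)
    · rw [disjoint_union_left]
      exact ⟨pal_disj _ _ (by simp), pal_disj _ _ (by simp)⟩
    · rw [disjoint_union_left, disjoint_union_left]
      exact ⟨⟨pal_disj _ _ (by simp), pal_disj _ _ (by simp)⟩, pal_disj _ _ (by simp)⟩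
  · intro g x hty hg
    have hg3 : g ≠ .A3 := by
      intro h; rw [h] at hg; exact absurd hg (by simp [isP1])
    have h1 := hM.nn g x (Or.inl hty)
    have h2 : (pal A d g).filter (fun b => 0 ≤ qb P Φ' b g x) =
        (pal A d g).filter (fun b => 0 ≤ qb P Φ b g x) := by
      apply filter_congr
      intro b hb
      rw [hsame g hg3 b hb g x]
    rw [h2]
    have h3 : ((pal A d g).card : ℝ) ≤
        4 * (((pal A d g).filter (fun b => 0 ≤ qb P Φ b g x)).card : ℝ) := by
      have : (0 : ℝ) ≤ (((pal A d g).filter (fun b => 0 ≤ qb P Φ b g x)).card : ℝ) :=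
        Nat.cast_nonneg _
      linarith
    exact_mod_cast h3
  · intro z hz n β hrg b hb
    obtain ⟨_, h2⟩ := howb b z hb
    have hzt : z ∈ Zt := by
      rw [hZt, mem_filter]
      exact ⟨hz, by rw [hrg]; simp⟩
    have h3 := a4 z hzt
    obtain ⟨n', β', h4, _, h5, h6⟩ := hrgs z hzt
    rw [hrg, Option.some_inj, Prod.mk.injEq] at h4
    rw [h5, h6, ← h4.1, ← h4.2] at h3
    rw [h2]
    exact h3
  · intro g x hty hg
    have hg3 : g ≠ .A3 := by
      intro h; rw [h] at hg; exact absurd hg (by simp [isP1])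
    have h1 := hM.np g x (Or.inl hty)
    have h2 : (pal A d g).filter (fun b => qb P Φ' b g x ≤ 0) =
        (pal A d g).filter (fun b => qb P Φ b g x ≤ 0) := by
      apply filter_congr
      intro b hb
      rw [hsame g hg3 b hb g x]
    rw [h2]
    have h3 : ((pal A d g).card : ℝ) ≤
        4 * (((pal A d g).filter (fun b => qb P Φ b g x ≤ 0)).card : ℝ) := by
      have : (0 : ℝ) ≤ (((pal A d g).filter (fun b => qb P Φ b g x ≤ 0)).card : ℝ) :=
        Nat.cast_nonneg _
      linarith
    exact_mod_cast h3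
  · intro z hz n β hty hrg
    exact n11.trans (supply G d P A hD hPD hA hn hθ hεd τ hτ n β hty z hz hrg)
  · intro z hz b hb u v huv
    obtain ⟨_, h2⟩ := howb b z hb
    rw [h2]
    exact a7 z hz u v huv

end fr

end Pool.Agent.Work.MP_db9399_dp.helper82
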