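import Pool.Agent.Work.MP_db9399_dp_helper82.PREAll
import Pool.Agent.Work.MP_db9399_dp_helper82.FinRes3
import Pool.Agent.Work.MP_db9399_dp.PreE

/-! # PRE with protected edges (helper82) -/

set_option autoImplicit false

namespace Pool.Agent.Work.MP_db9399_dp.helper82

open Finset Classical
open Pool.Agent.Work.MP_db9399_all (nb)
open Pool.Agent.Work.MP_db9399_da

universe u

theorem stmt_PREE_of (hTYPE : Stmt_TYPE.{u}) (hTSUM : Stmt_TSUM.{u}) (hCSUM : Stmt_CSUM.{u})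
    (hEQC : Stmt_EQC.{u}) : Stmt_PREE.{u} := by
  intro C g ρ ρ' K π κ ε M k hC hg hg1 hρ' hρ hρ1 hK hπ hπ1 hκ hκ1 hε
  obtain ⟨s0, hs0, hE⟩ := hEQC (Jl M) Gr
  obtain ⟨e, ε0, he, hε0, hε01, hnum⟩ := nums M (s0 + k + 2) π κ K ε hπ hπ1 hκ hκ1 hK hε
  refine ⟨ε0, hε0, hε01, ?_⟩
  intro ε1 hε1 hε1le
  obtain ⟨ζ0, hζ0, hnum⟩ := hnum ε1 hε1 hε1le
  refine ⟨ζ0, hζ0, ?_⟩
  intro ζ hζ hζle
  obtain ⟨θ0, hθ0, hnum⟩ := hnum ζ hζ hζle
  refine ⟨θ0, hθ0, ?_⟩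
  intro θ hθ hθle
  obtain ⟨d0, hnum⟩ := hnum θ hθ hθle
  refine ⟨max d0 ⌈2 * (k : ℝ) / θ⌉₊, ?_⟩
  intro V _ G E0 d P A hd hD _ hPD hA hE0
  have hn := hnum d ((le_max_left _ _).trans hd)
  have hd0 : (0 : ℝ) ≤ d := Nat.cast_nonneg d
  have hdk : 2 * (k : ℝ) ≤ θ * d := by
    have h1 : 2 * (k : ℝ) / θ ≤ d :=
      (Nat.le_ceil _).trans (by exact_mod_cast (le_max_right _ _).trans hd)
    rw [div_le_iff₀ hθ] at h1
    linarith
  have hq : 0 ≤ θ / e * d := by positivity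
  have hs : ((s0 + k + 2 : ℕ) : ℝ) * (θ / e * d + 1) =
      s0 * (θ / e * d + 1) + (k + 2) * (θ / e * d + 1) := by push_cast; ring
  have hk2 : (k : ℝ) + 2 ≤ (k + 2) * (θ / e * d + 1) := by
    have : (0 : ℝ) ≤ (k + 2) * (θ / e * d) := by positivity
    linarith
  have n6 := hn.n6
  have n10 := hn.n10
  have n4 := hn.n4
  rw [hs] at n6 n10
  push_cast at n4
  have hk0 : (0 : ℝ) ≤ k := Nat.cast_nonneg k
  have hs00 : (0 : ℝ) ≤ s0 := Nat.cast_nonneg s0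
  have hl0 : 0 ≤ (s0 : ℝ) * (θ / e * d + 1) := by positivity
  have hθd : 0 ≤ θ * d := by positivity
  have he1 : e ≤ 1 := by
    have := hn.num.ec
    norm_num at this
    linarith
  have hRHS : e * (ζ / 4 * d - θ * d) - 2 * M * (42 + 2 * M * (ζ ^ 2 * d)) ≤ 1 / 32 * (e * d) := by
    have h1 : 0 ≤ 2 * (M : ℝ) * (42 + 2 * M * (ζ ^ 2 * d)) := by positivity
    have h2 : 0 ≤ e * (θ * d) := by positivity
    have h3 : ζ ≤ 1 / 8 := by
      have := hn.n1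
      linarith
    have h4 : ζ * (e * d) ≤ 1 / 8 * (e * d) := mul_le_mul_of_nonneg_right h3 (by positivity)
    have h5 : e * (ζ / 4 * d - θ * d) = ζ * (e * d) / 4 - e * (θ * d) := by ring
    rw [h5]
    linarith
  have hed : 0 < e * d := by
    have := hn.n7
    have h1 : 0 ≤ ζ * d := by positivity
    linarith
  obtain ⟨st, hin⟩ := tyin G d P A hD hPD hA hn.num hn.h2 hn.hR hn.hL hn.hζ hn.hε
  obtain ⟨τ, hτ⟩ := hTYPE (thin G P) P.V0 (clv P) (alv P) (rhoT A d) (fun _ => mt A d)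
    (Bdz ε1 G P) st e (1 / ε1) (K * ζ * d) hin
  obtain ⟨Φ, hΦ⟩ := mid hTSUM hCSUM s0 hE G d P A hD hPD hA hn.num hK hε1 hζ hθ τ hτ hn.n1 hn.n2
    hn.n3 (by linarith) hn.n5
  obtain ⟨Φ', hΦ', hE'⟩ := fin_res3 G E0 d k P A hD hPD hA hn.num hζ hθ hn.hε τ hτ Φ hΦ hl0 hE0
    (by linarith) hn.n7 hn.n8 hn.n9 (by linarith) hn.n11 (by linarith) hdk
  refine ⟨tc Φ', oc Φ', P.V0.image (oc Φ'), conv hA hε hΦ', ?_⟩
  intro v w hvw hE1 hcon
  rw [mem_image] at hcon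
  obtain ⟨z, hz, h1⟩ := hcon
  obtain ⟨b, h2, h3⟩ := oc_ex hΦ'.col z hz
  obtain ⟨b', h4, h5⟩ := tc_ex hΦ'.col v w hvw
  have hbb : b = b' := Fin.ext (by rw [← h3, h1, h5])
  rw [← hbb] at h4
  exact hE' z hz b h2 v w hE1 h4

/-- PRE with protected edges, without hypotheses -/
theorem stmt_PREE : Stmt_PREE.{u} :=
  stmt_PREE_of tYPE helper22.stmt_TSUM stmt_CSUM eQC

end Pool.Agent.Work.MP_db9399_dp.helper82
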