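import Pool.Agent.Work.MP_db9399_dp_helper82.PRE
import Pool.Agent.Work.MP_db9399_dp.CSUM
import Pool.Agent.Work.MP_db9399_dp.RSUM
import Pool.Agent.Work.MP_db9399_dp_helper22.DEAL
import Pool.Agent.Work.MP_db9399_dp_helper22.EQS
import Pool.Agent.Work.MP_db9399_dp_helper22.EQU
import Pool.Agent.Work.MP_db9399_dp_helper22.TSUM
import Pool.Agent.Work.MP_db9399_dp_helper29.HALLT
import Pool.Agent.Work.MP_db9399_dp_helper29.RK1
import Pool.Agent.Work.MP_db9399_dp_helper31.EQC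
import Pool.Agent.Work.MP_db9399_dp_helper31.GLUE
import Pool.Agent.Work.MP_db9399_dp_helper4.TYZZ
import Pool.Agent.Work.MP_db9399_dp_helper45.GCOL
import Pool.Agent.Work.MP_db9399_dp_helper45.ICOL
import Pool.Agent.Work.MP_db9399_dp_helper83.TYAB
import Pool.Agent.Work.MP_db9399_dp_helper83.TYPE
import Pool.Agent.Work.MP_db9399_dp_helper92.EQG
import Pool.Agent.Work.MP_db9399_dp_helper92.TYPZ

/-! # PRE without hypotheses (helper82; blocks by helper4, 22, 29, 31, 39, 45, 83, 92) -/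

set_option autoImplicit false

namespace Pool.Agent.Work.MP_db9399_dp.helper82

open Pool.Agent.Work.MP_db9399_da

universe u

theorem tYPE : Stmt_TYPE.{u} :=
  helper83.stmt_TYPE (helper92.stmt_TYPZ MP_db9399_dp_helper29.stmt_HALLT
    MP_db9399_dp_helper29.stmt_RK1) helper4.stmt_TYZZ
    (helper83.stmt_TYAB MP_db9399_dp_helper29.stmt_HALLT)

theorem eQC : Stmt_EQC.{u} :=
  helper31.stmt_EQC (helper45.stmt_ICOL helper45.stmt_GCOL)
    (helper92.stmt_EQG helper22.stmt_EQU helper22.stmt_DEAL helper22.stmt_EQS stmt_RSUM)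
    helper31.stmt_GLUE stmt_CSUM

/-- PRE with the additional exports (phase 2) -/
theorem stmt_PREx_all : Stmt_PREx.{u} :=
  stmt_PREx tYPE helper22.stmt_TSUM stmt_CSUM eQC stmt_ADJ2

/-- PRE -/
theorem stmt_PRE_all : Stmt_PRE.{u} :=
  stmt_PRE tYPE helper22.stmt_TSUM stmt_CSUM eQC stmt_ADJ2

end Pool.Agent.Work.MP_db9399_dp.helper82
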