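import Pool.Agent.Work.MP_db9399_dp.Interface

/-! # ADJ: sign corrections at own colours (helper82) -/

set_option autoImplicit false

namespace Pool.Agent.Work.MP_db9399_dp.helper82

open Finset Classical
open Pool.Agent.Work.MP_db9399_all (nb)

universe u

/-- changing two colours of a colouring -/
theorem icol_mod {W β : Type*} [DecidableEq W] [DecidableEq β] {E : SimpleGraph W} {P : β → W → W} (h : ICol E P) (b c : β)
    (hbc : b ≠ c) (f g : W → W) (hf : ∀ v, f (f v) = v) (hg : ∀ v, g (g v) = v)
    (hd : ∀ v, f v = g v → f v = v)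
    (hu : ∀ v w, v ≠ w → ((f v = w ∨ g v = w) ↔ (P b v = w ∨ P c v = w))) :
    ICol E (fun a v => if a = b then f v else if a = c then g v else P a v) := by
  have key : ∀ a v, a ≠ b → a ≠ c → (f v = P a v ∨ g v = P a v) → P a v = v := by
    intro a v hab hac h1
    by_contra hne
    have h2 := (hu v (P a v) (Ne.symm hne)).1 h1
    rcases h2 with h2 | h2
    · exact hne (by have := h.dis a b v hab h2.symm; exact this)
    · exact hne (by have := h.dis a c v hac h2.symm; exact this)
  constructor
  · intro a v
    split_ifs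
    · exact hf v
    · exact hg v
    · exact h.inv a v
  · intro a a' v haa he
    split_ifs at he ⊢ with h1 h2 h3 h4 h5 h6
    · exact absurd (h1.trans h2.symm) haa
    · exact hd v he
    · have := key a' v h2 h3 (Or.inl he)
      rw [he, this]
    · rw [he]; rw [← he]
      exact (he ▸ hd v he.symm : g v = v)
    · exact absurd (h4.trans h6.symm) haa
    · have := key a' v h5 h6 (Or.inr he)
      rw [he, this]
    · exact key a v h1 h4 (Or.inl he.symm)
    · exact key a v h1 h4 (Or.inr he.symm)
    · exact h.dis a a' v haa he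
  · intro a v hne
    split_ifs at hne ⊢ with h1 h2
    · rcases (hu v (f v) (Ne.symm hne)).1 (Or.inl rfl) with h3 | h3
      · rw [← h3]; exact h.adj b v (by rw [h3]; exact hne)
      · rw [← h3]; exact h.adj c v (by rw [h3]; exact hne)
    · rcases (hu v (g v) (Ne.symm hne)).1 (Or.inr rfl) with h3 | h3
      · rw [← h3]; exact h.adj b v (by rw [h3]; exact hne)
      · rw [← h3]; exact h.adj c v (by rw [h3]; exact hne)
    · exact h.adj a v hne
  · intro v w hvw
    obtain ⟨a, ha⟩ := h.cov v w hvw
    have hne := hvw.ne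
    by_cases hab : a = b
    · have := (hu v w hne).2 (Or.inl (hab ▸ ha))
      rcases this with h1 | h1
      · exact ⟨b, by rw [if_pos rfl]; exact h1⟩
      · exact ⟨c, by rw [if_neg (Ne.symm hbc), if_pos rfl]; exact h1⟩
    · by_cases hac : a = c
      · have := (hu v w hne).2 (Or.inr (hac ▸ ha))
        rcases this with h1 | h1
        · exact ⟨b, by rw [if_pos rfl]; exact h1⟩
        · exact ⟨c, by rw [if_neg (Ne.symm hbc), if_pos rfl]; exact h1⟩
      · exact ⟨a, by rw [if_neg hab, if_neg hac]; exact ha⟩

/-- recolouring the edge `x y` from `b` to `c` -/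
theorem icol_rec {W β : Type*} [DecidableEq W] [DecidableEq β] {E : SimpleGraph W} {P : β → W → W} (h : ICol E P) (b c : β)
    (hbc : b ≠ c) (x y : W) (hxy : x ≠ y) (h1 : P b x = y) (h2 : P c x = x) (h3 : P c y = y) :
    ICol E (fun a v => if a = b then (if v = x ∨ v = y then v else P b v)
      else if a = c then (if v = x then y else if v = y then x else P c v) else P a v) := by
  have h1' : P b y = x := by rw [← h1, h.inv]
  refine icol_mod h b c hbc _ _ ?_ ?_ ?_ ?_
  · intro v
    by_cases hv : v = x ∨ v = y
    · rw [if_pos hv, if_pos hv]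
    · rw [if_neg hv]
      have h4 : ¬ (P b v = x ∨ P b v = y) := by
        rintro (h5 | h5)
        · apply hv; right; rw [← h1, ← h5, h.inv]
        · apply hv; left; rw [← h1', ← h5, h.inv]
      rw [if_neg h4, h.inv]
  · intro v
    by_cases hvx : v = x
    · rw [if_pos hvx, if_neg hxy.symm, if_pos rfl, hvx]
    · by_cases hvy : v = y
      · rw [if_neg hvx, if_pos hvy, if_pos rfl, hvy]
      · rw [if_neg hvx, if_neg hvy]
        have h5 : P c v ≠ x := fun h5 => hvx (by rw [← h2, ← h5, h.inv])
        have h6 : P c v ≠ y := fun h6 => hvy (by rw [← h3, ← h6, h.inv])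
        rw [if_neg h5, if_neg h6, h.inv]
  · intro v
    by_cases hv : v = x ∨ v = y
    · rw [if_pos hv]
      intro _; trivial
    · rw [if_neg hv]
      push Not at hv
      rw [if_neg hv.1, if_neg hv.2]
      exact h.dis b c v hbc
  · intro v w hvw
    by_cases hvx : v = x
    · subst hvx
      rw [if_pos (Or.inl rfl), if_pos rfl, h1, h2]
      tauto
    · by_cases hvy : v = y
      · subst hvy
        rw [if_pos (Or.inr rfl), if_neg hvx, if_pos rfl, h1', h3]
        tauto
      · rw [if_neg (by tauto), if_neg hvx, if_neg hvy]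

/-- exchanging the colours of `z x` and `z w` -/
theorem icol_exc {W β : Type*} [DecidableEq W] [DecidableEq β] {E : SimpleGraph W} {P : β → W → W} (h : ICol E P) (b c : β)
    (hbc : b ≠ c) (z x w : W) (hzx : z ≠ x) (hzw : z ≠ w) (hxw : x ≠ w) (h1 : P b z = x)
    (h2 : P c z = w) (h3 : P c x = x) (h4 : P b w = w) :
    ICol E (fun a v => if a = b then
        (if v = z then w else if v = w then z else if v = x then x else P b v)
      else if a = c then
        (if v = z then x else if v = x then z else if v = w then w else P c v)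
      else P a v) := by
  have h1' : P b x = z := by rw [← h1, h.inv]
  have h2' : P c w = z := by rw [← h2, h.inv]
  refine icol_mod h b c hbc _ _ ?_ ?_ ?_ ?_
  · intro v
    by_cases hvz : v = z
    · rw [if_pos hvz, if_neg hzw.symm, if_pos rfl, hvz]
    · by_cases hvw : v = w
      · rw [if_neg hvz, if_pos hvw, if_pos rfl, hvw]
      · by_cases hvx : v = x
        · rw [if_neg hvz, if_neg hvw, if_pos hvx, if_neg hzx.symm, if_neg hxw, if_pos rfl, hvx]
        · rw [if_neg hvz, if_neg hvw, if_neg hvx]
          have a1 : P b v ≠ z := fun a => hvx (by rw [← h1, ← a, h.inv])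
          have a2 : P b v ≠ w := fun a => hvw (by rw [← h4, ← a, h.inv])
          have a3 : P b v ≠ x := fun a => hvz (by rw [← h1', ← a, h.inv])
          rw [if_neg a1, if_neg a2, if_neg a3, h.inv]
  · intro v
    by_cases hvz : v = z
    · rw [if_pos hvz, if_neg hzx.symm, if_pos rfl, hvz]
    · by_cases hvx : v = x
      · rw [if_neg hvz, if_pos hvx, if_pos rfl, hvx]
      · by_cases hvw : v = w
        · rw [if_neg hvz, if_neg hvx, if_pos hvw, if_neg hzw.symm, if_neg hxw.symm, if_pos rfl,
            hvw]
        · rw [if_neg hvz, if_neg hvx, if_neg hvw]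
          have a1 : P c v ≠ z := fun a => hvw (by rw [← h2, ← a, h.inv])
          have a2 : P c v ≠ w := fun a => hvz (by rw [← h2', ← a, h.inv])
          have a3 : P c v ≠ x := fun a => hvx (by rw [← h3, ← a, h.inv])
          rw [if_neg a1, if_neg a3, if_neg a2, h.inv]
  · intro v
    by_cases hvz : v = z
    · rw [if_pos hvz, if_pos hvz]
      intro h; exact absurd h.symm hxw
    · by_cases hvw : v = w
      · subst hvw
        rw [if_neg hvz, if_pos rfl, if_neg hvz, if_neg (Ne.symm hxw), if_pos rfl]
        intro h; exact absurd h hzw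
      · by_cases hvx : v = x
        · subst hvx
          rw [if_neg hvz, if_neg hvw, if_pos rfl]
          intro _; trivial
        · rw [if_neg hvz, if_neg hvw, if_neg hvx, if_neg hvz, if_neg hvx, if_neg hvw]
          exact h.dis b c v hbc
  · intro v u hvu
    by_cases hvz : v = z
    · subst hvz
      rw [if_pos rfl, if_pos rfl, h1, h2]
      tauto
    · by_cases hvw : v = w
      · subst hvw
        rw [if_neg hvz, if_pos rfl, if_neg hvz, if_neg (Ne.symm hxw), if_pos rfl, h4, h2']
        tauto
      · by_cases hvx : v = x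
        · subst hvx
          rw [if_neg hvz, if_neg hvw, if_pos rfl, if_neg hvz, if_pos rfl, h1', h3]
          tauto
        · rw [if_neg hvz, if_neg hvw, if_neg hvx, if_neg hvz, if_neg hvx, if_neg hvw]

/-- result of one step: the colours `b` and `c` are changed -/
structure Stp {V : Type u} {β : Type} [Fintype V] (F : SimpleGraph V) (V0 : Finset V)
    (P P1 : β → Option V → Option V) (B : Finset β) (b c : β) (A A' : Finset V) : Prop where
  col : ICol (star F V0) P1
  oth : ∀ a, a ≠ b → a ≠ c → P1 a = P a
  nn : ∀ a, P1 a none = P a none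
  eq : ∀ u v, u ≠ v → ((∃ a ∈ B, P1 a u = v) ↔ ∃ a ∈ B, P a u = v)
  b1 : (cov V0 P1 b \ cov V0 P b).card ≤ 1
  b2 : (cov V0 P b \ cov V0 P1 b).card ≤ 2
  c1 : (cov V0 P1 c \ cov V0 P c).card ≤ 2
  c2 : (cov V0 P c \ cov V0 P1 c).card ≤ 1
  bl : (cov V0 P1 b).card ≤ (cov V0 P b).card
  dec : (cov V0 P1 b ∩ A).card + (cov V0 P b ∩ A').card + 1 ≤
    (cov V0 P b ∩ A).card + (cov V0 P1 b ∩ A').card

theorem eq_of_mod {W β : Type*} [DecidableEq W] [DecidableEq β] {P : β → W → W} (B : Finset β) (b c : β) (hb : b ∈ B)
    (hc : c ∈ B) (hbc : b ≠ c) (f g : W → W)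
    (hu : ∀ v w, v ≠ w → ((f v = w ∨ g v = w) ↔ (P b v = w ∨ P c v = w))) (u v : W)
    (huv : u ≠ v) :
    (∃ a ∈ B, (if a = b then f u else if a = c then g u else P a u) = v) ↔ ∃ a ∈ B, P a u = v := by
  constructor
  · rintro ⟨a, ha, h⟩
    split_ifs at h with h1 h2
    · rcases (hu u v huv).1 (Or.inl h) with h3 | h3
      · exact ⟨b, hb, h3⟩
      · exact ⟨c, hc, h3⟩
    · rcases (hu u v huv).1 (Or.inr h) with h3 | h3
      · exact ⟨b, hb, h3⟩
      · exact ⟨c, hc, h3⟩
    · exact ⟨a, ha, h⟩
  · rintro ⟨a, ha, h⟩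
    by_cases hab : a = b
    · rcases (hu u v huv).2 (Or.inl (hab ▸ h)) with h3 | h3
      · exact ⟨b, hb, by rw [if_pos rfl]; exact h3⟩
      · exact ⟨c, hc, by rw [if_neg (Ne.symm hbc), if_pos rfl]; exact h3⟩
    · by_cases hac : a = c
      · rcases (hu u v huv).2 (Or.inr (hac ▸ h)) with h3 | h3
        · exact ⟨b, hb, by rw [if_pos rfl]; exact h3⟩
        · exact ⟨c, hc, by rw [if_neg (Ne.symm hbc), if_pos rfl]; exact h3⟩
      · exact ⟨a, ha, by rw [if_neg hab, if_neg hac]; exact h⟩

theorem mem_cov {V : Type u} {β : Type} [Fintype V] (V0 : Finset V)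
    (P : β → Option V → Option V) (b : β) (v : V) :
    v ∈ cov V0 P b ↔ v ∉ V0 ∧ P b (some v) ≠ some v := by
  unfold cov; simp

/-- a colour is changed in one step by `erase` -/
theorem stp_rec {V : Type u} {β : Type} [Fintype V] (F : SimpleGraph V) (V0 : Finset V)
    (P : β → Option V → Option V) (B : Finset β) (b c : β) (A A' : Finset V)
    (h : ICol (star F V0) P) (hb : b ∈ B) (hc : c ∈ B) (hbc : b ≠ c) (x y : V) (hxy : x ≠ y)
    (h1 : P b (some x) = some y) (h2 : P c (some x) = some x) (h3 : P c (some y) = some y)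
    (hx : x ∉ V0) (hy : y ∉ V0) (hxA : x ∈ A) (hxA' : x ∉ A') (hyA' : y ∉ A') :
    ∃ P1, Stp F V0 P P1 B b c A A' := by
  have hxy' : (some x : Option V) ≠ some y := fun e => hxy (Option.some_inj.1 e)
  have h1' : P b (some y) = some x := by rw [← h1, h.inv]
  set P1 : β → Option V → Option V := fun a v => if a = b then
      (if v = some x ∨ v = some y then v else P b v)
      else if a = c then (if v = some x then some y else if v = some y then some x else P c v)
      else P a v with hP1
  have hcb : cov V0 P1 b = cov V0 P b \ {x, y} := by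
    ext v
    rw [mem_cov, mem_sdiff, mem_cov, mem_insert, mem_singleton]
    simp only [hP1, if_true, Option.some_inj]
    by_cases hv : v = x ∨ v = y
    · rw [if_pos hv]; tauto
    · rw [if_neg hv]; tauto
  have hcc : cov V0 P1 c = cov V0 P c ∪ {x, y} := by
    ext v
    rw [mem_cov, mem_union, mem_cov, mem_insert, mem_singleton]
    simp only [hP1, if_neg (Ne.symm hbc), if_true, Option.some_inj]
    by_cases hvx : v = x
    · subst hvx
      rw [if_pos rfl]
      simp only [ne_eq, Option.some_inj]
      have := hxy.symm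
      tauto
    · by_cases hvy : v = y
      · subst hvy
        rw [if_neg hvx, if_pos rfl]
        simp only [ne_eq, Option.some_inj]
        tauto
      · rw [if_neg hvx, if_neg hvy]; tauto
  have hxc : x ∈ cov V0 P b := by
    rw [mem_cov, h1]; exact ⟨hx, hxy'.symm⟩
  refine ⟨P1, ?_, ?_, ?_, ?_, ?_, ?_, ?_, ?_, ?_, ?_⟩
  · exact icol_rec h b c hbc (some x) (some y) hxy' h1 h2 h3
  · intro a ha1 ha2
    funext v
    simp only [hP1]
    rw [if_neg ha1, if_neg ha2]
  · intro a
    simp only [hP1, reduceCtorEq, or_self, if_false]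
    split_ifs with e1 e2
    · rw [e1]
    · rw [e2]
    · rfl
  · intro u v huv
    refine eq_of_mod (P := P) B b c hb hc hbc
      (fun v => if v = some x ∨ v = some y then v else P b v)
      (fun v => if v = some x then some y else if v = some y then some x else P c v)
      ?_ u v huv
    intro v w hvw
    by_cases hvx : v = some x
    · subst hvx
      rw [if_pos (Or.inl rfl), if_pos rfl, h1, h2]
      tauto
    · by_cases hvy : v = some y
      · subst hvy
        rw [if_pos (Or.inr rfl), if_neg hvx, if_pos rfl, h1', h3]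
        tauto
      · rw [if_neg (by tauto), if_neg hvx, if_neg hvy]
  · rw [hcb]
    have : (cov V0 P b \ {x, y}) \ cov V0 P b = ∅ := by
      ext v; simp only [mem_sdiff, notMem_empty, iff_false]; tauto
    rw [this]; simp
  · rw [hcb]
    refine (card_le_card (t := {x, y}) ?_).trans card_le_two
    intro v hv
    rw [mem_sdiff, mem_sdiff] at hv
    tauto
  · rw [hcc]
    refine (card_le_card (t := {x, y}) ?_).trans card_le_two
    intro v hv
    rw [mem_sdiff, mem_union] at hv
    tauto
  · rw [hcc]
    have : cov V0 P c \ (cov V0 P c ∪ {x, y}) = ∅ := by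
      ext v; simp only [mem_sdiff, mem_union, notMem_empty, iff_false]; tauto
    rw [this]; simp
  · rw [hcb]; exact card_le_card sdiff_subset
  · rw [hcb]
    have e1 : (cov V0 P b \ {x, y}) ∩ A' = cov V0 P b ∩ A' := by
      ext v
      simp only [mem_inter, mem_sdiff, mem_insert, mem_singleton]
      constructor
      · tauto
      · rintro ⟨e1, e2⟩
        refine ⟨⟨e1, ?_⟩, e2⟩
        rintro (rfl | rfl)
        · exact hxA' e2
        · exact hyA' e2
    have e2 : ((cov V0 P b \ {x, y}) ∩ A).card < (cov V0 P b ∩ A).card := by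
      apply card_lt_card
      refine ⟨inter_subset_inter_right sdiff_subset, fun e => ?_⟩
      have := e (mem_inter.2 ⟨hxc, hxA⟩)
      rw [mem_inter, mem_sdiff, mem_insert] at this
      tauto
    rw [e1]; omega

theorem stp_exc {V : Type u} {β : Type} [Fintype V] (F : SimpleGraph V) (V0 : Finset V)
    (P : β → Option V → Option V) (B : Finset β) (b c : β) (A A' : Finset V)
    (h : ICol (star F V0) P) (hb : b ∈ B) (hc : c ∈ B) (hbc : b ≠ c) (z x w : V)
    (hz : z ∈ V0) (hx : x ∉ V0) (hw : w ∉ V0)
    (h1 : P b (some z) = some x) (h2 : P c (some z) = some w) (h3 : P c (some x) = some x)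
    (h4 : P b (some w) = some w) (hxA : x ∈ A) (hxA' : x ∉ A') (hwA : w ∉ A) :
    ∃ P1, Stp F V0 P P1 B b c A A' := by
  have hzx : (some z : Option V) ≠ some x := fun e => hx (Option.some_inj.1 e ▸ hz)
  have hzw : (some z : Option V) ≠ some w := fun e => hw (Option.some_inj.1 e ▸ hz)
  have hxw0 : x ≠ w := fun e => hwA (e ▸ hxA)
  have hxw : (some x : Option V) ≠ some w := fun e => hxw0 (Option.some_inj.1 e)
  have hzx0 : z ≠ x := fun e => hx (e ▸ hz)
  have hzw0 : z ≠ w := fun e => hw (e ▸ hz)
  have h1' : P b (some x) = some z := by rw [← h1, h.inv]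
  have h2' : P c (some w) = some z := by rw [← h2, h.inv]
  set P1 : β → Option V → Option V := fun a v => if a = b then
        (if v = some z then some w else if v = some w then some z else
          if v = some x then some x else P b v)
      else if a = c then
        (if v = some z then some x else if v = some x then some z else
          if v = some w then some w else P c v)
      else P a v with hP1
  have hcb : cov V0 P1 b = insert w ((cov V0 P b).erase x) := by
    ext v
    rw [mem_cov, mem_insert, mem_erase, mem_cov]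
    simp only [hP1, if_true, Option.some_inj]
    by_cases hvz : v = z
    · subst hvz
      tauto
    · by_cases hvw : v = w
      · subst hvw
        rw [if_neg hvz, if_pos rfl]
        simp only [ne_eq, Option.some_inj]
        tauto
      · by_cases hvx : v = x
        · subst hvx
          rw [if_neg hvz, if_neg hvw, if_pos rfl]
          tauto
        · rw [if_neg hvz, if_neg hvw, if_neg hvx]
          tauto
  have hcc : cov V0 P1 c = insert x ((cov V0 P c).erase w) := by
    ext v
    rw [mem_cov, mem_insert, mem_erase, mem_cov]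
    simp only [hP1, if_neg (Ne.symm hbc), if_true, Option.some_inj]
    by_cases hvz : v = z
    · subst hvz
      tauto
    · by_cases hvx : v = x
      · subst hvx
        rw [if_neg hvz, if_pos rfl]
        simp only [ne_eq, Option.some_inj]
        tauto
      · by_cases hvw : v = w
        · subst hvw
          rw [if_neg hvz, if_neg hvx, if_pos rfl]
          tauto
        · rw [if_neg hvz, if_neg hvx, if_neg hvw]
          tauto
  have hxc : x ∈ cov V0 P b := by
    rw [mem_cov, h1']; exact ⟨hx, hzx⟩
  have hwc : w ∉ cov V0 P b := by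
    rw [mem_cov, h4]; tauto
  refine ⟨P1, ?_, ?_, ?_, ?_, ?_, ?_, ?_, ?_, ?_, ?_⟩
  · exact icol_exc h b c hbc (some z) (some x) (some w) hzx hzw hxw h1 h2 h3 h4
  · intro a ha1 ha2
    funext v
    simp only [hP1]
    rw [if_neg ha1, if_neg ha2]
  · intro a
    simp only [hP1, reduceCtorEq, if_false]
    split_ifs with e1 e2
    · rw [e1]
    · rw [e2]
    · rfl
  · intro u v huv
    refine eq_of_mod (P := P) B b c hb hc hbc
      (fun v => if v = some z then some w else if v = some w then some z else
          if v = some x then some x else P b v)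
      (fun v => if v = some z then some x else if v = some x then some z else
          if v = some w then some w else P c v)
      ?_ u v huv
    intro v u hvu
    by_cases hvz : v = some z
    · subst hvz
      rw [if_pos rfl, if_pos rfl, h1, h2]
      tauto
    · by_cases hvw : v = some w
      · subst hvw
        rw [if_neg hvz, if_pos rfl, if_neg hvz, if_neg (Ne.symm hxw), if_pos rfl, h4, h2']
        tauto
      · by_cases hvx : v = some x
        · subst hvx
          rw [if_neg hvz, if_neg hvw, if_pos rfl, if_neg hvz, if_pos rfl, h1', h3]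
          tauto
        · rw [if_neg hvz, if_neg hvw, if_neg hvx, if_neg hvz, if_neg hvx, if_neg hvw]
  · rw [hcb]
    refine (card_le_card (t := {w}) ?_).trans (by simp)
    intro v hv
    rw [mem_sdiff, mem_insert, mem_erase] at hv
    rw [mem_singleton]; tauto
  · rw [hcb]
    refine (card_le_card (t := {x}) ?_).trans (by simp)
    intro v hv
    rw [mem_sdiff, mem_insert, mem_erase] at hv
    rw [mem_singleton]; tauto
  · rw [hcc]
    refine (card_le_card (t := {x}) ?_).trans (by simp)
    intro v hv
    rw [mem_sdiff, mem_insert, mem_erase] at hv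
    rw [mem_singleton]; tauto
  · rw [hcc]
    refine (card_le_card (t := {w}) ?_).trans (by simp)
    intro v hv
    rw [mem_sdiff, mem_insert, mem_erase] at hv
    rw [mem_singleton]; tauto
  · rw [hcb]
    have e1 := card_insert_le w ((cov V0 P b).erase x)
    have e2 := card_erase_of_mem hxc
    have e3 : 0 < (cov V0 P b).card := card_pos.2 ⟨x, hxc⟩
    omega
  · rw [hcb]
    have e1 : (cov V0 P b ∩ A') ⊆ insert w ((cov V0 P b).erase x) ∩ A' := by
      intro v hv
      rw [mem_inter] at hv ⊢
      refine ⟨?_, hv.2⟩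
      rw [mem_insert, mem_erase]
      right
      exact ⟨fun e => hxA' (e ▸ hv.2), hv.1⟩
    have e2 : (insert w ((cov V0 P b).erase x) ∩ A).card < (cov V0 P b ∩ A).card := by
      apply card_lt_card
      refine ⟨?_, fun e => ?_⟩
      · intro v hv
        rw [mem_inter, mem_insert, mem_erase] at hv
        rw [mem_inter]
        rcases hv.1 with e | e
        · exact absurd (e ▸ hv.2) hwA
        · exact ⟨e.2, hv.2⟩
      · have := e (mem_inter.2 ⟨hxc, hxA⟩)
        rw [mem_inter, mem_insert, mem_erase] at this
        tauto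
    have e3 := card_le_card e1
    omega

theorem star_ss {V : Type u} (F : SimpleGraph V) (V0 : Finset V) (v w : V) :
    (star F V0).Adj (some v) (some w) ↔ F.Adj v w := by
  unfold star
  rw [SimpleGraph.fromRel_adj]
  constructor
  · rintro ⟨_, h | h⟩
    · rcases h with ⟨a, b, h1, h2, h3⟩ | ⟨z, _, h1, _⟩
      · rw [Option.some_inj] at h1 h2; rw [h1, h2]; exact h3
      · exact absurd h1 (by simp)
    · rcases h with ⟨a, b, h1, h2, h3⟩ | ⟨z, _, h1, _⟩
      · rw [Option.some_inj] at h1 h2; rw [h1, h2]; exact h3.symm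
      · exact absurd h1 (by simp)
  · intro h
    refine ⟨fun e => h.ne (Option.some_inj.1 e), Or.inl (Or.inl ⟨v, w, rfl, rfl, h⟩)⟩

theorem star_sn {V : Type u} (F : SimpleGraph V) (V0 : Finset V) (v : V) :
    (star F V0).Adj (some v) none ↔ v ∈ V0 := by
  unfold star
  rw [SimpleGraph.fromRel_adj]
  constructor
  · rintro ⟨_, h | h⟩
    · rcases h with ⟨a, b, h1, h2, h3⟩ | ⟨z, _, h1, _⟩
      · exact absurd h2 (by simp)
      · exact absurd h1 (by simp)
    · rcases h with ⟨a, b, h1, h2, h3⟩ | ⟨z, hz, _, h1⟩
      · exact absurd h1 (by simp)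
      · rw [Option.some_inj] at h1; rw [h1]; exact hz
  · intro h
    exact ⟨by simp, Or.inr (Or.inr ⟨v, h, rfl, rfl⟩)⟩

/-- the colours at a vertex outside `V0` -/
theorem cx_card {V : Type u} {β : Type} [Fintype V] [Fintype β] (F : SimpleGraph V)
    (V0 : Finset V) (P : β → Option V → Option V) (h : ICol (star F V0) P) (x : V)
    (hx : x ∉ V0) :
    (univ.filter (fun a => P a (some x) ≠ some x)).card ≤ (nb F x).card := by
  rw [← card_image_of_injective (nb F x) (Option.some_injective V)]
  refine card_le_card_of_injOn (fun a => P a (some x)) ?_ ?_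
  · intro a ha
    rw [mem_coe, mem_filter] at ha
    rw [mem_coe, mem_image]
    have h1 := h.adj a (some x) ha.2
    cases hq : P a (some x) with
    | none => rw [hq, star_sn] at h1; exact absurd h1 hx
    | some y =>
      rw [hq, star_ss] at h1
      exact ⟨y, by unfold nb; simp [h1], hq.symm ▸ rfl⟩
  · intro a ha a' ha' he
    rw [mem_coe, mem_filter] at ha
    by_contra hne
    exact ha.2 (h.dis a a' (some x) hne he)

theorem sub_step {V : Type u} {β : Type} [Fintype V] [Fintype β] (F : SimpleGraph V)
    (V0 : Finset V) (P : β → Option V → Option V) (B : Finset β) (o : V → β) (Us : Finset β)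
    (z : V) (A A' : Finset V) (s l : ℕ) (h : ICol (star F V0) P) (hz : z ∈ V0)
    (ho : ∀ z' ∈ V0, o z' ∈ B ∧ P (o z') none = some z')
    (hAA : Disjoint A A')
    (hF : ∀ v ∈ A, ∀ w ∈ A', ¬ F.Adj v w)
    (hD : (cov V0 P (o z) ∩ A').card < (cov V0 P (o z) ∩ A).card)
    (hs : ∀ v, v ∉ V0 → (nb F v).card ≤ s) (hl : (cov V0 P (o z)).card ≤ l)
    (hUs : Us.card ≤ 2 * V0.card) (hB : 3 * V0.card + 2 * s < B.card)
    (hsup : ∀ z' ∈ V0, 3 * V0.card + s + l + 4 < ((nb F z').filter (fun w => w ∉ V0 ∧
      w ∉ A ∧ ∃ b ∈ B, P b (some z') = some w)).card) :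
    ∃ c P1, c ∈ B ∧ c ∉ Us ∧ (∀ z' ∈ V0, c ≠ o z') ∧ Stp F V0 P P1 B (o z) c A A' := by
  have hob := (ho z hz).1
  have hne : (cov V0 P (o z) ∩ A).Nonempty := by
    rw [← card_pos]; omega
  obtain ⟨x, hx⟩ := hne
  rw [mem_inter, mem_cov] at hx
  obtain ⟨⟨hx0, hxc⟩, hxA⟩ := hx
  have hxA' : x ∉ A' := fun e => (disjoint_left.1 hAA hxA e)
  have hadj := h.adj (o z) (some x) hxc
  have hcx := (cx_card F V0 P h x hx0).trans (hs x hx0)
  have hO : (V0.image o).card ≤ V0.card := card_image_le
  cases hq : P (o z) (some x) with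
  | none => rw [hq, star_sn] at hadj; exact absurd hadj hx0
  | some y =>
    rw [hq, star_ss] at hadj
    by_cases hy : y ∈ V0
    · -- exchange
      have h1 : P (o z) (some y) = some x := by rw [← hq, h.inv]
      set Wf := (nb F y).filter (fun w => w ∉ V0 ∧ w ∉ A ∧ ∃ b ∈ B, P b (some y) = some w)
        with hWf
      set Cx := univ.filter (fun a => P a (some x) ≠ some x) with hCx
      set Bad : Finset (Option V) := (V0.image o ∪ Us ∪ Cx).image (fun c => P c (some y)) ∪
        (cov V0 P (o z)).image some with hBad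
      have hbc : Bad.card < (Wf.image some).card := by
        rw [card_image_of_injective _ (Option.some_injective V)]
        refine lt_of_le_of_lt ?_ (hsup y hy)
        calc Bad.card ≤ ((V0.image o ∪ Us ∪ Cx).image (fun c => P c (some y))).card +
              ((cov V0 P (o z)).image some).card := card_union_le _ _
          _ ≤ (V0.image o ∪ Us ∪ Cx).card + (cov V0 P (o z)).card :=
              Nat.add_le_add card_image_le card_image_le
          _ ≤ ((V0.image o).card + Us.card + Cx.card) + (cov V0 P (o z)).card := by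
              have e1 := card_union_le (V0.image o ∪ Us) Cx
              have e2 := card_union_le (V0.image o) Us
              omega
          _ ≤ 3 * V0.card + s + l + 4 := by omega
      obtain ⟨w', hw', hwb⟩ : ∃ w ∈ Wf.image some, w ∉ Bad := by
        by_contra hcon
        push Not at hcon
        exact absurd (card_le_card (fun w hw => hcon w hw)) (not_le.2 hbc)
      rw [mem_image] at hw'
      obtain ⟨w, hw, rfl⟩ := hw'
      rw [hWf, mem_filter] at hw
      obtain ⟨hw1, hw0, hwA, c, hcB, hcw⟩ := hw
      rw [hBad, mem_union, mem_image, mem_image] at hwb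
      push Not at hwb
      obtain ⟨hwb1, hwb2⟩ := hwb
      have hcn : c ∉ V0.image o ∪ Us ∪ Cx := fun e => hwb1 c e hcw
      rw [mem_union, mem_union] at hcn
      push Not at hcn
      obtain ⟨⟨hc1, hc2⟩, hc3⟩ := hcn
      rw [mem_image] at hc1
      push Not at hc1
      rw [hCx, mem_filter] at hc3
      push Not at hc3
      have h3 : P c (some x) = some x := hc3 (mem_univ _)
      have h4 : P (o z) (some w) = some w := by
        by_contra hcon
        exact hwb2 w ((mem_cov V0 P (o z) w).2 ⟨hw0, hcon⟩) rfl
      obtain ⟨P1, hP1⟩ := stp_exc F V0 P B (o z) c A A' h hob hcB (hc1 z hz) y x w hy hx0 hw0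
        h1 hcw h3 h4 hxA hxA' hwA
      exact ⟨c, P1, hcB, hc2, fun z' hz' => (hc1 z' hz').symm, hP1⟩
    · -- recolouring
      have hyA' : y ∉ A' := fun e => hF x hxA y e hadj
      have hcy := (cx_card F V0 P h y hy).trans (hs y hy)
      set Cx := univ.filter (fun a => P a (some x) ≠ some x) with hCx
      set Cy := univ.filter (fun a => P a (some y) ≠ some y) with hCy
      obtain ⟨c, hcB, hcn⟩ : ∃ c ∈ B, c ∉ V0.image o ∪ Us ∪ Cx ∪ Cy := by
        by_contra hcon
        push Not at hcon
        have e0 := card_le_card (fun c hc => hcon c hc)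
        have e1 := card_union_le (V0.image o ∪ Us ∪ Cx) Cy
        have e2 := card_union_le (V0.image o ∪ Us) Cx
        have e3 := card_union_le (V0.image o) Us
        omega
      rw [mem_union, mem_union, mem_union] at hcn
      push Not at hcn
      obtain ⟨⟨⟨hc1, hc2⟩, hc3⟩, hc4⟩ := hcn
      rw [mem_image] at hc1
      push Not at hc1
      rw [hCx, mem_filter] at hc3
      push Not at hc3
      rw [hCy, mem_filter] at hc4
      push Not at hc4
      obtain ⟨P1, hP1⟩ := stp_rec F V0 P B (o z) c A A' h hob hcB (hc1 z hz) x y hadj.ne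
        hq (hc3 (mem_univ _)) (hc4 (mem_univ _)) hx0 hy hxA hxA' hyA'
      exact ⟨c, P1, hcB, hc2, fun z' hz' => (hc1 z' hz').symm, hP1⟩

/-- state after the vertices of `S` have been treated -/
structure Sta {V : Type u} {β : Type} [Fintype V] (F : SimpleGraph V) (V0 : Finset V)
    (P P1 : β → Option V → Option V) (B : Finset β) (o : V → β) (A A' : V → Finset V)
    (Us : Finset β) (S : Finset V) (z : Option V) : Prop where
  col : ICol (star F V0) P1
  out : ∀ b, b ∉ B → P1 b = P b
  own : ∀ z ∈ V0, P1 (o z) none = some z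
  sgn : ∀ z ∈ S, (cov V0 P1 (o z) ∩ A z).card ≤ (cov V0 P1 (o z) ∩ A' z).card
  unt : ∀ b, b ∉ Us → (∀ z ∈ S, b ≠ o z) → (∀ z', z = some z' → b ≠ o z') → P1 b = P b
  uso : ∀ z ∈ V0, o z ∉ Us
  ch : ∀ b, (∀ z', z = some z' → b ≠ o z') →
    (cov V0 P1 b \ cov V0 P b).card ≤ 4 ∧ (cov V0 P b \ cov V0 P1 b).card ≤ 4
  eq : ∀ u v, u ≠ v → ((∃ a ∈ B, P1 a u = v) ↔ ∃ a ∈ B, P a u = v)

theorem inner {V : Type u} {β : Type} [Fintype V] [Fintype β] (F : SimpleGraph V)
    (V0 : Finset V) (P : β → Option V → Option V) (B : Finset β) (o : V → β)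
    (A A' : V → Finset V) (s l : ℕ) (z : V) (S : Finset V) (hz : z ∈ V0) (hzS : z ∉ S)
    (hSV : S ⊆ V0)
    (ho : ∀ z' ∈ V0, o z' ∈ B ∧ P (o z') none = some z')
    (hAA : Disjoint (A z) (A' z))
    (hF : ∀ v ∈ A z, ∀ w ∈ A' z, ¬ F.Adj v w)
    (hs : ∀ v, v ∉ V0 → (nb F v).card ≤ s)
    (hB : 3 * V0.card + 2 * s < B.card)
    (hsup : ∀ z' ∈ V0, 3 * V0.card + s + l + 4 < ((nb F z').filter (fun w => w ∉ V0 ∧
      w ∉ A z ∧ ∃ b ∈ B, P b (some z') = some w)).card) (k : ℕ) :
    ∀ (P2 : β → Option V → Option V) (Us2 : Finset β), k ≤ 2 →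
      Sta F V0 P P2 B o A A' Us2 S (some z) → Us2.card ≤ 2 * S.card + (2 - k) →
      (cov V0 P2 (o z)).card ≤ l →
      (cov V0 P2 (o z) ∩ A z).card ≤ (cov V0 P2 (o z) ∩ A' z).card + k →
      (cov V0 P2 (o z) \ cov V0 P (o z)).card ≤ 2 - k →
      (cov V0 P (o z) \ cov V0 P2 (o z)).card ≤ 2 * (2 - k) →
      ∃ (P3 : β → Option V → Option V) (Us3 : Finset β),
        Sta F V0 P P3 B o A A' Us3 (insert z S) none ∧ Us3.card ≤ 2 * (insert z S).card := by
  induction k with
  | zero =>
    intro P2 Us2 _ h2 hU _ hD hc1 hc2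
    refine ⟨P2, Us2, ?_, by rw [card_insert_of_notMem hzS]; omega⟩
    refine ⟨h2.col, h2.out, h2.own, ?_, ?_, h2.uso, ?_, h2.eq⟩
    · intro z' hz'
      rcases mem_insert.1 hz' with rfl | h3
      · simpa using hD
      · exact h2.sgn z' h3
    · intro b hb hb2 _
      exact h2.unt b hb (fun z' hz' => hb2 z' (mem_insert_of_mem hz'))
        (fun z' hz' => by rw [← Option.some_inj.1 hz']; exact hb2 z (mem_insert_self _ _))
    · intro b _
      by_cases hb : b = o z
      · subst hb; omega
      · exact h2.ch b (fun z' hz' => by rw [← Option.some_inj.1 hz']; exact hb)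
  | succ k ih =>
    intro P2 Us2 hk h2 hU hl hD hc1 hc2
    by_cases hD2 : (cov V0 P2 (o z) ∩ A z).card ≤ (cov V0 P2 (o z) ∩ A' z).card
    · refine ⟨P2, Us2, ?_, by rw [card_insert_of_notMem hzS]; omega⟩
      refine ⟨h2.col, h2.out, h2.own, ?_, ?_, h2.uso, ?_, h2.eq⟩
      · intro z' hz'
        rcases mem_insert.1 hz' with rfl | h3
        · exact hD2
        · exact h2.sgn z' h3
      · intro b hb hb2 _
        exact h2.unt b hb (fun z' hz' => hb2 z' (mem_insert_of_mem hz'))
          (fun z' hz' => by rw [← Option.some_inj.1 hz']; exact hb2 z (mem_insert_self _ _))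
      · intro b _
        by_cases hb : b = o z
        · subst hb; omega
        · exact h2.ch b (fun z' hz' => by rw [← Option.some_inj.1 hz']; exact hb)
    · push Not at hD2
      have hScard : S.card + 1 ≤ V0.card := by
        rw [← card_insert_of_notMem hzS]
        exact card_le_card (insert_subset hz hSV)
      obtain ⟨c, P3, hcB, hcU, hco, hst⟩ := sub_step F V0 P2 B o Us2 z (A z) (A' z) s l h2.col hz
        (fun z' hz' => ⟨(ho z' hz').1, h2.own z' hz'⟩) hAA hF hD2 hs hl (by omega) hB
        (fun z' hz' => by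
          refine lt_of_lt_of_eq (hsup z' hz') ?_
          congr 1
          apply filter_congr
          intro w _
          have e1 : w ∉ V0 → ((∃ b ∈ B, P2 b (some z') = some w) ↔
              ∃ b ∈ B, P b (some z') = some w) := fun hw =>
            h2.eq _ _ (fun e => hw (Option.some_inj.1 e ▸ hz'))
          by_cases hw : w ∈ V0
          · simp only [hw, not_true, false_and]
          · rw [e1 hw])
      have hcz := hco z hz
      have hPc : P2 c = P c := h2.unt c hcU (fun z' hz' => hco z' (hSV hz'))
        (fun z' hz' => by rw [← Option.some_inj.1 hz']; exact hcz)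
      refine ih P3 (insert c Us2) (by omega) ?_ ?_ (hst.bl.trans hl) ?_ ?_ ?_
      · refine ⟨hst.col, ?_, ?_, ?_, ?_, ?_, ?_, ?_⟩
        · intro b hb
          rw [hst.oth b (fun e => hb (e ▸ (ho z hz).1)) (fun e => hb (e ▸ hcB))]
          exact h2.out b hb
        · intro z' hz'
          rw [hst.nn]; exact h2.own z' hz'
        · intro z' hz'
          have hne : o z' ≠ o z := by
            intro e
            have e1 := (ho z' (hSV hz')).2
            rw [e, (ho z hz).2] at e1
            exact hzS (Option.some_inj.1 e1 ▸ hz')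
          have e2 : P3 (o z') = P2 (o z') := hst.oth _ hne (hco z' (hSV hz')).symm
          have e3 : cov V0 P3 (o z') = cov V0 P2 (o z') := by unfold cov; rw [e2]
          rw [e3]; exact h2.sgn z' hz'
        · intro b hb hb2 hb3
          rw [mem_insert] at hb
          push Not at hb
          rw [hst.oth b (hb3 z rfl) hb.1]
          exact h2.unt b hb.2 hb2 hb3
        · intro z' hz'
          rw [mem_insert]
          push Not
          exact ⟨(hco z' hz').symm, h2.uso z' hz'⟩
        · intro b hb
          by_cases hbc : b = c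
          · subst hbc
            have e1 : cov V0 P2 b = cov V0 P b := by unfold cov; rw [hPc]
            have e2 := hst.c1
            have e3 := hst.c2
            rw [e1] at e2 e3
            omega
          · have e2 : P3 b = P2 b := hst.oth _ (hb z rfl) hbc
            have e3 : cov V0 P3 b = cov V0 P2 b := by unfold cov; rw [e2]
            rw [e3]; exact h2.ch b hb
        · intro u v huv
          rw [hst.eq u v huv]; exact h2.eq u v huv
      · have := card_insert_le c Us2
        omega
      · have := hst.dec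
        omega
      · have e1 : cov V0 P3 (o z) \ cov V0 P (o z) ⊆
            (cov V0 P3 (o z) \ cov V0 P2 (o z)) ∪ (cov V0 P2 (o z) \ cov V0 P (o z)) := by
          intro v hv
          rw [mem_sdiff] at hv
          rw [mem_union, mem_sdiff, mem_sdiff]
          tauto
        have e2 := (card_le_card e1).trans (card_union_le _ _)
        have e3 := hst.b1
        omega
      · have e1 : cov V0 P (o z) \ cov V0 P3 (o z) ⊆
            (cov V0 P (o z) \ cov V0 P2 (o z)) ∪ (cov V0 P2 (o z) \ cov V0 P3 (o z)) := by
          intro v hv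
          rw [mem_sdiff] at hv
          rw [mem_union, mem_sdiff, mem_sdiff]
          tauto
        have e2 := (card_le_card e1).trans (card_union_le _ _)
        have e3 := hst.b2
        omega

theorem stmt_ADJ : Stmt_ADJ.{u} := by
  intro V _ β _ F V0 Zt P B o A A' s l hP hZt ho hA hF hD hs hl hB hsup
  have main : ∀ S : Finset V, S ⊆ Zt → ∃ (P1 : β → Option V → Option V) (Us : Finset β),
      Sta F V0 P P1 B o A A' Us S none ∧ Us.card ≤ 2 * S.card := by
    intro S
    induction S using Finset.induction_on with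
    | empty =>
      intro _
      refine ⟨P, ∅, ⟨hP, fun _ _ => rfl, fun z hz => (ho z hz).2, ?_, fun _ _ _ _ => rfl, ?_, ?_,
        fun _ _ _ => Iff.rfl⟩, by simp⟩
      · intro z hz; exact absurd hz (notMem_empty z)
      · intro z _; exact notMem_empty _
      · intro b _; simp
    | insert z S hzS ih =>
      intro hSZ
      have hzZ : z ∈ Zt := hSZ (mem_insert_self _ _)
      have hSZ' : S ⊆ Zt := fun v hv => hSZ (mem_insert_of_mem hv)
      obtain ⟨P1, Us, h1, hU⟩ := ih hSZ'
      have hne : ∀ z' ∈ S, o z ≠ o z' := by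
        intro z' hz' e
        have e1 := (ho z (hZt hzZ)).2
        rw [e, (ho z' (hZt (hSZ' hz'))).2] at e1
        exact hzS (Option.some_inj.1 e1 ▸ hz')
      have hoz : P1 (o z) = P (o z) := h1.unt (o z) (h1.uso z (hZt hzZ)) hne
        (fun z' hz' => absurd hz' (by simp))
      have hcz : cov V0 P1 (o z) = cov V0 P (o z) := by unfold cov; rw [hoz]
      refine inner F V0 P B o A A' s l z S (hZt hzZ) hzS (hSZ'.trans hZt) ho
        (hA z hzZ).2.2 (hF z hzZ) hs hB (hsup z hzZ) 2 P1 Us le_rfl ?_ (by omega) ?_ ?_ ?_ ?_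
      · exact ⟨h1.col, h1.out, h1.own, h1.sgn, fun b hb hb2 _ => h1.unt b hb hb2
          (fun z' hz' => absurd hz' (by simp)), h1.uso, fun b _ => h1.ch b
          (fun z' hz' => absurd hz' (by simp)), h1.eq⟩
      · rw [hcz]; exact hl z hzZ
      · rw [hcz]; exact hD z hzZ
      · rw [hcz]; simp
      · rw [hcz]; simp
  obtain ⟨P1, Us, h1, hU⟩ := main Zt subset_rfl
  refine ⟨P1, h1.col, h1.out, h1.own, h1.sgn, fun b => h1.ch b
    (fun z' hz' => absurd hz' (by simp)), ?_⟩
  have hsub : (univ.filter (fun b => cov V0 P1 b ≠ cov V0 P b)) ⊆ Us ∪ Zt.image o := by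
    intro b hb
    rw [mem_filter] at hb
    by_contra hcon
    rw [mem_union, mem_image] at hcon
    push Not at hcon
    apply hb.2
    have := h1.unt b hcon.1 (fun z hz e => hcon.2 z hz e.symm)
      (fun z' hz' => absurd hz' (by simp))
    unfold cov; rw [this]
  have e1 := (card_le_card hsub).trans (card_union_le _ _)
  have e2 : (Zt.image o).card ≤ Zt.card := card_image_le
  omega

end Pool.Agent.Work.MP_db9399_dp.helper82
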