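import Pool.Agent.Work.MP_db9399_dp.Pre
import Pool.Agent.Work.MP_db9399_dp_helper82.ADJ

/-! # ADJ2: sign corrections at own colours, second version (helper82) -/

set_option autoImplicit false

namespace Pool.Agent.Work.MP_db9399_dp.helper82

open Finset Classical
open Pool.Agent.Work.MP_db9399_all (nb)

universe u

/-- result of one step: the colour `b` and the colours of `N` are changed -/
structure Stq {V : Type u} {β : Type} [Fintype V] (F : SimpleGraph V) (V0 : Finset V)
    (P P1 : β → Option V → Option V) (B : Finset β) (b : β) (N : Finset β) (A A' : Finset V) :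
    Prop where
  col : ICol (star F V0) P1
  oth : ∀ a, a ≠ b → a ∉ N → P1 a = P a
  nn : ∀ a, P1 a none = P a none
  eq : ∀ u v, u ≠ v → ((∃ a ∈ B, P1 a u = v) ↔ ∃ a ∈ B, P a u = v)
  bb : (cov V0 P1 b \ cov V0 P b).card + (cov V0 P b \ cov V0 P1 b).card ≤ 3
  ca : ∀ a ∈ N, (cov V0 P1 a \ cov V0 P a).card + (cov V0 P a \ cov V0 P1 a).card ≤ 6
  bl : (cov V0 P1 b).card ≤ (cov V0 P b).card
  dec : (cov V0 P1 b ∩ A).card + (cov V0 P b ∩ A').card + 1 ≤
    (cov V0 P b ∩ A).card + (cov V0 P1 b ∩ A').card

theorem stq_of_stp {V : Type u} {β : Type} [Fintype V] {F : SimpleGraph V} {V0 : Finset V}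
    {P P1 : β → Option V → Option V} {B : Finset β} {b c : β} {A A' : Finset V}
    (h : Stp F V0 P P1 B b c A A') : Stq F V0 P P1 B b {c} A A' := by
  refine ⟨h.col, ?_, h.nn, h.eq, ?_, ?_, h.bl, h.dec⟩
  · intro a h1 h2
    exact h.oth a h1 (by simpa using h2)
  · have := h.b1; have := h.b2; omega
  · intro a ha
    rw [mem_singleton] at ha
    subst ha
    have := h.c1; have := h.c2; omega

/-- the edge `x y` gets the colour `c'` instead of `c` -/
theorem pre_rec {V : Type u} {β : Type} [Fintype V] (F : SimpleGraph V) (V0 : Finset V)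
    (P : β → Option V → Option V) (B : Finset β) (c c' : β)
    (h : ICol (star F V0) P) (hb : c ∈ B) (hc : c' ∈ B) (hbc : c ≠ c') (x y : V) (hxy : x ≠ y)
    (h1 : P c (some x) = some y) (h2 : P c' (some x) = some x) (h3 : P c' (some y) = some y) :
    ∃ P1 : β → Option V → Option V, ICol (star F V0) P1 ∧ (∀ a, a ≠ c → a ≠ c' → P1 a = P a) ∧
      (∀ a, P1 a none = P a none) ∧
      (∀ u v, u ≠ v → ((∃ a ∈ B, P1 a u = v) ↔ ∃ a ∈ B, P a u = v)) ∧
      P1 c (some x) = some x ∧ (∀ v, v ≠ x → v ≠ y → P1 c (some v) = P c (some v)) ∧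
      ((cov V0 P1 c \ cov V0 P c).card = 0 ∧ (cov V0 P c \ cov V0 P1 c).card ≤ 2) ∧
      (cov V0 P1 c' \ cov V0 P c').card ≤ 2 ∧ (cov V0 P c' \ cov V0 P1 c').card = 0 := by
  have hxy' : (some x : Option V) ≠ some y := fun e => hxy (Option.some_inj.1 e)
  have h1' : P c (some y) = some x := by rw [← h1, h.inv]
  set P1 : β → Option V → Option V := fun a v => if a = c then
      (if v = some x ∨ v = some y then v else P c v)
      else if a = c' then (if v = some x then some y else if v = some y then some x else P c' v)
      else P a v with hP1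
  have o1 : ∀ v, v ≠ x → v ≠ y → P1 c (some v) = P c (some v) := by
    intro v e1 e2
    simp only [hP1, if_true, Option.some_inj]
    rw [if_neg (by tauto)]
  have o2 : ∀ v, v ≠ x → v ≠ y → P1 c' (some v) = P c' (some v) := by
    intro v e1 e2
    simp only [hP1, if_neg (Ne.symm hbc), if_true, Option.some_inj]
    rw [if_neg e1, if_neg e2]
  have hx1 : P1 c (some x) = some x := by
    simp only [hP1, if_true, true_or]
  have hy1 : P1 c (some y) = some y := by
    simp only [hP1, if_true, or_true]
  refine ⟨P1, icol_rec h c c' hbc (some x) (some y) hxy' h1 h2 h3, ?_, ?_, ?_, hx1, o1,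
    ⟨?_, ?_⟩, ?_, ?_⟩
  · intro a ha1 ha2
    funext v
    simp only [hP1]
    rw [if_neg ha1, if_neg ha2]
  · intro a
    simp only [hP1, reduceCtorEq, or_self, if_false]
    split_ifs with e1 e2
    · rw [e1]
    · rw [e2]
    · rfl
  · intro u v huv
    refine eq_of_mod (P := P) B c c' hb hc hbc
      (fun v => if v = some x ∨ v = some y then v else P c v)
      (fun v => if v = some x then some y else if v = some y then some x else P c' v)
      ?_ u v huv
    intro v w hvw
    by_cases hvx : v = some x
    · subst hvx
      rw [if_pos (Or.inl rfl), if_pos rfl, h1, h2]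
      tauto
    · by_cases hvy : v = some y
      · subst hvy
        rw [if_pos (Or.inr rfl), if_neg hvx, if_pos rfl, h1', h3]
        tauto
      · rw [if_neg (by tauto), if_neg hvx, if_neg hvy]
  · rw [card_eq_zero, sdiff_eq_empty_iff_subset]
    intro v hv
    rw [mem_cov] at hv ⊢
    refine ⟨hv.1, ?_⟩
    by_cases e1 : v = x
    · subst e1; exact absurd hx1 hv.2
    · by_cases e2 : v = y
      · subst e2; exact absurd hy1 hv.2
      · rw [← o1 v e1 e2]; exact hv.2
  · refine (card_le_card (t := {x, y}) ?_).trans card_le_two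
    intro v hv
    rw [mem_sdiff, mem_cov, mem_cov] at hv
    rw [mem_insert, mem_singleton]
    by_contra hcon
    push Not at hcon
    rw [o1 v hcon.1 hcon.2] at hv
    tauto
  · refine (card_le_card (t := {x, y}) ?_).trans card_le_two
    intro v hv
    rw [mem_sdiff, mem_cov, mem_cov] at hv
    rw [mem_insert, mem_singleton]
    by_contra hcon
    push Not at hcon
    rw [o2 v hcon.1 hcon.2] at hv
    tauto
  · rw [card_eq_zero, sdiff_eq_empty_iff_subset]
    intro v hv
    rw [mem_cov] at hv ⊢
    refine ⟨hv.1, ?_⟩
    have e1 : v ≠ x := fun e => hv.2 (by rw [e, h2])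
    have e2 : v ≠ y := fun e => hv.2 (by rw [e, h3])
    rw [o2 v e1 e2]; exact hv.2

theorem sub_step2 {V : Type u} {β : Type} [Fintype V] [Fintype β] (F : SimpleGraph V)
    (V0 : Finset V) (P : β → Option V → Option V) (B : Finset β) (o : V → β) (Us : Finset β)
    (z : V) (A A' : Finset V) (s l : ℕ) (h : ICol (star F V0) P) (hz : z ∈ V0)
    (ho : ∀ z' ∈ V0, o z' ∈ B ∧ P (o z') none = some z')
    (hAA : Disjoint A A')
    (hF : ∀ v ∈ A, ∀ w ∈ A', ¬ F.Adj v w)
    (hD : (cov V0 P (o z) ∩ A').card < (cov V0 P (o z) ∩ A).card)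
    (hs : ∀ v, v ∉ V0 → (nb F v).card ≤ s) (hl : (cov V0 P (o z)).card ≤ l)
    (hUs : Us.card ≤ 4 * V0.card) (hB : 5 * V0.card + 2 * s + 1 < B.card)
    (hsup : ∀ z' ∈ V0, 6 * V0.card + l < ((nb F z').filter (fun w => w ∉ V0 ∧
      w ∉ A ∧ ∃ b ∈ B, P b (some z') = some w)).card) :
    ∃ N P1, N ⊆ B ∧ N.card ≤ 2 ∧ Disjoint N Us ∧ (∀ c ∈ N, ∀ z' ∈ V0, c ≠ o z') ∧
      Stq F V0 P P1 B (o z) N A A' := by
  have hob := (ho z hz).1
  have hne : (cov V0 P (o z) ∩ A).Nonempty := by
    rw [← card_pos]; omega
  obtain ⟨x, hx⟩ := hne
  rw [mem_inter, mem_cov] at hx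
  obtain ⟨⟨hx0, hxc⟩, hxA⟩ := hx
  have hxA' : x ∉ A' := fun e => (disjoint_left.1 hAA hxA e)
  have hadj := h.adj (o z) (some x) hxc
  have hcx := (cx_card F V0 P h x hx0).trans (hs x hx0)
  have hO : (V0.image o).card ≤ V0.card := card_image_le
  cases hq : P (o z) (some x) with
  | none => rw [hq, star_sn] at hadj; exact absurd hadj hx0
  | some y =>
    rw [hq, star_ss] at hadj
    set Cx := univ.filter (fun a => P a (some x) ≠ some x) with hCx
    by_cases hy : y ∈ V0
    · -- exchange
      have h1 : P (o z) (some y) = some x := by rw [← hq, h.inv]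
      set Wf := (nb F y).filter (fun w => w ∉ V0 ∧ w ∉ A ∧ ∃ b ∈ B, P b (some y) = some w)
        with hWf
      -- colours on the edges from `x` to `V0`
      set Dx := univ.filter (fun a => ∃ z'' ∈ V0, P a (some x) = some z'') with hDx
      have hDc : Dx.card ≤ V0.card := by
        refine le_trans (card_le_card_of_injOn (t := V0.image some) (fun a => P a (some x)) ?_ ?_)
          card_image_le
        · intro a ha
          rw [mem_coe, hDx, mem_filter] at ha
          obtain ⟨_, z'', hz'', hz2⟩ := ha
          rw [mem_coe, mem_image]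
          exact ⟨z'', hz'', hz2.symm⟩
        · intro a ha a' _ he
          rw [mem_coe, hDx, mem_filter] at ha
          obtain ⟨_, z'', hz'', hz2⟩ := ha
          by_contra hne
          have e1 := h.dis a a' (some x) hne he
          rw [hz2] at e1
          exact hx0 (Option.some_inj.1 e1 ▸ hz'')
      set Bad : Finset (Option V) := (V0.image o ∪ Us ∪ Dx).image (fun c => P c (some y)) ∪
        (cov V0 P (o z)).image some with hBad
      have hbc : Bad.card < (Wf.image some).card := by
        rw [card_image_of_injective _ (Option.some_injective V)]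
        refine lt_of_le_of_lt ?_ (hsup y hy)
        calc Bad.card ≤ ((V0.image o ∪ Us ∪ Dx).image (fun c => P c (some y))).card +
              ((cov V0 P (o z)).image some).card := card_union_le _ _
          _ ≤ (V0.image o ∪ Us ∪ Dx).card + (cov V0 P (o z)).card :=
              Nat.add_le_add card_image_le card_image_le
          _ ≤ ((V0.image o).card + Us.card + Dx.card) + (cov V0 P (o z)).card := by
              have e1 := card_union_le (V0.image o ∪ Us) Dx
              have e2 := card_union_le (V0.image o) Us
              omega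
          _ ≤ 6 * V0.card + l := by omega
      obtain ⟨w', hw', hwb⟩ : ∃ w ∈ Wf.image some, w ∉ Bad := by
        by_contra hcon
        push Not at hcon
        exact absurd (card_le_card (fun w hw => hcon w hw)) (not_le.2 hbc)
      rw [mem_image] at hw'
      obtain ⟨w, hw, rfl⟩ := hw'
      rw [hWf, mem_filter] at hw
      obtain ⟨hw1, hw0, hwA, c, hcB, hcw⟩ := hw
      rw [hBad, mem_union, mem_image, mem_image] at hwb
      push Not at hwb
      obtain ⟨hwb1, hwb2⟩ := hwb
      have hcn : c ∉ V0.image o ∪ Us ∪ Dx := fun e => hwb1 c e hcw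
      rw [mem_union, mem_union] at hcn
      push Not at hcn
      obtain ⟨⟨hc1, hc2⟩, hc3⟩ := hcn
      rw [mem_image] at hc1
      push Not at hc1
      rw [hDx, mem_filter] at hc3
      push Not at hc3
      have hc3' := hc3 (mem_univ _)
      have h4 : P (o z) (some w) = some w := by
        by_contra hcon
        exact hwb2 w ((mem_cov V0 P (o z) w).2 ⟨hw0, hcon⟩) rfl
      by_cases h3 : P c (some x) = some x
      · obtain ⟨P1, hP1⟩ := stp_exc F V0 P B (o z) c A A' h hob hcB (hc1 z hz) y x w hy hx0 hw0
          h1 hcw h3 h4 hxA hxA' hwA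
        refine ⟨{c}, P1, by simpa using hcB, by simp, by simpa using hc2, ?_, stq_of_stp hP1⟩
        intro c' hc' z' hz'
        rw [mem_singleton] at hc'
        subst hc'
        exact (hc1 z' hz').symm
      · -- first recolour the edge of colour `c` at `x`
        have hadj2 := h.adj c (some x) h3
        cases hq2 : P c (some x) with
        | none => rw [hq2, star_sn] at hadj2; exact absurd hadj2 hx0
        | some y' =>
          rw [hq2, star_ss] at hadj2
          have hy' : y' ∉ V0 := fun e => hc3' y' e hq2
          have hcy := (cx_card F V0 P h y' hy').trans (hs y' hy')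
          set Cy := univ.filter (fun a => P a (some y') ≠ some y') with hCy
          obtain ⟨c', hcB', hcn'⟩ : ∃ c' ∈ B, c' ∉ V0.image o ∪ Us ∪ Cx ∪ Cy := by
            by_contra hcon
            push Not at hcon
            have e0 := card_le_card (fun c hc => hcon c hc)
            have e1 := card_union_le (V0.image o ∪ Us ∪ Cx) Cy
            have e2 := card_union_le (V0.image o ∪ Us) Cx
            have e3 := card_union_le (V0.image o) Us
            omega
          rw [mem_union, mem_union, mem_union] at hcn'
          push Not at hcn'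
          obtain ⟨⟨⟨hd1, hd2⟩, hd3⟩, hd4⟩ := hcn'
          rw [mem_image] at hd1
          push Not at hd1
          rw [hCx, mem_filter] at hd3
          push Not at hd3
          rw [hCy, mem_filter] at hd4
          push Not at hd4
          have hd3' := hd3 (mem_univ _)
          have hd4' := hd4 (mem_univ _)
          have hcc : c ≠ c' := by
            intro e
            exact h3 (e ▸ hd3')
          obtain ⟨P1, p1, p2, p3, p4, p5, p6, ⟨p7, p8⟩, p9, p10⟩ := pre_rec F V0 P B c c' h hcB hcB'
            hcc x y' hadj2.ne hq2 hd3' hd4'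
          have hoc : o z ≠ c := hc1 z hz
          have hoc' : o z ≠ c' := hd1 z hz
          have hPo : P1 (o z) = P (o z) := p2 _ hoc hoc'
          have hyx : y ≠ x := fun e => hx0 (e ▸ hy)
          have hyy' : y ≠ y' := fun e => hy' (e ▸ hy)
          have hcw1 : P1 c (some y) = some w := by rw [p6 y hyx hyy', hcw]
          have hco : cov V0 P1 (o z) = cov V0 P (o z) := by unfold cov; rw [hPo]
          obtain ⟨P2, hP2⟩ := stp_exc F V0 P1 B (o z) c A A' p1 hob hcB hoc y x w hy hx0 hw0
            (by rw [hPo]; exact h1) hcw1 p5 (by rw [hPo]; exact h4) hxA hxA' hwA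
          refine ⟨{c, c'}, P2, ?_, card_le_two, ?_, ?_, ?_⟩
          · intro a ha
            rw [mem_insert, mem_singleton] at ha
            rcases ha with rfl | rfl
            · exact hcB
            · exact hcB'
          · rw [disjoint_left]
            intro a ha
            rw [mem_insert, mem_singleton] at ha
            rcases ha with rfl | rfl
            · exact hc2
            · exact hd2
          · intro a ha z' hz'
            rw [mem_insert, mem_singleton] at ha
            rcases ha with rfl | rfl
            · exact (hc1 z' hz').symm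
            · exact (hd1 z' hz').symm
          · refine ⟨hP2.col, ?_, ?_, ?_, ?_, ?_, ?_, ?_⟩
            · intro a ha1 ha2
              rw [mem_insert, mem_singleton] at ha2
              push Not at ha2
              rw [hP2.oth a ha1 ha2.1, p2 a ha2.1 ha2.2]
            · intro a; rw [hP2.nn, p3]
            · intro u v huv
              rw [hP2.eq u v huv, p4 u v huv]
            · have e1 := hP2.b1
              have e2 := hP2.b2
              rw [hco] at e1 e2
              omega
            · intro a ha
              have tri1 : ∀ a, (cov V0 P2 a \ cov V0 P a).card ≤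
                  (cov V0 P2 a \ cov V0 P1 a).card + (cov V0 P1 a \ cov V0 P a).card := by
                intro a
                refine le_trans (card_le_card ?_) (card_union_le _ _)
                intro v hv
                rw [mem_sdiff] at hv
                rw [mem_union, mem_sdiff, mem_sdiff]
                tauto
              have tri2 : ∀ a, (cov V0 P a \ cov V0 P2 a).card ≤
                  (cov V0 P a \ cov V0 P1 a).card + (cov V0 P1 a \ cov V0 P2 a).card := by
                intro a
                refine le_trans (card_le_card ?_) (card_union_le _ _)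
                intro v hv
                rw [mem_sdiff] at hv
                rw [mem_union, mem_sdiff, mem_sdiff]
                tauto
              have t1 := tri1 a
              have t2 := tri2 a
              rw [mem_insert, mem_singleton] at ha
              rcases ha with rfl | rfl
              · have := hP2.c1
                have := hP2.c2
                omega
              · have e1 : P2 a = P1 a := hP2.oth a hoc'.symm hcc.symm
                have e2 : cov V0 P2 a = cov V0 P1 a := by unfold cov; rw [e1]
                rw [e2] at t1 t2 ⊢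
                omega
            · have := hP2.bl
              rw [hco] at this
              exact this
            · have := hP2.dec
              rw [hco] at this
              exact this
    · -- recolouring
      have hyA' : y ∉ A' := fun e => hF x hxA y e hadj
      have hcy := (cx_card F V0 P h y hy).trans (hs y hy)
      set Cy := univ.filter (fun a => P a (some y) ≠ some y) with hCy
      obtain ⟨c, hcB, hcn⟩ : ∃ c ∈ B, c ∉ V0.image o ∪ Us ∪ Cx ∪ Cy := by
        by_contra hcon
        push Not at hcon
        have e0 := card_le_card (fun c hc => hcon c hc)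
        have e1 := card_union_le (V0.image o ∪ Us ∪ Cx) Cy
        have e2 := card_union_le (V0.image o ∪ Us) Cx
        have e3 := card_union_le (V0.image o) Us
        omega
      rw [mem_union, mem_union, mem_union] at hcn
      push Not at hcn
      obtain ⟨⟨⟨hc1, hc2⟩, hc3⟩, hc4⟩ := hcn
      rw [mem_image] at hc1
      push Not at hc1
      rw [hCx, mem_filter] at hc3
      push Not at hc3
      rw [hCy, mem_filter] at hc4
      push Not at hc4
      obtain ⟨P1, hP1⟩ := stp_rec F V0 P B (o z) c A A' h hob hcB (hc1 z hz) x y hadj.ne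
        hq (hc3 (mem_univ _)) (hc4 (mem_univ _)) hx0 hy hxA hxA' hyA'
      refine ⟨{c}, P1, by simpa using hcB, by simp, by simpa using hc2, ?_, stq_of_stp hP1⟩
      intro c' hc' z' hz'
      rw [mem_singleton] at hc'
      subst hc'
      exact (hc1 z' hz').symm

/-- state after the vertices of `S` have been treated -/
structure Stb {V : Type u} {β : Type} [Fintype V] (F : SimpleGraph V) (V0 : Finset V)
    (P P1 : β → Option V → Option V) (B : Finset β) (o : V → β) (A A' : V → Finset V)
    (Us : Finset β) (S : Finset V) (z : Option V) : Prop where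
  col : ICol (star F V0) P1
  out : ∀ b, b ∉ B → P1 b = P b
  own : ∀ z ∈ V0, P1 (o z) none = some z
  sgn : ∀ z ∈ S, (cov V0 P1 (o z) ∩ A z).card ≤ (cov V0 P1 (o z) ∩ A' z).card
  unt : ∀ b, b ∉ Us → (∀ z ∈ S, b ≠ o z) → (∀ z', z = some z' → b ≠ o z') → P1 b = P b
  uso : ∀ z ∈ V0, o z ∉ Us
  ch : ∀ b, (∀ z', z = some z' → b ≠ o z') →
    (cov V0 P1 b \ cov V0 P b).card + (cov V0 P b \ cov V0 P1 b).card ≤ 6
  eq : ∀ u v, u ≠ v → ((∃ a ∈ B, P1 a u = v) ↔ ∃ a ∈ B, P a u = v)

theorem inner2 {V : Type u} {β : Type} [Fintype V] [Fintype β] (F : SimpleGraph V)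
    (V0 : Finset V) (P : β → Option V → Option V) (B : Finset β) (o : V → β)
    (A A' : V → Finset V) (s l : ℕ) (z : V) (S : Finset V) (hz : z ∈ V0) (hzS : z ∉ S)
    (hSV : S ⊆ V0)
    (ho : ∀ z' ∈ V0, o z' ∈ B ∧ P (o z') none = some z')
    (hAA : Disjoint (A z) (A' z))
    (hF : ∀ v ∈ A z, ∀ w ∈ A' z, ¬ F.Adj v w)
    (hs : ∀ v, v ∉ V0 → (nb F v).card ≤ s)
    (hB : 5 * V0.card + 2 * s + 1 < B.card)
    (hsup : ∀ z' ∈ V0, 6 * V0.card + l < ((nb F z').filter (fun w => w ∉ V0 ∧
      w ∉ A z ∧ ∃ b ∈ B, P b (some z') = some w)).card) (k : ℕ) :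
    ∀ (P2 : β → Option V → Option V) (Us2 : Finset β), k ≤ 2 →
      Stb F V0 P P2 B o A A' Us2 S (some z) → Us2.card ≤ 4 * S.card + 2 * (2 - k) →
      (cov V0 P2 (o z)).card ≤ l →
      (cov V0 P2 (o z) ∩ A z).card ≤ (cov V0 P2 (o z) ∩ A' z).card + k →
      (cov V0 P2 (o z) \ cov V0 P (o z)).card + (cov V0 P (o z) \ cov V0 P2 (o z)).card ≤
        3 * (2 - k) →
      ∃ (P3 : β → Option V → Option V) (Us3 : Finset β),
        Stb F V0 P P3 B o A A' Us3 (insert z S) none ∧ Us3.card ≤ 4 * (insert z S).card := by
  induction k with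
  | zero =>
    intro P2 Us2 _ h2 hU _ hD hc1
    refine ⟨P2, Us2, ?_, by rw [card_insert_of_notMem hzS]; omega⟩
    refine ⟨h2.col, h2.out, h2.own, ?_, ?_, h2.uso, ?_, h2.eq⟩
    · intro z' hz'
      rcases mem_insert.1 hz' with rfl | h3
      · simpa using hD
      · exact h2.sgn z' h3
    · intro b hb hb2 _
      exact h2.unt b hb (fun z' hz' => hb2 z' (mem_insert_of_mem hz'))
        (fun z' hz' => by rw [← Option.some_inj.1 hz']; exact hb2 z (mem_insert_self _ _))
    · intro b _
      by_cases hb : b = o z
      · subst hb; omega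
      · exact h2.ch b (fun z' hz' => by rw [← Option.some_inj.1 hz']; exact hb)
  | succ k ih =>
    intro P2 Us2 hk h2 hU hl hD hc1
    by_cases hD2 : (cov V0 P2 (o z) ∩ A z).card ≤ (cov V0 P2 (o z) ∩ A' z).card
    · refine ⟨P2, Us2, ?_, by rw [card_insert_of_notMem hzS]; omega⟩
      refine ⟨h2.col, h2.out, h2.own, ?_, ?_, h2.uso, ?_, h2.eq⟩
      · intro z' hz'
        rcases mem_insert.1 hz' with rfl | h3
        · exact hD2
        · exact h2.sgn z' h3
      · intro b hb hb2 _
        exact h2.unt b hb (fun z' hz' => hb2 z' (mem_insert_of_mem hz'))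
          (fun z' hz' => by rw [← Option.some_inj.1 hz']; exact hb2 z (mem_insert_self _ _))
      · intro b _
        by_cases hb : b = o z
        · subst hb; omega
        · exact h2.ch b (fun z' hz' => by rw [← Option.some_inj.1 hz']; exact hb)
    · push Not at hD2
      have hScard : S.card + 1 ≤ V0.card := by
        rw [← card_insert_of_notMem hzS]
        exact card_le_card (insert_subset hz hSV)
      obtain ⟨N, P3, hNB, hN2, hNU, hNo, hst⟩ := sub_step2 F V0 P2 B o Us2 z (A z) (A' z) s l
        h2.col hz
        (fun z' hz' => ⟨(ho z' hz').1, h2.own z' hz'⟩) hAA hF hD2 hs hl (by omega) hB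
        (fun z' hz' => by
          refine lt_of_lt_of_eq (hsup z' hz') ?_
          congr 1
          apply filter_congr
          intro w _
          have e1 : w ∉ V0 → ((∃ b ∈ B, P2 b (some z') = some w) ↔
              ∃ b ∈ B, P b (some z') = some w) := fun hw =>
            h2.eq _ _ (fun e => hw (Option.some_inj.1 e ▸ hz'))
          by_cases hw : w ∈ V0
          · simp only [hw, not_true, false_and]
          · rw [e1 hw])
      have hPc : ∀ c ∈ N, P2 c = P c := fun c hc =>
        h2.unt c (disjoint_left.1 hNU hc) (fun z' hz' => hNo c hc z' (hSV hz'))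
        (fun z' hz' => by rw [← Option.some_inj.1 hz']; exact hNo c hc z hz)
      refine ih P3 (N ∪ Us2) (by omega) ?_ ?_ (hst.bl.trans hl) ?_ ?_
      · refine ⟨hst.col, ?_, ?_, ?_, ?_, ?_, ?_, ?_⟩
        · intro b hb
          rw [hst.oth b (fun e => hb (e ▸ (ho z hz).1)) (fun e => hb (hNB e))]
          exact h2.out b hb
        · intro z' hz'
          rw [hst.nn]; exact h2.own z' hz'
        · intro z' hz'
          have hne : o z' ≠ o z := by
            intro e
            have e1 := (ho z' (hSV hz')).2
            rw [e, (ho z hz).2] at e1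
            exact hzS (Option.some_inj.1 e1 ▸ hz')
          have e2 : P3 (o z') = P2 (o z') := hst.oth _ hne
            (fun e => hNo _ e z' (hSV hz') rfl)
          have e3 : cov V0 P3 (o z') = cov V0 P2 (o z') := by unfold cov; rw [e2]
          rw [e3]; exact h2.sgn z' hz'
        · intro b hb hb2 hb3
          rw [mem_union] at hb
          push Not at hb
          rw [hst.oth b (hb3 z rfl) hb.1]
          exact h2.unt b hb.2 hb2 hb3
        · intro z' hz'
          rw [mem_union]
          push Not
          exact ⟨fun e => hNo _ e z' hz' rfl, h2.uso z' hz'⟩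
        · intro b hb
          by_cases hbc : b ∈ N
          · have e1 : cov V0 P2 b = cov V0 P b := by unfold cov; rw [hPc b hbc]
            have e2 := hst.ca b hbc
            rw [e1] at e2
            exact e2
          · have e2 : P3 b = P2 b := hst.oth _ (hb z rfl) hbc
            have e3 : cov V0 P3 b = cov V0 P2 b := by unfold cov; rw [e2]
            rw [e3]; exact h2.ch b hb
        · intro u v huv
          rw [hst.eq u v huv]; exact h2.eq u v huv
      · have := card_union_le N Us2
        omega
      · have := hst.dec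
        omega
      · have e1 : cov V0 P3 (o z) \ cov V0 P (o z) ⊆
            (cov V0 P3 (o z) \ cov V0 P2 (o z)) ∪ (cov V0 P2 (o z) \ cov V0 P (o z)) := by
          intro v hv
          rw [mem_sdiff] at hv
          rw [mem_union, mem_sdiff, mem_sdiff]
          tauto
        have e2 := (card_le_card e1).trans (card_union_le _ _)
        have e3 : cov V0 P (o z) \ cov V0 P3 (o z) ⊆
            (cov V0 P (o z) \ cov V0 P2 (o z)) ∪ (cov V0 P2 (o z) \ cov V0 P3 (o z)) := by
          intro v hv
          rw [mem_sdiff] at hv
          rw [mem_union, mem_sdiff, mem_sdiff]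
          tauto
        have e4 := (card_le_card e3).trans (card_union_le _ _)
        have e5 := hst.bb
        omega

theorem stmt_ADJ2 : Stmt_ADJ2.{u} := by
  intro V _ β _ F V0 Zt P B o A A' s l hP hZt ho hA hF hD hs hl hB hsup
  have main : ∀ S : Finset V, S ⊆ Zt → ∃ (P1 : β → Option V → Option V) (Us : Finset β),
      Stb F V0 P P1 B o A A' Us S none ∧ Us.card ≤ 4 * S.card := by
    intro S
    induction S using Finset.induction_on with
    | empty =>
      intro _
      refine ⟨P, ∅, ⟨hP, fun _ _ => rfl, fun z hz => (ho z hz).2, ?_, fun _ _ _ _ => rfl, ?_, ?_,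
        fun _ _ _ => Iff.rfl⟩, by simp⟩
      · intro z hz; exact absurd hz (notMem_empty z)
      · intro z _; exact notMem_empty _
      · intro b _; simp
    | insert z S hzS ih =>
      intro hSZ
      have hzZ : z ∈ Zt := hSZ (mem_insert_self _ _)
      have hSZ' : S ⊆ Zt := fun v hv => hSZ (mem_insert_of_mem hv)
      obtain ⟨P1, Us, h1, hU⟩ := ih hSZ'
      have hne : ∀ z' ∈ S, o z ≠ o z' := by
        intro z' hz' e
        have e1 := (ho z (hZt hzZ)).2
        rw [e, (ho z' (hZt (hSZ' hz'))).2] at e1
        exact hzS (Option.some_inj.1 e1 ▸ hz')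
      have hoz : P1 (o z) = P (o z) := h1.unt (o z) (h1.uso z (hZt hzZ)) hne
        (fun z' hz' => absurd hz' (by simp))
      have hcz : cov V0 P1 (o z) = cov V0 P (o z) := by unfold cov; rw [hoz]
      refine inner2 F V0 P B o A A' s l z S (hZt hzZ) hzS (hSZ'.trans hZt) ho
        (hA z hzZ) (hF z hzZ) hs hB (hsup z hzZ) 2 P1 Us le_rfl ?_ (by omega) ?_ ?_ ?_
      · exact ⟨h1.col, h1.out, h1.own, h1.sgn, fun b hb hb2 _ => h1.unt b hb hb2
          (fun z' hz' => absurd hz' (by simp)), h1.uso, fun b _ => h1.ch b
          (fun z' hz' => absurd hz' (by simp)), h1.eq⟩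
      · rw [hcz]; exact hl z hzZ
      · rw [hcz]; exact hD z hzZ
      · rw [hcz]; simp
  obtain ⟨P1, Us, h1, hU⟩ := main Zt subset_rfl
  refine ⟨P1, h1.col, h1.out, h1.own, h1.sgn, fun b => h1.ch b
    (fun z' hz' => absurd hz' (by simp)), ?_⟩
  have hsub : (univ.filter (fun b => P1 b ≠ P b)) ⊆ Us ∪ Zt.image o := by
    intro b hb
    rw [mem_filter] at hb
    by_contra hcon
    rw [mem_union, mem_image] at hcon
    push Not at hcon
    exact hb.2 (h1.unt b hcon.1 (fun z hz e => hcon.2 z hz e.symm)
      (fun z' hz' => absurd hz' (by simp)))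
  have e1 := (card_le_card hsub).trans (card_union_le _ _)
  have e2 : (Zt.image o).card ≤ Zt.card := card_image_le
  omega

end Pool.Agent.Work.MP_db9399_dp.helper82
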