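import Pool.Agent.Work.MP_db9399_dp_helper82.ADJ2

/-! # ADJ3: sign corrections at own colours, with protected edges `E0` (helper82) -/

set_option autoImplicit false

namespace Pool.Agent.Work.MP_db9399_dp.helper82

open Finset Classical
open Pool.Agent.Work.MP_db9399_all (nb)

universe u

/-- result of one step: the colours `b` and `c` are changed; `nw`: new pairs of the colour `b` -/
structure Stp3 {V : Type u} {β : Type} [Fintype V] (F : SimpleGraph V) (V0 : Finset V)
    (P P1 : β → Option V → Option V) (B : Finset β) (b c : β) (A A' : Finset V)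
    (nw : Option V → Option V → Prop) : Prop where
  stp : Stp F V0 P P1 B b c A A'
  b3 : (cov V0 P1 b \ cov V0 P b).card + (cov V0 P b \ cov V0 P1 b).card ≤ 2
  c3 : (cov V0 P1 c \ cov V0 P c).card + (cov V0 P c \ cov V0 P1 c).card ≤ 2
  nb : ∀ u v, u ≠ v → P1 b u = v → P b u = v ∨ nw u v

/-- a colour is changed in one step by `erase` -/
theorem stp_rec3 {V : Type u} {β : Type} [Fintype V] (F : SimpleGraph V) (V0 : Finset V)
    (P : β → Option V → Option V) (B : Finset β) (b c : β) (A A' : Finset V)
    (h : ICol (star F V0) P) (hb : b ∈ B) (hc : c ∈ B) (hbc : b ≠ c) (x y : V) (hxy : x ≠ y)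
    (h1 : P b (some x) = some y) (h2 : P c (some x) = some x) (h3 : P c (some y) = some y)
    (hx : x ∉ V0) (hy : y ∉ V0) (hxA : x ∈ A) (hxA' : x ∉ A') (hyA' : y ∉ A') :
    ∃ P1, Stp3 F V0 P P1 B b c A A' (fun _ _ => False) := by
  have hxy' : (some x : Option V) ≠ some y := fun e => hxy (Option.some_inj.1 e)
  have h1' : P b (some y) = some x := by rw [← h1, h.inv]
  set P1 : β → Option V → Option V := fun a v => if a = b then
      (if v = some x ∨ v = some y then v else P b v)
      else if a = c then (if v = some x then some y else if v = some y then some x else P c v)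
      else P a v with hP1
  have hcb : cov V0 P1 b = cov V0 P b \ {x, y} := by
    ext v
    rw [mem_cov, mem_sdiff, mem_cov, mem_insert, mem_singleton]
    simp only [hP1, if_true, Option.some_inj]
    by_cases hv : v = x ∨ v = y
    · rw [if_pos hv]; tauto
    · rw [if_neg hv]; tauto
  have hcc : cov V0 P1 c = cov V0 P c ∪ {x, y} := by
    ext v
    rw [mem_cov, mem_union, mem_cov, mem_insert, mem_singleton]
    simp only [hP1, if_neg (Ne.symm hbc), if_true, Option.some_inj]
    by_cases hvx : v = x
    · subst hvx
      rw [if_pos rfl]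
      simp only [ne_eq, Option.some_inj]
      have := hxy.symm
      tauto
    · by_cases hvy : v = y
      · subst hvy
        rw [if_neg hvx, if_pos rfl]
        simp only [ne_eq, Option.some_inj]
        tauto
      · rw [if_neg hvx, if_neg hvy]; tauto
  have hxc : x ∈ cov V0 P b := by
    rw [mem_cov, h1]; exact ⟨hx, hxy'.symm⟩
  refine ⟨P1, ⟨?_, ?_, ?_, ?_, ?_, ?_, ?_, ?_, ?_, ?_⟩, ?_, ?_, ?_⟩
  · exact icol_rec h b c hbc (some x) (some y) hxy' h1 h2 h3
  · intro a ha1 ha2
    funext v
    simp only [hP1]
    rw [if_neg ha1, if_neg ha2]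
  · intro a
    simp only [hP1, reduceCtorEq, or_self, if_false]
    split_ifs with e1 e2
    · rw [e1]
    · rw [e2]
    · rfl
  · intro u v huv
    refine eq_of_mod (P := P) B b c hb hc hbc
      (fun v => if v = some x ∨ v = some y then v else P b v)
      (fun v => if v = some x then some y else if v = some y then some x else P c v)
      ?_ u v huv
    intro v w hvw
    by_cases hvx : v = some x
    · subst hvx
      rw [if_pos (Or.inl rfl), if_pos rfl, h1, h2]
      tauto
    · by_cases hvy : v = some y
      · subst hvy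
        rw [if_pos (Or.inr rfl), if_neg hvx, if_pos rfl, h1', h3]
        tauto
      · rw [if_neg (by tauto), if_neg hvx, if_neg hvy]
  · rw [hcb]
    have : (cov V0 P b \ {x, y}) \ cov V0 P b = ∅ := by
      ext v; simp only [mem_sdiff, notMem_empty, iff_false]; tauto
    rw [this]; simp
  · rw [hcb]
    refine (card_le_card (t := {x, y}) ?_).trans card_le_two
    intro v hv
    rw [mem_sdiff, mem_sdiff] at hv
    tauto
  · rw [hcc]
    refine (card_le_card (t := {x, y}) ?_).trans card_le_two
    intro v hv
    rw [mem_sdiff, mem_union] at hv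
    tauto
  · rw [hcc]
    have : cov V0 P c \ (cov V0 P c ∪ {x, y}) = ∅ := by
      ext v; simp only [mem_sdiff, mem_union, notMem_empty, iff_false]; tauto
    rw [this]; simp
  · rw [hcb]; exact card_le_card sdiff_subset
  · rw [hcb]
    have e1 : (cov V0 P b \ {x, y}) ∩ A' = cov V0 P b ∩ A' := by
      ext v
      simp only [mem_inter, mem_sdiff, mem_insert, mem_singleton]
      constructor
      · tauto
      · rintro ⟨e1, e2⟩
        refine ⟨⟨e1, ?_⟩, e2⟩
        rintro (rfl | rfl)
        · exact hxA' e2
        · exact hyA' e2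
    have e2 : ((cov V0 P b \ {x, y}) ∩ A).card < (cov V0 P b ∩ A).card := by
      apply card_lt_card
      refine ⟨inter_subset_inter_right sdiff_subset, fun e => ?_⟩
      have := e (mem_inter.2 ⟨hxc, hxA⟩)
      rw [mem_inter, mem_sdiff, mem_insert] at this
      tauto
    rw [e1]; omega
  · rw [hcb]
    have e1 : (cov V0 P b \ {x, y}) \ cov V0 P b = ∅ := by
      ext v; simp only [mem_sdiff, notMem_empty, iff_false]; tauto
    have e2 : (cov V0 P b \ (cov V0 P b \ {x, y})).card ≤ 2 := by
      refine (card_le_card (t := {x, y}) ?_).trans card_le_two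
      intro v hv
      rw [mem_sdiff, mem_sdiff] at hv
      tauto
    rw [e1, card_empty]; omega
  · rw [hcc]
    have e1 : cov V0 P c \ (cov V0 P c ∪ {x, y}) = ∅ := by
      ext v; simp only [mem_sdiff, mem_union, notMem_empty, iff_false]; tauto
    have e2 : ((cov V0 P c ∪ {x, y}) \ cov V0 P c).card ≤ 2 := by
      refine (card_le_card (t := {x, y}) ?_).trans card_le_two
      intro v hv
      rw [mem_sdiff, mem_union] at hv
      tauto
    rw [e1, card_empty]; omega
  · intro u v huv hP
    left
    have e1 : P1 b u = if u = some x ∨ u = some y then u else P b u := by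
      simp only [hP1, if_true]
    rw [e1] at hP
    split_ifs at hP with e2
    · exact absurd hP huv
    · exact hP

theorem stp_exc3 {V : Type u} {β : Type} [Fintype V] (F : SimpleGraph V) (V0 : Finset V)
    (P : β → Option V → Option V) (B : Finset β) (b c : β) (A A' : Finset V)
    (h : ICol (star F V0) P) (hb : b ∈ B) (hc : c ∈ B) (hbc : b ≠ c) (z x w : V)
    (hz : z ∈ V0) (hx : x ∉ V0) (hw : w ∉ V0)
    (h1 : P b (some z) = some x) (h2 : P c (some z) = some w) (h3 : P c (some x) = some x)
    (h4 : P b (some w) = some w) (hxA : x ∈ A) (hxA' : x ∉ A') (hwA : w ∉ A) :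
    ∃ P1, Stp3 F V0 P P1 B b c A A' (fun u v => (u = some z ∧ v = some w) ∨
      (u = some w ∧ v = some z)) := by
  have hzx : (some z : Option V) ≠ some x := fun e => hx (Option.some_inj.1 e ▸ hz)
  have hzw : (some z : Option V) ≠ some w := fun e => hw (Option.some_inj.1 e ▸ hz)
  have hxw0 : x ≠ w := fun e => hwA (e ▸ hxA)
  have hxw : (some x : Option V) ≠ some w := fun e => hxw0 (Option.some_inj.1 e)
  have hzx0 : z ≠ x := fun e => hx (e ▸ hz)
  have hzw0 : z ≠ w := fun e => hw (e ▸ hz)
  have h1' : P b (some x) = some z := by rw [← h1, h.inv]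
  have h2' : P c (some w) = some z := by rw [← h2, h.inv]
  set P1 : β → Option V → Option V := fun a v => if a = b then
        (if v = some z then some w else if v = some w then some z else
          if v = some x then some x else P b v)
      else if a = c then
        (if v = some z then some x else if v = some x then some z else
          if v = some w then some w else P c v)
      else P a v with hP1
  have hcb : cov V0 P1 b = insert w ((cov V0 P b).erase x) := by
    ext v
    rw [mem_cov, mem_insert, mem_erase, mem_cov]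
    simp only [hP1, if_true, Option.some_inj]
    by_cases hvz : v = z
    · subst hvz
      tauto
    · by_cases hvw : v = w
      · subst hvw
        rw [if_neg hvz, if_pos rfl]
        simp only [ne_eq, Option.some_inj]
        tauto
      · by_cases hvx : v = x
        · subst hvx
          rw [if_neg hvz, if_neg hvw, if_pos rfl]
          tauto
        · rw [if_neg hvz, if_neg hvw, if_neg hvx]
          tauto
  have hcc : cov V0 P1 c = insert x ((cov V0 P c).erase w) := by
    ext v
    rw [mem_cov, mem_insert, mem_erase, mem_cov]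
    simp only [hP1, if_neg (Ne.symm hbc), if_true, Option.some_inj]
    by_cases hvz : v = z
    · subst hvz
      tauto
    · by_cases hvx : v = x
      · subst hvx
        rw [if_neg hvz, if_pos rfl]
        simp only [ne_eq, Option.some_inj]
        tauto
      · by_cases hvw : v = w
        · subst hvw
          rw [if_neg hvz, if_neg hvx, if_pos rfl]
          tauto
        · rw [if_neg hvz, if_neg hvx, if_neg hvw]
          tauto
  have hxc : x ∈ cov V0 P b := by
    rw [mem_cov, h1']; exact ⟨hx, hzx⟩
  have hwc : w ∉ cov V0 P b := by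
    rw [mem_cov, h4]; tauto
  refine ⟨P1, ⟨?_, ?_, ?_, ?_, ?_, ?_, ?_, ?_, ?_, ?_⟩, ?_, ?_, ?_⟩
  · exact icol_exc h b c hbc (some z) (some x) (some w) hzx hzw hxw h1 h2 h3 h4
  · intro a ha1 ha2
    funext v
    simp only [hP1]
    rw [if_neg ha1, if_neg ha2]
  · intro a
    simp only [hP1, reduceCtorEq, if_false]
    split_ifs with e1 e2
    · rw [e1]
    · rw [e2]
    · rfl
  · intro u v huv
    refine eq_of_mod (P := P) B b c hb hc hbc
      (fun v => if v = some z then some w else if v = some w then some z else
          if v = some x then some x else P b v)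
      (fun v => if v = some z then some x else if v = some x then some z else
          if v = some w then some w else P c v)
      ?_ u v huv
    intro v u hvu
    by_cases hvz : v = some z
    · subst hvz
      rw [if_pos rfl, if_pos rfl, h1, h2]
      tauto
    · by_cases hvw : v = some w
      · subst hvw
        rw [if_neg hvz, if_pos rfl, if_neg hvz, if_neg (Ne.symm hxw), if_pos rfl, h4, h2']
        tauto
      · by_cases hvx : v = some x
        · subst hvx
          rw [if_neg hvz, if_neg hvw, if_pos rfl, if_neg hvz, if_pos rfl, h1', h3]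
          tauto
        · rw [if_neg hvz, if_neg hvw, if_neg hvx, if_neg hvz, if_neg hvx, if_neg hvw]
  · rw [hcb]
    refine (card_le_card (t := {w}) ?_).trans (by simp)
    intro v hv
    rw [mem_sdiff, mem_insert, mem_erase] at hv
    rw [mem_singleton]; tauto
  · rw [hcb]
    refine (card_le_card (t := {x}) ?_).trans (by simp)
    intro v hv
    rw [mem_sdiff, mem_insert, mem_erase] at hv
    rw [mem_singleton]; tauto
  · rw [hcc]
    refine (card_le_card (t := {x}) ?_).trans (by simp)
    intro v hv
    rw [mem_sdiff, mem_insert, mem_erase] at hv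
    rw [mem_singleton]; tauto
  · rw [hcc]
    refine (card_le_card (t := {w}) ?_).trans (by simp)
    intro v hv
    rw [mem_sdiff, mem_insert, mem_erase] at hv
    rw [mem_singleton]; tauto
  · rw [hcb]
    have e1 := card_insert_le w ((cov V0 P b).erase x)
    have e2 := card_erase_of_mem hxc
    have e3 : 0 < (cov V0 P b).card := card_pos.2 ⟨x, hxc⟩
    omega
  · rw [hcb]
    have e1 : (cov V0 P b ∩ A') ⊆ insert w ((cov V0 P b).erase x) ∩ A' := by
      intro v hv
      rw [mem_inter] at hv ⊢
      refine ⟨?_, hv.2⟩
      rw [mem_insert, mem_erase]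
      right
      exact ⟨fun e => hxA' (e ▸ hv.2), hv.1⟩
    have e2 : (insert w ((cov V0 P b).erase x) ∩ A).card < (cov V0 P b ∩ A).card := by
      apply card_lt_card
      refine ⟨?_, fun e => ?_⟩
      · intro v hv
        rw [mem_inter, mem_insert, mem_erase] at hv
        rw [mem_inter]
        rcases hv.1 with e | e
        · exact absurd (e ▸ hv.2) hwA
        · exact ⟨e.2, hv.2⟩
      · have := e (mem_inter.2 ⟨hxc, hxA⟩)
        rw [mem_inter, mem_insert, mem_erase] at this
        tauto
    have e3 := card_le_card e1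
    omega
  · rw [hcb]
    have e1 : (insert w ((cov V0 P b).erase x) \ cov V0 P b).card ≤ 1 := by
      refine (card_le_card (t := {w}) ?_).trans (by simp)
      intro v hv
      rw [mem_sdiff, mem_insert, mem_erase] at hv
      rw [mem_singleton]; tauto
    have e2 : (cov V0 P b \ insert w ((cov V0 P b).erase x)).card ≤ 1 := by
      refine (card_le_card (t := {x}) ?_).trans (by simp)
      intro v hv
      rw [mem_sdiff, mem_insert, mem_erase] at hv
      rw [mem_singleton]; tauto
    omega
  · rw [hcc]
    have e1 : (insert x ((cov V0 P c).erase w) \ cov V0 P c).card ≤ 1 := by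
      refine (card_le_card (t := {x}) ?_).trans (by simp)
      intro v hv
      rw [mem_sdiff, mem_insert, mem_erase] at hv
      rw [mem_singleton]; tauto
    have e2 : (cov V0 P c \ insert x ((cov V0 P c).erase w)).card ≤ 1 := by
      refine (card_le_card (t := {w}) ?_).trans (by simp)
      intro v hv
      rw [mem_sdiff, mem_insert, mem_erase] at hv
      rw [mem_singleton]; tauto
    omega
  · intro u v huv hP
    have e1 : P1 b u = if u = some z then some w else if u = some w then some z else
          if u = some x then some x else P b u := by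
      simp only [hP1, if_true]
    rw [e1] at hP
    split_ifs at hP with e2 e3 e4
    · exact Or.inr (Or.inl ⟨e2, hP.symm⟩)
    · exact Or.inr (Or.inr ⟨e3, hP.symm⟩)
    · exact absurd (e4.trans hP) huv
    · exact Or.inl hP

/-- result of one step: the colour `b` and the colours of `N` are changed -/
structure Stq3 {V : Type u} {β : Type} [Fintype V] (F : SimpleGraph V) (V0 : Finset V)
    (P P1 : β → Option V → Option V) (B : Finset β) (b : β) (N : Finset β) (A A' : Finset V)
    (E0 : SimpleGraph V) : Prop where
  col : ICol (star F V0) P1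
  oth : ∀ a, a ≠ b → a ∉ N → P1 a = P a
  nn : ∀ a, P1 a none = P a none
  eq : ∀ u v, u ≠ v → ((∃ a ∈ B, P1 a u = v) ↔ ∃ a ∈ B, P a u = v)
  bb : (cov V0 P1 b \ cov V0 P b).card + (cov V0 P b \ cov V0 P1 b).card ≤ 2
  ca : ∀ a ∈ N, (cov V0 P1 a \ cov V0 P a).card + (cov V0 P a \ cov V0 P1 a).card ≤ 4
  bl : (cov V0 P1 b).card ≤ (cov V0 P b).card
  dec : (cov V0 P1 b ∩ A).card + (cov V0 P b ∩ A').card + 1 ≤
    (cov V0 P b ∩ A).card + (cov V0 P1 b ∩ A').card
  e0 : (∀ u v, E0.Adj u v → P b (some u) ≠ some v) → ∀ u v, E0.Adj u v → P1 b (some u) ≠ some v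

theorem stq_of_stp3 {V : Type u} {β : Type} [Fintype V] {F : SimpleGraph V} {V0 : Finset V}
    {P P1 : β → Option V → Option V} {B : Finset β} {b c : β} {A A' : Finset V}
    {nw : Option V → Option V → Prop} (E0 : SimpleGraph V)
    (hnw : ∀ u v, nw (some u) (some v) → ¬ E0.Adj u v)
    (h : Stp3 F V0 P P1 B b c A A' nw) : Stq3 F V0 P P1 B b {c} A A' E0 := by
  refine ⟨h.stp.col, ?_, h.stp.nn, h.stp.eq, h.b3, ?_, h.stp.bl, h.stp.dec, ?_⟩
  · intro a h1 h2
    exact h.stp.oth a h1 (by simpa using h2)
  · intro a ha
    rw [mem_singleton] at ha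
    subst ha
    have := h.c3; omega
  · intro h0 u v huv hP
    rcases h.nb (some u) (some v) (fun e => huv.ne (Option.some_inj.1 e)) hP with h1 | h1
    · exact h0 u v huv h1
    · exact hnw u v h1 huv

theorem sub_step3 {V : Type u} {β : Type} [Fintype V] [Fintype β] (F E0 : SimpleGraph V)
    (V0 : Finset V) (P : β → Option V → Option V) (B : Finset β) (o : V → β) (Us : Finset β)
    (z : V) (A A' : Finset V) (s l : ℕ) (h : ICol (star F V0) P) (hz : z ∈ V0)
    (ho : ∀ z' ∈ V0, o z' ∈ B ∧ P (o z') none = some z')
    (hAA : Disjoint A A')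
    (hF : ∀ v ∈ A, ∀ w ∈ A', ¬ F.Adj v w)
    (hD : (cov V0 P (o z) ∩ A').card < (cov V0 P (o z) ∩ A).card)
    (hs : ∀ v, v ∉ V0 → (nb F v).card ≤ s) (hl : (cov V0 P (o z)).card ≤ l)
    (hUs : Us.card ≤ 4 * V0.card) (hB : 5 * V0.card + 2 * s + 1 < B.card)
    (hsup : ∀ z' ∈ V0, 6 * V0.card + l < ((nb F z').filter (fun w => w ∉ V0 ∧
      w ∉ A ∧ ¬ E0.Adj z' w ∧ ∃ b ∈ B, P b (some z') = some w)).card) :
    ∃ N P1, N ⊆ B ∧ N.card ≤ 2 ∧ Disjoint N Us ∧ (∀ c ∈ N, ∀ z' ∈ V0, c ≠ o z') ∧
      Stq3 F V0 P P1 B (o z) N A A' E0 := by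
  have hob := (ho z hz).1
  have hne : (cov V0 P (o z) ∩ A).Nonempty := by
    rw [← card_pos]; omega
  obtain ⟨x, hx⟩ := hne
  rw [mem_inter, mem_cov] at hx
  obtain ⟨⟨hx0, hxc⟩, hxA⟩ := hx
  have hxA' : x ∉ A' := fun e => (disjoint_left.1 hAA hxA e)
  have hadj := h.adj (o z) (some x) hxc
  have hcx := (cx_card F V0 P h x hx0).trans (hs x hx0)
  have hO : (V0.image o).card ≤ V0.card := card_image_le
  cases hq : P (o z) (some x) with
  | none => rw [hq, star_sn] at hadj; exact absurd hadj hx0
  | some y =>
    rw [hq, star_ss] at hadj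
    set Cx := univ.filter (fun a => P a (some x) ≠ some x) with hCx
    by_cases hy : y ∈ V0
    · -- exchange
      have h1 : P (o z) (some y) = some x := by rw [← hq, h.inv]
      set Wf := (nb F y).filter (fun w => w ∉ V0 ∧ w ∉ A ∧ ¬ E0.Adj y w ∧
        ∃ b ∈ B, P b (some y) = some w) with hWf
      -- colours on the edges from `x` to `V0`
      set Dx := univ.filter (fun a => ∃ z'' ∈ V0, P a (some x) = some z'') with hDx
      have hDc : Dx.card ≤ V0.card := by
        refine le_trans (card_le_card_of_injOn (t := V0.image some) (fun a => P a (some x)) ?_ ?_)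
          card_image_le
        · intro a ha
          rw [mem_coe, hDx, mem_filter] at ha
          obtain ⟨_, z'', hz'', hz2⟩ := ha
          rw [mem_coe, mem_image]
          exact ⟨z'', hz'', hz2.symm⟩
        · intro a ha a' _ he
          rw [mem_coe, hDx, mem_filter] at ha
          obtain ⟨_, z'', hz'', hz2⟩ := ha
          by_contra hne
          have e1 := h.dis a a' (some x) hne he
          rw [hz2] at e1
          exact hx0 (Option.some_inj.1 e1 ▸ hz'')
      set Bad : Finset (Option V) := (V0.image o ∪ Us ∪ Dx).image (fun c => P c (some y)) ∪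
        (cov V0 P (o z)).image some with hBad
      have hbc : Bad.card < (Wf.image some).card := by
        rw [card_image_of_injective _ (Option.some_injective V)]
        refine lt_of_le_of_lt ?_ (hsup y hy)
        calc Bad.card ≤ ((V0.image o ∪ Us ∪ Dx).image (fun c => P c (some y))).card +
              ((cov V0 P (o z)).image some).card := card_union_le _ _
          _ ≤ (V0.image o ∪ Us ∪ Dx).card + (cov V0 P (o z)).card :=
              Nat.add_le_add card_image_le card_image_le
          _ ≤ ((V0.image o).card + Us.card + Dx.card) + (cov V0 P (o z)).card := by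
              have e1 := card_union_le (V0.image o ∪ Us) Dx
              have e2 := card_union_le (V0.image o) Us
              omega
          _ ≤ 6 * V0.card + l := by omega
      obtain ⟨w', hw', hwb⟩ : ∃ w ∈ Wf.image some, w ∉ Bad := by
        by_contra hcon
        push Not at hcon
        exact absurd (card_le_card (fun w hw => hcon w hw)) (not_le.2 hbc)
      rw [mem_image] at hw'
      obtain ⟨w, hw, rfl⟩ := hw'
      rw [hWf, mem_filter] at hw
      obtain ⟨hw1, hw0, hwA, hwE, c, hcB, hcw⟩ := hw
      rw [hBad, mem_union, mem_image, mem_image] at hwb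
      push Not at hwb
      obtain ⟨hwb1, hwb2⟩ := hwb
      have hcn : c ∉ V0.image o ∪ Us ∪ Dx := fun e => hwb1 c e hcw
      rw [mem_union, mem_union] at hcn
      push Not at hcn
      obtain ⟨⟨hc1, hc2⟩, hc3⟩ := hcn
      rw [mem_image] at hc1
      push Not at hc1
      rw [hDx, mem_filter] at hc3
      push Not at hc3
      have hc3' := hc3 (mem_univ _)
      have h4 : P (o z) (some w) = some w := by
        by_contra hcon
        exact hwb2 w ((mem_cov V0 P (o z) w).2 ⟨hw0, hcon⟩) rfl
      have hnw : ∀ u v, ((some u : Option V) = some y ∧ (some v : Option V) = some w) ∨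
          ((some u : Option V) = some w ∧ (some v : Option V) = some y) → ¬ E0.Adj u v := by
        rintro u v (⟨e1, e2⟩ | ⟨e1, e2⟩)
        · rw [Option.some_inj.1 e1, Option.some_inj.1 e2]; exact hwE
        · rw [Option.some_inj.1 e1, Option.some_inj.1 e2]; exact fun e => hwE e.symm
      by_cases h3 : P c (some x) = some x
      · obtain ⟨P1, hP1⟩ := stp_exc3 F V0 P B (o z) c A A' h hob hcB (hc1 z hz) y x w hy hx0 hw0
          h1 hcw h3 h4 hxA hxA' hwA
        refine ⟨{c}, P1, by simpa using hcB, by simp, by simpa using hc2, ?_,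
          stq_of_stp3 E0 hnw hP1⟩
        intro c' hc' z' hz'
        rw [mem_singleton] at hc'
        subst hc'
        exact (hc1 z' hz').symm
      · -- first recolour the edge of colour `c` at `x`
        have hadj2 := h.adj c (some x) h3
        cases hq2 : P c (some x) with
        | none => rw [hq2, star_sn] at hadj2; exact absurd hadj2 hx0
        | some y' =>
          rw [hq2, star_ss] at hadj2
          have hy' : y' ∉ V0 := fun e => hc3' y' e hq2
          have hcy := (cx_card F V0 P h y' hy').trans (hs y' hy')
          set Cy := univ.filter (fun a => P a (some y') ≠ some y') with hCy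
          obtain ⟨c', hcB', hcn'⟩ : ∃ c' ∈ B, c' ∉ V0.image o ∪ Us ∪ Cx ∪ Cy := by
            by_contra hcon
            push Not at hcon
            have e0 := card_le_card (fun c hc => hcon c hc)
            have e1 := card_union_le (V0.image o ∪ Us ∪ Cx) Cy
            have e2 := card_union_le (V0.image o ∪ Us) Cx
            have e3 := card_union_le (V0.image o) Us
            omega
          rw [mem_union, mem_union, mem_union] at hcn'
          push Not at hcn'
          obtain ⟨⟨⟨hd1, hd2⟩, hd3⟩, hd4⟩ := hcn'
          rw [mem_image] at hd1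
          push Not at hd1
          rw [hCx, mem_filter] at hd3
          push Not at hd3
          rw [hCy, mem_filter] at hd4
          push Not at hd4
          have hd3' := hd3 (mem_univ _)
          have hd4' := hd4 (mem_univ _)
          have hcc : c ≠ c' := by
            intro e
            exact h3 (e ▸ hd3')
          obtain ⟨P1, p1, p2, p3, p4, p5, p6, ⟨p7, p8⟩, p9, p10⟩ := pre_rec F V0 P B c c' h hcB hcB'
            hcc x y' hadj2.ne hq2 hd3' hd4'
          have hoc : o z ≠ c := hc1 z hz
          have hoc' : o z ≠ c' := hd1 z hz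
          have hPo : P1 (o z) = P (o z) := p2 _ hoc hoc'
          have hyx : y ≠ x := fun e => hx0 (e ▸ hy)
          have hyy' : y ≠ y' := fun e => hy' (e ▸ hy)
          have hcw1 : P1 c (some y) = some w := by rw [p6 y hyx hyy', hcw]
          have hco : cov V0 P1 (o z) = cov V0 P (o z) := by unfold cov; rw [hPo]
          obtain ⟨P2, hP2⟩ := stp_exc3 F V0 P1 B (o z) c A A' p1 hob hcB hoc y x w hy hx0 hw0
            (by rw [hPo]; exact h1) hcw1 p5 (by rw [hPo]; exact h4) hxA hxA' hwA
          refine ⟨{c, c'}, P2, ?_, card_le_two, ?_, ?_, ?_⟩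
          · intro a ha
            rw [mem_insert, mem_singleton] at ha
            rcases ha with rfl | rfl
            · exact hcB
            · exact hcB'
          · rw [disjoint_left]
            intro a ha
            rw [mem_insert, mem_singleton] at ha
            rcases ha with rfl | rfl
            · exact hc2
            · exact hd2
          · intro a ha z' hz'
            rw [mem_insert, mem_singleton] at ha
            rcases ha with rfl | rfl
            · exact (hc1 z' hz').symm
            · exact (hd1 z' hz').symm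
          · refine ⟨hP2.stp.col, ?_, ?_, ?_, ?_, ?_, ?_, ?_, ?_⟩
            · intro a ha1 ha2
              rw [mem_insert, mem_singleton] at ha2
              push Not at ha2
              rw [hP2.stp.oth a ha1 ha2.1, p2 a ha2.1 ha2.2]
            · intro a; rw [hP2.stp.nn, p3]
            · intro u v huv
              rw [hP2.stp.eq u v huv, p4 u v huv]
            · have e1 := hP2.b3
              rw [hco] at e1
              exact e1
            · intro a ha
              have tri1 : ∀ a, (cov V0 P2 a \ cov V0 P a).card ≤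
                  (cov V0 P2 a \ cov V0 P1 a).card + (cov V0 P1 a \ cov V0 P a).card := by
                intro a
                refine le_trans (card_le_card ?_) (card_union_le _ _)
                intro v hv
                rw [mem_sdiff] at hv
                rw [mem_union, mem_sdiff, mem_sdiff]
                tauto
              have tri2 : ∀ a, (cov V0 P a \ cov V0 P2 a).card ≤
                  (cov V0 P a \ cov V0 P1 a).card + (cov V0 P1 a \ cov V0 P2 a).card := by
                intro a
                refine le_trans (card_le_card ?_) (card_union_le _ _)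
                intro v hv
                rw [mem_sdiff] at hv
                rw [mem_union, mem_sdiff, mem_sdiff]
                tauto
              have t1 := tri1 a
              have t2 := tri2 a
              rw [mem_insert, mem_singleton] at ha
              rcases ha with rfl | rfl
              · have := hP2.c3
                omega
              · have e1 : P2 a = P1 a := hP2.stp.oth a hoc'.symm hcc.symm
                have e2 : cov V0 P2 a = cov V0 P1 a := by unfold cov; rw [e1]
                rw [e2] at t1 t2 ⊢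
                omega
            · have := hP2.stp.bl
              rw [hco] at this
              exact this
            · have := hP2.stp.dec
              rw [hco] at this
              exact this
            · intro h0 u v huv hP
              rcases hP2.nb (some u) (some v) (fun e => huv.ne (Option.some_inj.1 e)) hP with h5 | h5
              · rw [hPo] at h5
                exact h0 u v huv h5
              · exact hnw u v h5 huv
    · -- recolouring
      have hyA' : y ∉ A' := fun e => hF x hxA y e hadj
      have hcy := (cx_card F V0 P h y hy).trans (hs y hy)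
      set Cy := univ.filter (fun a => P a (some y) ≠ some y) with hCy
      obtain ⟨c, hcB, hcn⟩ : ∃ c ∈ B, c ∉ V0.image o ∪ Us ∪ Cx ∪ Cy := by
        by_contra hcon
        push Not at hcon
        have e0 := card_le_card (fun c hc => hcon c hc)
        have e1 := card_union_le (V0.image o ∪ Us ∪ Cx) Cy
        have e2 := card_union_le (V0.image o ∪ Us) Cx
        have e3 := card_union_le (V0.image o) Us
        omega
      rw [mem_union, mem_union, mem_union] at hcn
      push Not at hcn
      obtain ⟨⟨⟨hc1, hc2⟩, hc3⟩, hc4⟩ := hcn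
      rw [mem_image] at hc1
      push Not at hc1
      rw [hCx, mem_filter] at hc3
      push Not at hc3
      rw [hCy, mem_filter] at hc4
      push Not at hc4
      obtain ⟨P1, hP1⟩ := stp_rec3 F V0 P B (o z) c A A' h hob hcB (hc1 z hz) x y hadj.ne
        hq (hc3 (mem_univ _)) (hc4 (mem_univ _)) hx0 hy hxA hxA' hyA'
      refine ⟨{c}, P1, by simpa using hcB, by simp, by simpa using hc2, ?_,
          stq_of_stp3 E0 (fun _ _ e => e.elim) hP1⟩
      intro c' hc' z' hz'
      rw [mem_singleton] at hc'
      subst hc'
      exact (hc1 z' hz').symm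

/-- state after the vertices of `S` have been treated -/
structure Stb3 {V : Type u} {β : Type} [Fintype V] (F E0 : SimpleGraph V) (V0 : Finset V)
    (P P1 : β → Option V → Option V) (B : Finset β) (o : V → β) (A A' : V → Finset V)
    (Us : Finset β) (S : Finset V) (z : Option V) : Prop where
  col : ICol (star F V0) P1
  out : ∀ b, b ∉ B → P1 b = P b
  own : ∀ z ∈ V0, P1 (o z) none = some z
  sgn : ∀ z ∈ S, (cov V0 P1 (o z) ∩ A z).card ≤ (cov V0 P1 (o z) ∩ A' z).card
  unt : ∀ b, b ∉ Us → (∀ z ∈ S, b ≠ o z) → (∀ z', z = some z' → b ≠ o z') → P1 b = P b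
  uso : ∀ z ∈ V0, o z ∉ Us
  ch : ∀ b, (∀ z', z = some z' → b ≠ o z') →
    (cov V0 P1 b \ cov V0 P b).card + (cov V0 P b \ cov V0 P1 b).card ≤ 4
  eq : ∀ u v, u ≠ v → ((∃ a ∈ B, P1 a u = v) ↔ ∃ a ∈ B, P a u = v)
  e0 : ∀ z ∈ V0, ∀ u v, E0.Adj u v → P1 (o z) (some u) ≠ some v

theorem inner3 {V : Type u} {β : Type} [Fintype V] [Fintype β] (F E0 : SimpleGraph V)
    (V0 : Finset V) (P : β → Option V → Option V) (B : Finset β) (o : V → β)
    (A A' : V → Finset V) (s l : ℕ) (z : V) (S : Finset V) (hz : z ∈ V0) (hzS : z ∉ S)
    (hSV : S ⊆ V0)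
    (ho : ∀ z' ∈ V0, o z' ∈ B ∧ P (o z') none = some z')
    (hAA : Disjoint (A z) (A' z))
    (hF : ∀ v ∈ A z, ∀ w ∈ A' z, ¬ F.Adj v w)
    (hs : ∀ v, v ∉ V0 → (nb F v).card ≤ s)
    (hB : 5 * V0.card + 2 * s + 1 < B.card)
    (hsup : ∀ z' ∈ V0, 6 * V0.card + l < ((nb F z').filter (fun w => w ∉ V0 ∧
      w ∉ A z ∧ ¬ E0.Adj z' w ∧ ∃ b ∈ B, P b (some z') = some w)).card) (k : ℕ) :
    ∀ (P2 : β → Option V → Option V) (Us2 : Finset β), k ≤ 2 →
      Stb3 F E0 V0 P P2 B o A A' Us2 S (some z) → Us2.card ≤ 4 * S.card + 2 * (2 - k) →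
      (cov V0 P2 (o z)).card ≤ l →
      (cov V0 P2 (o z) ∩ A z).card ≤ (cov V0 P2 (o z) ∩ A' z).card + k →
      (cov V0 P2 (o z) \ cov V0 P (o z)).card + (cov V0 P (o z) \ cov V0 P2 (o z)).card ≤
        2 * (2 - k) →
      ∃ (P3 : β → Option V → Option V) (Us3 : Finset β),
        Stb3 F E0 V0 P P3 B o A A' Us3 (insert z S) none ∧ Us3.card ≤ 4 * (insert z S).card := by
  induction k with
  | zero =>
    intro P2 Us2 _ h2 hU _ hD hc1
    refine ⟨P2, Us2, ?_, by rw [card_insert_of_notMem hzS]; omega⟩
    refine ⟨h2.col, h2.out, h2.own, ?_, ?_, h2.uso, ?_, h2.eq, h2.e0⟩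
    · intro z' hz'
      rcases mem_insert.1 hz' with rfl | h3
      · simpa using hD
      · exact h2.sgn z' h3
    · intro b hb hb2 _
      exact h2.unt b hb (fun z' hz' => hb2 z' (mem_insert_of_mem hz'))
        (fun z' hz' => by rw [← Option.some_inj.1 hz']; exact hb2 z (mem_insert_self _ _))
    · intro b _
      by_cases hb : b = o z
      · subst hb; omega
      · exact h2.ch b (fun z' hz' => by rw [← Option.some_inj.1 hz']; exact hb)
  | succ k ih =>
    intro P2 Us2 hk h2 hU hl hD hc1
    by_cases hD2 : (cov V0 P2 (o z) ∩ A z).card ≤ (cov V0 P2 (o z) ∩ A' z).card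
    · refine ⟨P2, Us2, ?_, by rw [card_insert_of_notMem hzS]; omega⟩
      refine ⟨h2.col, h2.out, h2.own, ?_, ?_, h2.uso, ?_, h2.eq, h2.e0⟩
      · intro z' hz'
        rcases mem_insert.1 hz' with rfl | h3
        · exact hD2
        · exact h2.sgn z' h3
      · intro b hb hb2 _
        exact h2.unt b hb (fun z' hz' => hb2 z' (mem_insert_of_mem hz'))
          (fun z' hz' => by rw [← Option.some_inj.1 hz']; exact hb2 z (mem_insert_self _ _))
      · intro b _
        by_cases hb : b = o z
        · subst hb; omega
        · exact h2.ch b (fun z' hz' => by rw [← Option.some_inj.1 hz']; exact hb)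
    · push Not at hD2
      have hScard : S.card + 1 ≤ V0.card := by
        rw [← card_insert_of_notMem hzS]
        exact card_le_card (insert_subset hz hSV)
      obtain ⟨N, P3, hNB, hN2, hNU, hNo, hst⟩ := sub_step3 F E0 V0 P2 B o Us2 z (A z) (A' z) s l
        h2.col hz
        (fun z' hz' => ⟨(ho z' hz').1, h2.own z' hz'⟩) hAA hF hD2 hs hl (by omega) hB
        (fun z' hz' => by
          refine lt_of_lt_of_eq (hsup z' hz') ?_
          congr 1
          apply filter_congr
          intro w _
          have e1 : w ∉ V0 → ((∃ b ∈ B, P2 b (some z') = some w) ↔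
              ∃ b ∈ B, P b (some z') = some w) := fun hw =>
            h2.eq _ _ (fun e => hw (Option.some_inj.1 e ▸ hz'))
          by_cases hw : w ∈ V0
          · simp only [hw, not_true, false_and]
          · rw [e1 hw])
      have hPc : ∀ c ∈ N, P2 c = P c := fun c hc =>
        h2.unt c (disjoint_left.1 hNU hc) (fun z' hz' => hNo c hc z' (hSV hz'))
        (fun z' hz' => by rw [← Option.some_inj.1 hz']; exact hNo c hc z hz)
      refine ih P3 (N ∪ Us2) (by omega) ?_ ?_ (hst.bl.trans hl) ?_ ?_
      · refine ⟨hst.col, ?_, ?_, ?_, ?_, ?_, ?_, ?_, ?_⟩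
        · intro b hb
          rw [hst.oth b (fun e => hb (e ▸ (ho z hz).1)) (fun e => hb (hNB e))]
          exact h2.out b hb
        · intro z' hz'
          rw [hst.nn]; exact h2.own z' hz'
        · intro z' hz'
          have hne : o z' ≠ o z := by
            intro e
            have e1 := (ho z' (hSV hz')).2
            rw [e, (ho z hz).2] at e1
            exact hzS (Option.some_inj.1 e1 ▸ hz')
          have e2 : P3 (o z') = P2 (o z') := hst.oth _ hne
            (fun e => hNo _ e z' (hSV hz') rfl)
          have e3 : cov V0 P3 (o z') = cov V0 P2 (o z') := by unfold cov; rw [e2]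
          rw [e3]; exact h2.sgn z' hz'
        · intro b hb hb2 hb3
          rw [mem_union] at hb
          push Not at hb
          rw [hst.oth b (hb3 z rfl) hb.1]
          exact h2.unt b hb.2 hb2 hb3
        · intro z' hz'
          rw [mem_union]
          push Not
          exact ⟨fun e => hNo _ e z' hz' rfl, h2.uso z' hz'⟩
        · intro b hb
          by_cases hbc : b ∈ N
          · have e1 : cov V0 P2 b = cov V0 P b := by unfold cov; rw [hPc b hbc]
            have e2 := hst.ca b hbc
            rw [e1] at e2
            exact e2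
          · have e2 : P3 b = P2 b := hst.oth _ (hb z rfl) hbc
            have e3 : cov V0 P3 b = cov V0 P2 b := by unfold cov; rw [e2]
            rw [e3]; exact h2.ch b hb
        · intro u v huv
          rw [hst.eq u v huv]; exact h2.eq u v huv
        · intro z' hz'
          by_cases hoo : o z' = o z
          · rw [hoo]; exact hst.e0 (h2.e0 z hz)
          · have e2 : P3 (o z') = P2 (o z') := hst.oth _ hoo (fun e => hNo _ e z' hz' rfl)
            rw [e2]; exact h2.e0 z' hz'
      · have := card_union_le N Us2
        omega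
      · have := hst.dec
        omega
      · have e1 : cov V0 P3 (o z) \ cov V0 P (o z) ⊆
            (cov V0 P3 (o z) \ cov V0 P2 (o z)) ∪ (cov V0 P2 (o z) \ cov V0 P (o z)) := by
          intro v hv
          rw [mem_sdiff] at hv
          rw [mem_union, mem_sdiff, mem_sdiff]
          tauto
        have e2 := (card_le_card e1).trans (card_union_le _ _)
        have e3 : cov V0 P (o z) \ cov V0 P3 (o z) ⊆
            (cov V0 P (o z) \ cov V0 P2 (o z)) ∪ (cov V0 P2 (o z) \ cov V0 P3 (o z)) := by
          intro v hv
          rw [mem_sdiff] at hv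
          rw [mem_union, mem_sdiff, mem_sdiff]
          tauto
        have e4 := (card_le_card e3).trans (card_union_le _ _)
        have e5 := hst.bb
        omega

/-- ADJ3: as ADJ2, the edges of `E0` have no own colours, before and after. -/
theorem adj3 {V : Type u} [Fintype V] {β : Type} [Fintype β] (F E0 : SimpleGraph V)
    (V0 Zt : Finset V) (P : β → Option V → Option V) (B : Finset β) (o : V → β)
    (A A' : V → Finset V) (s l : ℕ) (hP : ICol (star F V0) P) (hZt : Zt ⊆ V0)
    (ho : ∀ z ∈ V0, o z ∈ B ∧ P (o z) none = some z)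
    (hE0 : ∀ z ∈ V0, ∀ u v, E0.Adj u v → P (o z) (some u) ≠ some v)
    (hA : ∀ z ∈ Zt, Disjoint (A z) (A' z))
    (hF : ∀ z ∈ Zt, ∀ v ∈ A z, ∀ w ∈ A' z, ¬ F.Adj v w)
    (hD : ∀ z ∈ Zt, (cov V0 P (o z) ∩ A z).card ≤ (cov V0 P (o z) ∩ A' z).card + 2)
    (hs : ∀ v, v ∉ V0 → (nb F v).card ≤ s) (hl : ∀ z ∈ Zt, (cov V0 P (o z)).card ≤ l)
    (hB : 5 * V0.card + 2 * s + 1 < B.card)
    (hsup : ∀ z ∈ Zt, ∀ z' ∈ V0, 6 * V0.card + l < ((nb F z').filter (fun w => w ∉ V0 ∧
      w ∉ A z ∧ ¬ E0.Adj z' w ∧ ∃ b ∈ B, P b (some z') = some w)).card) :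
    ∃ P' : β → Option V → Option V, ICol (star F V0) P' ∧ (∀ b, b ∉ B → P' b = P b) ∧
      (∀ z ∈ V0, P' (o z) none = some z) ∧
      (∀ z ∈ Zt, (cov V0 P' (o z) ∩ A z).card ≤ (cov V0 P' (o z) ∩ A' z).card) ∧
      (∀ b, (cov V0 P' b \ cov V0 P b).card + (cov V0 P b \ cov V0 P' b).card ≤ 4) ∧
      (univ.filter (fun b => P' b ≠ P b)).card ≤ 5 * Zt.card ∧
      ∀ z ∈ V0, ∀ u v, E0.Adj u v → P' (o z) (some u) ≠ some v := by
  have main : ∀ S : Finset V, S ⊆ Zt → ∃ (P1 : β → Option V → Option V) (Us : Finset β),
      Stb3 F E0 V0 P P1 B o A A' Us S none ∧ Us.card ≤ 4 * S.card := by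
    intro S
    induction S using Finset.induction_on with
    | empty =>
      intro _
      refine ⟨P, ∅, ⟨hP, fun _ _ => rfl, fun z hz => (ho z hz).2, ?_, fun _ _ _ _ => rfl, ?_, ?_,
        fun _ _ _ => Iff.rfl, hE0⟩, by simp⟩
      · intro z hz; exact absurd hz (notMem_empty z)
      · intro z _; exact notMem_empty _
      · intro b _; simp
    | insert z S hzS ih =>
      intro hSZ
      have hzZ : z ∈ Zt := hSZ (mem_insert_self _ _)
      have hSZ' : S ⊆ Zt := fun v hv => hSZ (mem_insert_of_mem hv)
      obtain ⟨P1, Us, h1, hU⟩ := ih hSZ'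
      have hne : ∀ z' ∈ S, o z ≠ o z' := by
        intro z' hz' e
        have e1 := (ho z (hZt hzZ)).2
        rw [e, (ho z' (hZt (hSZ' hz'))).2] at e1
        exact hzS (Option.some_inj.1 e1 ▸ hz')
      have hoz : P1 (o z) = P (o z) := h1.unt (o z) (h1.uso z (hZt hzZ)) hne
        (fun z' hz' => absurd hz' (by simp))
      have hcz : cov V0 P1 (o z) = cov V0 P (o z) := by unfold cov; rw [hoz]
      refine inner3 F E0 V0 P B o A A' s l z S (hZt hzZ) hzS (hSZ'.trans hZt) ho
        (hA z hzZ) (hF z hzZ) hs hB (hsup z hzZ) 2 P1 Us le_rfl ?_ (by omega) ?_ ?_ ?_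
      · exact ⟨h1.col, h1.out, h1.own, h1.sgn, fun b hb hb2 _ => h1.unt b hb hb2
          (fun z' hz' => absurd hz' (by simp)), h1.uso, fun b _ => h1.ch b
          (fun z' hz' => absurd hz' (by simp)), h1.eq, h1.e0⟩
      · rw [hcz]; exact hl z hzZ
      · rw [hcz]; exact hD z hzZ
      · rw [hcz]; simp
  obtain ⟨P1, Us, h1, hU⟩ := main Zt subset_rfl
  refine ⟨P1, h1.col, h1.out, h1.own, h1.sgn, fun b => h1.ch b
    (fun z' hz' => absurd hz' (by simp)), ?_, h1.e0⟩
  have hsub : (univ.filter (fun b => P1 b ≠ P b)) ⊆ Us ∪ Zt.image o := by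
    intro b hb
    rw [mem_filter] at hb
    by_contra hcon
    rw [mem_union, mem_image] at hcon
    push Not at hcon
    exact hb.2 (h1.unt b hcon.1 (fun z hz e => hcon.2 z hz e.symm)
      (fun z' hz' => absurd hz' (by simp)))
  have e1 := (card_le_card hsub).trans (card_union_le _ _)
  have e2 : (Zt.image o).card ≤ Zt.card := card_image_le
  omega

end Pool.Agent.Work.MP_db9399_dp.helper82
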