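import Pool.Agent.Work.MP_db9399_dp_helper82.Node
import Pool.Agent.Work.MP_db9399_dp_helper82.ADJ
import Pool.Agent.Work.MP_db9399_dp.PreX

/-! # PRE: from involutions to colours (helper82) -/

set_option autoImplicit false

namespace Pool.Agent.Work.MP_db9399_dp.helper82

open Finset Classical
open Pool.Agent.Work.MP_db9399_all (nb)
open Pool.Agent.Work.MP_db9399_lt (us)
open Pool.Agent.Work.MP_db9399_da

universe u

attribute [-instance] instDecidableEqTt instDecidableEqGr Subtype.instDecidableEq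

section conv
variable {V : Type u} [Fintype V] {M : ℕ}

/-- covered vertices of the colour `b` -/
noncomputable def cv (P : Pcs V M) {d : ℕ} (Φ : Fin (d + 2) → Option V → Option V) (b : ℕ) :
    Finset V := if h : b < d + 2 then cov P.V0 Φ ⟨b, h⟩ else ∅

/-- signed number of covered vertices at the node `x` -/
noncomputable def qb (P : Pcs V M) {d : ℕ} (Φ : Fin (d + 2) → Option V → Option V) (b : ℕ)
    (g : Gr) (x : Cl M) : ℤ :=
  ((cv P Φ b ∩ nds P g x false).card : ℤ) - ((cv P Φ b ∩ nds P g x true).card : ℤ)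

/-- all properties of the final colouring, in terms of the covered vertices -/
structure Res (ε ζ : ℝ) (G : SimpleGraph V) (d : ℕ) (P : Pcs V M) (A : Pal)
    (τ : V → V → Tt) (Φ : Fin (d + 2) → Option V → Option V) : Prop where
  alw : ∀ v w, (thin G P).Adj v w → v ∉ P.V0 → alv P v (τ v w)
  col : ICol (star (thin G P) P.V0) Φ
  typ : ∀ b v w, v ≠ w → Φ b (some v) = some w → gpn A b = (τ v w).gr
  own : ∀ b v, Φ b none = some v → gpn A b = .A3
  load : ∀ b, ((cov P.V0 Φ b).card : ℝ) ≤ ε * ζ * d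
  q8 : ∀ b ∈ range (d + 2), ∀ x : Cl M,
    (P.ty x.1 = Ty.B ∨ (P.ty x.1 = Ty.N ∧ isP1 (gpn A b) = false)) → |qb P Φ b (gpn A b) x| ≤ 8
  sum : ∀ g (x : Cl M), (P.ty x.1 = Ty.B ∨ (P.ty x.1 = Ty.N ∧ isP1 g = false)) →
    |((∑ b ∈ pal A d g, qb P Φ b g x : ℤ) : ℝ)| ≤ ε / 4 * d
  ned : ∀ (x : Cl M), P.ty x.1 = Ty.B → x.2 = false → ∀ σ : ℤ, σ = 1 ∨ σ = -1 →
    ((∑ b ∈ pal A d .A0 ∪ pal A d .A1 ∪ pal A d .A2 ∪ pal A d .A3,
      max (σ * qb P Φ b .A0 x) 0 : ℤ) : ℝ) ≤ 3 / 5 * d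
  nn : ∀ g (x : Cl M), P.ty x.1 = Ty.B → isP1 g = false → (pal A d g).card ≤
    4 * ((pal A d g).filter (fun b => 0 ≤ qb P Φ b g x)).card
  adj : ∀ z ∈ P.V0, ∀ n β, P.rg z = some (n, β) → ∀ b : Fin (d + 2), Φ b none = some z →
    (cov P.V0 Φ b ∩ sV P n (!β)).card ≤ (cov P.V0 Φ b ∩ sV P n β).card
  np : ∀ g (x : Cl M), P.ty x.1 = Ty.B → isP1 g = false → (pal A d g).card ≤
    4 * ((pal A d g).filter (fun b => qb P Φ b g x ≤ 0)).card
  sup : ∀ z ∈ P.V0, ∀ n β, P.ty n = Ty.B → P.rg z ≠ some (n, β) → ζ ^ 2 * d ≤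
    (((nb (thin G P) z).filter (fun w => w ∉ P.V0 ∧ w ∉ sV P n β ∧ τ z w = .A3)).card : ℝ)

theorem card_Ts' (P : Pcs V M) (n : Fin M) (S : Finset (Ts P n)) (T : Finset V)
    (h1 : ∀ v : Ts P n, v ∈ S ↔ v.1 ∈ T) (h2 : ∀ v ∈ T, v ∉ P.V0 ∧ P.pc v = n) :
    S.card = T.card := by
  apply card_bij (fun w _ => w.1)
  · intro w hw
    exact (h1 w).1 hw
  · intro w _ w' _ h
    exact Subtype.ext h
  · intro w hw
    exact ⟨⟨w, h2 w hw⟩, (h1 _).2 hw, rfl⟩

/-- the colour of an edge -/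
noncomputable def tc {d : ℕ} (Φ : Fin (d + 2) → Option V → Option V) (v w : V) : ℕ :=
  if h : ∃ b, Φ b (some v) = some w then (Classical.choose h).val else 0

/-- the own colour of a vertex of `V0` -/
noncomputable def oc {d : ℕ} (Φ : Fin (d + 2) → Option V → Option V) (z : V) : ℕ :=
  if h : ∃ b, Φ b none = some z then (Classical.choose h).val else 0

variable {G : SimpleGraph V} {P : Pcs V M} {d : ℕ} {Φ : Fin (d + 2) → Option V → Option V}

theorem tc_eq (h : ICol (star (thin G P) P.V0) Φ) (b : Fin (d + 2)) (v w : V) (hvw : v ≠ w)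
    (hb : Φ b (some v) = some w) : tc Φ v w = b.val := by
  unfold tc
  have hex : ∃ b, Φ b (some v) = some w := ⟨b, hb⟩
  rw [dif_pos hex]
  have h1 := Classical.choose_spec hex
  congr 1
  by_contra hne
  have h2 := h.dis _ b (some v) hne (h1.trans hb.symm)
  rw [h1] at h2
  exact hvw (Option.some_inj.1 h2).symm

theorem tc_ex (h : ICol (star (thin G P) P.V0) Φ) (v w : V) (hvw : (thin G P).Adj v w) :
    ∃ b : Fin (d + 2), Φ b (some v) = some w ∧ tc Φ v w = b.val := by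
  obtain ⟨b, hb⟩ := h.cov (some v) (some w) ((star_ss _ _ v w).2 hvw)
  exact ⟨b, hb, tc_eq h b v w hvw.ne hb⟩

theorem tc_sym (h : ICol (star (thin G P) P.V0) Φ) (v w : V) : tc Φ v w = tc Φ w v := by
  by_cases hvw : v = w
  · rw [hvw]
  by_cases hex : ∃ b, Φ b (some v) = some w
  · obtain ⟨b, hb⟩ := hex
    rw [tc_eq h b v w hvw hb, tc_eq h b w v (Ne.symm hvw) (by rw [← hb, h.inv])]
  · have hex' : ¬ ∃ b, Φ b (some w) = some v := by
      rintro ⟨b, hb⟩
      exact hex ⟨b, by rw [← hb, h.inv]⟩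
    unfold tc
    rw [dif_neg hex, dif_neg hex']

theorem oc_ex (h : ICol (star (thin G P) P.V0) Φ) (z : V) (hz : z ∈ P.V0) :
    ∃ b : Fin (d + 2), Φ b none = some z ∧ oc Φ z = b.val := by
  have h1 := ((star_sn (thin G P) P.V0 z).2 hz).symm
  have hex := h.cov none (some z) h1
  refine ⟨Classical.choose hex, Classical.choose_spec hex, ?_⟩
  unfold oc
  rw [dif_pos hex]

theorem mem_Fc (h : ICol (star (thin G P) P.V0) Φ) (v : V) (b : ℕ) :
    b ∈ Fc G P (tc Φ) v ↔ ∃ (b' : Fin (d + 2)) (w : V), b'.val = b ∧ Φ b' (some v) = some w ∧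
      v ≠ w ∧ (thin G P).Adj v w := by
  unfold Fc
  rw [mem_image]
  constructor
  · rintro ⟨w, hw, hb⟩
    rw [mem_nb'] at hw
    obtain ⟨b', h1, h2⟩ := tc_ex h v w hw
    exact ⟨b', w, by rw [← h2, hb], h1, hw.ne, hw⟩
  · rintro ⟨b', w, h1, h2, h3, h4⟩
    refine ⟨w, (mem_nb' _ _ _).2 h4, ?_⟩
    rw [tc_eq h b' v w h3 h2, h1]

theorem Fc_cv (h : ICol (star (thin G P) P.V0) Φ) (v : V) (hv : v ∉ P.V0) (b : ℕ) :
    b ∈ Fc G P (tc Φ) v ↔ v ∈ cv P Φ b := by
  rw [mem_Fc h]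
  unfold cv
  constructor
  · rintro ⟨b', w, h1, h2, h3, h4⟩
    subst h1
    rw [dif_pos b'.2, mem_cov]
    refine ⟨hv, ?_⟩
    rw [show (⟨b'.val, b'.2⟩ : Fin (d + 2)) = b' from rfl, h2]
    exact fun e => h3 (Option.some_inj.1 e).symm
  · intro h1
    by_cases hb : b < d + 2
    · rw [dif_pos hb, mem_cov] at h1
      have h2 := h.adj ⟨b, hb⟩ (some v) h1.2
      cases hq : Φ ⟨b, hb⟩ (some v) with
      | none => rw [hq, star_sn] at h2; exact absurd h2 hv
      | some w =>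
        rw [hq, star_ss] at h2
        exact ⟨⟨b, hb⟩, w, rfl, hq, h2.ne, h2⟩
    · rw [dif_neg hb] at h1
      exact absurd h1 (notMem_empty _)

theorem card_sid (h : ICol (star (thin G P) P.V0) Φ) (n : Fin M) (β : Bool) (b : ℕ) :
    (sid (sdn P n) β ∩ us (Fn G P (tc Φ) n) b).card = (cv P Φ b ∩ sV P n β).card := by
  apply card_Ts' P n
  · intro v
    rw [mem_inter, mem_inter, mem_sV]
    unfold sid us Fn sdn
    rw [mem_filter, mem_filter, Fc_cv h v.1 v.2.1 b]
    have := v.2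
    simp only [mem_univ, true_and]
    tauto
  · intro v hv
    rw [mem_inter, mem_sV] at hv
    exact ⟨hv.2.1, hv.2.2.1⟩

theorem card_qtr (h : ICol (star (thin G P) P.V0) Φ) (n : Fin M) (β i : Bool) (b : ℕ) :
    (qtr (sdn P n) (ptn P n) β i ∩ us (Fn G P (tc Φ) n) b).card =
      (cv P Φ b ∩ qV P n β i).card := by
  apply card_Ts' P n
  · intro v
    rw [mem_inter, mem_inter, mem_qV]
    unfold qtr us Fn sdn ptn
    rw [mem_filter, mem_filter, Fc_cv h v.1 v.2.1 b]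
    have := v.2
    simp only [mem_univ, true_and]
    tauto
  · intro v hv
    rw [mem_inter, mem_qV] at hv
    exact ⟨hv.2.1, hv.2.2.1⟩

theorem us_card_le (h : ICol (star (thin G P) P.V0) Φ) (n : Fin M) (b : ℕ) :
    (us (Fn G P (tc Φ) n) b).card ≤ (cv P Φ b).card := by
  apply card_le_card_of_injOn (fun v => v.1)
  · intro v hv
    rw [mem_coe] at hv ⊢
    unfold us Fn at hv
    rw [mem_filter] at hv
    exact (Fc_cv h v.1 v.2.1 b).1 hv.2
  · intro v _ v' _ e
    exact Subtype.ext e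

/-- node of a piece in a group of `P'` -/
theorem qb_sg (h : ICol (star (thin G P) P.V0) Φ) (n : Fin M) (b : ℕ) (g : Gr)
    (hg : isP1 g = true) (x : Cl M) (hx1 : x.1 = n) (hx2 : x.2 = false) :
    qb P Φ b g x = sg (Fn G P (tc Φ) n) (sdn P n) b := by
  unfold qb sg nds
  rw [hg, hx1, hx2]
  simp only [if_true, Bool.false_eq_true, if_false]
  rw [card_sid h, card_sid h]

theorem qb_sgp (h : ICol (star (thin G P) P.V0) Φ) (n : Fin M) (i : Bool) (b : ℕ) (g : Gr)
    (hg : isP1 g = false) (x : Cl M) (hx1 : x.1 = n) (hx2 : x.2 = i) :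
    qb P Φ b g x = sgp (Fn G P (tc Φ) n) (sdn P n) (ptn P n) i b := by
  unfold qb sgp nds
  rw [hg, hx1, hx2]
  simp only [Bool.false_eq_true, if_false]
  rw [card_qtr h, card_qtr h]

theorem P1_pal {d : ℕ} {A : Pal} {π κ : ℝ} (hA : PalP A d π κ) : P1 d A.Q A.P2 =
    pal A d .A0 ∪ pal A d .A1 ∪ pal A d .A2 ∪ pal A d .A3 := by
  rw [pal_A0 hA, pal_A1 hA, pal_A2 hA, pal_A3 hA]
  unfold P1 Pal.C0
  ext b
  simp only [mem_sdiff, mem_union, mem_range]
  constructor
  · rintro ⟨h1, h2⟩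
    push Not at h2
    by_cases c0 : b ∈ A.C 0
    · exact Or.inl (Or.inl (Or.inl ⟨c0, h2.1.1⟩))
    · by_cases c1 : b ∈ A.C 1
      · exact Or.inl (Or.inl (Or.inr ⟨c1, h2.1.2⟩))
      · by_cases c2 : b ∈ A.C 2
        · exact Or.inl (Or.inr ⟨c2, h2.2⟩)
        · exact Or.inr ⟨h1, by tauto⟩
  · rintro (((⟨h1, h2⟩ | ⟨h1, h2⟩) | ⟨h1, h2⟩) | ⟨h1, h2⟩)
    · refine ⟨mem_range.1 (hA.Clt 0 h1), ?_⟩
      rintro ((h3 | h3) | h3)
      · exact h2 h3
      · exact (pq' hA h3).2.2.1 h1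
      · exact (pp2 hA h3).2.2.1 h1
    · refine ⟨mem_range.1 (hA.Clt 1 h1), ?_⟩
      rintro ((h3 | h3) | h3)
      · exact (pq hA h3).2.2.2.1 h1
      · exact h2 h3
      · exact (pp2 hA h3).2.2.2.1 h1
    · refine ⟨mem_range.1 (hA.Clt 2 h1), ?_⟩
      rintro ((h3 | h3) | h3)
      · exact (pq hA h3).2.2.2.2 h1
      · exact (pq' hA h3).2.2.2.2 h1
      · exact h2 h3
    · refine ⟨h1, ?_⟩
      rintro ((h3 | h3) | h3)
      · exact h2 (Or.inl (Or.inl (hA.Q0 h3)))
      · exact h2 (Or.inl (Or.inr (hA.Q1 h3)))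
      · exact h2 (Or.inr (hA.P2C h3))

theorem mem_pal {d : ℕ} {A : Pal} {g : Gr} {b : ℕ} : b ∈ pal A d g ↔ b < d + 2 ∧ gpn A b = g := by
  unfold pal
  simp only [mem_filter, mem_range]

theorem isP1_of_mem {d : ℕ} {A : Pal} {b : ℕ}
    (hb : b ∈ pal A d .A0 ∪ pal A d .A1 ∪ pal A d .A2 ∪ pal A d .A3) :
    b < d + 2 ∧ isP1 (gpn A b) = true := by
  simp only [mem_union, mem_pal] at hb
  rcases hb with ((h | h) | h) | h <;> exact ⟨h.1, by rw [h.2]; rfl⟩

theorem qb_congr (g g' : Gr) (h : isP1 g = isP1 g') (b : ℕ) (x : Cl M) :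
    qb P Φ b g x = qb P Φ b g' x := by
  unfold qb nds
  rw [h]

theorem mkx (n : Fin M) (i : Bool) : ∃ x : Cl M, x.1 = n ∧ x.2 = i := ⟨(n, i), rfl, rfl⟩

theorem pal_disj {d : ℕ} {A : Pal} (g g' : Gr) (h : g ≠ g') : Disjoint (pal A d g) (pal A d g') := by
  rw [disjoint_left]
  intro b h1 h2
  rw [mem_pal] at h1 h2
  exact h (h1.2.symm.trans h2.2)

theorem conv {ε ζ π κ : ℝ} {A : Pal} {τ : V → V → Tt} (hA : PalP A d π κ) (hε : 0 < ε)
    (h : Res ε ζ G d P A τ Φ) :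
    PreP ε ζ G d P A (tc Φ) (oc Φ) (P.V0.image (oc Φ)) := by
  have hcol := h.col
  have hd0 : (0 : ℝ) ≤ d := Nat.cast_nonneg d
  constructor
  · exact tc_sym hcol
  · intro v w hvw
    obtain ⟨b, _, h2⟩ := tc_ex hcol v w hvw
    rw [h2]; exact b.2
  · intro v w hw w' hw' he
    rw [mem_coe, mem_nb'] at hw hw'
    obtain ⟨b, h1, h2⟩ := tc_ex hcol v w hw
    obtain ⟨b', h1', h2'⟩ := tc_ex hcol v w' hw'
    rw [h2, h2'] at he
    have hb : b = b' := Fin.ext he
    rw [hb, h1'] at h1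
    exact (Option.some_inj.1 h1).symm
  · rfl
  · intro b hb
    rw [mem_image] at hb
    obtain ⟨z, hz, rfl⟩ := hb
    obtain ⟨b, h1, h2⟩ := oc_ex hcol z hz
    rw [h2, ← pal_A3 hA, mem_pal]
    exact ⟨b.2, h.own b z h1⟩
  · intro z hz z' hz' he
    rw [mem_coe] at hz hz'
    obtain ⟨b, h1, h2⟩ := oc_ex hcol z hz
    obtain ⟨b', h1', h2'⟩ := oc_ex hcol z' hz'
    rw [h2, h2'] at he
    have hb : b = b' := Fin.ext he
    rw [hb, h1'] at h1
    exact (Option.some_inj.1 h1).symm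
  · intro z hz hcon
    obtain ⟨b, h1, h2⟩ := oc_ex hcol z hz
    rw [mem_Fc hcol] at hcon
    obtain ⟨b', w, h3, h4, _, _⟩ := hcon
    have hb : b' = b := Fin.ext (h3.trans h2)
    rw [hb] at h4
    have h5 : Φ b (some z) = none := by rw [← h1, hcol.inv]
    rw [h5] at h4
    exact absurd h4 (by simp)
  · intro v hv hty
    rw [disjoint_left]
    intro b hb hbQ
    rw [mem_Fc hcol] at hb
    obtain ⟨b', w, h1, h2, h3, h4⟩ := hb
    subst h1
    have ht := h.typ b' v w h3 h2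
    have ha := h.alw v w h4 hv
    have hnK : P.ty (P.pc v) ≠ Ty.K := by
      rcases hty with h | h <;> rw [h] <;> simp
    unfold alv kp lbl at ha
    rw [if_neg hnK, decide_eq_false hnK] at ha
    have ha2 := tg_spec _ _ ha (gpn A b')
    have ha3 := ha2.1 ht.symm
    cases hp : P.pt v
    · rw [hp] at hbQ ha3
      rw [(gpn_QF (A := A) b'.val).2 hbQ] at ha3
      exact absurd ha3 (by simp [tg])
    · rw [hp] at hbQ ha3
      rw [(gpn_QT hA b'.val).2 hbQ] at ha3
      exact absurd ha3 (by simp [tg])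
  · intro v hv hty
    rw [disjoint_left]
    intro b hb hbC
    rw [mem_Fc hcol] at hb
    obtain ⟨b', w, h1, h2, h3, h4⟩ := hb
    subst h1
    have ht := h.typ b' v w h3 h2
    have ha := h.alw v w h4 hv
    unfold alv kp lbl at ha
    rw [if_pos hty, decide_eq_true hty] at ha
    have key : ∀ i : Fin 3, b'.val ∈ A.C i → al0 true i (τ v w) = false := by
      intro i hi
      have hi3 : i = 0 ∨ i = 1 ∨ i = 2 := by fin_cases i <;> simp
      rcases hi3 with rfl | rfl | rfl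
      · by_cases hq : b'.val ∈ A.Q false
        · rw [(gpn_QF (A := A) b'.val).2 hq] at ht
          cases hτ : τ v w <;> rw [hτ] at ht <;> simp_all [Tt.gr, al0]
        · rw [(gpn_A0 hA b'.val).2 (mem_sdiff.2 ⟨hi, hq⟩)] at ht
          cases hτ : τ v w <;> rw [hτ] at ht <;> simp_all [Tt.gr, al0]
      · by_cases hq : b'.val ∈ A.Q true
        · rw [(gpn_QT hA b'.val).2 hq] at ht
          cases hτ : τ v w <;> rw [hτ] at ht <;> simp_all [Tt.gr, al0]
        · rw [(gpn_A1 hA b'.val).2 (mem_sdiff.2 ⟨hi, hq⟩)] at ht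
          cases hτ : τ v w <;> rw [hτ] at ht <;> simp_all [Tt.gr, al0]
      · by_cases hq : b'.val ∈ A.P2
        · rw [(gpn_P2 hA b'.val).2 hq] at ht
          cases hτ : τ v w <;> rw [hτ] at ht <;> simp_all [Tt.gr, al0]
        · rw [(gpn_A2 hA b'.val).2 (mem_sdiff.2 ⟨hi, hq⟩)] at ht
          cases hτ : τ v w <;> rw [hτ] at ht <;> simp_all [Tt.gr, al0]
    rw [key _ hbC] at ha
    exact absurd ha (by simp)
  · intro n b
    have h1 := us_card_le (P := P) hcol n b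
    refine le_trans (Nat.cast_le.2 h1) ?_
    unfold cv
    by_cases hb : b < d + 2
    · rw [dif_pos hb]; exact h.load ⟨b, hb⟩
    · rw [dif_neg hb]
      simp only [card_empty, Nat.cast_zero]
      exact le_trans (Nat.cast_nonneg _) (h.load ⟨0, by omega⟩)
  · intro n hty i b hb
    obtain ⟨x, hx1, hx2⟩ := mkx n i
    have hb2 : b ∈ range (d + 2) ∧ isP1 (gpn A b) = false := by
      rw [mem_union] at hb
      rcases hb with hb | hb
      · cases i
        · have hb' : b ∈ A.Q true := hb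
          exact ⟨hA.Clt 1 (hA.Q1 hb'), by rw [(gpn_QT hA b).2 hb']; rfl⟩
        · have hb' : b ∈ A.Q false := hb
          exact ⟨hA.Clt 0 (hA.Q0 hb'), by rw [(gpn_QF (A := A) b).2 hb']; rfl⟩
      · exact ⟨hA.Clt 2 (hA.P2C hb), by rw [(gpn_P2 hA b).2 hb]; rfl⟩
    rw [← qb_sgp hcol n i b (gpn A b) hb2.2 x hx1 hx2]
    apply h.q8 b hb2.1 x
    rw [hx1]
    rcases hty with h | h
    · exact Or.inr ⟨h, hb2.2⟩
    · exact Or.inl h
  · intro n hty b hb
    rw [P1_pal hA] at hb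
    obtain ⟨x, hx1, hx2⟩ := mkx n false
    obtain ⟨h1, h2⟩ := isP1_of_mem hb
    rw [← qb_sg hcol n b (gpn A b) h2 x hx1 hx2]
    exact h.q8 b (mem_range.2 h1) x (Or.inl (by rw [hx1]; exact hty))
  · intro n hty
    obtain ⟨x, hx1, hx2⟩ := mkx n false
    have hB : P.ty x.1 = Ty.B := by rw [hx1]; exact hty
    rw [P1_pal hA, sum_union, sum_union, sum_union]
    · have s0 := h.sum .A0 x (Or.inl hB)
      have s1 := h.sum .A1 x (Or.inl hB)
      have s2 := h.sum .A2 x (Or.inl hB)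
      have s3 := h.sum .A3 x (Or.inl hB)
      have e : ∀ g, isP1 g = true → ∑ b ∈ pal A d g, sg (Fn G P (tc Φ) n) (sdn P n) b =
          ∑ b ∈ pal A d g, qb P Φ b g x := by
        intro g hg
        apply sum_congr rfl
        intro b _
        rw [qb_sg hcol n b g hg x hx1 hx2]
      rw [e .A0 rfl, e .A1 rfl, e .A2 rfl, e .A3 rfl]
      rw [abs_le] at s0 s1 s2 s3 ⊢
      rw [Int.cast_add, Int.cast_add, Int.cast_add]
      constructor <;> linarith [s0.1, s0.2, s1.1, s1.2, s2.1, s2.2, s3.1, s3.2]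
    · exact pal_disj _ _ (by simp)
    · rw [disjoint_union_left]
      exact ⟨pal_disj _ _ (by simp), pal_disj _ _ (by simp)⟩
    · rw [disjoint_union_left, disjoint_union_left]
      exact ⟨⟨pal_disj _ _ (by simp), pal_disj _ _ (by simp)⟩, pal_disj _ _ (by simp)⟩
  · intro n hty i
    obtain ⟨x, hx1, hx2⟩ := mkx n i
    have hB : P.ty x.1 = Ty.B ∨ (P.ty x.1 = Ty.N ∧ isP1 .P2 = false) := by
      rw [hx1]
      rcases hty with h | h
      · exact Or.inr ⟨h, rfl⟩
      · exact Or.inl h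
    have s := h.sum .P2 x hB
    rw [pal_P2 hA] at s
    rw [sum_congr rfl (fun b _ => (qb_sgp hcol n i b .P2 rfl x hx1 hx2).symm)]
    refine s.trans ?_
    nlinarith
  · intro n hty i
    obtain ⟨x, hx1, hx2⟩ := mkx n i
    have hB : ∀ g, isP1 g = false → P.ty x.1 = Ty.B ∨ (P.ty x.1 = Ty.N ∧ isP1 g = false) := by
      intro g hg
      rw [hx1]
      rcases hty with h | h
      · exact Or.inr ⟨h, hg⟩
      · exact Or.inl h
    cases i
    · have s := h.sum .QT x (hB _ rfl)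
      rw [pal_QT hA] at s
      show |((∑ b ∈ A.Q true, sgp (Fn G P (tc Φ) n) (sdn P n) (ptn P n) false b : ℤ) : ℝ)| ≤ ε * d
      rw [sum_congr rfl (fun b _ => (qb_sgp hcol n false b .QT rfl x hx1 hx2).symm)]
      refine s.trans ?_
      nlinarith
    · have s := h.sum .QF x (hB _ rfl)
      rw [pal_QF hA] at s
      show |((∑ b ∈ A.Q false, sgp (Fn G P (tc Φ) n) (sdn P n) (ptn P n) true b : ℤ) : ℝ)| ≤ ε * d
      rw [sum_congr rfl (fun b _ => (qb_sgp hcol n true b .QF rfl x hx1 hx2).symm)]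
      refine s.trans ?_
      nlinarith
  · intro n hty β
    obtain ⟨x, hx1, hx2⟩ := mkx n false
    have hB : P.ty x.1 = Ty.B := by rw [hx1]; exact hty
    rw [P1_pal hA]
    have e : ∀ b, (need (Fn G P (tc Φ) n) (sdn P n) β b : ℤ) =
        max ((if β then 1 else -1) * qb P Φ b .A0 x) 0 := by
      intro b
      rw [qb_sg hcol n b .A0 rfl x hx1 hx2]
      unfold need sg
      cases β
      · simp only [Bool.not_false, Bool.false_eq_true, if_false]
        omega
      · simp only [Bool.not_true, if_true]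
        omega
    have s := h.ned x hB hx2 (if β then 1 else -1) (by cases β <;> simp)
    rw [← sum_congr rfl (fun b _ => e b), ← Nat.cast_sum] at s
    exact_mod_cast s
  · intro n hty j
    obtain ⟨x, hx1, hx2⟩ := mkx n (!j)
    have hB : P.ty x.1 = Ty.B := by rw [hx1]; exact hty
    cases j
    · have s := h.nn .QF x hB rfl
      rw [pal_QF hA] at s
      simp only [qb_sgp hcol n (!false) _ .QF rfl x hx1 hx2] at s
      exact s
    · have s := h.nn .QT x hB rfl
      rw [pal_QT hA] at s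
      simp only [qb_sgp hcol n (!true) _ .QT rfl x hx1 hx2] at s
      exact s
  · intro z hz n β hrg
    obtain ⟨b, h1, h2⟩ := oc_ex hcol z hz
    have s := h.adj z hz n β hrg b h1
    unfold need
    rw [card_sid hcol, card_sid hcol]
    have h3 : cv P Φ (oc Φ z) = cov P.V0 Φ b := by
      rw [h2]
      unfold cv
      rw [dif_pos b.2]
    rw [h3]
    omega

theorem convX {ε ζ π κ : ℝ} {A : Pal} {τ : V → V → Tt} (hA : PalP A d π κ)
    (h : Res ε ζ G d P A τ Φ) : PreX ζ G d P A (tc Φ) := by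
  have hcol := h.col
  constructor
  · intro z hz n β hty hrg
    refine (h.sup z hz n β hty hrg).trans ?_
    refine Nat.cast_le.2 (card_le_card ?_)
    intro w hw
    rw [mem_filter, mem_nb'] at hw
    rw [mem_filter, mem_nb']
    obtain ⟨b, h1, h2⟩ := tc_ex hcol z w hw.1
    refine ⟨hw.1.1, hw.2.1, hw.2.2.1, ?_⟩
    have ht := h.typ b z w hw.1.ne h1
    rw [hw.2.2.2] at ht
    rw [h2, ← pal_A3 hA, mem_pal]
    exact ⟨b.2, ht⟩
  · intro n hty j
    obtain ⟨x, hx1, hx2⟩ := mkx n (!j)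
    have hB : P.ty x.1 = Ty.B := by rw [hx1]; exact hty
    cases j
    · have s := h.np .QF x hB rfl
      rw [pal_QF hA] at s
      simp only [qb_sgp hcol n (!false) _ .QF rfl x hx1 hx2] at s
      exact s
    · have s := h.np .QT x hB rfl
      rw [pal_QT hA] at s
      simp only [qb_sgp hcol n (!true) _ .QT rfl x hx1 hx2] at s
      exact s

end conv

end Pool.Agent.Work.MP_db9399_dp.helper82
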