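import Pool.Agent.Work.MP_db9399_dp_helper82.Mid
import Pool.Agent.Work.MP_db9399_dp_helper82.ADJ2

/-! # PRE: application of ADJ2 (helper82) -/

set_option autoImplicit false

namespace Pool.Agent.Work.MP_db9399_dp.helper82

open Finset Classical
open Pool.Agent.Work.MP_db9399_all (nb)
open Pool.Agent.Work.MP_db9399_da

universe u

attribute [-instance] instDecidableEqTt instDecidableEqGr Subtype.instDecidableEq

section fr
variable {V : Type u} [Fintype V] {M : ℕ}

theorem mem_filter_any {α : Type*} (s : Finset α) (p : α → Prop) (inst : DecidablePred p) (a : α) :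
    a ∈ @Finset.filter α p inst s ↔ a ∈ s ∧ p a := Finset.mem_filter

theorem card_change (C C' X Y : Finset V) (hXY : Disjoint X Y) :
    |(((C' ∩ X).card : ℤ) - (C' ∩ Y).card) - (((C ∩ X).card : ℤ) - (C ∩ Y).card)| ≤
      (C' \ C).card + (C \ C').card := by
  have key : ∀ (A B Z : Finset V), (A ∩ Z).card ≤ (B ∩ Z).card + ((A \ B) ∩ Z).card := by
    intro A B Z
    refine le_trans (card_le_card ?_) (card_union_le _ _)
    intro v hv
    rw [mem_inter] at hv
    rw [mem_union, mem_inter, mem_inter, mem_sdiff]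
    tauto
  have disj : ∀ A : Finset V, (A ∩ X).card + (A ∩ Y).card ≤ A.card := by
    intro A
    rw [← card_union_of_disjoint]
    · exact card_le_card (union_subset inter_subset_left inter_subset_left)
    · exact hXY.mono inter_subset_right inter_subset_right
  have k1 := key C' C X
  have k2 := key C' C Y
  have k3 := key C C' X
  have k4 := key C C' Y
  have d1 := disj (C' \ C)
  have d2 := disj (C \ C')
  rw [abs_le]
  constructor <;> omega

theorem nds_disj (P : Pcs V M) (g : Gr) (x : Cl M) :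
    Disjoint (nds P g x false) (nds P g x true) := by
  rw [disjoint_left]
  intro v h1 h2
  unfold nds at h1 h2
  cases hg : isP1 g
  · rw [hg] at h1 h2
    simp only [Bool.false_eq_true, if_false, mem_qV] at h1 h2
    rw [h1.2.2.1] at h2
    exact absurd h2.2.2.1 (by simp)
  · rw [hg] at h1 h2
    cases hx : x.2
    · rw [hx] at h1 h2
      simp only [if_true, Bool.false_eq_true, if_false, mem_sV] at h1 h2
      rw [h1.2.2] at h2
      exact absurd h2.2.2 (by simp)
    · rw [hx] at h1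
      simp at h1

theorem qb_change (P : Pcs V M) {d : ℕ} (Φ Φ' : Fin (d + 2) → Option V → Option V) (b : ℕ)
    (hb : b < d + 2) (g : Gr) (x : Cl M)
    (h : (cov P.V0 Φ' ⟨b, hb⟩ \ cov P.V0 Φ ⟨b, hb⟩).card +
      (cov P.V0 Φ ⟨b, hb⟩ \ cov P.V0 Φ' ⟨b, hb⟩).card ≤ 6) :
    |qb P Φ' b g x - qb P Φ b g x| ≤ 6 := by
  unfold qb cv
  rw [dif_pos hb, dif_pos hb]
  refine (card_change _ _ _ _ (nds_disj P g x)).trans ?_
  exact_mod_cast h

theorem qb_same (P : Pcs V M) {d : ℕ} (Φ Φ' : Fin (d + 2) → Option V → Option V) (b : ℕ)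
    (hb : b < d + 2) (g : Gr) (x : Cl M) (h : Φ' ⟨b, hb⟩ = Φ ⟨b, hb⟩) :
    qb P Φ' b g x = qb P Φ b g x := by
  unfold qb cv cov
  rw [dif_pos hb, dif_pos hb, h]

/-- supply of coloured edges at the vertices of `V0` -/
theorem supply {C g0 ρ K ζ θ ε1 e π κ : ℝ} (G : SimpleGraph V) (d : ℕ) (P : Pcs V M) (A : Pal)
    (hD : DecP C g0 ρ ζ θ G d P) (hPD : PartD K ζ ε1 G d P) (hA : PalP A d π κ)
    (hn : Num e π κ d) (hθ : 0 < θ) (hεd : 1 / ε1 ≤ ζ ^ 2 * d) (τ : V → V → Tt)
    (hτ : TyOut (thin G P) P.V0 (clv P) (alv P) (rhoT A d) (fun _ => mt A d) (Bdz ε1 G P)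
      (K * ζ * d) τ) (n : Fin M) (β : Bool) (hty : P.ty n = Ty.B) (z : V) (hz : z ∈ P.V0)
    (hrg : P.rg z ≠ some (n, β)) :
    e * (ζ / 4 * d - θ * d) - 2 * M * (42 + 2 * M * (ζ ^ 2 * d)) ≤
      (((nb (thin G P) z).filter (fun w => w ∉ P.V0 ∧ w ∉ sV P n β ∧ τ z w = .A3)).card : ℝ) := by
  have hd0 : (0 : ℝ) ≤ d := Nat.cast_nonneg d
  set X0 : Cl M := (n, β) with hX0
  have hnK : P.ty n ≠ Ty.K := by rw [hty]; simp
  have hcX : ∀ v, v ∉ P.V0 → (v ∈ sV P n β ↔ clv P v = X0) := by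
    intro v hv
    rw [mem_sV, clv_eq]
    constructor
    · rintro ⟨_, h1, h2⟩
      refine ⟨h1, ?_⟩
      rw [h1, if_neg hnK]; exact h2
    · rintro ⟨h1, h2⟩
      have h1' : P.pc v = n := h1
      rw [h1', if_neg hnK] at h2
      exact ⟨hv, h1', h2⟩
  set W := (nb (thin G P) z).filter (fun w => w ∉ P.V0 ∧ w ∉ sV P n β) with hW
  have hWc : ζ / 4 * d - θ * d ≤ (W.card : ℝ) := by
    have h1 := hD.out n β hty z hz hrg
    have h2 : nb G z \ sV P n β ⊆ W ∪ P.V0 := by
      intro w hw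
      rw [mem_sdiff] at hw
      rw [mem_union, hW, mem_filter, nb_thin_V0 G P z hz]
      by_cases hw0 : w ∈ P.V0
      · exact Or.inr hw0
      · exact Or.inl ⟨hw.1, hw0, hw.2⟩
    have h3 := (card_le_card h2).trans (card_union_le _ _)
    have h4 : ((nb G z \ sV P n β).card : ℝ) ≤ W.card + P.V0.card := by exact_mod_cast h3
    have h5 := hD.V0c
    linarith
  have hW1 : (W.card : ℝ) ≤ ∑ X ∈ univ.filter (fun X => X ≠ X0),
      ((zb (thin G P) P.V0 (clv P) z X).card : ℝ) := by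
    rw [card_eq_sum_card_fiberwise (f := clv P) (t := univ.filter (fun X => X ≠ X0))]
    · push_cast
      apply sum_le_sum
      intro X _
      refine Nat.cast_le.2 (card_le_card ?_)
      intro v hv
      rw [mem_filter, hW, mem_filter, mem_nb'] at hv
      rw [mem_zb]
      exact ⟨hv.1.1, hv.1.2.1, hv.2⟩
    · intro v hv
      rw [mem_coe, hW, mem_filter] at hv
      rw [mem_coe, mem_filter]
      exact ⟨mem_univ _, fun h => hv.2.2 ((hcX v hv.2.1).2 h)⟩
  have hcount : ∑ X ∈ univ.filter (fun X => X ≠ X0),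
      (((zb (thin G P) P.V0 (clv P) z X).filter (fun w => τ z w = .A3)).card : ℝ) ≤
      (((nb (thin G P) z).filter (fun w => w ∉ P.V0 ∧ w ∉ sV P n β ∧ τ z w = .A3)).card : ℝ) := by
    rw [card_eq_sum_card_fiberwise (s := (nb (thin G P) z).filter
      (fun w => w ∉ P.V0 ∧ w ∉ sV P n β ∧ τ z w = .A3)) (f := clv P)
      (t := univ.filter (fun X => X ≠ X0))]
    · push_cast
      apply sum_le_sum
      intro X hX
      rw [mem_filter] at hX
      refine Nat.cast_le.2 (card_le_card ?_)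
      intro v hv
      rw [mem_filter, mem_zb] at hv
      rw [mem_filter, mem_filter, mem_nb']
      refine ⟨⟨hv.1.1, hv.1.2.1, fun h => ?_, hv.2⟩, hv.1.2.2⟩
      exact hX.2 (by rw [← hv.1.2.2]; exact (hcX v hv.1.2.1).1 h)
    · intro v hv
      rw [mem_coe, mem_filter] at hv
      rw [mem_coe, mem_filter]
      exact ⟨mem_univ _, fun h => hv.2.2.1 ((hcX v hv.2.1).2 h)⟩
  refine le_trans ?_ hcount
  have hc8 : (Fintype.card Tt : ℝ) = 8 := by
    have : Fintype.card Tt = 8 := rfl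
    rw [this]; norm_num
  have hbd := bd_small G d P hPD hεd z hz
  have hterm : ∀ X ∈ univ.filter (fun X => X ≠ X0),
      e * ((zb (thin G P) P.V0 (clv P) z X).card : ℝ) - (42 + 2 * M * (ζ ^ 2 * d)) ≤
      (((zb (thin G P) P.V0 (clv P) z X).filter (fun w => τ z w = .A3)).card : ℝ) := by
    intro X _
    have h1 := (abs_le.1 (hτ.zbl z hz X .A3)).1
    rw [hc8] at h1
    have h2 := rho_ge hA hn .A3
    have h3 : e * ((zb (thin G P) P.V0 (clv P) z X).card : ℝ) ≤
        rhoT A d .A3 * ((zb (thin G P) P.V0 (clv P) z X).card : ℝ) :=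
      mul_le_mul_of_nonneg_right h2 (Nat.cast_nonneg _)
    linarith
  refine le_trans ?_ (sum_le_sum hterm)
  rw [sum_sub_distrib, ← mul_sum, sum_const, nsmul_eq_mul]
  have h5 : ((univ.filter (fun X => X ≠ X0)).card : ℝ) ≤ 2 * M := by
    have : (univ.filter (fun X => X ≠ X0)).card ≤ M * 2 := by
      rw [← card_Cl M, ← card_univ]
      exact card_le_card (filter_subset _ _)
    have h6 : ((univ.filter (fun X => X ≠ X0)).card : ℝ) ≤ ((M * 2 : ℕ) : ℝ) := by
      exact_mod_cast this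
    push_cast at h6
    linarith
  have h6 : (0 : ℝ) ≤ 42 + 2 * M * (ζ ^ 2 * d) := by positivity
  have h7 := mul_le_mul_of_nonneg_right h5 h6
  have h8 : e * (ζ / 4 * d - θ * d) ≤ e * ∑ X ∈ univ.filter (fun X => X ≠ X0),
      ((zb (thin G P) P.V0 (clv P) z X).card : ℝ) :=
    mul_le_mul_of_nonneg_left (hWc.trans hW1) hn.e0.le
  linarith

theorem fin_res {C g0 ρ K ζ θ ε1 e π κ l Er ε : ℝ} (hADJ : Stmt_ADJ2.{u})
    (G : SimpleGraph V) (d : ℕ) (P : Pcs V M) (A : Pal)
    (hD : DecP C g0 ρ ζ θ G d P) (hPD : PartD K ζ ε1 G d P) (hA : PalP A d π κ)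
    (hn : Num e π κ d) (hζ : 0 < ζ) (hθ : 0 < θ) (hεd : 1 / ε1 ≤ ζ ^ 2 * d)
    (τ : V → V → Tt)
    (hτ : TyOut (thin G P) P.V0 (clv P) (alv P) (rhoT A d) (fun _ => mt A d) (Bdz ε1 G P)
      (K * ζ * d) τ) (Φ : Fin (d + 2) → Option V → Option V)
    (hM : Mid l Er G d P A τ Φ) (hl : 0 ≤ l)
    (n6 : 6 * (θ * d) + l < e * (ζ / 4 * d - θ * d) - 2 * M * (42 + 2 * M * (ζ ^ 2 * d)))
    (n7 : 5 * (θ * d) + 2 * (ζ * d) + 1 < e * d)
    (n8 : 6 / 5 + 30 * (θ * d) ≤ 6 / 5 * (e * d)) (n9 : Er + 30 * (θ * d) ≤ ε / 4 * d)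
    (n10 : l + 6 ≤ ε * ζ * d)
    (n11 : ζ ^ 2 * d ≤ e * (ζ / 4 * d - θ * d) - 2 * M * (42 + 2 * M * (ζ ^ 2 * d))) :
    ∃ Φ' : Fin (d + 2) → Option V → Option V, Res ε ζ G d P A τ Φ' := by
  have hd0 : (0 : ℝ) ≤ d := Nat.cast_nonneg d
  have hV0 := hD.V0c
  -- own colours
  have hoe : ∀ z : V, ∃ b : Fin (d + 2), z ∈ P.V0 → Φ b none = some z := by
    intro z
    by_cases hz : z ∈ P.V0
    · obtain ⟨b, hb, _⟩ := oc_ex hM.col z hz
      exact ⟨b, fun _ => hb⟩
    · exact ⟨⟨0, by omega⟩, fun h => absurd h hz⟩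
  choose o ho using hoe
  set B : Finset (Fin (d + 2)) := univ.filter (fun b => gpf A d b = .A3) with hB
  set Az : V → Finset V := fun z => (P.rg z).elim ∅ (fun p => sV P p.1 (!p.2)) with hAz
  set Az' : V → Finset V := fun z => (P.rg z).elim ∅ (fun p => sV P p.1 p.2) with hAz'
  set Zt := P.V0.filter (fun z => P.rg z ≠ none) with hZt
  have hrgs : ∀ z ∈ Zt, ∃ n β, P.rg z = some (n, β) ∧ P.ty n = Ty.B ∧ Az z = sV P n (!β) ∧
      Az' z = sV P n β := by
    intro z hz
    rw [hZt, mem_filter] at hz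
    obtain ⟨p, hp⟩ := Option.ne_none_iff_exists'.1 hz.2
    obtain ⟨n, β⟩ := p
    refine ⟨n, β, hp, (hD.rgd z hz.1 n β hp).1, ?_, ?_⟩
    · simp only [hAz]
      rw [hp]; rfl
    · simp only [hAz']
      rw [hp]; rfl
  have hoB : ∀ z ∈ P.V0, gpn A (o z) = .A3 := fun z hz => hM.own _ z (ho z hz)
  have hBc : e * d ≤ (B.card : ℝ) := by
    rw [hB, card_gpf]; exact pal_ge hA hn .A3
  obtain ⟨Φ', a1, a2, a3, a4, a5, a6⟩ := hADJ (thin G P) P.V0 Zt Φ B o Az Az' ⌊ζ * d⌋₊ ⌊l⌋₊ hM.col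
    (filter_subset _ _) (fun z hz => ⟨by rw [hB, mem_filter]; exact ⟨mem_univ _, hoB z hz⟩, ho z hz⟩)
    (by
      intro z hz
      obtain ⟨n, β, _, _, h3, h4⟩ := hrgs z hz
      rw [h3, h4, disjoint_left]
      intro v h5 h6
      rw [mem_sV] at h5 h6
      rw [h6.2.2] at h5
      cases β <;> simp at h5)
    (by
      intro z hz v hv w hw hadj
      obtain ⟨n, β, _, h2, h3, h4⟩ := hrgs z hz
      rw [h3, mem_sV] at hv
      rw [h4, mem_sV] at hw
      apply hadj.2
      refine ⟨hadj.1, hv.1, hw.1, hv.2.1.trans hw.2.1.symm, fun _ => ?_⟩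
      rw [hv.2.2, hw.2.2]
      cases β <;> simp)
    (by
      intro z hz
      obtain ⟨n, β, _, h2, h3, h4⟩ := hrgs z hz
      have hzV : z ∈ P.V0 := (mem_filter.1 hz).1
      obtain ⟨x, hx1, hx2⟩ := mkx n false
      have h5 := hM.q2 (o z).val (mem_range.2 (o z).2) x (Or.inl (by rw [hx1]; exact h2))
      rw [hoB z hzV] at h5
      have hc : cv P Φ (o z).val = cov P.V0 Φ (o z) := by unfold cv; rw [dif_pos (o z).2]
      unfold qb nds at h5
      rw [hx1, hx2, hc] at h5
      simp only [isP1, if_true, Bool.false_eq_true, if_false] at h5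
      rw [abs_le] at h5
      rw [h3, h4]
      cases β
      · simp only [Bool.not_false]
        omega
      · simp only [Bool.not_true]
        omega)
    (fun v hv => Nat.le_floor (hD.thd v hv))
    (fun z _ => Nat.le_floor (hM.load _))
    (by
      have h1 : (⌊ζ * d⌋₊ : ℝ) ≤ ζ * d := Nat.floor_le (by positivity)
      have : ((5 * P.V0.card + 2 * ⌊ζ * d⌋₊ + 1 : ℕ) : ℝ) < (B.card : ℝ) := by
        push_cast
        linarith
      exact_mod_cast this)
    (by
      intro z hz z' hz'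
      obtain ⟨n, β, h1, h2, h3, h4⟩ := hrgs z hz
      have hzV : z ∈ P.V0 := (mem_filter.1 hz).1
      have hrg' : P.rg z' ≠ some (n, !β) := by
        intro h5
        have := hD.rgs z hzV z' hz' n β (!β) h1 h5
        cases β <;> simp at this
      have h5 := supply G d P A hD hPD hA hn hθ hεd τ hτ n (!β) h2 z' hz' hrg'
      refine lt_of_lt_of_le (b := ((nb (thin G P) z').filter (fun w => w ∉ P.V0 ∧
        w ∉ sV P n (!β) ∧ τ z' w = .A3)).card) ?_ (card_le_card ?_)
      · have h8 : (⌊l⌋₊ : ℝ) ≤ l := Nat.floor_le hl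
        have : ((6 * P.V0.card + ⌊l⌋₊ : ℕ) : ℝ) < (((nb (thin G P) z').filter (fun w => w ∉ P.V0 ∧
            w ∉ sV P n (!β) ∧ τ z' w = .A3)).card : ℝ) := by
          push_cast
          linarith
        exact_mod_cast this
      · intro w hw
        rw [mem_filter] at hw
        refine (mem_filter_any _ _ _ _).2 ?_
        rw [h3]
        refine ⟨hw.1, hw.2.1, hw.2.2.1, ?_⟩
        obtain ⟨b, hb, _⟩ := tc_ex hM.col z' w ((mem_nb' _ _ _).1 hw.1)
        refine ⟨b, ?_, hb⟩
        rw [hB, mem_filter]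
        refine ⟨mem_univ _, ?_⟩
        have h7 := hM.typ b z' w (((mem_nb' _ _ _).1 hw.1).ne) hb
        rw [hw.2.2.2] at h7
        exact h7)
  -- unchanged colours
  have hun : ∀ b : ℕ, ∀ hb : b < d + 2, gpn A b ≠ .A3 → Φ' ⟨b, hb⟩ = Φ ⟨b, hb⟩ := by
    intro b hb hne
    apply a2
    rw [hB, mem_filter]
    exact fun h => hne h.2
  have howb : ∀ (b : Fin (d + 2)) (z : V), Φ' b none = some z → z ∈ P.V0 ∧ b = o z := by
    intro b z hb
    have hzV : z ∈ P.V0 := by
      have h1 := a1.adj b none (by rw [hb]; simp)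
      rw [hb] at h1
      exact (star_sn _ _ z).1 h1.symm
    refine ⟨hzV, ?_⟩
    by_contra hne
    have h1 := a1.dis b (o z) none hne (by rw [hb, a3 z hzV])
    rw [hb] at h1
    exact absurd h1 (by simp)
  have hsame : ∀ g, g ≠ .A3 → ∀ b ∈ pal A d g, ∀ g' x, qb P Φ' b g' x = qb P Φ b g' x := by
    intro g hg b hb g' x
    have h1 := mem_pal.1 hb
    exact qb_same P Φ Φ' b h1.1 g' x (hun b h1.1 (by rw [h1.2]; exact hg))
  have hch : ∀ b, b < d + 2 → ∀ g' x, |qb P Φ' b g' x - qb P Φ b g' x| ≤ 6 := by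
    intro b hb g' x
    exact qb_change P Φ Φ' b hb g' x (a5 ⟨b, hb⟩)
  -- number of changed colours
  set Ch := (pal A d .A3).filter (fun b => ∃ hb : b < d + 2, Φ' ⟨b, hb⟩ ≠ Φ ⟨b, hb⟩) with hCh
  have hChc : (Ch.card : ℝ) ≤ 5 * (θ * d) := by
    have h1 : Ch.card ≤ (univ.filter (fun b => Φ' b ≠ Φ b)).card := by
      rw [← card_image_of_injective (univ.filter (fun b => Φ' b ≠ Φ b)) Fin.val_injective]
      apply card_le_card
      intro b hb
      rw [hCh, mem_filter] at hb
      obtain ⟨_, hb1, hb2⟩ := hb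
      rw [mem_image]
      exact ⟨⟨b, hb1⟩, by rw [mem_filter]; exact ⟨mem_univ _, hb2⟩, rfl⟩
    have h2 : Zt.card ≤ P.V0.card := card_le_card (filter_subset _ _)
    have h3 : Ch.card ≤ 5 * P.V0.card := by omega
    have h4 : (Ch.card : ℝ) ≤ 5 * (P.V0.card : ℝ) := by exact_mod_cast h3
    linarith
  have hsum3 : ∀ (f f' : ℕ → ℤ), (∀ b ∈ pal A d .A3, |f' b - f b| ≤ 6) →
      (∀ b ∈ pal A d .A3, b ∉ Ch → f' b = f b) →
      |((∑ b ∈ pal A d .A3, f' b : ℤ) : ℝ) - ((∑ b ∈ pal A d .A3, f b : ℤ) : ℝ)| ≤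
        30 * (θ * d) := by
    intro f f' h1 h2
    have h3 : |∑ b ∈ pal A d .A3, f' b - ∑ b ∈ pal A d .A3, f b| ≤ 6 * Ch.card := by
      rw [← sum_sub_distrib]
      refine (abs_sum_le_sum_abs _ _).trans ?_
      rw [← sum_subset (filter_subset _ _ : Ch ⊆ pal A d .A3)]
      · calc ∑ b ∈ Ch, |f' b - f b| ≤ ∑ _b ∈ Ch, (6 : ℤ) :=
              sum_le_sum (fun b hb => h1 b ((filter_subset _ _ : Ch ⊆ pal A d .A3) hb))
          _ = 6 * Ch.card := by rw [sum_const, nsmul_eq_mul]; ring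
      · intro b hb hb'
        rw [h2 b hb hb', sub_self, abs_zero]
    have h4 : |((∑ b ∈ pal A d .A3, f' b : ℤ) : ℝ) - ((∑ b ∈ pal A d .A3, f b : ℤ) : ℝ)| ≤
        6 * (Ch.card : ℝ) := by
      rw [← Int.cast_sub, ← Int.cast_abs]
      exact_mod_cast h3
    linarith
  have hnoch : ∀ b ∈ pal A d .A3, b ∉ Ch → ∀ g x, qb P Φ' b g x = qb P Φ b g x := by
    intro b hb hb' g x
    have h1 := mem_pal.1 hb
    apply qb_same P Φ Φ' b h1.1 g x
    by_contra hne
    exact hb' (by rw [hCh, mem_filter]; exact ⟨hb, h1.1, hne⟩)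
  refine ⟨Φ', hM.alw, a1, ?_, ?_, ?_, ?_, ?_, ?_, ?_, ?_, ?_, ?_⟩
  · intro b v w hvw hb
    by_cases hbB : b ∈ B
    · have h1 := a1.adj b (some v) (by rw [hb]; exact fun e => hvw (Option.some_inj.1 e).symm)
      rw [hb] at h1
      obtain ⟨a, ha⟩ := hM.col.cov _ _ h1
      have h2 := hM.typ a v w hvw ha
      by_cases haB : a ∈ B
      · rw [hB, mem_filter] at hbB haB
        have h3 : gpn A b = .A3 := hbB.2
        have h4 : gpn A a = .A3 := haB.2
        rw [h3, ← h2, h4]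
      · have h3 := a2 a haB
        have hne : a ≠ b := fun e => haB (e ▸ hbB)
        have h4 := a1.dis a b (some v) hne (by rw [h3, ha, hb])
        rw [h3, ha] at h4
        exact absurd (Option.some_inj.1 h4).symm hvw
    · rw [a2 b hbB] at hb
      exact hM.typ b v w hvw hb
  · intro b v hb
    obtain ⟨h1, h2⟩ := howb b v hb
    rw [h2]; exact hoB v h1
  · intro b
    have h1 := a5 b
    have h2 : (cov P.V0 Φ' b).card ≤ (cov P.V0 Φ b).card + 6 := by
      have h3 : cov P.V0 Φ' b ⊆ cov P.V0 Φ b ∪ (cov P.V0 Φ' b \ cov P.V0 Φ b) := by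
        intro v hv
        rw [mem_union, mem_sdiff]
        tauto
      have := (card_le_card h3).trans (card_union_le _ _)
      omega
    have h3 : ((cov P.V0 Φ' b).card : ℝ) ≤ ((cov P.V0 Φ b).card : ℝ) + 6 := by exact_mod_cast h2
    have h4 := hM.load b
    linarith
  · intro b hb x hty
    have h1 := hM.q2 b hb x hty
    have h2 := hch b (mem_range.1 hb) (gpn A b) x
    rw [abs_le] at h1 h2 ⊢
    omega
  · intro g x hty
    have h1 := hM.sum g x hty
    by_cases hg : g = .A3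
    · subst hg
      have h2 := hsum3 (fun b => qb P Φ b .A3 x) (fun b => qb P Φ' b .A3 x)
        (fun b hb => hch b (mem_pal.1 hb).1 .A3 x) (fun b hb hb' => hnoch b hb hb' .A3 x)
      rw [abs_le] at h1 h2 ⊢
      constructor <;> linarith [h1.1, h1.2, h2.1, h2.2]
    · rw [sum_congr rfl (fun b hb => hsame g hg b hb g x)]
      refine h1.trans ?_
      have : 0 ≤ θ * d := by positivity
      linarith
  · intro x hty hx2 σ hσ
    have hm : ∀ g, isP1 g = true → ((∑ b ∈ pal A d g, max (σ * qb P Φ b .A0 x) 0 : ℤ) : ℝ) ≤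
        6 / 10 * (pal A d g).card := by
      intro g hg
      have h1 := hM.ned g x (Or.inl hty) σ hσ
      have h2 : ∀ b, qb P Φ b .A0 x = qb P Φ b g x := fun b => qb_congr .A0 g (by rw [hg]; rfl) b x
      simp only [h2]
      exact h1
    have h0 : ∀ g, g ≠ .A3 → isP1 g = true →
        ((∑ b ∈ pal A d g, max (σ * qb P Φ' b .A0 x) 0 : ℤ) : ℝ) ≤ 6 / 10 * (pal A d g).card := by
      intro g hg hg1
      rw [sum_congr rfl (fun b hb => by rw [hsame g hg b hb .A0 x])]
      exact hm g hg1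
    have h3 : ((∑ b ∈ pal A d .A3, max (σ * qb P Φ' b .A0 x) 0 : ℤ) : ℝ) ≤
        6 / 10 * (pal A d .A3).card + 30 * (θ * d) := by
      have h2 := hsum3 (fun b => max (σ * qb P Φ b .A0 x) 0) (fun b => max (σ * qb P Φ' b .A0 x) 0)
        (fun b hb => by
          have h4 := hch b (mem_pal.1 hb).1 .A0 x
          rw [abs_le] at h4 ⊢
          rcases hσ with rfl | rfl
          · omega
          · omega)
        (fun b hb hb' => by rw [hnoch b hb hb' .A0 x])
      have h5 := hm .A3 rfl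
      rw [abs_le] at h2
      linarith [h2.2]
    have hcard : ((pal A d .A0).card : ℝ) + (pal A d .A1).card + (pal A d .A2).card +
        (pal A d .A3).card ≤ d + 2 - 2 * (e * d) := by
      have s0 := card_sdiff_add_card_eq_card hA.Q0
      have s1 := card_sdiff_add_card_eq_card hA.Q1
      have s2 := card_sdiff_add_card_eq_card hA.P2C
      have s3 := card_C0 hA
      rw [pal_A0 hA, pal_A1 hA, pal_A2 hA, pal_A3 hA]
      have q0 := (hA.Qc false).1
      have q1 := (hA.Qc true).1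
      have ek : e * d ≤ κ * d := mul_le_mul_of_nonneg_right hn.eκ hd0
      have s4 : (A.C 0 \ A.Q false).card + (A.C 1 \ A.Q true).card + (A.C 2 \ A.P2).card +
          (A.C0 d).card + (A.Q false).card + (A.Q true).card ≤ d + 2 := by omega
      have s5 : ((A.C 0 \ A.Q false).card : ℝ) + (A.C 1 \ A.Q true).card + (A.C 2 \ A.P2).card +
          (A.C0 d).card + (A.Q false).card + (A.Q true).card ≤ d + 2 := by exact_mod_cast s4
      linarith
    rw [sum_union, sum_union, sum_union]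
    · rw [Int.cast_add, Int.cast_add, Int.cast_add]
      have e0 := h0 .A0 (by simp) rfl
      have e1 := h0 .A1 (by simp) rfl
      have e2 := h0 .A2 (by simp) rfl
      linarith
    · exact pal_disj _ _ (by simp)
    · rw [disjoint_union_left]
      exact ⟨pal_disj _ _ (by simp), pal_disj _ _ (by simp)⟩
    · rw [disjoint_union_left, disjoint_union_left]
      exact ⟨⟨pal_disj _ _ (by simp), pal_disj _ _ (by simp)⟩, pal_disj _ _ (by simp)⟩
  · intro g x hty hg
    have hg3 : g ≠ .A3 := by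
      intro h; rw [h] at hg; exact absurd hg (by simp [isP1])
    have h1 := hM.nn g x (Or.inl hty)
    have h2 : (pal A d g).filter (fun b => 0 ≤ qb P Φ' b g x) =
        (pal A d g).filter (fun b => 0 ≤ qb P Φ b g x) := by
      apply filter_congr
      intro b hb
      rw [hsame g hg3 b hb g x]
    rw [h2]
    have h3 : ((pal A d g).card : ℝ) ≤
        4 * (((pal A d g).filter (fun b => 0 ≤ qb P Φ b g x)).card : ℝ) := by
      have : (0 : ℝ) ≤ (((pal A d g).filter (fun b => 0 ≤ qb P Φ b g x)).card : ℝ) :=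
        Nat.cast_nonneg _
      linarith
    exact_mod_cast h3
  · intro z hz n β hrg b hb
    obtain ⟨_, h2⟩ := howb b z hb
    have hzt : z ∈ Zt := by
      rw [hZt, mem_filter]
      exact ⟨hz, by rw [hrg]; simp⟩
    have h3 := a4 z hzt
    obtain ⟨n', β', h4, _, h5, h6⟩ := hrgs z hzt
    rw [hrg, Option.some_inj, Prod.mk.injEq] at h4
    rw [h5, h6, ← h4.1, ← h4.2] at h3
    rw [h2]
    exact h3
  · intro g x hty hg
    have hg3 : g ≠ .A3 := by
      intro h; rw [h] at hg; exact absurd hg (by simp [isP1])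
    have h1 := hM.np g x (Or.inl hty)
    have h2 : (pal A d g).filter (fun b => qb P Φ' b g x ≤ 0) =
        (pal A d g).filter (fun b => qb P Φ b g x ≤ 0) := by
      apply filter_congr
      intro b hb
      rw [hsame g hg3 b hb g x]
    rw [h2]
    have h3 : ((pal A d g).card : ℝ) ≤
        4 * (((pal A d g).filter (fun b => qb P Φ b g x ≤ 0)).card : ℝ) := by
      have : (0 : ℝ) ≤ (((pal A d g).filter (fun b => qb P Φ b g x ≤ 0)).card : ℝ) :=
        Nat.cast_nonneg _
      linarith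
    exact_mod_cast h3
  · intro z hz n β hty hrg
    exact n11.trans (supply G d P A hD hPD hA hn hθ hεd τ hτ n β hty z hz hrg)

end fr

end Pool.Agent.Work.MP_db9399_dp.helper82
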