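import Pool.Agent.Work.MP_db9399_dp_helper82.TyIn2

/-! # PRE: signed degree sums of the pieces (helper82) -/

set_option autoImplicit false

namespace Pool.Agent.Work.MP_db9399_dp.helper82

open Finset Classical
open Pool.Agent.Work.MP_db9399_all (nb)
open Pool.Agent.Work.MP_db9399_da

universe u

attribute [-instance] instDecidableEqTt instDecidableEqGr

section mean
variable {V : Type u} [Fintype V] {M : ℕ}

theorem mem_sV (P : Pcs V M) (n : Fin M) (β : Bool) (v : V) :
    v ∈ sV P n β ↔ v ∉ P.V0 ∧ P.pc v = n ∧ P.sd v = β := by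
  unfold sV; rw [mem_filter]; simp

theorem mem_qV (P : Pcs V M) (n : Fin M) (β i : Bool) (v : V) :
    v ∈ qV P n β i ↔ v ∉ P.V0 ∧ P.pc v = n ∧ P.sd v = β ∧ P.pt v = i := by
  unfold qV; rw [mem_filter]; simp

theorem eb_comm (H : SimpleGraph V) (A B : Finset V) : eb H A B = eb H B A := by
  rw [eb_card, eb_card]
  apply card_bij (fun p _ => (p.2, p.1))
  · intro p hp
    rw [mem_filter] at hp ⊢
    exact ⟨mem_univ _, hp.2.1.symm, hp.2.2.2, hp.2.2.1⟩
  · intro p _ p' _ h
    rw [Prod.mk.injEq] at h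
    exact Prod.ext h.2 h.1
  · intro p hp
    rw [mem_filter] at hp
    exact ⟨(p.2, p.1), by rw [mem_filter]; exact ⟨mem_univ _, hp.2.1.symm, hp.2.2.2, hp.2.2.1⟩, rfl⟩

theorem nb_split' (G : SimpleGraph V) (P : Pcs V M) (v : V) :
    (nb (bulk G P) v).card + (nb (thin G P) v).card = (nb G v).card := by
  have h : nb G v = nb (bulk G P) v ∪ nb (thin G P) v := by
    ext w
    simp only [mem_union, mem_nb']
    constructor
    · intro h
      by_cases hb : (bulk G P).Adj v w
      · exact Or.inl hb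
      · exact Or.inr ⟨h, hb⟩
    · rintro (h | h)
      · exact h.1
      · exact h.1
  rw [h, card_union_of_disjoint]
  rw [disjoint_left]
  intro w hw hw'
  rw [mem_nb'] at hw hw'
  exact hw'.2 hw

/-- the two sides of a bipartite piece have the same number of prescribed edges -/
theorem balB {C g ρ ζ θ : ℝ} (G : SimpleGraph V) (d : ℕ) (P : Pcs V M)
    (hD : DecP C g ρ ζ θ G d P) (n : Fin M) (hn : P.ty n = Ty.B) :
    ∑ v ∈ sV P n false, ((nb (thin G P) v).card : ℝ) =
      ∑ v ∈ sV P n true, ((nb (thin G P) v).card : ℝ) := by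
  have hb : ∀ β, ∑ v ∈ sV P n β, (nb (bulk G P) v).card = eb (bulk G P) (sV P n β) (sV P n (!β)) := by
    intro β
    unfold eb
    apply sum_congr rfl
    intro v hv
    rw [mem_sV] at hv
    congr 1
    ext w
    rw [mem_inter, mem_nb', mem_sV]
    constructor
    · intro h
      refine ⟨h, h.2.2.1, ?_, ?_⟩
      · rw [← h.2.2.2.1]; exact hv.2.1
      · have h2 := h.2.2.2.2 (by rw [hv.2.1]; exact hn)
        rw [hv.2.2] at h2
        cases β <;> cases h3 : P.sd w <;> simp_all
    · exact fun h => h.1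
  have he : ∑ v ∈ sV P n false, (nb (bulk G P) v).card = ∑ v ∈ sV P n true, (nb (bulk G P) v).card := by
    rw [hb, hb, eb_comm]
    rfl
  have hs : ∀ β, ∑ v ∈ sV P n β, (nb (bulk G P) v).card + ∑ v ∈ sV P n β, (nb (thin G P) v).card =
      (sV P n β).card * d := by
    intro β
    rw [← sum_add_distrib, card_eq_sum_ones, sum_mul]
    apply sum_congr rfl
    intro v _
    rw [nb_split', hD.reg, one_mul]
  have h0 := hs false
  have h1 := hs true
  rw [hD.bal n hn] at h0
  have h2 : ∑ v ∈ sV P n false, (nb (thin G P) v).card = ∑ v ∈ sV P n true, (nb (thin G P) v).card := by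
    omega
  exact_mod_cast h2

/-- number of edges of type `T` at `v` -/
noncomputable def dg (F : SimpleGraph V) (τ : V → V → Tt) (v : V) (T : Tt) : ℕ :=
  ((nb F v).filter (fun w => τ v w = T)).card

/-- bound of the errors -/
noncomputable def Err (M : ℕ) (K ζ θ ε1 : ℝ) (d : ℕ) : ℝ :=
  ((M * 2 : ℕ) : ℝ) ^ 2 * (K * ζ * d + 2) + ((M * 2 : ℕ) : ℝ) * ((42 + K / ε1) * (θ * d)) +
    K * ζ * d

theorem D_le {C g ρ K ζ θ ε1 e π κ : ℝ} (hT : Stmt_TSUM.{u}) (G : SimpleGraph V) (d : ℕ)
    (P : Pcs V M) (A : Pal)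
    (hD : DecP C g ρ ζ θ G d P) (hPD : PartD K ζ ε1 G d P) (hA : PalP A d π κ)
    (hn : Num e π κ d) (hK : 0 < K) (hε : 0 < ε1) (hζ : 0 < ζ) (τ : V → V → Tt)
    (hτ : TyOut (thin G P) P.V0 (clv P) (alv P) (rhoT A d) (fun _ => mt A d) (Bdz ε1 G P)
      (K * ζ * d) τ) (n : Fin M) (hty : P.ty n = Ty.N ∨ P.ty n = Ty.B) (T : Tt) :
    |∑ v ∈ sV P n false, (dg (thin G P) τ v T : ℝ) - ∑ v ∈ sV P n true, (dg (thin G P) τ v T : ℝ)| ≤
      Err M K ζ θ ε1 d := by
  have hd0 : (0 : ℝ) ≤ d := Nat.cast_nonneg d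
  have hnK : P.ty n ≠ Ty.K := by
    rcases hty with h | h <;> rw [h] <;> decide
  set s : Cl M → ℝ := fun X => if X.1 = n then (if X.2 = true then -1 else 1) else 0 with hs
  have hs1 : ∀ X, |s X| ≤ 1 := by
    intro X
    simp only [hs]
    split_ifs <;> simp
  have key : ∀ f : V → ℝ, ∑ v ∈ univ.filter (fun v => v ∉ P.V0), s (clv P v) * f v =
      ∑ v ∈ sV P n false, f v - ∑ v ∈ sV P n true, f v := by
    intro f
    have e1 : ∀ v, v ∉ P.V0 → s (clv P v) = (if v ∈ sV P n false then 1 else 0) -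
        (if v ∈ sV P n true then 1 else 0) := by
      intro v hv
      simp only [mem_sV]
      by_cases hpc : P.pc v = n
      · have h1 : (clv P v).1 = n := hpc
        have h2 : (clv P v).2 = P.sd v := by
          show (if P.ty (P.pc v) = Ty.K then false else P.sd v) = P.sd v
          rw [hpc, if_neg hnK]
        simp only [hs]
        rw [if_pos h1, h2]
        cases P.sd v <;> simp [hv, hpc]
      · have h1 : (clv P v).1 ≠ n := hpc
        simp only [hs]
        rw [if_neg h1]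
        simp [hpc]
    have e2 : ∑ v ∈ univ.filter (fun v => v ∉ P.V0), s (clv P v) * f v =
        ∑ v ∈ univ.filter (fun v => v ∉ P.V0), ((if v ∈ sV P n false then f v else 0) -
          (if v ∈ sV P n true then f v else 0)) := by
      apply sum_congr rfl
      intro v hv
      rw [mem_filter] at hv
      rw [e1 v hv.2]
      split_ifs <;> ring
    rw [e2, sum_sub_distrib, ← sum_filter, ← sum_filter, filter_filter, filter_filter]
    congr 1
    · apply sum_congr _ (fun _ _ => rfl)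
      ext v
      rw [mem_filter, mem_sV]
      simp only [mem_univ, true_and]
      tauto
    · apply sum_congr _ (fun _ _ => rfl)
      ext v
      rw [mem_filter, mem_sV]
      simp only [mem_univ, true_and]
      tauto
  have h1 := hT (thin G P) P.V0 (clv P) (alv P) (rhoT A d) (fun _ => mt A d) (Bdz ε1 G P)
    (K * ζ * d) τ hτ s hs1 T
  rw [key, key] at h1
  have hc8 : (Fintype.card Tt : ℝ) = 8 := by
    have : Fintype.card Tt = 8 := rfl
    rw [this]; norm_num
  rw [hc8, card_Cl] at h1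
  have h2 : |∑ v ∈ sV P n false, ((nb (thin G P) v).card : ℝ) -
      ∑ v ∈ sV P n true, ((nb (thin G P) v).card : ℝ)| ≤ K * ζ * d := by
    rcases hty with h | h
    · exact hPD.bN n h
    · rw [balB G d P hD n h, sub_self, abs_zero]
      positivity
  have h3 : |rhoT A d T * (∑ v ∈ sV P n false, ((nb (thin G P) v).card : ℝ) -
      ∑ v ∈ sV P n true, ((nb (thin G P) v).card : ℝ))| ≤ K * ζ * d := by
    rw [abs_mul]
    have h4 : 0 ≤ rhoT A d T := hn.e0.le.trans (rho_ge hA hn T)
    have h5 : rhoT A d T ≤ 1 := by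
      rw [← rho_sum hA hn]
      exact single_le_sum (fun T _ => hn.e0.le.trans (rho_ge hA hn T)) (mem_univ T)
    rw [abs_of_nonneg h4]
    calc rhoT A d T * |_| ≤ 1 * |_| := mul_le_mul_of_nonneg_right h5 (abs_nonneg _)
      _ ≤ _ := by rw [one_mul]; exact h2
  have h6 := bd_sum G d P hPD
  have h7 : (5 * (8 : ℝ) + 2) * P.V0.card + ∑ z ∈ P.V0,
      (bd (thin G P) P.V0 (clv P) (Bdz ε1 G P) z : ℝ) ≤ (42 + K / ε1) * (θ * d) := by
    have h8 := hD.V0c
    have h9 : 0 ≤ K / ε1 := by positivity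
    calc _ ≤ (5 * (8 : ℝ) + 2) * P.V0.card + K / ε1 * P.V0.card := by linarith
      _ = (42 + K / ε1) * P.V0.card := by ring
      _ ≤ _ := mul_le_mul_of_nonneg_left h8 (by linarith)
  have h10 : ((M * 2 : ℕ) : ℝ) * ((5 * (8 : ℝ) + 2) * P.V0.card + ∑ z ∈ P.V0,
      (bd (thin G P) P.V0 (clv P) (Bdz ε1 G P) z : ℝ)) ≤
        ((M * 2 : ℕ) : ℝ) * ((42 + K / ε1) * (θ * d)) :=
    mul_le_mul_of_nonneg_left h7 (Nat.cast_nonneg _)
  unfold Err
  have h11 := abs_le.1 h1
  have h12 := abs_le.1 h3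
  unfold dg
  rw [abs_le]
  constructor
  · linarith [h11.1, h12.1]
  · linarith [h11.2, h12.2]

end mean

end Pool.Agent.Work.MP_db9399_dp.helper82
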