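import Pool.Agent.Work.MP_db9399_dp_helper82.Mean

/-! # PRE: nodes, signs, the mean condition (helper82) -/

set_option autoImplicit false

namespace Pool.Agent.Work.MP_db9399_dp.helper82

open Finset Classical
open Pool.Agent.Work.MP_db9399_all (nb)
open Pool.Agent.Work.MP_db9399_da

universe u

attribute [-instance] instDecidableEqTt instDecidableEqGr

/-- fine cells: piece, side, part -/
def Jl (M : ℕ) : Type := Fin M × Bool × Bool

noncomputable instance (M : ℕ) : Fintype (Jl M) := inferInstanceAs (Fintype (Fin M × Bool × Bool))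

/-- groups of `P'` -/
def isP1 : Gr → Bool
  | .QF => false
  | .QT => false
  | .P2 => false
  | .A0 => true
  | .A1 => true
  | .A2 => true
  | .A3 => true

/-- the type of the group `g` which is allowed at the part `i` (types N, B) -/
def tg : Gr → Bool → Option Tt
  | .QF, true => some .QF
  | .QF, false => none
  | .QT, true => none
  | .QT, false => some .QT
  | .P2, true => some .PT
  | .P2, false => some .PF
  | .A0, _ => some .A0
  | .A1, _ => some .A1
  | .A2, _ => some .A2
  | .A3, _ => some .A3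

theorem tg_spec (i : Bool) (T : Tt) (h : al0 false (if i then 1 else 0) T = true) (g : Gr) :
    T.gr = g ↔ tg g i = some T := by
  cases i <;> cases T <;> cases g <;> simp_all [al0, Tt.gr, tg]

theorem tg_other (i : Bool) (g : Gr) (T : Tt) (hg : isP1 g = false) (h : tg g i = some T) :
    al0 false (if (!i) then 1 else 0) T = false := by
  cases i <;> cases T <;> cases g <;> simp_all [al0, tg, isP1]

section gen
variable {V J : Type*} [Fintype V] [Fintype J]

theorem ns_gen (fc : V → Option J) (p : J → Prop) (s : J → ℝ) (f : V → ℝ) :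
    ∑ j ∈ univ.filter (fun j => p j), s j * ∑ v ∈ univ.filter (fun v => fc v = some j), f v =
      ∑ v, (fc v).elim 0 (fun j => if p j then s j * f v else 0) := by
  rw [sum_filter]
  have h1 : ∀ j, (if p j then s j * ∑ v ∈ univ.filter (fun v => fc v = some j), f v else 0) =
      ∑ v, (if fc v = some j then (if p j then s j * f v else 0) else 0) := by
    intro j
    by_cases h : p j
    · rw [if_pos h, mul_sum, sum_filter]
      apply sum_congr rfl
      intro v _
      rw [if_pos h]
    · rw [if_neg h]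
      symm
      apply sum_eq_zero
      intro v _
      rw [if_neg h, ite_self]
  rw [sum_congr rfl (fun j _ => h1 j), sum_comm]
  apply sum_congr rfl
  intro v _
  cases hv : fc v with
  | none => simp
  | some j0 =>
    rw [Option.elim_some]
    rw [sum_eq_single j0]
    · rw [if_pos rfl]
    · intro j _ hj
      rw [if_neg (fun e => hj (Option.some_inj.1 e).symm)]
    · intro h; exact absurd (mem_univ _) h

end gen

section node
variable {V : Type u} [Fintype V] {M : ℕ}

/-- fine cell of a vertex outside `V0` -/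
def jv (P : Pcs V M) (v : V) : Jl M := (P.pc v, P.sd v, P.pt v)

/-- fine cell of a vertex -/
noncomputable def fcv (P : Pcs V M) (v : V) : Option (Jl M) :=
  if v ∈ P.V0 then none else some (jv P v)

/-- node of a fine cell -/
def ndv (g : Gr) (j : Jl M) : Cl M := (j.1, if isP1 g then false else j.2.2)

/-- sign of a fine cell -/
noncomputable def sgv (P : Pcs V M) (g : Gr) (j : Jl M) : ℤ :=
  if P.ty j.1 = Ty.B ∨ (P.ty j.1 = Ty.N ∧ isP1 g = false) then (if j.2.1 = true then -1 else 1)
  else 0

/-- number of edges of the group `g` at `v` -/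
noncomputable def gd (F : SimpleGraph V) (τ : V → V → Tt) (v : V) (g : Gr) : ℕ :=
  ((nb F v).filter (fun w => (τ v w).gr = g)).card

/-- signed sum at a node -/
noncomputable def NS (P : Pcs V M) (F : SimpleGraph V) (τ : V → V → Tt) (g : Gr) (x : Cl M) : ℝ :=
  ∑ j ∈ univ.filter (fun j => ndv g j = x), (sgv P g j : ℝ) *
    ∑ v ∈ univ.filter (fun v => fcv P v = some j), ((gd F τ v g : ℕ) : ℝ)

theorem gd_tg (P : Pcs V M) (F : SimpleGraph V) (τ : V → V → Tt)
    (hτ : ∀ v w, F.Adj v w → v ∉ P.V0 → alv P v (τ v w)) (v : V) (hv : v ∉ P.V0)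
    (hK : P.ty (P.pc v) ≠ Ty.K) (g : Gr) :
    gd F τ v g = (tg g (P.pt v)).elim 0 (fun T => dg F τ v T) := by
  have h1 : ∀ w ∈ nb F v, ((τ v w).gr = g ↔ tg g (P.pt v) = some (τ v w)) := by
    intro w hw
    rw [mem_nb'] at hw
    have h2 := hτ v w hw hv
    unfold alv kp lbl at h2
    rw [if_neg hK, decide_eq_false hK] at h2
    exact tg_spec _ _ h2 g
  unfold gd dg
  cases ht : tg g (P.pt v) with
  | none =>
    rw [Option.elim_none, card_eq_zero, filter_eq_empty_iff]
    intro w hw h3
    rw [h1 w hw, ht] at h3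
    exact absurd h3 (by simp)
  | some T =>
    rw [Option.elim_some]
    congr 1
    apply filter_congr
    intro w hw
    rw [h1 w hw, ht, Option.some_inj]
    exact eq_comm

theorem dg_zero (P : Pcs V M) (F : SimpleGraph V) (τ : V → V → Tt)
    (hτ : ∀ v w, F.Adj v w → v ∉ P.V0 → alv P v (τ v w)) (v : V) (hv : v ∉ P.V0)
    (hK : P.ty (P.pc v) ≠ Ty.K) (g : Gr) (T : Tt) (hg : isP1 g = false)
    (h : tg g (!(P.pt v)) = some T) : dg F τ v T = 0 := by
  unfold dg
  rw [card_eq_zero, filter_eq_empty_iff]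
  intro w hw h3
  rw [mem_nb'] at hw
  have h2 := hτ v w hw hv
  unfold alv kp lbl at h2
  rw [if_neg hK, decide_eq_false hK, h3] at h2
  have h4 := tg_other (!(P.pt v)) g T hg h
  rw [Bool.not_not] at h4
  rw [h4] at h2
  exact absurd h2 (by simp)

theorem ndv_eq (g : Gr) (j : Jl M) (x : Cl M) :
    ndv g j = x ↔ j.1 = x.1 ∧ (if isP1 g then false else j.2.2) = x.2 :=
  ⟨fun h => ⟨congrArg Prod.fst h, congrArg Prod.snd h⟩, fun h => Prod.ext h.1 h.2⟩

theorem fcv_neg (P : Pcs V M) (v : V) (hv : v ∉ P.V0) :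
    fcv P v = some (jv P v) := by
  unfold fcv; rw [if_neg hv]

theorem fcv_pos (P : Pcs V M) (v : V) (hv : v ∈ P.V0) : fcv P v = none := by
  unfold fcv; rw [if_pos hv]

/-- the term of a vertex in a signed sum -/
noncomputable def tm (P : Pcs V M) (g : Gr) (x : Cl M) (v : V) : ℝ :=
  if v ∈ P.V0 then 0 else if P.pc v = x.1 ∧ (if isP1 g then false else P.pt v) = x.2 then
    (if P.ty (P.pc v) = Ty.B ∨ (P.ty (P.pc v) = Ty.N ∧ isP1 g = false) then
      (if P.sd v = true then -1 else 1) else 0) else 0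

theorem elim_tm (P : Pcs V M) (g : Gr) (x : Cl M) (v : V) (f : V → ℝ) :
    (fcv P v).elim 0 (fun j => if ndv g j = x then (sgv P g j : ℝ) * f v else 0) =
      tm P g x v * f v := by
  by_cases hv : v ∈ P.V0
  · rw [fcv_pos P v hv]
    unfold tm
    rw [if_pos hv, zero_mul]
    rfl
  · rw [fcv_neg P v hv, Option.elim_some]
    unfold tm
    rw [if_neg hv]
    by_cases h : P.pc v = x.1 ∧ (if isP1 g then false else P.pt v) = x.2
    · rw [if_pos h, if_pos ((ndv_eq g _ x).2 h)]
      congr 1
      unfold sgv jv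
      dsimp only
      split_ifs <;> simp
    · rw [if_neg h, if_neg (fun e => h ((ndv_eq g _ x).1 e)), zero_mul]

theorem sum_tm (P : Pcs V M) (g : Gr) (x : Cl M) (f : V → ℝ) :
    ∑ j ∈ univ.filter (fun j => ndv g j = x), (sgv P g j : ℝ) *
      ∑ v ∈ univ.filter (fun v => fcv P v = some j), f v = ∑ v, tm P g x v * f v := by
  rw [ns_gen (fcv P) (fun j => ndv g j = x) (fun j => (sgv P g j : ℝ)) f]
  exact sum_congr rfl (fun v _ => elim_tm P g x v f)

/-- vertices of a node with the side `β` -/
noncomputable def nds (P : Pcs V M) (g : Gr) (x : Cl M) (β : Bool) : Finset V :=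
  if isP1 g then (if x.2 = true then ∅ else sV P x.1 β) else qV P x.1 β x.2

theorem tm_nds (P : Pcs V M) (g : Gr) (x : Cl M)
    (hty : P.ty x.1 = Ty.B ∨ (P.ty x.1 = Ty.N ∧ isP1 g = false)) (v : V) :
    tm P g x v = (if v ∈ nds P g x false then 1 else 0) - (if v ∈ nds P g x true then 1 else 0) := by
  unfold tm nds
  by_cases hv : v ∈ P.V0
  · have h1 : ∀ β, v ∉ sV P x.1 β := fun β h => ((mem_sV P _ _ v).1 h).1 hv
    have h2 : ∀ β i, v ∉ qV P x.1 β i := fun β i h => ((mem_qV P _ _ _ v).1 h).1 hv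
    rw [if_pos hv]
    cases hg : isP1 g
    · simp [h2]
    · cases hx : x.2
      · simp [h1]
      · simp
  · rw [if_neg hv]
    by_cases hpc : P.pc v = x.1
    · rw [hpc]
      simp only [true_and]
      cases hg : isP1 g
      · rw [hg] at hty
        simp only [Bool.false_eq_true, if_false, mem_qV, hv, hpc, not_false_eq_true, true_and,
          hty, and_true]
        have h3 : P.ty x.1 = Ty.B ∨ P.ty x.1 = Ty.N := by
          rcases hty with h | h
          · exact Or.inl h
          · exact Or.inr h.1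
        rw [if_pos h3]
        cases hs : P.sd v <;> by_cases hp : P.pt v = x.2 <;> simp [hp]
      · have h3 : P.ty x.1 = Ty.B := by
          rcases hty with h | h
          · exact h
          · rw [hg] at h; exact absurd h.2 (by simp)
        cases hx : x.2
        · simp only [if_true, Bool.false_eq_true, if_false, mem_sV, hv, hpc, not_false_eq_true,
            true_and, h3, true_or]
          cases hs : P.sd v <;> simp
        · simp
    · rw [if_neg (fun h => hpc h.1)]
      cases hg : isP1 g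
      · simp [mem_qV, hpc]
      · cases hx : x.2
        · simp [mem_sV, hpc]
        · simp

theorem tm_zero (P : Pcs V M) (g : Gr) (x : Cl M)
    (hty : ¬ (P.ty x.1 = Ty.B ∨ (P.ty x.1 = Ty.N ∧ isP1 g = false))) (v : V) :
    tm P g x v = 0 := by
  unfold tm
  by_cases hv : v ∈ P.V0
  · rw [if_pos hv]
  · rw [if_neg hv]
    by_cases h : P.pc v = x.1 ∧ (if isP1 g then false else P.pt v) = x.2
    · rw [if_pos h, h.1, if_neg hty]
    · rw [if_neg h]

theorem sum_nds (P : Pcs V M) (g : Gr) (x : Cl M)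
    (hty : P.ty x.1 = Ty.B ∨ (P.ty x.1 = Ty.N ∧ isP1 g = false)) (f : V → ℝ) :
    ∑ v, tm P g x v * f v = ∑ v ∈ nds P g x false, f v - ∑ v ∈ nds P g x true, f v := by
  have h1 : ∀ v, tm P g x v * f v = (if v ∈ nds P g x false then f v else 0) -
      (if v ∈ nds P g x true then f v else 0) := by
    intro v
    rw [tm_nds P g x hty v]
    split_ifs <;> ring
  rw [sum_congr rfl (fun v _ => h1 v), sum_sub_distrib, ← sum_filter, ← sum_filter]
  congr 1
  · apply sum_congr _ (fun _ _ => rfl)
    ext v; simp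
  · apply sum_congr _ (fun _ _ => rfl)
    ext v; simp

theorem Err_nonneg {K ζ θ ε1 : ℝ} (hK : 0 < K) (hε : 0 < ε1) (hζ : 0 < ζ) (hθ : 0 < θ) (d : ℕ) :
    0 ≤ Err M K ζ θ ε1 d := by
  unfold Err
  positivity

theorem NS_le {C g0 ρ K ζ θ ε1 e π κ : ℝ} (hT : Stmt_TSUM.{u}) (G : SimpleGraph V) (d : ℕ)
    (P : Pcs V M) (A : Pal)
    (hD : DecP C g0 ρ ζ θ G d P) (hPD : PartD K ζ ε1 G d P) (hA : PalP A d π κ)
    (hn : Num e π κ d) (hK : 0 < K) (hε : 0 < ε1) (hζ : 0 < ζ) (hθ : 0 < θ) (τ : V → V → Tt)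
    (hτ : TyOut (thin G P) P.V0 (clv P) (alv P) (rhoT A d) (fun _ => mt A d) (Bdz ε1 G P)
      (K * ζ * d) τ) (g : Gr) (x : Cl M) :
    |NS P (thin G P) τ g x| ≤ Err M K ζ θ ε1 d := by
  have h0 : 0 ≤ Err M K ζ θ ε1 d := Err_nonneg hK hε hζ hθ d
  unfold NS
  rw [sum_tm]
  by_cases hty : P.ty x.1 = Ty.B ∨ (P.ty x.1 = Ty.N ∧ isP1 g = false)
  swap
  · rw [sum_eq_zero (fun v _ => by rw [tm_zero P g x hty v, zero_mul]), abs_zero]
    exact h0
  rw [sum_nds P g x hty]
  have hty2 : P.ty x.1 = Ty.N ∨ P.ty x.1 = Ty.B := by tauto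
  have hnK : P.ty x.1 ≠ Ty.K := by
    rcases hty2 with h | h <;> rw [h] <;> decide
  have D := D_le hT G d P A hD hPD hA hn hK hε hζ τ hτ x.1 hty2
  cases hg : isP1 g
  · -- groups Q, P2
    have hnd : ∀ β, nds P g x β = qV P x.1 β x.2 := by
      intro β; unfold nds; rw [hg]; simp
    rw [hnd, hnd]
    cases ht : tg g x.2 with
    | none =>
      have h1 : ∀ β, ∑ v ∈ qV P x.1 β x.2, ((gd (thin G P) τ v g : ℕ) : ℝ) = 0 := by
        intro β
        apply sum_eq_zero
        intro v hv
        rw [mem_qV] at hv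
        rw [gd_tg P _ τ hτ.alw v hv.1 (by rw [hv.2.1]; exact hnK) g, hv.2.2.2, ht]
        simp
      rw [h1, h1, sub_zero, abs_zero]
      exact h0
    | some T =>
      have h1 : ∀ β, ∑ v ∈ qV P x.1 β x.2, ((gd (thin G P) τ v g : ℕ) : ℝ) =
          ∑ v ∈ sV P x.1 β, (dg (thin G P) τ v T : ℝ) := by
        intro β
        have e1 : qV P x.1 β x.2 ⊆ sV P x.1 β := by
          intro v hv
          rw [mem_qV] at hv
          rw [mem_sV]
          exact ⟨hv.1, hv.2.1, hv.2.2.1⟩
        rw [← sum_subset e1]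
        · apply sum_congr rfl
          intro v hv
          rw [mem_qV] at hv
          rw [gd_tg P _ τ hτ.alw v hv.1 (by rw [hv.2.1]; exact hnK) g, hv.2.2.2, ht]
          rfl
        · intro v hv hv'
          rw [mem_sV] at hv
          rw [mem_qV] at hv'
          have hpt : P.pt v ≠ x.2 := fun h => hv' ⟨hv.1, hv.2.1, hv.2.2, h⟩
          have hpt2 : (!(P.pt v)) = x.2 := by
            cases h1 : P.pt v <;> cases h2 : x.2 <;> simp_all
          rw [dg_zero P _ τ hτ.alw v hv.1 (by rw [hv.2.1]; exact hnK) g T hg (by rw [hpt2]; exact ht)]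
          simp
      rw [h1, h1]
      exact D T
  · -- groups of P1
    cases hx : x.2
    · have hnd : ∀ β, nds P g x β = sV P x.1 β := by
        intro β; unfold nds; rw [hg, hx]; simp
      rw [hnd, hnd]
      have ht : ∃ T, ∀ i, tg g i = some T := by
        cases g
        · simp [isP1] at hg
        · simp [isP1] at hg
        · simp [isP1] at hg
        · exact ⟨.A0, fun i => rfl⟩
        · exact ⟨.A1, fun i => rfl⟩
        · exact ⟨.A2, fun i => rfl⟩
        · exact ⟨.A3, fun i => rfl⟩
      obtain ⟨T, hT'⟩ := ht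
      have h1 : ∀ β, ∑ v ∈ sV P x.1 β, ((gd (thin G P) τ v g : ℕ) : ℝ) =
          ∑ v ∈ sV P x.1 β, (dg (thin G P) τ v T : ℝ) := by
        intro β
        apply sum_congr rfl
        intro v hv
        rw [mem_sV] at hv
        rw [gd_tg P _ τ hτ.alw v hv.1 (by rw [hv.2.1]; exact hnK) g, hT']
        rfl
      rw [h1, h1]
      exact D T
    · have hnd : ∀ β, nds P g x β = ∅ := by
        intro β; unfold nds; rw [hg, hx]; simp
      rw [hnd, hnd]
      simpa using h0

end node

end Pool.Agent.Work.MP_db9399_dp.helper82
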