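import Pool.Agent.Work.MP_db9399_dp_helper82.FinRes
import Pool.Agent.Work.MP_db9399_da.Frame

/-! # PRE (helper82) -/

set_option autoImplicit false

namespace Pool.Agent.Work.MP_db9399_dp.helper82

open Finset Classical
open Pool.Agent.Work.MP_db9399_all (nb)
open Pool.Agent.Work.MP_db9399_da

universe u

/-- all numerical conditions -/
structure Nums (M s0 : ℕ) (e π κ K ζ θ ε1 ε : ℝ) (d : ℕ) : Prop where
  num : Num e π κ d
  h2 : θ ≤ 1 / 2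
  hR : 1280 ≤ e * (1 / ε1)
  hL : 16 ≤ e * (K * ζ * d)
  hζ : 32 * (M : ℝ) ^ 2 * ζ ^ 2 ≤ e
  hε : 1 / ε1 ≤ ζ ^ 2 * d
  n1 : ζ ≤ e / 8
  n2 : θ ≤ ζ
  n3 : 1 ≤ ζ * d
  n4 : (s0 : ℝ) ≤ e * d
  n5 : Err M K ζ θ ε1 d ≤ e * d / 10
  n6 : 6 * (θ * d) + s0 * (θ / e * d + 1) <
    e * (ζ / 4 * d - θ * d) - 2 * M * (42 + 2 * M * (ζ ^ 2 * d))
  n7 : 5 * (θ * d) + 2 * (ζ * d) + 1 < e * d
  n8 : 6 / 5 + 30 * (θ * d) ≤ 6 / 5 * (e * d)
  n9 : Err M K ζ θ ε1 d + 30 * (θ * d) ≤ ε / 4 * d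
  n10 : s0 * (θ / e * d + 1) + 6 ≤ ε * ζ * d
  n11 : ζ ^ 2 * d ≤ e * (ζ / 4 * d - θ * d) - 2 * M * (42 + 2 * M * (ζ ^ 2 * d))

theorem nums (M s0 : ℕ) (π κ K ε : ℝ) (hπ : 0 < π) (hπ1 : π ≤ 1 / 100) (hκ : 0 < κ)
    (hκ1 : κ ≤ 1 / 100) (hK : 0 < K) (hε : 0 < ε) :
    ∃ e ε0 : ℝ, 0 < e ∧ 0 < ε0 ∧ ε0 ≤ 1 ∧ ∀ ε1 : ℝ, 0 < ε1 → ε1 ≤ ε0 →
      ∃ ζ0 : ℝ, 0 < ζ0 ∧ ∀ ζ : ℝ, 0 < ζ → ζ ≤ ζ0 → ∃ θ0 : ℝ, 0 < θ0 ∧
      ∀ θ : ℝ, 0 < θ → θ ≤ θ0 → ∃ d0 : ℕ, ∀ d : ℕ, d0 ≤ d → Nums M s0 e π κ K ζ θ ε1 ε d := by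
  set e : ℝ := min (min κ (π / 3)) (8 / 10 ^ 13) with he
  have he0 : 0 < e := by
    rw [he]; positivity
  have heκ : e ≤ κ := (min_le_left _ _).trans (min_le_left _ _)
  have heπ : e ≤ π / 3 := (min_le_left _ _).trans (min_le_right _ _)
  have hec : e ≤ 8 / 10 ^ 13 := min_le_right _ _
  have he1 : e ≤ 1 := by
    norm_num at hec
    linarith
  refine ⟨e, e / 1280, he0, by positivity, by linarith, ?_⟩
  intro ε1 hε10 hε1
  set δ : ℝ := min (e / 10) (ε / 8) with hδ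
  have hδ0 : 0 < δ := by rw [hδ]; positivity
  have hδ1 : δ ≤ e / 10 := min_le_left _ _
  have hδ2 : δ ≤ ε / 8 := min_le_right _ _
  have hM0 : (0 : ℝ) ≤ M := Nat.cast_nonneg M
  have hs00 : (0 : ℝ) ≤ s0 := Nat.cast_nonneg s0
  set N : ℝ := (M : ℝ) + 1 with hN
  have hN0 : 0 < N := by positivity
  have hN1 : (1 : ℝ) ≤ N := by rw [hN]; linarith
  have hMN : (M : ℝ) ^ 2 ≤ N ^ 2 := by
    rw [hN]; nlinarith
  set ζ0 : ℝ := min (e / (64 * N ^ 2)) (δ / (4 * ((4 * M ^ 2 + 1) * K))) with hζ0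
  have hζ00 : 0 < ζ0 := by rw [hζ0]; positivity
  refine ⟨ζ0, hζ00, ?_⟩
  intro ζ hζ hζle
  have z1 : ζ * (64 * N ^ 2) ≤ e := by
    have := hζle.trans (min_le_left _ _)
    rwa [le_div_iff₀ (by positivity)] at this
  have z3 : ζ * (4 * ((4 * M ^ 2 + 1) * K)) ≤ δ := by
    have := hζle.trans (min_le_right _ _)
    rwa [le_div_iff₀ (by positivity)] at this
  have hN2 : 1 ≤ N ^ 2 := by nlinarith
  have z2 : ζ ≤ e / 64 := by
    rw [le_div_iff₀ (by norm_num)]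
    nlinarith
  have hζ1 : ζ ≤ 1 := by linarith
  have z4 : 64 * (M : ℝ) ^ 2 * ζ ≤ e := by nlinarith
  set θ0 : ℝ := min (min ζ (δ / (8 * (N * (42 + K / ε1))))) (min (e * ζ / (32 * (7 + s0 / e)))
    (min (e / 50) (min (ε / 240) (ε * ζ * e / (2 * (s0 + 1)))))) with hθ0
  have hθ00 : 0 < θ0 := by rw [hθ0]; positivity
  refine ⟨θ0, hθ00, ?_⟩
  intro θ hθ hθle
  have t1 : θ ≤ ζ := hθle.trans ((min_le_left _ _).trans (min_le_left _ _))
  have t3 : θ * (8 * (N * (42 + K / ε1))) ≤ δ := by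
    have := hθle.trans ((min_le_left _ _).trans (min_le_right _ _))
    rwa [le_div_iff₀ (by positivity)] at this
  have t4 : θ * (32 * (7 + s0 / e)) ≤ e * ζ := by
    have := hθle.trans ((min_le_right _ _).trans (min_le_left _ _))
    rwa [le_div_iff₀ (by positivity)] at this
  have t6 : θ ≤ e / 50 :=
    hθle.trans ((min_le_right _ _).trans ((min_le_right _ _).trans (min_le_left _ _)))
  have t7 : θ ≤ ε / 240 := hθle.trans ((min_le_right _ _).trans ((min_le_right _ _).trans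
    ((min_le_right _ _).trans (min_le_left _ _))))
  have t8 : θ * (2 * (s0 + 1)) ≤ ε * ζ * e := by
    have := hθle.trans ((min_le_right _ _).trans ((min_le_right _ _).trans
      ((min_le_right _ _).trans (min_le_right _ _))))
    rwa [le_div_iff₀ (by positivity)] at this
  -- lower bounds for `d`
  set D : ℝ := 100000000000000 + 3 / π + 16 / (e * K * ζ) + 1 / ε1 / ζ ^ 2 + 1 / ζ + s0 / e +
    32 * M ^ 2 / δ + 32 * (84 * M + s0 + 1) / (e * ζ) + 16 / e + 2 * (s0 + 6) / (ε * ζ) with hD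
  refine ⟨⌈D⌉₊, ?_⟩
  intro d hd
  have hdD : D ≤ d := (Nat.le_ceil D).trans (by exact_mod_cast hd)
  have p1 : 0 < 3 / π := by positivity
  have p2 : 0 < 16 / (e * K * ζ) := by positivity
  have p3 : 0 < 1 / ε1 / ζ ^ 2 := by positivity
  have p4 : 0 < 1 / ζ := by positivity
  have p5 : 0 ≤ s0 / e := by positivity
  have p6 : 0 ≤ 32 * (M : ℝ) ^ 2 / δ := by positivity
  have p7 : 0 < 32 * (84 * M + s0 + 1) / (e * ζ) := by positivity
  have p8 : 0 < 16 / e := by positivity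
  have p9 : 0 < 2 * ((s0 : ℝ) + 6) / (ε * ζ) := by positivity
  rw [hD] at hdD
  have d1 : (100000000000000 : ℝ) ≤ d := by linarith
  have hd0 : (0 : ℝ) < d := by linarith
  have d2 : 3 ≤ π * d := by
    have : 3 / π ≤ d := by linarith
    rw [div_le_iff₀ hπ] at this; linarith
  have d3 : 16 ≤ e * K * ζ * d := by
    have : 16 / (e * K * ζ) ≤ d := by linarith
    rw [div_le_iff₀ (by positivity)] at this; linarith
  have d4 : 1 / ε1 ≤ ζ ^ 2 * d := by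
    have : 1 / ε1 / ζ ^ 2 ≤ d := by linarith
    rw [div_le_iff₀ (by positivity)] at this; linarith
  have d5 : 1 ≤ ζ * d := by
    have : 1 / ζ ≤ d := by linarith
    rw [div_le_iff₀ (by positivity)] at this; linarith
  have d6 : (s0 : ℝ) ≤ e * d := by
    have : s0 / e ≤ d := by linarith
    rw [div_le_iff₀ (by positivity)] at this; linarith
  have d7 : 32 * (M : ℝ) ^ 2 ≤ δ * d := by
    have : 32 * (M : ℝ) ^ 2 / δ ≤ d := by linarith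
    rw [div_le_iff₀ (by positivity)] at this; linarith
  have d8 : 32 * (84 * M + s0 + 1) ≤ e * ζ * d := by
    have : 32 * (84 * M + s0 + 1) / (e * ζ) ≤ d := by linarith
    rw [div_le_iff₀ (by positivity)] at this; linarith
  have d9 : 16 ≤ e * d := by
    have : 16 / e ≤ d := by linarith
    rw [div_le_iff₀ (by positivity)] at this; linarith
  have d11 : 2 * ((s0 : ℝ) + 6) ≤ ε * ζ * d := by
    have : 2 * ((s0 : ℝ) + 6) / (ε * ζ) ≤ d := by linarith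
    rw [div_le_iff₀ (by positivity)] at this; linarith
  -- products with `d`
  have z3d : ζ * (4 * ((4 * M ^ 2 + 1) * K)) * d ≤ δ * d := mul_le_mul_of_nonneg_right z3 hd0.le
  have t3d : θ * (8 * (N * (42 + K / ε1))) * d ≤ δ * d := mul_le_mul_of_nonneg_right t3 hd0.le
  have t4d : θ * (32 * (7 + s0 / e)) * d ≤ e * ζ * d := mul_le_mul_of_nonneg_right t4 hd0.le
  have t6d : θ * d ≤ e / 50 * d := mul_le_mul_of_nonneg_right t6 hd0.le
  have t7d : θ * d ≤ ε / 240 * d := mul_le_mul_of_nonneg_right t7 hd0.le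
  have t8d : θ * (2 * (s0 + 1)) * d ≤ ε * ζ * e * d := mul_le_mul_of_nonneg_right t8 hd0.le
  have z2d : ζ * d ≤ e / 64 * d := mul_le_mul_of_nonneg_right z2 hd0.le
  have z4d : 64 * (M : ℝ) ^ 2 * ζ * (ζ * d) ≤ e * (ζ * d) :=
    mul_le_mul_of_nonneg_right z4 (by positivity)
  have hErr : Err M K ζ θ ε1 d ≤ δ * d := by
    unfold Err
    push_cast
    have h1 : (M : ℝ) * 2 * ((42 + K / ε1) * (θ * d)) ≤ δ * d / 4 := by
      have h2 : (M : ℝ) ≤ N := by rw [hN]; linarith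
      have h3 : 0 ≤ (42 + K / ε1) * (θ * d) := by positivity
      have h4 := mul_le_mul_of_nonneg_right h2 h3
      have h5 : θ * (8 * (N * (42 + K / ε1))) * d = 8 * (N * ((42 + K / ε1) * (θ * d))) := by ring
      rw [h5] at t3d
      linarith only [t3d, h4]
    have h6 : ((M : ℝ) * 2) ^ 2 * (K * ζ * d + 2) + K * ζ * d =
        (4 * M ^ 2 + 1) * K * ζ * d + 8 * M ^ 2 := by ring
    have h7 : ζ * (4 * ((4 * M ^ 2 + 1) * K)) * d = 4 * ((4 * M ^ 2 + 1) * K * ζ * d) := by ring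
    rw [h7] at z3d
    have hδd : 0 ≤ δ * d := by positivity
    linarith only [h1, h6, z3d, d7, hδd]
  have hs : (s0 : ℝ) * (θ / e * d + 1) = s0 / e * (θ * d) + s0 := by field_simp
  refine ⟨⟨he0, heκ, heπ, hec, hκ1, hπ1, d1, d2⟩, ?_, ?_, ?_, ?_, d4, ?_, t1, d5, d6, ?_, ?_, ?_,
    ?_, ?_, ?_, ?_⟩
  · linarith only [t6, he1]
  · have h9 : e * (1 / ε1) = e / ε1 := by ring
    rw [h9, le_div_iff₀ hε10]
    linarith only [hε1]
  · linarith only [d3]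
  · have : 32 * (M : ℝ) ^ 2 * ζ ^ 2 ≤ 64 * (M : ℝ) ^ 2 * ζ := by
      have h1 : 0 ≤ (M : ℝ) ^ 2 * ζ := by positivity
      have h2 : (M : ℝ) ^ 2 * ζ * ζ ≤ (M : ℝ) ^ 2 * ζ * 1 := mul_le_mul_of_nonneg_left hζ1 h1
      linarith only [h1, h2]
    linarith only [this, z4]
  · linarith only [z2, he0]
  · have := mul_le_mul_of_nonneg_right hδ1 hd0.le
    linarith only [this, hErr]
  · rw [hs]
    have h1 : θ * (32 * (7 + s0 / e)) * d = 32 * (7 * (θ * d) + s0 / e * (θ * d)) := by ring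
    rw [h1] at t4d
    have h2 : e * (ζ / 4 * d - θ * d) - 2 * M * (42 + 2 * M * (ζ ^ 2 * d)) =
        e * ζ * d / 4 - e * (θ * d) - 84 * M - (64 * (M : ℝ) ^ 2 * ζ * (ζ * d)) / 16 := by ring
    rw [h2]
    have h3 : e * (θ * d) ≤ 1 * (θ * d) := mul_le_mul_of_nonneg_right he1 (by positivity)
    have h4 : 0 < e * ζ * d := by positivity
    have h5 : e * (ζ * d) = e * ζ * d := by ring
    rw [h5] at z4d
    linarith only [t4d, h3, h4, z4d, d8]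
  · linarith only [t6d, z2d, d9]
  · linarith only [t6d, d9]
  · have := mul_le_mul_of_nonneg_right hδ2 hd0.le
    linarith only [this, hErr, t7d]
  · rw [hs]
    have h1 : s0 / e * (θ * d) ≤ ε * ζ * d / 2 := by
      have h2 : θ * (2 * (s0 + 1)) * d = 2 * (e * ((s0 + 1) / e * (θ * d))) := by
        field_simp
      rw [h2] at t8d
      have h3 : s0 / e * (θ * d) ≤ (s0 + 1) / e * (θ * d) := by
        gcongr
        linarith only
      have h4 : e * (2 * ((s0 + 1) / e * (θ * d))) ≤ e * (ε * ζ * d) := by linarith only [t8d]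
      have h5 := le_of_mul_le_mul_left h4 he0
      linarith only [h3, h5]
    linarith only [h1, d11]
  · have h2 : e * (ζ / 4 * d - θ * d) - 2 * M * (42 + 2 * M * (ζ ^ 2 * d)) =
        e * ζ * d / 4 - e * (θ * d) - 84 * M - (64 * (M : ℝ) ^ 2 * ζ * (ζ * d)) / 16 := by ring
    rw [h2]
    have h1 : θ * (32 * (7 + s0 / e)) * d = 32 * (7 * (θ * d) + s0 / e * (θ * d)) := by ring
    rw [h1] at t4d
    have h3 : e * (θ * d) ≤ 1 * (θ * d) := mul_le_mul_of_nonneg_right he1 (by positivity)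
    have h4 : 0 < e * ζ * d := by positivity
    have h5 : e * (ζ * d) = e * ζ * d := by ring
    rw [h5] at z4d
    have h6 : 0 ≤ s0 / e * (θ * d) := by positivity
    have h7 : ζ ^ 2 * d ≤ e * ζ * d / 64 := by
      have h8 : ζ * (ζ * d) ≤ e / 64 * (ζ * d) := mul_le_mul_of_nonneg_right z2 (by positivity)
      linarith only [h8]
    have h9 : 0 < θ * d := by positivity
    linarith only [t4d, h3, h4, z4d, d8, h6, h7, h9, hs00]

theorem stmt_PREx (hTYPE : Stmt_TYPE.{u}) (hTSUM : Stmt_TSUM.{u}) (hCSUM : Stmt_CSUM.{u})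
    (hEQC : Stmt_EQC.{u}) (hADJ : Stmt_ADJ2.{u}) : Stmt_PREx.{u} := by
  intro C g ρ ρ' K π κ ε M hC hg hg1 hρ' hρ hρ1 hK hπ hπ1 hκ hκ1 hε
  obtain ⟨s0, hs0, hE⟩ := hEQC (Jl M) Gr
  obtain ⟨e, ε0, he, hε0, hε01, hnum⟩ := nums M s0 π κ K ε hπ hπ1 hκ hκ1 hK hε
  refine ⟨ε0, hε0, hε01, ?_⟩
  intro ε1 hε1 hε1le
  obtain ⟨ζ0, hζ0, hnum⟩ := hnum ε1 hε1 hε1le
  refine ⟨ζ0, hζ0, ?_⟩
  intro ζ hζ hζle
  obtain ⟨θ0, hθ0, hnum⟩ := hnum ζ hζ hζle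
  refine ⟨θ0, hθ0, ?_⟩
  intro θ hθ hθle
  obtain ⟨d0, hnum⟩ := hnum θ hθ hθle
  refine ⟨d0, ?_⟩
  intro V _ G d P A hd hD _ hPD hA
  have hn := hnum d hd
  have hd0 : (0 : ℝ) ≤ d := Nat.cast_nonneg d
  obtain ⟨st, hin⟩ := tyin G d P A hD hPD hA hn.num hn.h2 hn.hR hn.hL hn.hζ hn.hε
  obtain ⟨τ, hτ⟩ := hTYPE (thin G P) P.V0 (clv P) (alv P) (rhoT A d) (fun _ => mt A d)
    (Bdz ε1 G P) st e (1 / ε1) (K * ζ * d) hin
  obtain ⟨Φ, hΦ⟩ := mid hTSUM hCSUM s0 hE G d P A hD hPD hA hn.num hK hε1 hζ hθ τ hτ hn.n1 hn.n2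
    hn.n3 hn.n4 hn.n5
  obtain ⟨Φ', hΦ'⟩ := fin_res hADJ G d P A hD hPD hA hn.num hζ hθ hn.hε τ hτ Φ hΦ (by positivity)
    hn.n6 hn.n7 hn.n8 hn.n9 hn.n10 hn.n11
  exact ⟨tc Φ', oc Φ', P.V0.image (oc Φ'), conv hA hε hΦ', convX hA hΦ'⟩

theorem stmt_PRE (hTYPE : Stmt_TYPE.{u}) (hTSUM : Stmt_TSUM.{u}) (hCSUM : Stmt_CSUM.{u})
    (hEQC : Stmt_EQC.{u}) (hADJ : Stmt_ADJ2.{u}) : Stmt_PRE.{u} := by
  intro C g ρ ρ' K π κ ε M hC hg hg1 hρ' hρ hρ1 hK hπ hπ1 hκ hκ1 hε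
  obtain ⟨ε1, h1, h2, h3⟩ := stmt_PREx hTYPE hTSUM hCSUM hEQC hADJ C g ρ ρ' K π κ ε M hC hg hg1
    hρ' hρ hρ1 hK hπ hπ1 hκ hκ1 hε
  refine ⟨ε1, h1, h2, ?_⟩
  intro ε2 e1 e2
  obtain ⟨ζ0, h4, h5⟩ := h3 ε2 e1 e2
  refine ⟨ζ0, h4, ?_⟩
  intro ζ e3 e4
  obtain ⟨θ0, h6, h7⟩ := h5 ζ e3 e4
  refine ⟨θ0, h6, ?_⟩
  intro θ e5 e6
  obtain ⟨d0, h8⟩ := h7 θ e5 e6
  refine ⟨d0, ?_⟩
  intro V _ G d P A hd hD hPL hPD hA
  obtain ⟨t, c, Sp, h9, _⟩ := h8 G d P A hd hD hPL hPD hA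
  exact ⟨t, c, Sp, h9⟩

end Pool.Agent.Work.MP_db9399_dp.helper82
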