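import Pool.Agent.Work.MP_db9399_dp_helper82.Types

/-! # PRE: representation of the sets of types (helper82) -/

set_option autoImplicit false

namespace Pool.Agent.Work.MP_db9399_dp.helper82

open Finset Classical
open Pool.Agent.Work.MP_db9399_all (nb)

universe u

theorem ok1_iff (k : Bool) (i : Fin 3) (u : Tt → Bool) :
    ok1 k i u = true ↔ ∃ T, u T = true ∧ al0 k i T = true := by
  unfold ok1
  simp only [Bool.or_eq_true, Bool.and_eq_true]
  constructor
  · rintro (((((((h | h) | h) | h) | h) | h) | h) | h) <;> exact ⟨_, h⟩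
  · rintro ⟨T, h⟩
    cases T <;> simp only [h.1, h.2, and_self, true_or, or_true]

theorem ok2_iff (k k' : Bool) (i j : Fin 3) (u : Tt → Bool) :
    ok2 k k' i j u = true ↔ ∃ T, u T = true ∧ al0 k i T = true ∧ al0 k' j T = true := by
  unfold ok2
  simp only [Bool.or_eq_true, Bool.and_eq_true]
  constructor
  · rintro (((((((h | h) | h) | h) | h) | h) | h) | h) <;> exact ⟨_, h⟩
  · rintro ⟨T, h⟩
    cases T <;> simp only [h.1, h.2.1, h.2.2, and_self, true_or, or_true]

theorem r0_pos (k : Bool) : 0 < r0 k := by cases k <;> simp [r0]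

theorem va_iff (k : Bool) (i : Fin 3) : va k i = true ↔ i.val < r0 k := by
  unfold va; simp

theorem n1_all (k : Bool) (u : Tt → Bool) (h : n1 k u = r0 k) (i : Fin 3) (hi : i.val < r0 k) :
    ok1 k i u = true := by
  rw [← va_iff] at hi
  unfold n1 at h
  cases k
  · have a0 : va false 0 = true := by decide
    have a1 : va false 1 = true := by decide
    have a2 : va false 2 = false := by decide
    rw [a0, a1, a2] at h
    simp only [Bool.true_and, Bool.false_and, r0, Bool.false_eq_true, if_false] at h
    fin_cases i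
    · by_contra hc
      simp only [Fin.zero_eta] at hc
      rw [Bool.not_eq_true] at hc
      rw [hc] at h
      simp only [Bool.false_eq_true, if_false] at h
      split_ifs at h <;> omega
    · by_contra hc
      simp only [Fin.mk_one] at hc
      rw [Bool.not_eq_true] at hc
      rw [hc] at h
      simp only [Bool.false_eq_true, if_false] at h
      split_ifs at h <;> omega
    · rw [show (⟨2, by omega⟩ : Fin 3) = 2 from rfl, a2] at hi
      exact absurd hi (by simp)
  · have a0 : va true 0 = true := by decide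
    have a1 : va true 1 = true := by decide
    have a2 : va true 2 = true := by decide
    rw [a0, a1, a2] at h
    simp only [Bool.true_and, r0, if_true] at h
    fin_cases i
    · by_contra hc
      simp only [Fin.zero_eta] at hc
      rw [Bool.not_eq_true] at hc
      rw [hc] at h
      simp only [Bool.false_eq_true, if_false] at h
      split_ifs at h <;> omega
    · by_contra hc
      simp only [Fin.mk_one] at hc
      rw [Bool.not_eq_true] at hc
      rw [hc] at h
      simp only [Bool.false_eq_true, if_false] at h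
      split_ifs at h <;> omega
    · by_contra hc
      simp only [Fin.reduceFinMk] at hc
      rw [Bool.not_eq_true] at hc
      rw [hc] at h
      simp only [Bool.false_eq_true, if_false] at h
      split_ifs at h <;> omega

theorem n2r_le (k k' : Bool) (i : Fin 3) (u : Tt → Bool) :
    n2r k k' i u ≤ if va k i then r0 k' else 0 := by
  unfold n2r
  cases hv : va k i
  · simp
  · simp only [Bool.true_and, if_true]
    cases k'
    · have a2 : va false 2 = false := by decide
      rw [a2]
      simp only [Bool.false_and, Bool.false_eq_true, if_false, r0]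
      split_ifs <;> omega
    · simp only [r0, if_true]
      split_ifs <;> omega

theorem n2r_all (k k' : Bool) (i : Fin 3) (u : Tt → Bool) (hi : va k i = true)
    (h : n2r k k' i u = r0 k') (j : Fin 3) (hj : j.val < r0 k') : ok2 k k' i j u = true := by
  rw [← va_iff] at hj
  unfold n2r at h
  rw [hi] at h
  cases k'
  · have a0 : va false 0 = true := by decide
    have a1 : va false 1 = true := by decide
    have a2 : va false 2 = false := by decide
    rw [a0, a1, a2] at h
    simp only [Bool.true_and, Bool.and_false, Bool.false_and, r0, Bool.false_eq_true,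
      if_false] at h
    fin_cases j
    · by_contra hc
      simp only [Fin.zero_eta] at hc
      rw [Bool.not_eq_true] at hc
      rw [hc] at h
      simp only [Bool.false_eq_true, if_false] at h
      split_ifs at h <;> omega
    · by_contra hc
      simp only [Fin.mk_one] at hc
      rw [Bool.not_eq_true] at hc
      rw [hc] at h
      simp only [Bool.false_eq_true, if_false] at h
      split_ifs at h <;> omega
    · rw [show (⟨2, by omega⟩ : Fin 3) = 2 from rfl, a2] at hj
      exact absurd hj (by simp)
  · have a0 : va true 0 = true := by decide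
    have a1 : va true 1 = true := by decide
    have a2 : va true 2 = true := by decide
    rw [a0, a1, a2] at h
    simp only [Bool.true_and, r0, if_true] at h
    fin_cases j
    · by_contra hc
      simp only [Fin.zero_eta] at hc
      rw [Bool.not_eq_true] at hc
      rw [hc] at h
      simp only [Bool.false_eq_true, if_false] at h
      split_ifs at h <;> omega
    · by_contra hc
      simp only [Fin.mk_one] at hc
      rw [Bool.not_eq_true] at hc
      rw [hc] at h
      simp only [Bool.false_eq_true, if_false] at h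
      split_ifs at h <;> omega
    · by_contra hc
      simp only [Fin.reduceFinMk] at hc
      rw [Bool.not_eq_true] at hc
      rw [hc] at h
      simp only [Bool.false_eq_true, if_false] at h
      split_ifs at h <;> omega

theorem n2_all (k k' : Bool) (u : Tt → Bool) (h : n2 k k' u = r0 k * r0 k') (i j : Fin 3)
    (hi : i.val < r0 k) (hj : j.val < r0 k') : ok2 k k' i j u = true := by
  rw [← va_iff] at hi
  have l0 := n2r_le k k' 0 u
  have l1 := n2r_le k k' 1 u
  have l2 := n2r_le k k' 2 u
  have hs : (if va k 0 then r0 k' else 0) + (if va k 1 then r0 k' else 0) +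
      (if va k 2 then r0 k' else 0) = r0 k * r0 k' := by
    cases k
    · have a0 : va false 0 = true := by decide
      have a1 : va false 1 = true := by decide
      have a2 : va false 2 = false := by decide
      rw [a0, a1, a2]
      simp only [if_true, Bool.false_eq_true, if_false, r0]
      ring
    · have a0 : va true 0 = true := by decide
      have a1 : va true 1 = true := by decide
      have a2 : va true 2 = true := by decide
      rw [a0, a1, a2]
      simp only [if_true, r0]
      ring
  unfold n2 at h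
  have key : n2r k k' i u = r0 k' := by
    have e0 : n2r k k' 0 u = if va k 0 then r0 k' else 0 := by omega
    have e1 : n2r k k' 1 u = if va k 1 then r0 k' else 0 := by omega
    have e2 : n2r k k' 2 u = if va k 2 then r0 k' else 0 := by omega
    have e : n2r k k' i u = if va k i then r0 k' else 0 := by
      fin_cases i
      · exact e0
      · exact e1
      · exact e2
    rw [e, if_pos hi]
  exact n2r_all k k' i u hi key j hj

/-- representation, items with one label -/
theorem rep1 {ι : Type*} (k : Bool) (S : Finset ι) (lab : ι → Fin 3) (al : ι → Tt → Prop)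
    (ρ : Tt → ℝ) (e : ℝ) (hal : ∀ i ∈ S, ∀ T, al i T ↔ al0 k (lab i) T = true)
    (hlab : ∀ i ∈ S, (lab i).val < r0 k)
    (hc : ∀ j : Fin 3, j.val < r0 k →
      (S.card : ℝ) * (1 / r0 k - 1 / 100) ≤ ((S.filter (fun i => lab i = j)).card : ℝ))
    (hρ : ∀ U : Finset Tt, ∑ T ∈ U, ρ T + e ≤ ((wt (fun T => decide (T ∈ U)) : ℝ) + 3) / 3000) :
    Rep al ρ e S := by
  intro U hU
  set u : Tt → Bool := fun T => decide (T ∈ U) with hu
  have hex : ∃ T, u T = true := by
    obtain ⟨T, hT⟩ := hU
    exact ⟨T, by simp [hu, hT]⟩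
  have hok : ∀ i ∈ S, (∃ T ∈ U, al i T) ↔ ok1 k (lab i) u = true := by
    intro i hi
    rw [ok1_iff]
    constructor
    · rintro ⟨T, hT, h⟩
      exact ⟨T, by simp [hu, hT], (hal i hi T).1 h⟩
    · rintro ⟨T, hT, h⟩
      exact ⟨T, by simpa [hu] using hT, (hal i hi T).2 h⟩
  rcases dec1' k u hex with h | h
  · left
    intro i hi
    rw [hok i hi]
    exact n1_all k u h _ (hlab i hi)
  · right
    set X : ℝ := (S.card : ℝ) * (1 / r0 k - 1 / 100) with hX
    have hterm : ∀ j : Fin 3, ((if va k j && ok1 k j u then 1 else 0 : ℕ) : ℝ) * X ≤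
        (((S.filter (fun i => ∃ T ∈ U, al i T)).filter (fun i => lab i = j)).card : ℝ) := by
      intro j
      by_cases hj : va k j = true ∧ ok1 k j u = true
      · rw [hj.1, hj.2]
        simp only [Bool.and_self, if_true, Nat.cast_one, one_mul]
        refine (hc j ((va_iff k j).1 hj.1)).trans (Nat.cast_le.2 (card_le_card ?_))
        intro i hi
        rw [mem_filter] at hi
        rw [mem_filter, mem_filter]
        refine ⟨⟨hi.1, (hok i hi.1).2 ?_⟩, hi.2⟩
        rw [hi.2]; exact hj.2
      · have : (va k j && ok1 k j u) = false := by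
          rw [← Bool.not_eq_true, Bool.and_eq_true]; exact hj
        rw [this]
        simp
    have hsum : ((S.filter (fun i => ∃ T ∈ U, al i T)).card : ℝ) =
        ∑ j : Fin 3, (((S.filter (fun i => ∃ T ∈ U, al i T)).filter
          (fun i => lab i = j)).card : ℝ) := by
      rw [card_eq_sum_card_fiberwise (f := lab) (t := univ) (fun _ _ => mem_coe.2 (mem_univ _))]
      push_cast
      rfl
    have h3 : (n1 k u : ℝ) * X ≤ ((S.filter (fun i => ∃ T ∈ U, al i T)).card : ℝ) := by
      rw [hsum, Fin.sum_univ_three]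
      unfold n1
      push_cast
      have t0 := hterm 0
      have t1 := hterm 1
      have t2 := hterm 2
      push_cast at t0 t1 t2
      linarith
    have h4 : ((wt u : ℝ) + 3) ≤ (n1 k u : ℝ) * ((3000 / r0 k - 30 : ℕ) : ℝ) := by
      exact_mod_cast h
    have h5 : ((3000 / r0 k - 30 : ℕ) : ℝ) ≤ 3000 * (1 / r0 k - 1 / 100) := by
      cases k
      · norm_num [r0]
      · norm_num [r0]
    have h6 := hρ U
    have hn : (0 : ℝ) ≤ n1 k u := Nat.cast_nonneg _
    have hS : (0 : ℝ) ≤ S.card := Nat.cast_nonneg _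
    have h7 : ∑ T ∈ U, ρ T + e ≤ (n1 k u : ℝ) * (1 / r0 k - 1 / 100) := by
      have := mul_le_mul_of_nonneg_left h5 hn
      linarith
    calc (∑ T ∈ U, ρ T + e) * S.card ≤ ((n1 k u : ℝ) * (1 / r0 k - 1 / 100)) * S.card :=
          mul_le_mul_of_nonneg_right h7 hS
      _ = (n1 k u : ℝ) * X := by rw [hX]; ring
      _ ≤ _ := h3

/-- representation, items with two labels -/
theorem rep2 {ι : Type*} (k k' : Bool) (S : Finset ι) (lab lab' : ι → Fin 3)
    (al : ι → Tt → Prop) (ρ : Tt → ℝ) (e : ℝ)
    (hal : ∀ i ∈ S, ∀ T, al i T ↔ (al0 k (lab i) T = true ∧ al0 k' (lab' i) T = true))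
    (hlab : ∀ i ∈ S, (lab i).val < r0 k) (hlab' : ∀ i ∈ S, (lab' i).val < r0 k')
    (hc : ∀ j j' : Fin 3, j.val < r0 k → j'.val < r0 k' →
      (S.card : ℝ) * (1 / (r0 k * r0 k') - 1 / 100) ≤
        ((S.filter (fun i => lab i = j ∧ lab' i = j')).card : ℝ))
    (hρ : ∀ U : Finset Tt, ∑ T ∈ U, ρ T + e ≤ ((wt (fun T => decide (T ∈ U)) : ℝ) + 3) / 3000) :
    Rep al ρ e S := by
  intro U hU
  set u : Tt → Bool := fun T => decide (T ∈ U) with hu
  have hex : ∃ T, u T = true := by
    obtain ⟨T, hT⟩ := hU
    exact ⟨T, by simp [hu, hT]⟩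
  have hok : ∀ i ∈ S, (∃ T ∈ U, al i T) ↔ ok2 k k' (lab i) (lab' i) u = true := by
    intro i hi
    rw [ok2_iff]
    constructor
    · rintro ⟨T, hT, h⟩
      exact ⟨T, by simp [hu, hT], (hal i hi T).1 h⟩
    · rintro ⟨T, hT, h⟩
      exact ⟨T, by simpa [hu] using hT, (hal i hi T).2 h⟩
  rcases dec2' k k' u hex with h | h
  · left
    intro i hi
    rw [hok i hi]
    exact n2_all k k' u h _ _ (hlab i hi) (hlab' i hi)
  · right
    set X : ℝ := (S.card : ℝ) * (1 / (r0 k * r0 k') - 1 / 100) with hX
    have hterm : ∀ j j' : Fin 3, ((if va k j && va k' j' && ok2 k k' j j' u then 1 else 0 : ℕ) :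
        ℝ) * X ≤ (((S.filter (fun i => ∃ T ∈ U, al i T)).filter
          (fun i => (lab i, lab' i) = (j, j'))).card : ℝ) := by
      intro j j'
      by_cases hj : (va k j = true ∧ va k' j' = true) ∧ ok2 k k' j j' u = true
      · rw [hj.1.1, hj.1.2, hj.2]
        simp only [Bool.and_self, if_true, Nat.cast_one, one_mul]
        refine (hc j j' ((va_iff k j).1 hj.1.1) ((va_iff k' j').1 hj.1.2)).trans
          (Nat.cast_le.2 (card_le_card ?_))
        intro i hi
        rw [mem_filter] at hi
        rw [mem_filter, mem_filter]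
        refine ⟨⟨hi.1, (hok i hi.1).2 ?_⟩, ?_⟩
        · rw [hi.2.1, hi.2.2]; exact hj.2
        · rw [hi.2.1, hi.2.2]
      · have : (va k j && va k' j' && ok2 k k' j j' u) = false := by
          rw [← Bool.not_eq_true, Bool.and_eq_true, Bool.and_eq_true]; exact hj
        rw [this]
        simp
    have hsum : ((S.filter (fun i => ∃ T ∈ U, al i T)).card : ℝ) =
        ∑ j : Fin 3, ∑ j' : Fin 3, (((S.filter (fun i => ∃ T ∈ U, al i T)).filter
          (fun i => (lab i, lab' i) = (j, j'))).card : ℝ) := by
      rw [card_eq_sum_card_fiberwise (f := fun i => (lab i, lab' i)) (t := univ)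
        (fun _ _ => mem_coe.2 (mem_univ _))]
      push_cast
      rw [← univ_product_univ, sum_product]
    have h3 : (n2 k k' u : ℝ) * X ≤ ((S.filter (fun i => ∃ T ∈ U, al i T)).card : ℝ) := by
      rw [hsum, Fin.sum_univ_three, Fin.sum_univ_three, Fin.sum_univ_three, Fin.sum_univ_three]
      unfold n2 n2r
      push_cast
      have t00 := hterm 0 0
      have t01 := hterm 0 1
      have t02 := hterm 0 2
      have t10 := hterm 1 0
      have t11 := hterm 1 1
      have t12 := hterm 1 2
      have t20 := hterm 2 0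
      have t21 := hterm 2 1
      have t22 := hterm 2 2
      push_cast at t00 t01 t02 t10 t11 t12 t20 t21 t22
      linarith
    have h4 : ((wt u : ℝ) + 3) ≤ (n2 k k' u : ℝ) *
        ((3000 / (r0 k * r0 k') - 31 : ℕ) : ℝ) := by
      exact_mod_cast h
    have h5 : ((3000 / (r0 k * r0 k') - 31 : ℕ) : ℝ) ≤
        3000 * (1 / (r0 k * r0 k') - 1 / 100) := by
      cases k <;> cases k' <;> norm_num [r0]
    have h6 := hρ U
    have hn : (0 : ℝ) ≤ n2 k k' u := Nat.cast_nonneg _
    have hS : (0 : ℝ) ≤ S.card := Nat.cast_nonneg _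
    have h7 : ∑ T ∈ U, ρ T + e ≤ (n2 k k' u : ℝ) * (1 / (r0 k * r0 k') - 1 / 100) := by
      have := mul_le_mul_of_nonneg_left h5 hn
      linarith
    calc (∑ T ∈ U, ρ T + e) * S.card ≤
          ((n2 k k' u : ℝ) * (1 / (r0 k * r0 k') - 1 / 100)) * S.card :=
          mul_le_mul_of_nonneg_right h7 hS
      _ = (n2 k k' u : ℝ) * X := by rw [hX]; ring
      _ ≤ _ := h3

theorem sum_Tt (f : Tt → ℝ) :
    ∑ T, f T = f .QF + f .QT + f .PF + f .PT + f .A0 + f .A1 + f .A2 + f .A3 := by
  have : (univ : Finset Tt) = {.QF, .QT, .PF, .PT, .A0, .A1, .A2, .A3} := rfl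
  rw [this, sum_insert (by decide), sum_insert (by decide), sum_insert (by decide),
    sum_insert (by decide), sum_insert (by decide), sum_insert (by decide),
    sum_insert (by decide), sum_singleton]
  ring

theorem sum_Tt_nat (f : Tt → ℕ) :
    ∑ T, f T = f .QF + f .QT + f .PF + f .PT + f .A0 + f .A1 + f .A2 + f .A3 := by
  have : (univ : Finset Tt) = {.QF, .QT, .PF, .PT, .A0, .A1, .A2, .A3} := rfl
  rw [this, sum_insert (by decide), sum_insert (by decide), sum_insert (by decide),
    sum_insert (by decide), sum_insert (by decide), sum_insert (by decide),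
    sum_insert (by decide), sum_singleton]
  ring

theorem hrho (ρ : Tt → ℝ) (e : ℝ) (he : e ≤ 1 / 1000) (h0 : ∀ T, 0 ≤ ρ T)
    (q0 : ρ .QF ≤ 1 / 50) (q1 : ρ .QT ≤ 1 / 50) (p0 : ρ .PF ≤ 1 / 50) (p1 : ρ .PT ≤ 1 / 50)
    (c0 : ρ .QF + ρ .A0 ≤ 1 / 3) (c1 : ρ .QT + ρ .A1 ≤ 1 / 3)
    (c2 : ρ .PF + ρ .PT + ρ .A2 ≤ 1 / 3) (c3 : ρ .A3 ≤ 1 / 3) (U : Finset Tt) :
    ∑ T ∈ U, ρ T + e ≤ ((wt (fun T => decide (T ∈ U)) : ℝ) + 3) / 3000 := by
  have h1 : ∑ T ∈ U, ρ T = ∑ T, if T ∈ U then ρ T else 0 := by
    rw [← sum_filter]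
    congr 1
    ext T
    simp
  rw [h1, sum_Tt]
  unfold wt
  simp only [decide_eq_true_eq]
  push_cast
  have z0 := h0 .QF
  have z1 := h0 .QT
  have z2 := h0 .PF
  have z3 := h0 .PT
  have z4 := h0 .A0
  have z5 := h0 .A1
  have z6 := h0 .A2
  have z7 := h0 .A3
  have k0 : (if Tt.QF ∈ U then ρ .QF else 0) + (if Tt.A0 ∈ U then ρ .A0 else 0) ≤
      (if Tt.A0 ∈ U then (1000 : ℝ) else if Tt.QF ∈ U then 60 else 0) / 3000 := by
    split_ifs <;> linarith
  have k1 : (if Tt.QT ∈ U then ρ .QT else 0) + (if Tt.A1 ∈ U then ρ .A1 else 0) ≤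
      (if Tt.A1 ∈ U then (1000 : ℝ) else if Tt.QT ∈ U then 60 else 0) / 3000 := by
    split_ifs <;> linarith
  have k2 : (if Tt.PF ∈ U then ρ .PF else 0) + (if Tt.PT ∈ U then ρ .PT else 0) +
      (if Tt.A2 ∈ U then ρ .A2 else 0) ≤
      (if Tt.A2 ∈ U then (1000 : ℝ) else (if Tt.PF ∈ U then 60 else 0) +
        (if Tt.PT ∈ U then 60 else 0)) / 3000 := by
    split_ifs <;> linarith
  have k3 : (if Tt.A3 ∈ U then ρ .A3 else 0) ≤ (if Tt.A3 ∈ U then (1000 : ℝ) else 0) / 3000 := by
    split_ifs <;> linarith
  linarith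

end Pool.Agent.Work.MP_db9399_dp.helper82
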