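import Pool.Agent.Work.MP_db9399_dp_helper82.Rep

/-! # PRE: the input of TYPE (helper82) -/

set_option autoImplicit false

namespace Pool.Agent.Work.MP_db9399_dp.helper82

open Finset Classical
open Pool.Agent.Work.MP_db9399_all (nb)
open Pool.Agent.Work.MP_db9399_da

universe u

theorem mem_nb' {V : Type u} [Fintype V] (G : SimpleGraph V) (v w : V) : w ∈ nb G v ↔ G.Adj v w := by
  simp [nb]

/-! ## palettes -/

/-- group of a colour -/
noncomputable def gpn (A : Pal) (b : ℕ) : Gr :=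
  if b ∈ A.Q false then .QF else if b ∈ A.Q true then .QT else if b ∈ A.P2 then .P2 else
    if b ∈ A.C 0 then .A0 else if b ∈ A.C 1 then .A1 else if b ∈ A.C 2 then .A2 else .A3

/-- palette of a group -/
noncomputable def pal (A : Pal) (d : ℕ) (g : Gr) : Finset ℕ :=
  (range (d + 2)).filter (fun b => gpn A b = g)

section pals
variable {A : Pal} {d : ℕ} {π κ : ℝ}

theorem pq (h : PalP A d π κ) {b : ℕ} (hb : b ∈ A.Q false) : b ∉ A.Q true ∧ b ∉ A.P2 ∧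
    b ∈ A.C 0 ∧ b ∉ A.C 1 ∧ b ∉ A.C 2 := by
  have h0 := h.Q0 hb
  have h1 : b ∉ A.C 1 := disjoint_left.1 (h.Cdis 0 1 (by decide)) h0
  have h2 : b ∉ A.C 2 := disjoint_left.1 (h.Cdis 0 2 (by decide)) h0
  exact ⟨fun e => h1 (h.Q1 e), fun e => h2 (h.P2C e), h0, h1, h2⟩

theorem pq' (h : PalP A d π κ) {b : ℕ} (hb : b ∈ A.Q true) : b ∉ A.Q false ∧ b ∉ A.P2 ∧
    b ∉ A.C 0 ∧ b ∈ A.C 1 ∧ b ∉ A.C 2 := by
  have h0 := h.Q1 hb
  have h1 : b ∉ A.C 0 := disjoint_left.1 (h.Cdis 1 0 (by decide)) h0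
  have h2 : b ∉ A.C 2 := disjoint_left.1 (h.Cdis 1 2 (by decide)) h0
  exact ⟨fun e => h1 (h.Q0 e), fun e => h2 (h.P2C e), h1, h0, h2⟩

theorem pp2 (h : PalP A d π κ) {b : ℕ} (hb : b ∈ A.P2) : b ∉ A.Q false ∧ b ∉ A.Q true ∧
    b ∉ A.C 0 ∧ b ∉ A.C 1 ∧ b ∈ A.C 2 := by
  have h0 := h.P2C hb
  have h1 : b ∉ A.C 0 := disjoint_left.1 (h.Cdis 2 0 (by decide)) h0
  have h2 : b ∉ A.C 1 := disjoint_left.1 (h.Cdis 2 1 (by decide)) h0
  exact ⟨fun e => h1 (h.Q0 e), fun e => h2 (h.Q1 e), h1, h2, h0⟩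

theorem pc0 (h : PalP A d π κ) {b : ℕ} (hb : b ∈ A.C 0) : b ∉ A.C 1 ∧ b ∉ A.C 2 :=
  ⟨disjoint_left.1 (h.Cdis 0 1 (by decide)) hb, disjoint_left.1 (h.Cdis 0 2 (by decide)) hb⟩

theorem pc1 (h : PalP A d π κ) {b : ℕ} (hb : b ∈ A.C 1) : b ∉ A.C 0 ∧ b ∉ A.C 2 :=
  ⟨disjoint_left.1 (h.Cdis 1 0 (by decide)) hb, disjoint_left.1 (h.Cdis 1 2 (by decide)) hb⟩

theorem pc2 (h : PalP A d π κ) {b : ℕ} (hb : b ∈ A.C 2) : b ∉ A.C 0 ∧ b ∉ A.C 1 :=
  ⟨disjoint_left.1 (h.Cdis 2 0 (by decide)) hb, disjoint_left.1 (h.Cdis 2 1 (by decide)) hb⟩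

theorem gpn_QF (b : ℕ) : gpn A b = .QF ↔ b ∈ A.Q false := by
  unfold gpn; split_ifs <;> simp_all

theorem gpn_QT (h : PalP A d π κ) (b : ℕ) : gpn A b = .QT ↔ b ∈ A.Q true := by
  constructor
  · unfold gpn; split_ifs <;> simp_all
  · intro hb
    unfold gpn
    rw [if_neg (pq' h hb).1, if_pos hb]

theorem gpn_P2 (h : PalP A d π κ) (b : ℕ) : gpn A b = .P2 ↔ b ∈ A.P2 := by
  constructor
  · unfold gpn; split_ifs <;> simp_all
  · intro hb
    unfold gpn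
    rw [if_neg (pp2 h hb).1, if_neg (pp2 h hb).2.1, if_pos hb]

theorem gpn_A0 (h : PalP A d π κ) (b : ℕ) : gpn A b = .A0 ↔ b ∈ A.C 0 \ A.Q false := by
  rw [mem_sdiff]
  constructor
  · unfold gpn; split_ifs <;> simp_all
  · rintro ⟨hb, hb'⟩
    unfold gpn
    rw [if_neg hb', if_neg (fun e => (pq' h e).2.2.1 hb), if_neg (fun e => (pp2 h e).2.2.1 hb),
      if_pos hb]

theorem gpn_A1 (h : PalP A d π κ) (b : ℕ) : gpn A b = .A1 ↔ b ∈ A.C 1 \ A.Q true := by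
  rw [mem_sdiff]
  constructor
  · unfold gpn; split_ifs <;> simp_all
  · rintro ⟨hb, hb'⟩
    unfold gpn
    rw [if_neg (fun e => (pq h e).2.2.2.1 hb), if_neg hb', if_neg (fun e => (pp2 h e).2.2.2.1 hb),
      if_neg (pc1 h hb).1, if_pos hb]

theorem gpn_A2 (h : PalP A d π κ) (b : ℕ) : gpn A b = .A2 ↔ b ∈ A.C 2 \ A.P2 := by
  rw [mem_sdiff]
  constructor
  · unfold gpn; split_ifs <;> simp_all
  · rintro ⟨hb, hb'⟩
    unfold gpn
    rw [if_neg (fun e => (pq h e).2.2.2.2 hb), if_neg (fun e => (pq' h e).2.2.2.2 hb), if_neg hb',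
      if_neg (pc2 h hb).1, if_neg (pc2 h hb).2, if_pos hb]

theorem gpn_A3 (h : PalP A d π κ) (b : ℕ) : gpn A b = .A3 ↔
    (b ∉ A.C 0 ∧ b ∉ A.C 1 ∧ b ∉ A.C 2) := by
  constructor
  · unfold gpn; split_ifs <;> simp_all
  · rintro ⟨h0, h1, h2⟩
    unfold gpn
    rw [if_neg (fun e => h0 (h.Q0 e)), if_neg (fun e => h1 (h.Q1 e)), if_neg (fun e => h2 (h.P2C e)),
      if_neg h0, if_neg h1, if_neg h2]

theorem filter_range_eq (S : Finset ℕ) (p : ℕ → Prop) [DecidablePred p] (hS : S ⊆ range (d + 2))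
    (hp : ∀ b, p b ↔ b ∈ S) : (range (d + 2)).filter (fun b => p b) = S := by
  ext b
  rw [mem_filter, hp]
  exact ⟨fun h => h.2, fun h => ⟨hS h, h⟩⟩

theorem pal_QF (h : PalP A d π κ) : pal A d .QF = A.Q false :=
  filter_range_eq _ _ (h.Q0.trans (h.Clt 0)) (fun b => gpn_QF b)

theorem pal_QT (h : PalP A d π κ) : pal A d .QT = A.Q true :=
  filter_range_eq _ _ (h.Q1.trans (h.Clt 1)) (fun b => gpn_QT h b)

theorem pal_P2 (h : PalP A d π κ) : pal A d .P2 = A.P2 :=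
  filter_range_eq _ _ (h.P2C.trans (h.Clt 2)) (fun b => gpn_P2 h b)

theorem pal_A0 (h : PalP A d π κ) : pal A d .A0 = A.C 0 \ A.Q false :=
  filter_range_eq _ _ (sdiff_subset.trans (h.Clt 0)) (fun b => gpn_A0 h b)

theorem pal_A1 (h : PalP A d π κ) : pal A d .A1 = A.C 1 \ A.Q true :=
  filter_range_eq _ _ (sdiff_subset.trans (h.Clt 1)) (fun b => gpn_A1 h b)

theorem pal_A2 (h : PalP A d π κ) : pal A d .A2 = A.C 2 \ A.P2 :=
  filter_range_eq _ _ (sdiff_subset.trans (h.Clt 2)) (fun b => gpn_A2 h b)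

theorem pal_A3 (h : PalP A d π κ) : pal A d .A3 = A.C0 d := by
  ext b
  unfold pal Pal.C0
  rw [mem_filter, gpn_A3 h, mem_sdiff, mem_union, mem_union]
  tauto

theorem card_C0 (h : PalP A d π κ) :
    (A.C0 d).card + ((A.C 0).card + (A.C 1).card + (A.C 2).card) = d + 2 := by
  unfold Pal.C0
  have h1 : (A.C 0 ∪ A.C 1 ∪ A.C 2).card = (A.C 0).card + (A.C 1).card + (A.C 2).card := by
    rw [card_union_of_disjoint, card_union_of_disjoint (h.Cdis 0 1 (by decide))]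
    rw [disjoint_union_left]
    exact ⟨h.Cdis 0 2 (by decide), h.Cdis 1 2 (by decide)⟩
  rw [← h1, add_comm]
  have h2 : A.C 0 ∪ A.C 1 ∪ A.C 2 ⊆ range (d + 2) :=
    union_subset (union_subset (h.Clt 0) (h.Clt 1)) (h.Clt 2)
  have h3 := card_sdiff_add_card_eq_card h2
  rw [card_range] at h3
  omega

/-- number of edges of a type at the vertices of `V0` -/
noncomputable def mt (A : Pal) (d : ℕ) : Tt → ℕ
  | .QF => (A.Q false).card
  | .QT => (A.Q true).card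
  | .PF => A.P2.card / 2
  | .PT => A.P2.card - A.P2.card / 2
  | .A0 => (A.C 0).card - (A.Q false).card
  | .A1 => (A.C 1).card - (A.Q true).card
  | .A2 => (A.C 2).card - A.P2.card
  | .A3 => (A.C0 d).card - 2

/-- densities of the types -/
noncomputable def rhoT (A : Pal) (d : ℕ) (T : Tt) : ℝ := (mt A d T : ℝ) / d

theorem mt_sum (h : PalP A d π κ) (h2 : 2 ≤ (A.C0 d).card) : ∑ T, mt A d T = d := by
  rw [sum_Tt_nat]
  unfold mt
  have e0 := card_le_card h.Q0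
  have e1 := card_le_card h.Q1
  have e2 := card_le_card h.P2C
  have e3 := card_C0 h
  dsimp only
  omega

/-- numerical conditions on the palettes -/
structure Num (e π κ : ℝ) (d : ℕ) : Prop where
  e0 : 0 < e
  eκ : e ≤ κ
  eπ : e ≤ π / 3
  ec : e ≤ 8 / 10 ^ 13
  κ1 : κ ≤ 1 / 100
  π1 : π ≤ 1 / 100
  d1 : (100000000000000 : ℝ) ≤ d
  dπ : 3 ≤ π * d

theorem card_C0_ge (h : PalP A d π κ) : 9 / 10 ^ 13 * (d : ℝ) - 1 ≤ ((A.C0 d).card : ℝ) := by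
  have e3 := card_C0 h
  have h0 := (abs_le.1 (h.Cc 0)).2
  have h1 := (abs_le.1 (h.Cc 1)).2
  have h2 := (abs_le.1 (h.Cc 2)).2
  have e4 : ((A.C0 d).card : ℝ) + (((A.C 0).card : ℝ) + (A.C 1).card + (A.C 2).card) = d + 2 := by
    exact_mod_cast e3
  linarith

theorem card_C0_2 {e : ℝ} (h : PalP A d π κ) (hn : Num e π κ d) : 2 ≤ (A.C0 d).card := by
  have h1 := card_C0_ge h
  have h2 := hn.d1
  have : (2 : ℝ) ≤ ((A.C0 d).card : ℝ) := by
    norm_num at h1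
    linarith
  exact_mod_cast this

theorem mt_ge {e : ℝ} (h : PalP A d π κ) (hn : Num e π κ d) (T : Tt) :
    e * d ≤ (mt A d T : ℝ) := by
  have hd0 : (0 : ℝ) ≤ d := Nat.cast_nonneg d
  have hd1 := hn.d1
  have q0 := h.Qc false
  have q1 := h.Qc true
  have p2 := h.Pc
  have k1 := hn.κ1
  have k2 := hn.π1
  have k3 := hn.ec
  have ek : e * d ≤ κ * d := mul_le_mul_of_nonneg_right hn.eκ hd0
  have kd : κ * d ≤ 1 / 100 * d := mul_le_mul_of_nonneg_right hn.κ1 hd0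
  have pd : π * d ≤ 1 / 100 * d := mul_le_mul_of_nonneg_right hn.π1 hd0
  have ec : e * d ≤ 8 / 10 ^ 13 * d := mul_le_mul_of_nonneg_right hn.ec hd0
  have ep : e * d ≤ π / 3 * d := mul_le_mul_of_nonneg_right hn.eπ hd0
  have dp := hn.dπ
  have c0 := (abs_le.1 (h.Cc 0)).1
  have c1 := (abs_le.1 (h.Cc 1)).1
  have c2 := (abs_le.1 (h.Cc 2)).1
  have s0 := card_le_card h.Q0
  have s1 := card_le_card h.Q1
  have s2 := card_le_card h.P2C
  have m2 : (A.P2.card : ℝ) ≤ 2 * ((A.P2.card / 2 : ℕ) : ℝ) + 1 := by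
    have : A.P2.card ≤ 2 * (A.P2.card / 2) + 1 := by omega
    exact_mod_cast this
  have m3 : ((A.P2.card / 2 : ℕ) : ℝ) ≤ ((A.P2.card - A.P2.card / 2 : ℕ) : ℝ) := by
    have : A.P2.card / 2 ≤ A.P2.card - A.P2.card / 2 := by omega
    exact_mod_cast this
  have c3 := card_C0_ge h
  have c4 := card_C0_2 h hn
  norm_num at c0 c1 c2 c3 ec
  cases T
  · show e * d ≤ ((A.Q false).card : ℝ)
    linarith [q0.1]
  · show e * d ≤ ((A.Q true).card : ℝ)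
    linarith [q1.1]
  · show e * d ≤ ((A.P2.card / 2 : ℕ) : ℝ)
    linarith [p2.1]
  · show e * d ≤ ((A.P2.card - A.P2.card / 2 : ℕ) : ℝ)
    linarith [p2.1]
  · show e * d ≤ (((A.C 0).card - (A.Q false).card : ℕ) : ℝ)
    rw [Nat.cast_sub s0]
    linarith [q0.2]
  · show e * d ≤ (((A.C 1).card - (A.Q true).card : ℕ) : ℝ)
    rw [Nat.cast_sub s1]
    linarith [q1.2]
  · show e * d ≤ (((A.C 2).card - A.P2.card : ℕ) : ℝ)
    rw [Nat.cast_sub s2]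
    linarith [p2.2]
  · show e * d ≤ (((A.C0 d).card - 2 : ℕ) : ℝ)
    rw [Nat.cast_sub c4]
    push_cast
    linarith

theorem rho_ge {e : ℝ} (h : PalP A d π κ) (hn : Num e π κ d) (T : Tt) : e ≤ rhoT A d T := by
  have hd : (0 : ℝ) < d := lt_of_lt_of_le (by norm_num) hn.d1
  unfold rhoT
  rw [le_div_iff₀ hd]
  exact mt_ge h hn T

theorem rho_sum {e : ℝ} (h : PalP A d π κ) (hn : Num e π κ d) : ∑ T, rhoT A d T = 1 := by
  have hd : (0 : ℝ) < d := lt_of_lt_of_le (by norm_num) hn.d1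
  unfold rhoT
  rw [← sum_div, ← Nat.cast_sum, mt_sum h (card_C0_2 h hn), div_self hd.ne']

theorem rho_wt {e : ℝ} (h : PalP A d π κ) (hn : Num e π κ d) (U : Finset Tt) :
    ∑ T ∈ U, rhoT A d T + e ≤ ((wt (fun T => decide (T ∈ U)) : ℝ) + 3) / 3000 := by
  have hd : (0 : ℝ) < d := lt_of_lt_of_le (by norm_num) hn.d1
  have hd0 : (0 : ℝ) ≤ d := hd.le
  have hd1 := hn.d1
  have q0 := h.Qc false
  have q1 := h.Qc true
  have p2 := h.Pc
  have kd : κ * d ≤ 1 / 100 * d := mul_le_mul_of_nonneg_right hn.κ1 hd0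
  have pd : π * d ≤ 1 / 100 * d := mul_le_mul_of_nonneg_right hn.π1 hd0
  have c0 := (abs_le.1 (h.Cc 0)).2
  have c1 := (abs_le.1 (h.Cc 1)).2
  have c2 := (abs_le.1 (h.Cc 2)).2
  have s0 := card_le_card h.Q0
  have s1 := card_le_card h.Q1
  have s2 := card_le_card h.P2C
  have b0 := (abs_le.1 (h.Cc 0)).1
  have b1 := (abs_le.1 (h.Cc 1)).1
  have b2 := (abs_le.1 (h.Cc 2)).1
  have m3 : ((A.P2.card / 2 : ℕ) : ℝ) + ((A.P2.card - A.P2.card / 2 : ℕ) : ℝ) =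
      (A.P2.card : ℝ) := by
    have : A.P2.card / 2 + (A.P2.card - A.P2.card / 2) = A.P2.card := by omega
    exact_mod_cast this
  have m4 : (0 : ℝ) ≤ ((A.P2.card / 2 : ℕ) : ℝ) := Nat.cast_nonneg _
  have m5 : (0 : ℝ) ≤ ((A.P2.card - A.P2.card / 2 : ℕ) : ℝ) := Nat.cast_nonneg _
  have e3 := card_C0 h
  have e4 : ((A.C0 d).card : ℝ) + (((A.C 0).card : ℝ) + (A.C 1).card + (A.C 2).card) = d + 2 := by
    exact_mod_cast e3
  have c4 := card_C0_2 h hn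
  norm_num at c0 c1 c2 b0 b1 b2
  refine hrho (rhoT A d) e ?_ (fun T => hn.e0.le.trans (rho_ge h hn T)) ?_ ?_ ?_ ?_ ?_ ?_ ?_ ?_ U
  · have := hn.ec
    norm_num at this
    linarith
  · unfold rhoT
    rw [div_le_iff₀ hd]
    show ((A.Q false).card : ℝ) ≤ _
    linarith [q0.2]
  · unfold rhoT
    rw [div_le_iff₀ hd]
    show ((A.Q true).card : ℝ) ≤ _
    linarith [q1.2]
  · unfold rhoT
    rw [div_le_iff₀ hd]
    show ((A.P2.card / 2 : ℕ) : ℝ) ≤ _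
    linarith [p2.2]
  · unfold rhoT
    rw [div_le_iff₀ hd]
    show ((A.P2.card - A.P2.card / 2 : ℕ) : ℝ) ≤ _
    linarith [p2.2]
  · unfold rhoT
    rw [← add_div, div_le_iff₀ hd]
    show ((A.Q false).card : ℝ) + (((A.C 0).card - (A.Q false).card : ℕ) : ℝ) ≤ _
    rw [Nat.cast_sub s0]
    linarith
  · unfold rhoT
    rw [← add_div, div_le_iff₀ hd]
    show ((A.Q true).card : ℝ) + (((A.C 1).card - (A.Q true).card : ℕ) : ℝ) ≤ _
    rw [Nat.cast_sub s1]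
    linarith
  · unfold rhoT
    rw [← add_div, ← add_div, div_le_iff₀ hd]
    show ((A.P2.card / 2 : ℕ) : ℝ) + ((A.P2.card - A.P2.card / 2 : ℕ) : ℝ) +
      (((A.C 2).card - A.P2.card : ℕ) : ℝ) ≤ _
    rw [Nat.cast_sub s2]
    linarith
  · unfold rhoT
    rw [div_le_iff₀ hd]
    show (((A.C0 d).card - 2 : ℕ) : ℝ) ≤ _
    rw [Nat.cast_sub c4]
    push_cast
    linarith

end pals

end Pool.Agent.Work.MP_db9399_dp.helper82
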