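import Pool.Agent.Work.MP_db9399_dp_helper82.TyIn

/-! # PRE: the input of TYPE, second part (helper82) -/

set_option autoImplicit false

namespace Pool.Agent.Work.MP_db9399_dp.helper82

open Finset Classical
open Pool.Agent.Work.MP_db9399_all (nb)
open Pool.Agent.Work.MP_db9399_da

universe u

attribute [-instance] instDecidableEqTt instDecidableEqGr

/-- the cells -/
def Cl (M : ℕ) : Type := Fin M × Bool

noncomputable instance (M : ℕ) : Fintype (Cl M) := inferInstanceAs (Fintype (Fin M × Bool))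

theorem sum_Cl {M : ℕ} {α : Type*} [AddCommMonoid α] (f : Cl M → α) :
    ∑ X, f X = ∑ n : Fin M, ∑ β : Bool, f (n, β) := by
  rw [← sum_product', univ_product_univ]
  rfl

theorem card_Cl (M : ℕ) : Fintype.card (Cl M) = M * 2 := by
  have : Fintype.card (Cl M) = Fintype.card (Fin M × Bool) := rfl
  rw [this]
  simp

section gen
variable {V : Type u} [Fintype V] {I : Type}

theorem mem_zb (F : SimpleGraph V) (Z : Finset V) (cl : V → I) (z : V) (A : I) (v : V) :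
    v ∈ zb F Z cl z A ↔ F.Adj z v ∧ v ∉ Z ∧ cl v = A := by
  unfold zb; rw [mem_filter, mem_nb']

theorem mem_pb (F : SimpleGraph V) (Z : Finset V) (cl : V → I) (A B : I) (p : V × V) :
    p ∈ pb F Z cl A B ↔ F.Adj p.1 p.2 ∧ p.1 ∉ Z ∧ p.2 ∉ Z ∧ cl p.1 = A ∧ cl p.2 = B := by
  unfold pb; rw [mem_filter]; simp

end gen

section cells
variable {V : Type u} {M : ℕ}

/-- is the piece of type K -/
def kp (P : Pcs V M) (n : Fin M) : Bool := decide (P.ty n = Ty.K)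

/-- allowed types at a vertex -/
def alv (P : Pcs V M) (v : V) (T : Tt) : Prop := al0 (kp P (P.pc v)) (lbl P v) T = true

/-- the cell of a vertex -/
def clv (P : Pcs V M) (v : V) : Cl M :=
  (P.pc v, if P.ty (P.pc v) = Ty.K then false else P.sd v)

theorem rr_r0 (P : Pcs V M) (n : Fin M) : rr P n = r0 (kp P n) := by
  unfold rr r0 kp
  by_cases h : P.ty n = Ty.K
  · simp [h]
  · simp [h]

theorem lbl_lt (P : Pcs V M) (v : V) : (lbl P v).val < r0 (kp P (P.pc v)) := by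
  unfold lbl r0 kp
  by_cases h : P.ty (P.pc v) = Ty.K
  · simp only [h, if_true, decide_true]
    exact (P.th v).2
  · simp only [h, if_false, decide_false]
    split_ifs <;> simp

variable [Fintype V]

theorem mem_cel (P : Pcs V M) (n : Fin M) (β : Bool) (v : V) :
    v ∈ cel P n β ↔ v ∉ P.V0 ∧ P.pc v = n ∧ (P.ty n ≠ Ty.K → P.sd v = β) := by
  unfold cel pV sV
  by_cases h : P.ty n = Ty.K
  · rw [if_pos h, mem_filter]
    simp [h]
  · rw [if_neg h, mem_filter]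
    simp [h]

/-- valid cells -/
def vc (P : Pcs V M) (A : Cl M) : Prop := P.ty A.1 = Ty.K → A.2 = false

theorem clv_eq (P : Pcs V M) (A : Cl M) (v : V) : clv P v = A ↔
    P.pc v = A.1 ∧ (if P.ty (P.pc v) = Ty.K then false else P.sd v) = A.2 :=
  ⟨fun h => ⟨congrArg Prod.fst h, congrArg Prod.snd h⟩, fun h => Prod.ext h.1 h.2⟩

theorem clv_iff (P : Pcs V M) (A : Cl M) (v : V) (hA : vc P A) (hv : v ∉ P.V0) :
    clv P v = A ↔ v ∈ cel P A.1 A.2 := by
  rw [mem_cel, clv_eq]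
  constructor
  · rintro ⟨h1, h2⟩
    refine ⟨hv, h1, fun h3 => ?_⟩
    rw [h1, if_neg h3] at h2
    exact h2
  · rintro ⟨_, h1, h2⟩
    refine ⟨h1, ?_⟩
    rw [h1]
    by_cases h3 : P.ty A.1 = Ty.K
    · rw [if_pos h3, hA h3]
    · rw [if_neg h3, h2 h3]

theorem clv_vc (P : Pcs V M) (v : V) : vc P (clv P v) := by
  intro h
  unfold clv at h ⊢
  simp only at h ⊢
  rw [if_pos h]

theorem zb_eq (G : SimpleGraph V) (P : Pcs V M) (z : V) (hz : z ∈ P.V0) (A : Cl M)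
    (hA : vc P A) : zb (thin G P) P.V0 (clv P) z A = nb G z ∩ cel P A.1 A.2 := by
  ext v
  rw [mem_zb, mem_inter, mem_nb']
  constructor
  · rintro ⟨h1, h2, h3⟩
    exact ⟨h1.1, (clv_iff P A v hA h2).1 h3⟩
  · rintro ⟨h1, h2⟩
    have h3 := ((mem_cel P _ _ v).1 h2).1
    refine ⟨⟨h1, fun hb => hb.2.1 hz⟩, h3, (clv_iff P A v hA h3).2 h2⟩

theorem zb_empty (G : SimpleGraph V) (P : Pcs V M) (z : V) (A : Cl M)
    (hA : ¬ vc P A) : zb (thin G P) P.V0 (clv P) z A = ∅ := by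
  rw [eq_empty_iff_forall_notMem]
  intro v hv
  rw [mem_zb] at hv
  exact hA (hv.2.2 ▸ clv_vc P v)

theorem pb_empty (G : SimpleGraph V) (P : Pcs V M) (A B : Cl M)
    (hA : ¬ (vc P A ∧ vc P B)) : pb (thin G P) P.V0 (clv P) A B = ∅ := by
  rw [eq_empty_iff_forall_notMem]
  intro p hp
  rw [mem_pb] at hp
  obtain ⟨_, _, _, h, h'⟩ := hp
  exact hA ⟨h ▸ clv_vc P p.1, h' ▸ clv_vc P p.2⟩

theorem nb_thin_V0 (G : SimpleGraph V) (P : Pcs V M) (z : V) (hz : z ∈ P.V0) :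
    nb (thin G P) z = nb G z := by
  ext v
  rw [mem_nb', mem_nb']
  exact ⟨fun h => h.1, fun h => ⟨h, fun hb => hb.2.1 hz⟩⟩

theorem eb_card (H : SimpleGraph V) (A B : Finset V) :
    eb H A B = (univ.filter (fun p : V × V => H.Adj p.1 p.2 ∧ p.1 ∈ A ∧ p.2 ∈ B)).card := by
  unfold eb
  rw [card_eq_sum_card_fiberwise (f := fun p : V × V => p.1) (t := A)
    (fun p hp => mem_coe.2 (by
      have := mem_coe.1 hp
      rw [mem_filter] at this
      exact this.2.2.1))]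
  apply sum_congr rfl
  intro v hv
  apply card_bij (fun w _ => (v, w))
  · intro w hw
    rw [mem_inter, mem_nb'] at hw
    rw [mem_filter, mem_filter]
    exact ⟨⟨mem_univ _, hw.1, hv, hw.2⟩, rfl⟩
  · intro w _ w' _ h
    exact (Prod.mk.injEq _ _ _ _ ▸ h).2
  · rintro ⟨a, b⟩ hp
    rw [mem_filter, mem_filter] at hp
    obtain ⟨⟨_, h1, h2, h3⟩, h4⟩ := hp
    simp only at h1 h2 h3 h4
    subst h4
    exact ⟨b, mem_inter.2 ⟨(mem_nb' _ _ _).2 h1, h3⟩, rfl⟩

theorem pb_eb (G : SimpleGraph V) (P : Pcs V M) (A B : Cl M) (hA : vc P A) (hB : vc P B) :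
    (pb (thin G P) P.V0 (clv P) A B).card = eb (thin G P) (cel P A.1 A.2) (cel P B.1 B.2) := by
  rw [eb_card]
  congr 1
  ext p
  rw [mem_pb, mem_filter]
  constructor
  · rintro ⟨h1, h2, h3, h4, h5⟩
    exact ⟨mem_univ _, h1, (clv_iff P A _ hA h2).1 h4, (clv_iff P B _ hB h3).1 h5⟩
  · rintro ⟨_, h1, h2, h3⟩
    have e2 := ((mem_cel P _ _ _).1 h2).1
    have e3 := ((mem_cel P _ _ _).1 h3).1
    exact ⟨h1, e2, e3, (clv_iff P A _ hA e2).2 h2, (clv_iff P B _ hB e3).2 h3⟩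

theorem pb_eb_lbl (G : SimpleGraph V) (P : Pcs V M) (A B : Cl M) (hA : vc P A)
    (hB : vc P B) (i j : Fin 3) :
    ((pb (thin G P) P.V0 (clv P) A B).filter (fun p => lbl P p.1 = i ∧ lbl P p.2 = j)).card =
      eb (thin G P) (clb P A.1 A.2 i) (clb P B.1 B.2 j) := by
  rw [eb_card]
  congr 1
  unfold clb
  ext p
  rw [mem_filter, mem_pb, mem_filter, mem_filter, mem_filter]
  constructor
  · rintro ⟨⟨h1, h2, h3, h4, h5⟩, h6, h7⟩
    exact ⟨mem_univ _, h1, ⟨(clv_iff P A _ hA h2).1 h4, h6⟩, (clv_iff P B _ hB h3).1 h5, h7⟩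
  · rintro ⟨_, h1, ⟨h2, h4⟩, h3, h5⟩
    have e2 := ((mem_cel P _ _ _).1 h2).1
    have e3 := ((mem_cel P _ _ _).1 h3).1
    exact ⟨⟨h1, e2, e3, (clv_iff P A _ hA e2).2 h2, (clv_iff P B _ hB e3).2 h3⟩,
      h4, h5⟩

theorem pc_of_clv (P : Pcs V M) (v : V) (A : Cl M) (h : clv P v = A) : P.pc v = A.1 := by
  rw [← h]; rfl

theorem rep_pb {K ζ ε1 e π κ : ℝ} (G : SimpleGraph V) (d : ℕ) (P : Pcs V M) (A : Pal)
    (hPD : PartD K ζ ε1 G d P) (hA : PalP A d π κ) (hn : Num e π κ d) (X Y : Cl M)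
    (hpos : 0 < K * ζ * d) (hL : K * ζ * d ≤ ((pb (thin G P) P.V0 (clv P) X Y).card : ℝ)) :
    Rep (fun p : V × V => fun T => alv P p.1 T ∧ alv P p.2 T) (rhoT A d) e
      (pb (thin G P) P.V0 (clv P) X Y) := by
  have hv : vc P X ∧ vc P Y := by
    by_contra hcon
    rw [pb_empty G P X Y hcon] at hL
    simp only [card_empty, Nat.cast_zero] at hL
    linarith
  have hpc : ∀ p ∈ pb (thin G P) P.V0 (clv P) X Y, P.pc p.1 = X.1 ∧ P.pc p.2 = Y.1 := by
    intro p hp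
    rw [mem_pb] at hp
    exact ⟨pc_of_clv P _ _ hp.2.2.2.1, pc_of_clv P _ _ hp.2.2.2.2⟩
  refine rep2 (kp P X.1) (kp P Y.1) _ (fun p => lbl P p.1) (fun p => lbl P p.2) _ _ e ?_ ?_ ?_ ?_
    (rho_wt hA hn)
  · intro p hp T
    unfold alv
    rw [(hpc p hp).1, (hpc p hp).2]
  · intro p hp
    rw [← (hpc p hp).1]
    exact lbl_lt P p.1
  · intro p hp
    rw [← (hpc p hp).2]
    exact lbl_lt P p.2
  · intro j j' hj hj'
    rw [← rr_r0] at hj hj' 
    have h1 := hPD.eP X.1 Y.1 X.2 Y.2 (by rw [← pb_eb G P X Y hv.1 hv.2]; exact hL) j j' hj hj'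
    rw [← pb_eb_lbl G P X Y hv.1 hv.2, ← pb_eb G P X Y hv.1 hv.2] at h1
    have h2 := (abs_le.1 h1).1
    rw [← rr_r0, ← rr_r0]
    calc ((pb (thin G P) P.V0 (clv P) X Y).card : ℝ) * (1 / (rr P X.1 * rr P Y.1) - 1 / 100) =
        ((pb (thin G P) P.V0 (clv P) X Y).card : ℝ) / (rr P X.1 * rr P Y.1) -
          ((pb (thin G P) P.V0 (clv P) X Y).card : ℝ) / 100 := by ring
      _ ≤ _ := by linarith

theorem rep_zb {e π κ : ℝ} (G : SimpleGraph V) (d : ℕ) (P : Pcs V M) (A : Pal)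
    (hA : PalP A d π κ) (hn : Num e π κ d) (z : V) (hz : z ∈ P.V0)
    (X : Cl M) (hX : vc P X) (hok : Okc P (nb G z) X.1 X.2) :
    Rep (alv P) (rhoT A d) e (zb (thin G P) P.V0 (clv P) z X) := by
  have hpc : ∀ v ∈ zb (thin G P) P.V0 (clv P) z X, P.pc v = X.1 := by
    intro v hv
    rw [mem_zb] at hv
    exact pc_of_clv P _ _ hv.2.2
  refine rep1 (kp P X.1) _ (fun v => lbl P v) _ _ e ?_ ?_ ?_ (rho_wt hA hn)
  · intro v hv T
    unfold alv
    rw [hpc v hv]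
  · intro v hv
    rw [← hpc v hv]
    exact lbl_lt P v
  · intro j hj
    rw [← rr_r0] at hj ⊢
    have h1 := hok j hj
    have h2 := (abs_le.1 h1).1
    have h3 : (zb (thin G P) P.V0 (clv P) z X).filter (fun v => lbl P v = j) =
        nb G z ∩ clb P X.1 X.2 j := by
      rw [zb_eq G P z hz X hX]
      unfold clb
      ext v
      rw [mem_filter, mem_inter, mem_inter, mem_filter]
      tauto
    rw [h3, zb_eq G P z hz X hX]
    calc ((nb G z ∩ cel P X.1 X.2).card : ℝ) * (1 / rr P X.1 - 1 / 100) =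
        ((nb G z ∩ cel P X.1 X.2).card : ℝ) / rr P X.1 -
          ((nb G z ∩ cel P X.1 X.2).card : ℝ) / 100 := by ring
      _ ≤ _ := by linarith

/-- the bad cells of `z` -/
noncomputable def Bdz (ε1 : ℝ) (G : SimpleGraph V) (P : Pcs V M) (z : V) : Finset (Cl M) :=
  univ.filter (fun X => ¬ (1 / ε1 ≤ ((nb G z ∩ cel P X.1 X.2).card : ℝ) ∧
    Okc P (nb G z) X.1 X.2))

theorem bd_le (ε1 : ℝ) (G : SimpleGraph V) (P : Pcs V M) (z : V) (hz : z ∈ P.V0) :
    (bd (thin G P) P.V0 (clv P) (Bdz ε1 G P) z : ℝ) ≤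
      ∑ n, ∑ β, (if 1 / ε1 ≤ ((nb G z ∩ cel P n β).card : ℝ) ∧ Okc P (nb G z) n β then (0 : ℝ)
        else ((nb G z ∩ cel P n β).card : ℝ)) := by
  unfold bd
  rw [card_eq_sum_card_fiberwise (f := clv P) (t := Bdz ε1 G P z) (fun v hv => by
    have := mem_coe.1 hv
    rw [mem_filter] at this
    exact mem_coe.2 this.2.2)]
  push_cast
  rw [← sum_Cl (fun X : Cl M => if 1 / ε1 ≤ ((nb G z ∩ cel P X.1 X.2).card : ℝ) ∧
    Okc P (nb G z) X.1 X.2 then (0 : ℝ) else ((nb G z ∩ cel P X.1 X.2).card : ℝ))]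
  have h1 : ∀ X ∈ Bdz ε1 G P z, ((((nb (thin G P) z).filter (fun v => v ∉ P.V0 ∧
      clv P v ∈ Bdz ε1 G P z)).filter (fun v => clv P v = X)).card : ℝ) ≤
      (if 1 / ε1 ≤ ((nb G z ∩ cel P X.1 X.2).card : ℝ) ∧ Okc P (nb G z) X.1 X.2 then (0 : ℝ)
        else ((nb G z ∩ cel P X.1 X.2).card : ℝ)) := by
    intro X hX
    have hX2 := (mem_filter.1 hX).2
    rw [if_neg hX2]
    have e1 : ((nb (thin G P) z).filter (fun v => v ∉ P.V0 ∧
      clv P v ∈ Bdz ε1 G P z)).filter (fun v => clv P v = X) ⊆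
        zb (thin G P) P.V0 (clv P) z X := by
      intro v hv
      rw [mem_filter, mem_filter, mem_nb'] at hv
      rw [mem_zb]
      exact ⟨hv.1.1, hv.1.2.1, hv.2⟩
    by_cases hvc : vc P X
    · rw [← zb_eq G P z hz X hvc]
      exact_mod_cast card_le_card e1
    · rw [zb_empty G P z X hvc] at e1
      have := card_le_card e1
      rw [card_empty] at this
      have h0 : (((nb (thin G P) z).filter (fun v => v ∉ P.V0 ∧
        clv P v ∈ Bdz ε1 G P z)).filter (fun v => clv P v = X)).card = 0 := by omega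
      rw [h0]
      simp
  refine (sum_le_sum h1).trans ?_
  apply sum_le_sum_of_subset_of_nonneg (subset_univ _)
  intro X _ _
  split_ifs
  · exact le_rfl
  · exact Nat.cast_nonneg _

theorem bd_small {K ζ ε1 : ℝ} (G : SimpleGraph V) (d : ℕ) (P : Pcs V M)
    (hPD : PartD K ζ ε1 G d P) (h1 : 1 / ε1 ≤ ζ ^ 2 * d) (z : V) (hz : z ∈ P.V0) :
    (bd (thin G P) P.V0 (clv P) (Bdz ε1 G P) z : ℝ) ≤ 2 * M * (ζ ^ 2 * d) := by
  refine (bd_le ε1 G P z hz).trans ?_
  have h2 : ∀ n β, (if 1 / ε1 ≤ ((nb G z ∩ cel P n β).card : ℝ) ∧ Okc P (nb G z) n β then (0 : ℝ)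
        else ((nb G z ∩ cel P n β).card : ℝ)) ≤ ζ ^ 2 * d := by
    intro n β
    have h0 : 0 ≤ ζ ^ 2 * d := mul_nonneg (sq_nonneg _) (Nat.cast_nonneg _)
    split_ifs with h
    · exact h0
    · by_contra hcon
      push Not at hcon
      exact h ⟨h1.trans hcon.le, hPD.big z hz n β hcon.le⟩
  calc _ ≤ ∑ n : Fin M, ∑ β : Bool, ζ ^ 2 * (d : ℝ) :=
        sum_le_sum (fun n _ => sum_le_sum (fun β _ => h2 n β))
    _ = 2 * M * (ζ ^ 2 * d) := by
        simp only [sum_const, card_univ, Fintype.card_bool, Fintype.card_fin, nsmul_eq_mul]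
        push_cast
        ring

theorem bd_sum {K ζ ε1 : ℝ} (G : SimpleGraph V) (d : ℕ) (P : Pcs V M)
    (hPD : PartD K ζ ε1 G d P) :
    ∑ z ∈ P.V0, (bd (thin G P) P.V0 (clv P) (Bdz ε1 G P) z : ℝ) ≤ K / ε1 * P.V0.card :=
  (sum_le_sum (fun z hz => bd_le ε1 G P z hz)).trans hPD.bad

/-- a large cell -/
theorem big_cell {C g ρ ζ θ : ℝ} (G : SimpleGraph V) (d : ℕ) (P : Pcs V M)
    (hD : DecP C g ρ ζ θ G d P) (hθ : θ ≤ 1 / 2) (z : V) (hz : z ∈ P.V0) :
    ∃ X, (d : ℝ) / (4 * M) ≤ ((zb (thin G P) P.V0 (clv P) z X).card : ℝ) := by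
  have hM : 0 < M := lt_of_le_of_lt (Nat.zero_le _) (P.pc z).2
  have hM' : (0 : ℝ) < M := by exact_mod_cast hM
  by_contra hcon
  push Not at hcon
  have h1 : (nb (thin G P) z).card ≤ P.V0.card + ∑ X, (zb (thin G P) P.V0 (clv P) z X).card := by
    have e1 : nb (thin G P) z ⊆ P.V0 ∪ (nb (thin G P) z).filter (fun v => v ∉ P.V0) := by
      intro v hv
      rw [mem_union, mem_filter]
      by_cases h : v ∈ P.V0
      · exact Or.inl h
      · exact Or.inr ⟨hv, h⟩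
    refine (card_le_card e1).trans ((card_union_le _ _).trans ?_)
    apply Nat.add_le_add_left
    rw [card_eq_sum_card_fiberwise (f := clv P) (t := univ) (fun _ _ => mem_coe.2 (mem_univ _))]
    apply sum_le_sum
    intro X _
    apply card_le_card
    intro v hv
    rw [mem_filter, mem_filter, mem_nb'] at hv
    rw [mem_zb]
    exact ⟨hv.1.1, hv.1.2, hv.2⟩
  rw [nb_thin_V0 G P z hz, hD.reg] at h1
  have h2 : (d : ℝ) ≤ P.V0.card + ∑ X, ((zb (thin G P) P.V0 (clv P) z X).card : ℝ) := by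
    exact_mod_cast h1
  have hne : (univ : Finset (Cl M)).Nonempty := ⟨(P.pc z, false), mem_univ _⟩
  have h3 : ∑ X, ((zb (thin G P) P.V0 (clv P) z X).card : ℝ) <
      ∑ _X : Cl M, (d : ℝ) / (4 * M) :=
    sum_lt_sum_of_nonempty hne (fun X _ => hcon X)
  rw [sum_const, card_univ, card_Cl, nsmul_eq_mul] at h3
  have h4 : ((M * 2 : ℕ) : ℝ) * ((d : ℝ) / (4 * M)) = d / 2 := by
    push_cast
    field_simp
    ring
  rw [h4] at h3
  have h5 := hD.V0c
  have h6 : θ * d ≤ 1 / 2 * d := mul_le_mul_of_nonneg_right hθ (Nat.cast_nonneg _)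
  linarith

theorem tyin {C g ρ K ζ θ ε1 e π κ : ℝ} (G : SimpleGraph V) (d : ℕ) (P : Pcs V M) (A : Pal)
    (hD : DecP C g ρ ζ θ G d P) (hPD : PartD K ζ ε1 G d P) (hA : PalP A d π κ)
    (hn : Num e π κ d) (hθ : θ ≤ 1 / 2) (hR : 1280 ≤ e * (1 / ε1)) (hL : 16 ≤ e * (K * ζ * d))
    (hζ : 32 * (M : ℝ) ^ 2 * ζ ^ 2 ≤ e) (hε : 1 / ε1 ≤ ζ ^ 2 * d) :
    ∃ st, TyIn (thin G P) P.V0 (clv P) (alv P) (rhoT A d) (fun _ => mt A d) (Bdz ε1 G P) st e
      (1 / ε1) (K * ζ * d) := by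
  have hd0 : (0 : ℝ) ≤ d := Nat.cast_nonneg d
  have hpos : 0 < K * ζ * d := by
    by_contra hcon
    push Not at hcon
    have := mul_nonpos_of_nonneg_of_nonpos hn.e0.le hcon
    linarith
  have he1 : e ≤ 1 := by
    have := hn.ec
    norm_num at this
    linarith
  have hst : ∀ z : V, ∃ X, z ∈ P.V0 →
      (d : ℝ) / (4 * M) ≤ ((zb (thin G P) P.V0 (clv P) z X).card : ℝ) := by
    intro z
    by_cases hz : z ∈ P.V0
    · obtain ⟨X, hX⟩ := big_cell G d P hD hθ z hz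
      exact ⟨X, fun _ => hX⟩
    · exact ⟨(P.pc z, false), fun h => absurd h hz⟩
  choose st hst using hst
  have hMz : ∀ z : V, (1 : ℝ) ≤ M := by
    intro z
    have hM : 0 < M := lt_of_le_of_lt (Nat.zero_le _) (P.pc z).2
    exact_mod_cast hM
  have hbig : ∀ z : V, ζ ^ 2 * d ≤ (d : ℝ) / (4 * M) := by
    intro z
    have hM := hMz z
    have h1 : ζ ^ 2 ≤ 1 / (4 * M) := by
      rw [le_div_iff₀ (by linarith)]
      nlinarith [sq_nonneg ζ, mul_nonneg (sq_nonneg ζ) (by linarith : (0 : ℝ) ≤ M),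
        mul_nonneg (sq_nonneg ζ) (mul_nonneg (by linarith : (0 : ℝ) ≤ (M : ℝ))
          (by linarith : (0 : ℝ) ≤ (M : ℝ) - 1))]
    calc ζ ^ 2 * d ≤ 1 / (4 * M) * d := mul_le_mul_of_nonneg_right h1 hd0
      _ = d / (4 * M) := by ring
  have hvs : ∀ z ∈ P.V0, vc P (st z) ∧ 1 / ε1 ≤ ((nb G z ∩ cel P (st z).1 (st z).2).card : ℝ) ∧
      Okc P (nb G z) (st z).1 (st z).2 := by
    intro z hz
    have h1 := hst z hz
    have h2 := hbig z
    have hdd : (0 : ℝ) < d := by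
      rcases eq_or_lt_of_le hd0 with h | h
      · rw [← h] at hpos; simp at hpos
      · exact h
    have hv : vc P (st z) := by
      by_contra hcon
      rw [zb_empty G P z _ hcon] at h1
      simp only [card_empty, Nat.cast_zero] at h1
      have hM := hMz z
      have : 0 < (d : ℝ) / (4 * M) := by positivity
      linarith
    rw [zb_eq G P z hz _ hv] at h1
    exact ⟨hv, (hε.trans h2).trans h1, hPD.big z hz _ _ (h2.trans h1)⟩
  refine ⟨st, ?_⟩
  refine ⟨hn.e0, he1, rho_ge hA hn, rho_sum hA hn, ?_, ?_, ?_, ?_, ?_, ?_, ?_, ?_, ?_, ?_, ?_, ?_⟩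
  · intro z hz
    rw [nb_thin_V0 G P z hz, hD.reg]
    exact mt_sum hA (card_C0_2 hA hn)
  · intro z hz T
    rw [nb_thin_V0 G P z hz, hD.reg]
    have hd : (0 : ℝ) < d := lt_of_lt_of_le (by norm_num) hn.d1
    unfold rhoT
    rw [div_mul_cancel₀ _ hd.ne', sub_self, abs_zero]
    norm_num
  · intro v w _ _ _
    refine ⟨.A3, ?_, ?_⟩ <;> rfl
  · intro v _
    exact ⟨.A3, rfl⟩
  · intro X Y hXY
    exact rep_pb G d P A hPD hA hn X Y hpos hXY
  · intro z hz X hX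
    unfold Bdz at hX
    rw [mem_filter] at hX
    have hX2 : 1 / ε1 ≤ ((nb G z ∩ cel P X.1 X.2).card : ℝ) ∧ Okc P (nb G z) X.1 X.2 := by
      by_contra hcon
      exact hX ⟨mem_univ _, hcon⟩
    by_cases hv : vc P X
    · right
      refine ⟨rep_zb G d P A hA hn z hz X hv hX2.2, ?_⟩
      rw [zb_eq G P z hz X hv]
      exact hX2.1
    · left
      exact zb_empty G P z X hv
  · intro z hz hcon
    unfold Bdz at hcon
    rw [mem_filter] at hcon
    exact hcon.2 (hvs z hz).2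
  · intro z hz
    exact rep_zb G d P A hA hn z hz _ (hvs z hz).1 (hvs z hz).2.2
  · intro z hz
    rw [zb_eq G P z hz _ (hvs z hz).1]
    exact (hvs z hz).2.1
  · intro z hz
    have h1 := bd_small G d P hPD hε z hz
    have h2 := hst z hz
    have hM := hMz z
    have h3 : 4 * (2 * M * (ζ ^ 2 * d)) ≤ e * ((d : ℝ) / (4 * M)) := by
      have : 4 * (2 * M * (ζ ^ 2 * d)) = (32 * (M : ℝ) ^ 2 * ζ ^ 2) * ((d : ℝ) / (4 * M)) := by
        field_simp
        ring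
      rw [this]
      exact mul_le_mul_of_nonneg_right hζ (by positivity)
    have h4 := mul_le_mul_of_nonneg_left h2 hn.e0.le
    linarith
  · have hc : (Fintype.card Tt : ℝ) = 8 := by
      have : Fintype.card Tt = 8 := rfl
      rw [this]; norm_num
    rw [hc]
    linarith
  · have hc : (Fintype.card Tt : ℝ) = 8 := by
      have : Fintype.card Tt = 8 := rfl
      rw [this]; norm_num
    rw [hc]
    linarith

end cells

end Pool.Agent.Work.MP_db9399_dp.helper82
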