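import Pool.Agent.Work.MP_db9399_da.Defs
import Pool.Agent.Work.MP_db9399_dp.Interface

/-! # PRE: the eight types of edges, representation (helper82) -/

set_option autoImplicit false

namespace Pool.Agent.Work.MP_db9399_dp.helper82

open Finset Classical
open Pool.Agent.Work.MP_db9399_all (nb)

universe u

/-- types of edges -/
inductive Tt where
  | QF | QT | PF | PT | A0 | A1 | A2 | A3
deriving DecidableEq

instance : Fintype Tt := ⟨{.QF, .QT, .PF, .PT, .A0, .A1, .A2, .A3}, by intro x; cases x <;> decide⟩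

instance : Nonempty Tt := ⟨.A3⟩

/-- groups of colours -/
inductive Gr where
  | QF | QT | P2 | A0 | A1 | A2 | A3
deriving DecidableEq

instance : Fintype Gr := ⟨{.QF, .QT, .P2, .A0, .A1, .A2, .A3}, by intro x; cases x <;> decide⟩

/-- the group of a type -/
def Tt.gr : Tt → Gr
  | .QF => .QF
  | .QT => .QT
  | .PF => .P2
  | .PT => .P2
  | .A0 => .A0
  | .A1 => .A1
  | .A2 => .A2
  | .A3 => .A3

/-- `k = true`: vertices of pieces of type K in the third `i`; `k = false`: vertices of the other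
pieces, `i = 1` in the part `true`. -/
def al0 (k : Bool) (i : Fin 3) : Tt → Bool
  | .QF => if k then decide (i ≠ 0) else decide (i = 1)
  | .QT => if k then decide (i ≠ 1) else decide (i ≠ 1)
  | .PF => if k then decide (i ≠ 2) else decide (i ≠ 1)
  | .PT => if k then decide (i ≠ 2) else decide (i = 1)
  | .A0 => if k then decide (i ≠ 0) else true
  | .A1 => if k then decide (i ≠ 1) else true
  | .A2 => if k then decide (i ≠ 2) else true
  | .A3 => true

/-- number of labels -/
def r0 (k : Bool) : ℕ := if k then 3 else 2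

/-- a set of types from eight booleans -/
def mk8 (a b c d e f g h : Bool) : Tt → Bool
  | .QF => a
  | .QT => b
  | .PF => c
  | .PT => d
  | .A0 => e
  | .A1 => f
  | .A2 => g
  | .A3 => h

/-- `3000` times an upper bound of the sum of the densities of the set `u` of types -/
def wt (u : Tt → Bool) : ℕ :=
  (if u .A0 then 1000 else if u .QF then 60 else 0) +
  (if u .A1 then 1000 else if u .QT then 60 else 0) +
  (if u .A2 then 1000 else (if u .PF then 60 else 0) + (if u .PT then 60 else 0)) +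
  (if u .A3 then 1000 else 0)

/-- some type of `u` is allowed for the label `i` -/
def ok1 (k : Bool) (i : Fin 3) (u : Tt → Bool) : Bool :=
  (u .QF && al0 k i .QF) || (u .QT && al0 k i .QT) || (u .PF && al0 k i .PF) ||
  (u .PT && al0 k i .PT) || (u .A0 && al0 k i .A0) || (u .A1 && al0 k i .A1) ||
  (u .A2 && al0 k i .A2) || (u .A3 && al0 k i .A3)

/-- some type of `u` is allowed for the labels `i` and `j` -/
def ok2 (k k' : Bool) (i j : Fin 3) (u : Tt → Bool) : Bool :=
  (u .QF && (al0 k i .QF && al0 k' j .QF)) || (u .QT && (al0 k i .QT && al0 k' j .QT)) ||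
  (u .PF && (al0 k i .PF && al0 k' j .PF)) || (u .PT && (al0 k i .PT && al0 k' j .PT)) ||
  (u .A0 && (al0 k i .A0 && al0 k' j .A0)) || (u .A1 && (al0 k i .A1 && al0 k' j .A1)) ||
  (u .A2 && (al0 k i .A2 && al0 k' j .A2)) || (u .A3 && (al0 k i .A3 && al0 k' j .A3))

/-- is the label `i` used -/
def va (k : Bool) (i : Fin 3) : Bool := decide (i.val < r0 k)

def all1 (k : Bool) (u : Tt → Bool) : Bool :=
  (!va k 0 || ok1 k 0 u) && (!va k 1 || ok1 k 1 u) && (!va k 2 || ok1 k 2 u)

def n1 (k : Bool) (u : Tt → Bool) : ℕ :=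
  (if va k 0 && ok1 k 0 u then 1 else 0) + (if va k 1 && ok1 k 1 u then 1 else 0) +
    (if va k 2 && ok1 k 2 u then 1 else 0)

def n2r (k k' : Bool) (i : Fin 3) (u : Tt → Bool) : ℕ :=
  (if va k i && va k' 0 && ok2 k k' i 0 u then 1 else 0) +
  (if va k i && va k' 1 && ok2 k k' i 1 u then 1 else 0) +
  (if va k i && va k' 2 && ok2 k k' i 2 u then 1 else 0)

def n2 (k k' : Bool) (u : Tt → Bool) : ℕ := n2r k k' 0 u + n2r k k' 1 u + n2r k k' 2 u

def any8 (u : Tt → Bool) : Bool :=
  u .QF || u .QT || u .PF || u .PT || u .A0 || u .A1 || u .A2 || u .A3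

set_option maxRecDepth 100000 in
theorem dec1 : ∀ k a b c d e f g h : Bool, any8 (mk8 a b c d e f g h) = true →
    n1 k (mk8 a b c d e f g h) = r0 k ∨
    wt (mk8 a b c d e f g h) + 3 ≤ n1 k (mk8 a b c d e f g h) * (3000 / r0 k - 30) := by
  decide +kernel

set_option maxRecDepth 100000 in
theorem dec2 : ∀ k k' a b c d e f g h : Bool, any8 (mk8 a b c d e f g h) = true →
    n2 k k' (mk8 a b c d e f g h) = r0 k * r0 k' ∨
    wt (mk8 a b c d e f g h) + 3 ≤
      n2 k k' (mk8 a b c d e f g h) * (3000 / (r0 k * r0 k') - 31) := by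
  decide +kernel

theorem mk8_eta (u : Tt → Bool) :
    mk8 (u .QF) (u .QT) (u .PF) (u .PT) (u .A0) (u .A1) (u .A2) (u .A3) = u := by
  funext T
  cases T <;> rfl

theorem dec1' (k : Bool) (u : Tt → Bool) (h : ∃ T, u T = true) :
    n1 k u = r0 k ∨ wt u + 3 ≤ n1 k u * (3000 / r0 k - 30) := by
  have h1 : any8 u = true := by
    obtain ⟨T, hT⟩ := h
    unfold any8
    cases T <;> simp [hT]
  have := dec1 k (u .QF) (u .QT) (u .PF) (u .PT) (u .A0) (u .A1) (u .A2) (u .A3)
  rw [mk8_eta] at this
  exact this h1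

theorem dec2' (k k' : Bool) (u : Tt → Bool) (h : ∃ T, u T = true) :
    n2 k k' u = r0 k * r0 k' ∨ wt u + 3 ≤ n2 k k' u * (3000 / (r0 k * r0 k') - 31) := by
  have h1 : any8 u = true := by
    obtain ⟨T, hT⟩ := h
    unfold any8
    cases T <;> simp [hT]
  have := dec2 k k' (u .QF) (u .QT) (u .PF) (u .PT) (u .A0) (u .A1) (u .A2) (u .A3)
  rw [mk8_eta] at this
  exact this h1

end Pool.Agent.Work.MP_db9399_dp.helper82
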